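import Pool.Agent.H630Z.Defs
set_option autoImplicit false

open Polynomial

namespace Pool.Agent.H630Z


theorem a1_pos {n r : ℕ} {θ : ℝ} {ψ : Fin n → ℝ} (h : Adm r θ ψ) (i : Fin n) :
    0 < Real.sin (θ + ψ i) := by
  have h1 := h.pos
  have h2 := h.nonneg i
  have h3 := h.lt' i
  exact Real.sin_pos_of_pos_of_lt_pi (by linarith) (by linarith)

/-- Proof: `0 ≤ ψ i < π - θ < π`, so `sin (ψ i) ≥ 0` (`> 0` if `ψ i > 0`), `sin (θ + ψ i) > 0`.
With `a = θ + ψ`, `sin ψ = sin a cos θ - cos a sin θ`, so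
`sin² a - 2 sin ψ sin a cos θ + sin² ψ = (sin a cos θ - sin ψ)² + sin² a sin² θ = sin² θ`. -/
theorem xx_nonneg {n r : ℕ} {θ : ℝ} {ψ : Fin n → ℝ} (h : Adm r θ ψ) (i : Fin n) :
    0 ≤ XX θ ψ i ∧ (0 < ψ i → 0 < XX θ ψ i) ∧
      gg (XX θ ψ i) θ = (Real.sin θ / Real.sin (θ + ψ i)) ^ 2 := by
  have h1 := h.pos
  have h2 := h.nonneg i
  have h3 := h.lt' i
  have hS := a1_pos h i
  refine ⟨?_, fun h4 => ?_, ?_⟩
  · exact div_nonneg (Real.sin_nonneg_of_nonneg_of_le_pi h2 (by linarith)) hS.le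
  · exact div_pos (Real.sin_pos_of_pos_of_lt_pi h4 (by linarith)) hS
  · have hs : Real.sin (ψ i) = Real.sin (θ + ψ i) * Real.cos θ - Real.cos (θ + ψ i) * Real.sin θ := by
      rw [← Real.sin_sub]
      congr 1
      ring
    have e1 := Real.sin_sq_add_cos_sq (θ + ψ i)
    have e2 := Real.sin_sq_add_cos_sq θ
    unfold gg XX xx
    rw [hs]
    generalize Real.sin (θ + ψ i) = S at *
    generalize Real.cos (θ + ψ i) = K at *
    have hS' : S ≠ 0 := hS.ne'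
    field_simp
    linear_combination (-(S ^ 2)) * e2 + Real.sin θ ^ 2 * e1

theorem a1_factor {n r : ℕ} {θ : ℝ} {ψ : Fin n → ℝ} (h : Adm r θ ψ) (i : Fin n) :
    1 - ((XX θ ψ i : ℝ) : ℂ) * ee θ =
      Complex.exp (-(ψ i : ℂ) * Complex.I) * ((Real.sin θ / Real.sin (θ + ψ i) : ℝ) : ℂ) := by
  have hS := a1_pos h i
  have hS' : ((Real.sin (θ + ψ i) : ℝ) : ℂ) ≠ 0 := by
    exact_mod_cast hS.ne'
  have hadd : ((Real.sin (θ + ψ i) : ℝ) : ℂ) = Complex.sin θ * Complex.cos (ψ i) +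
      Complex.cos θ * Complex.sin (ψ i) := by
    rw [Complex.ofReal_sin, Complex.ofReal_add, Complex.sin_add]
  have e1 : Complex.exp (-(ψ i : ℂ) * Complex.I) =
      Complex.cos (ψ i) - Complex.sin (ψ i) * Complex.I := by
    rw [Complex.exp_mul_I, Complex.cos_neg, Complex.sin_neg]
    ring
  have e2 : ee θ = Complex.cos θ + Complex.sin θ * Complex.I := by
    unfold ee
    rw [Complex.exp_mul_I]
  rw [e1, e2]
  unfold XX xx
  rw [Complex.ofReal_div, Complex.ofReal_div]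
  rw [div_mul_eq_mul_div, mul_div_assoc', eq_div_iff hS', sub_mul, div_mul_cancel₀ _ hS', one_mul,
    hadd, Complex.ofReal_sin, Complex.ofReal_sin]
  ring

/-- Proof: `1 - x e^{iθ} = e^{-iψ} sin θ / sin (θ + ψ)` for `x = sin ψ / sin (θ + ψ)` (expand), so the
product is `e^{-i ∑ ψ} ∏ sin θ / sin (θ + ψ i) = e^{-i (π - r θ)} G = - e^{i r θ} G`, where
`G = GG (XX θ ψ) θ = ∏ √(gg ..) = ∏ sin θ / sin (θ + ψ i)` by the third part of `xx_nonneg`. -/
theorem root_circle {n r : ℕ} {θ : ℝ} {ψ : Fin n → ℝ} (h : Adm r θ ψ) :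
    (pp (XX θ ψ) r (GG (XX θ ψ) θ)).eval (ee θ) = 0 := by
  have hG : GG (XX θ ψ) θ = ∏ i, Real.sin θ / Real.sin (θ + ψ i) := by
    unfold GG
    refine Finset.prod_congr rfl (fun i _ => ?_)
    rw [(xx_nonneg h i).2.2, Real.sqrt_sq]
    exact div_nonneg (Real.sin_nonneg_of_nonneg_of_le_pi h.pos.le h.lt.le) (a1_pos h i).le
  have hprod : ∏ i, (1 - ((XX θ ψ i : ℝ) : ℂ) * ee θ) =
      Complex.exp (-((∑ i, ψ i : ℝ) : ℂ) * Complex.I) * ((GG (XX θ ψ) θ : ℝ) : ℂ) := by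
    rw [hG, Finset.prod_congr rfl (fun i _ => a1_factor h i), Finset.prod_mul_distrib,
      ← Complex.exp_sum, Complex.ofReal_prod]
    congr 2
    rw [Complex.ofReal_sum, ← Finset.sum_mul, ← Finset.sum_neg_distrib]
  unfold pp
  rw [eval_add, eval_prod, eval_mul, eval_C, eval_pow, eval_X]
  simp only [eval_sub, eval_one, eval_mul, eval_C, eval_X]
  rw [hprod, h.sum]
  have e3 : Complex.exp (-((Real.pi - r * θ : ℝ) : ℂ) * Complex.I) = - ee θ ^ r := by
    unfold ee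
    rw [← Complex.exp_nat_mul]
    have : (-((Real.pi - r * θ : ℝ) : ℂ) * Complex.I) =
        -(Real.pi * Complex.I) + (r : ℂ) * (θ * Complex.I) := by
      push_cast
      ring
    rw [this, Complex.exp_add, Complex.exp_neg, Complex.exp_pi_mul_I]
    norm_num
  rw [e3]
  ring

end Pool.Agent.H630Z
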