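import Pool.Agent.H630Z.Defs
set_option autoImplicit false

open Polynomial
 

namespace Pool.Agent.H630Z


theorem a2_norm_ee (φ : ℝ) : ‖ee φ‖ = 1 := by
  unfold ee; exact Complex.norm_exp_ofReal_mul_I φ

theorem a2_ee_eq (φ : ℝ) : ee φ = (Real.cos φ : ℂ) + (Real.sin φ : ℂ) * Complex.I := by
  unfold ee
  rw [Complex.exp_mul_I, Complex.ofReal_cos, Complex.ofReal_sin]

theorem a2_gg_eq (x φ : ℝ) : gg x φ = ‖(1 : ℂ) - (x : ℂ) * ee φ‖ ^ 2 := by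
  rw [← Complex.normSq_eq_norm_sq, a2_ee_eq, Complex.normSq_apply]
  simp only [Complex.sub_re, Complex.one_re, Complex.mul_re, Complex.add_re, Complex.ofReal_re,
    Complex.ofReal_im, Complex.I_re, Complex.I_im, Complex.sub_im, Complex.one_im, Complex.mul_im,
    Complex.add_im]
  unfold gg
  have := Real.sin_sq_add_cos_sq φ
  nlinarith [this]

theorem a2_gg_nonneg (x φ : ℝ) : 0 ≤ gg x φ := by
  rw [a2_gg_eq]; positivity

theorem a2_sqrt_gg (x φ : ℝ) : Real.sqrt (gg x φ) = ‖(1 : ℂ) - (x : ℂ) * ee φ‖ := by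
  rw [a2_gg_eq, Real.sqrt_sq (norm_nonneg _)]

theorem a2_GG_nonneg {n : ℕ} (x : Fin n → ℝ) (φ : ℝ) : 0 ≤ GG x φ :=
  Finset.prod_nonneg fun _ _ => Real.sqrt_nonneg _

theorem a2_GG_sq {n : ℕ} (x : Fin n → ℝ) (φ : ℝ) : GG x φ ^ 2 = ∏ i, gg (x i) φ := by
  unfold GG
  rw [← Finset.prod_pow]
  exact Finset.prod_congr rfl fun i _ => Real.sq_sqrt (a2_gg_nonneg _ _)

theorem a2_pp_lower {n : ℕ} (x : Fin n → ℝ) (r : ℕ) (θ φ : ℝ) :
    |GG x φ - GG x θ| ≤ ‖(pp x r (GG x θ)).eval (ee φ)‖ := by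
  have h1 : (pp x r (GG x θ)).eval (ee φ) =
      (∏ i, ((1 : ℂ) - (x i : ℂ) * ee φ)) + (GG x θ : ℂ) * ee φ ^ r := by
    unfold pp
    rw [eval_add, eval_prod]
    simp
  have h2 : ‖(∏ i, ((1 : ℂ) - (x i : ℂ) * ee φ))‖ = GG x φ := by
    rw [norm_prod]
    unfold GG
    exact Finset.prod_congr rfl fun i _ => (a2_sqrt_gg _ _).symm
  have h3 : ‖(GG x θ : ℂ) * ee φ ^ r‖ = GG x θ := by
    rw [norm_mul, norm_pow, a2_norm_ee, one_pow, mul_one, Complex.norm_real, Real.norm_eq_abs,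
      abs_of_nonneg (a2_GG_nonneg _ _)]
  rw [h1]
  have h4 := abs_norm_sub_norm_le (∏ i, ((1 : ℂ) - (x i : ℂ) * ee φ)) (-((GG x θ : ℂ) * ee φ ^ r))
  rw [norm_neg, h2, h3, sub_neg_eq_add] at h4
  exact h4

theorem a2_q2_norm (θ φ : ℝ) : ‖(q2 θ).eval (ee φ)‖ = 2 * |Real.cos φ - Real.cos θ| := by
  have h1 : (q2 θ).eval (ee φ) = ee φ * ((2 * (Real.cos φ - Real.cos θ) : ℝ) : ℂ) := by
    unfold q2
    simp only [eval_add, eval_sub, eval_one, eval_mul, eval_C, eval_X, eval_pow]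
    have hs : (Real.sin φ : ℂ) ^ 2 + (Real.cos φ : ℂ) ^ 2 = 1 := by
      exact_mod_cast Real.sin_sq_add_cos_sq φ
    have hI : Complex.I ^ 2 = -1 := Complex.I_sq
    rw [a2_ee_eq]
    simp only [Complex.ofReal_mul, Complex.ofReal_sub, Complex.ofReal_ofNat]
    linear_combination (-1 : ℂ) * hs + (Real.sin φ : ℂ) ^ 2 * hI
  rw [h1, norm_mul, a2_norm_ee, one_mul, Complex.norm_real, Real.norm_eq_abs, abs_mul, abs_two]

theorem a2_prod_lower {n : ℕ} (x : Fin n → ℝ) (hx : ∀ i, 0 ≤ x i) (θ φ : ℝ) (i : Fin n) :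
    2 * |Real.cos φ - Real.cos θ| * (x i * ∏ j ∈ Finset.univ.erase i, gg (x j) θ) ≤
      |∏ j, gg (x j) φ - ∏ j, gg (x j) θ| := by
  have e1 : ∏ j, gg (x j) φ = gg (x i) φ * ∏ j ∈ Finset.univ.erase i, gg (x j) φ :=
    (Finset.mul_prod_erase _ _ (Finset.mem_univ i)).symm
  have e2 : ∏ j, gg (x j) θ = gg (x i) θ * ∏ j ∈ Finset.univ.erase i, gg (x j) θ :=
    (Finset.mul_prod_erase _ _ (Finset.mem_univ i)).symm
  have d : gg (x i) φ - gg (x i) θ = 2 * x i * (Real.cos θ - Real.cos φ) := by unfold gg; ring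
  have hg : 0 ≤ gg (x i) φ := a2_gg_nonneg _ _
  rcases le_total (Real.cos φ) (Real.cos θ) with h | h
  · have hm : ∏ j ∈ Finset.univ.erase i, gg (x j) θ ≤ ∏ j ∈ Finset.univ.erase i, gg (x j) φ := by
      refine Finset.prod_le_prod (fun j _ => a2_gg_nonneg _ _) fun j _ => ?_
      unfold gg
      nlinarith [hx j]
    rw [abs_of_nonpos (by linarith : Real.cos φ - Real.cos θ ≤ 0)]
    refine le_trans ?_ (le_abs_self _)
    rw [e1, e2]
    have h5 := mul_le_mul_of_nonneg_left hm hg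
    have h6 : (gg (x i) φ - gg (x i) θ) * ∏ j ∈ Finset.univ.erase i, gg (x j) θ =
        2 * x i * (Real.cos θ - Real.cos φ) * ∏ j ∈ Finset.univ.erase i, gg (x j) θ := by rw [d]
    linarith
  · have hm : ∏ j ∈ Finset.univ.erase i, gg (x j) φ ≤ ∏ j ∈ Finset.univ.erase i, gg (x j) θ := by
      refine Finset.prod_le_prod (fun j _ => a2_gg_nonneg _ _) fun j _ => ?_
      unfold gg
      nlinarith [hx j]
    rw [abs_of_nonneg (by linarith : 0 ≤ Real.cos φ - Real.cos θ)]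
    refine le_trans ?_ (neg_le_abs _)
    rw [e1, e2]
    have h5 := mul_le_mul_of_nonneg_left hm hg
    have h6 : (gg (x i) φ - gg (x i) θ) * ∏ j ∈ Finset.univ.erase i, gg (x j) θ =
        2 * x i * (Real.cos θ - Real.cos φ) * ∏ j ∈ Finset.univ.erase i, gg (x j) θ := by rw [d]
    linarith

theorem a2_cont_ee : Continuous ee := by
  unfold ee
  fun_prop

theorem a2_cont_GG {n : ℕ} (x : Fin n → ℝ) : Continuous (GG x) := by
  unfold GG
  refine continuous_finsetProd _ fun i _ => ?_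
  refine Real.continuous_sqrt.comp ?_
  unfold gg
  fun_prop

theorem a2_low_ne {n : ℕ} (x : Fin n → ℝ) (hx : ∀ i, 0 ≤ x i) (r : ℕ) {θ : ℝ}
    (F : ℂ[X]) (hF : pp x r (GG x θ) = q2 θ * F) (i : Fin n) (φ : ℝ)
    (hne : Real.cos φ ≠ Real.cos θ) :
    x i * ∏ j ∈ Finset.univ.erase i, gg (x j) θ ≤ ‖F.eval (ee φ)‖ * (GG x φ + GG x θ) := by
  have h1 := a2_pp_lower x r θ φ
  rw [hF, eval_mul, norm_mul, a2_q2_norm] at h1
  have h2 := a2_prod_lower x hx θ φ i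
  have hpos : 0 < 2 * |Real.cos φ - Real.cos θ| := by
    have : 0 < |Real.cos φ - Real.cos θ| := abs_pos.mpr (sub_ne_zero.mpr hne)
    linarith
  have hG : 0 ≤ GG x φ + GG x θ := add_nonneg (a2_GG_nonneg _ _) (a2_GG_nonneg _ _)
  have h3 : |∏ j, gg (x j) φ - ∏ j, gg (x j) θ| = |GG x φ - GG x θ| * (GG x φ + GG x θ) := by
    rw [← a2_GG_sq, ← a2_GG_sq]
    rw [show GG x φ ^ 2 - GG x θ ^ 2 = (GG x φ - GG x θ) * (GG x φ + GG x θ) by ring, abs_mul,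
      abs_of_nonneg hG]
  rw [h3] at h2
  have h4 := mul_le_mul_of_nonneg_right h1 hG
  have h5 := h2.trans h4
  rw [mul_assoc (2 * |Real.cos φ - Real.cos θ|)] at h5
  exact le_of_mul_le_mul_left h5 hpos

/-- Lower bound on the unit circle.  Proof: put `G φ = ∏ √(gg (x j) φ) = ∏ ‖1 - x j e^{iφ}‖`, `ζ = G θ`.
(1) `‖pp(e^{iφ})‖ ≥ |G φ - ζ|` (reverse triangle inequality, `‖e^{i r φ}‖ = 1`).
(2) `‖q2 θ (e^{iφ})‖ = 2 |cos φ - cos θ|` since `1 - 2 cos θ u + u² = u (u⁻¹ + u - 2 cos θ)` for `u = e^{iφ}`.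
(3) `|G φ - G θ| (G φ + G θ) = |∏ gg (x j) φ - ∏ gg (x j) θ| ≥ 2 |cos φ - cos θ| x_i ∏_{j ≠ i} gg (x j) θ`:
`gg (x j) φ - gg (x j) θ = 2 x j (cos θ - cos φ)` has the same sign for all `j`; if `cos φ ≤ cos θ` then
`gg (x j) φ ≥ gg (x j) θ ≥ 0` for all `j`, so `∏ gg φ - ∏ gg θ ≥ (gg (x i) φ - gg (x i) θ) ∏_{j≠i} gg (x j) θ`;
if `cos φ ≥ cos θ` then `gg (x j) φ ≤ gg (x j) θ`, `∏ gg φ ≤ gg (x i) φ ∏_{j≠i} gg (x j) θ`, the same bound.
(4) For `cos φ ≠ cos θ` divide by `2 |cos φ - cos θ|`.  For `cos φ = cos θ` use continuity of both sides in `φ` and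
that `{φ | cos φ ≠ cos θ}` is dense (here `sin φ ≠ 0` as `|cos θ| < 1`; or: closure argument, the set
`{φ | cos φ = cos θ}` is `{± θ + 2 π k}`). -/
theorem low {n : ℕ} (x : Fin n → ℝ) (hx : ∀ i, 0 ≤ x i) (r : ℕ) {θ : ℝ} (h0 : 0 < θ)
    (h1 : θ < Real.pi) (F : ℂ[X]) (hF : pp x r (GG x θ) = q2 θ * F) (i : Fin n) (φ : ℝ) :
    x i * ∏ j ∈ Finset.univ.erase i, gg (x j) θ ≤ ‖F.eval (ee φ)‖ * (GG x φ + GG x θ) := by
  by_cases hc : Real.cos φ = Real.cos θ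
  · have hs : Real.sin φ ≠ 0 := by
      intro h
      have e1 := Real.sin_sq_add_cos_sq φ
      have e2 := Real.sin_sq_add_cos_sq θ
      have e3 := Real.sin_pos_of_pos_of_lt_pi h0 h1
      rw [h, hc] at e1
      nlinarith
    have hev : ∀ᶠ ψ in nhdsWithin φ {φ}ᶜ, Real.cos ψ ≠ Real.cos θ :=
      (Real.hasDerivAt_cos φ).eventually_ne (neg_ne_zero.mpr hs)
    have hcont : Continuous fun ψ => ‖F.eval (ee ψ)‖ * (GG x ψ + GG x θ) := by
      refine Continuous.mul ?_ ?_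
      · exact (F.continuous.comp a2_cont_ee).norm
      · exact (a2_cont_GG x).add continuous_const
    have htend : Filter.Tendsto (fun ψ => ‖F.eval (ee ψ)‖ * (GG x ψ + GG x θ))
        (nhdsWithin φ {φ}ᶜ) (nhds (‖F.eval (ee φ)‖ * (GG x φ + GG x θ))) :=
      (hcont.tendsto φ).mono_left nhdsWithin_le_nhds
    exact ge_of_tendsto htend (hev.mono fun ψ hψ => a2_low_ne x hx r F hF i ψ hψ)
  · exact a2_low_ne x hx r F hF i φ hc

end Pool.Agent.H630Z
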