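import Pool.Agent.H630Z.A1
set_option autoImplicit false

open Polynomial

namespace Pool.Agent.H630Z


theorem a3_conj {n r : ℕ} (x : Fin n → ℝ) (ζ : ℝ) (s : ℂ) (h : (pp x r ζ).eval s = 0) :
    (pp x r ζ).eval (starRingEnd ℂ s) = 0 := by
  have h1 : pp x r ζ = ((∏ i, (1 - C (x i) * X) + C ζ * X ^ r : ℝ[X])).map (algebraMap ℝ ℂ) := by
    unfold pp
    simp [Polynomial.map_prod]
  have h2 : ∀ z : ℂ, (pp x r ζ).eval z =
      aeval z ((∏ i, (1 - C (x i) * X) + C ζ * X ^ r : ℝ[X])) := by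
    intro z
    rw [h1, Polynomial.eval_map_algebraMap]
  rw [h2, Polynomial.aeval_conj, ← h2, h, map_zero]

theorem a3_zero {n r : ℕ} (x : Fin n → ℝ) (ζ : ℝ) :
    (pp x r ζ).eval 0 = (if r = 0 then 1 + (ζ : ℂ) else 1) := by
  unfold pp
  by_cases hr : r = 0
  · subst hr
    simp [Polynomial.eval_prod]
  · rw [if_neg hr]
    simp [Polynomial.eval_prod, hr]

theorem a3_deg {n r : ℕ} (x : Fin n → ℝ) (ζ : ℝ) : (pp x r ζ).natDegree ≤ max n r := by
  unfold pp
  refine (Polynomial.natDegree_add_le _ _).trans (max_le_max ?_ ?_)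
  · refine (Polynomial.natDegree_prod_le _ _).trans ?_
    have h1 : ∀ i ∈ (Finset.univ : Finset (Fin n)),
        (1 - C ((x i : ℂ)) * X : ℂ[X]).natDegree ≤ 1 := by
      intro i _
      refine (Polynomial.natDegree_sub_le _ _).trans ?_
      rw [Polynomial.natDegree_one]
      refine max_le zero_le_one ?_
      simpa using Polynomial.natDegree_C_mul_X_pow_le (x i : ℂ) 1
    refine (Finset.sum_le_sum h1).trans ?_
    simp
  · exact Polynomial.natDegree_C_mul_X_pow_le _ _

theorem a3_q2 (θ : ℝ) : q2 θ = (X - C (ee θ)) * (X - C (starRingEnd ℂ (ee θ))) := by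
  have h1 : ee θ + starRingEnd ℂ (ee θ) = ((2 * Real.cos θ : ℝ) : ℂ) := by
    rw [Complex.add_conj]
    unfold ee
    rw [Complex.exp_ofReal_mul_I_re]
  have h2 : ee θ * starRingEnd ℂ (ee θ) = 1 := by
    rw [Complex.mul_conj, Complex.normSq_eq_norm_sq]
    unfold ee
    rw [Complex.norm_exp_ofReal_mul_I]
    simp
  have h3 : (X - C (ee θ)) * (X - C (starRingEnd ℂ (ee θ))) =
      C (ee θ * starRingEnd ℂ (ee θ)) - C (ee θ + starRingEnd ℂ (ee θ)) * X + X ^ 2 := by
    rw [C_mul, C_add]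
    ring
  rw [h3, h1, h2]
  unfold q2
  rw [map_one]

/-- Proof: `pp` has real coefficients, so `e^{-iθ}` is a root as well; the two are different (`sin θ > 0`),
so `q2 θ = (X - e^{iθ}) (X - e^{-iθ})` divides `pp`.  `pp ≠ 0` since its value at `0` is `1` (`r ≥ 1`) or `1 + ζ`, `ζ ≥ 0`
(`r = 0`); `natDegree pp ≤ max n r`, `natDegree (q2 θ) = 2`.  Value at `0`: `q2 θ` has value `1`. -/
theorem exists_F {n r : ℕ} {θ : ℝ} {ψ : Fin n → ℝ} (h : Adm r θ ψ) :
    ∃ F : ℂ[X], pp (XX θ ψ) r (GG (XX θ ψ) θ) = q2 θ * F ∧ F.natDegree + 2 ≤ max n r ∧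
      F.eval 0 = (if r = 0 then 1 + (GG (XX θ ψ) θ : ℂ) else 1) := by
  set x := XX θ ψ with hx
  set ζ := GG x θ with hζ
  have hζ0 : 0 ≤ ζ := by
    rw [hζ]
    unfold GG
    exact Finset.prod_nonneg fun i _ => Real.sqrt_nonneg _
  have ha : (pp x r ζ).eval (ee θ) = 0 := root_circle h
  have hb := a3_conj x ζ _ ha
  have hab : starRingEnd ℂ (ee θ) ≠ ee θ := by
    intro hc
    have h1 := congrArg Complex.im hc
    rw [Complex.conj_im] at h1
    unfold ee at h1
    rw [Complex.exp_ofReal_mul_I_im] at h1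
    have h2 := Real.sin_pos_of_pos_of_lt_pi h.pos h.lt
    linarith
  obtain ⟨Q, hQ⟩ := Polynomial.dvd_iff_isRoot.2 ha
  have hQb : Q.eval (starRingEnd ℂ (ee θ)) = 0 := by
    rw [hQ, Polynomial.eval_mul, Polynomial.eval_sub, Polynomial.eval_X, Polynomial.eval_C] at hb
    rcases mul_eq_zero.1 hb with h1 | h1
    · exact absurd (sub_eq_zero.1 h1) hab
    · exact h1
  obtain ⟨F, hF⟩ := Polynomial.dvd_iff_isRoot.2 hQb
  have hp : pp x r ζ = q2 θ * F := by
    rw [hQ, hF, a3_q2, mul_assoc]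
  have hp0 : pp x r ζ ≠ 0 := by
    intro h0
    have h1 := a3_zero (r := r) x ζ
    rw [h0, Polynomial.eval_zero] at h1
    split_ifs at h1 with hr
    · have h2 := congrArg Complex.re h1
      simp at h2
      linarith
    · exact zero_ne_one h1
  have hF0 : F ≠ 0 := by
    rintro rfl
    exact hp0 (by rw [hp, mul_zero])
  refine ⟨F, hp, ?_, ?_⟩
  · have h1 := a3_deg (r := r) x ζ
    have h2 : (q2 θ).natDegree = 2 := by
      rw [a3_q2, Polynomial.natDegree_mul (Polynomial.X_sub_C_ne_zero _)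
        (Polynomial.X_sub_C_ne_zero _), Polynomial.natDegree_X_sub_C,
        Polynomial.natDegree_X_sub_C]
    have h3 : q2 θ ≠ 0 := by
      intro h0
      rw [h0, Polynomial.natDegree_zero] at h2
      omega
    rw [hp, Polynomial.natDegree_mul h3 hF0, h2] at h1
    omega
  · have h1 := a3_zero (r := r) x ζ
    rw [hp, Polynomial.eval_mul] at h1
    have h2 : (q2 θ).eval 0 = 1 := by
      unfold q2
      simp
    rw [h2, one_mul] at h1
    exact h1

end Pool.Agent.H630Z
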