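import Pool.Agent.H630Z.A1
import Pool.Agent.H630Z.A2
import Pool.Agent.H630Z.A3
set_option autoImplicit false

open Polynomial

namespace Pool.Agent.H630Z



/-- Convexity of the admissible parameters. -/
theorem a4_adm {n r : ℕ} {θ0 θ1 : ℝ} {ψ0 ψ1 : Fin n → ℝ} (h0 : Adm r θ0 ψ0) (h1 : Adm r θ1 ψ1)
    {t : ℝ} (ht0 : 0 ≤ t) (ht1 : t ≤ 1) :
    Adm r ((1 - t) * θ0 + t * θ1) (fun i => (1 - t) * ψ0 i + t * ψ1 i) := by
  have key : ∀ {a b : ℝ}, 0 < a → 0 < b → 0 < (1 - t) * a + t * b := by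
    intro a b ha hb
    rcases eq_or_lt_of_le ht0 with h | h
    · rw [← h]; simpa using ha
    · have h2 : 0 ≤ (1 - t) * a := mul_nonneg (by linarith) ha.le
      have h3 : 0 < t * b := mul_pos h hb
      linarith
  refine ⟨?_, ?_, ?_, ?_, ?_, ?_⟩
  · exact key h0.pos h1.pos
  · have := key (sub_pos.2 h0.lt) (sub_pos.2 h1.lt)
    nlinarith
  · intro i
    exact add_nonneg (mul_nonneg (by linarith) (h0.nonneg i)) (mul_nonneg ht0 (h1.nonneg i))
  · intro i
    have := key (sub_pos.2 (h0.lt' i)) (sub_pos.2 (h1.lt' i))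
    nlinarith
  · rw [Finset.sum_add_distrib, ← Finset.mul_sum, ← Finset.mul_sum, h0.sum, h1.sum]
    ring
  · have := key h0.sum_pos h1.sum_pos
    nlinarith

/-- The coefficients of the quotient. -/
noncomputable def a4_f (c : ℂ) (p : ℕ → ℂ) : ℕ → ℂ
  | 0 => p 0
  | 1 => p 1 + c * a4_f c p 0
  | (j + 2) => p (j + 2) + c * a4_f c p (j + 1) - a4_f c p j

theorem a4_coeff {θ : ℝ} {P F : ℂ[X]} (h : P = q2 θ * F) (j : ℕ) :
    F.coeff j = a4_f ((2 * Real.cos θ : ℝ) : ℂ) P.coeff j ∧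
      F.coeff (j + 1) = a4_f ((2 * Real.cos θ : ℝ) : ℂ) P.coeff (j + 1) := by
  have e : P = F - C ((2 * Real.cos θ : ℝ) : ℂ) * (X * F) + X * (X * F) := by
    rw [h, q2]; ring
  have c0 : P.coeff 0 = F.coeff 0 := by
    rw [e]
    simp only [coeff_add, coeff_sub, coeff_C_mul, coeff_X_mul_zero]
    ring
  have c1 : P.coeff 1 = F.coeff 1 - ((2 * Real.cos θ : ℝ) : ℂ) * F.coeff 0 := by
    rw [e]
    simp only [coeff_add, coeff_sub, coeff_C_mul]
    have d1 : (X * F).coeff 1 = F.coeff 0 := coeff_X_mul F 0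
    have d2 : (X * (X * F)).coeff 1 = 0 := by
      have := coeff_X_mul (X * F) 0
      rw [coeff_X_mul_zero] at this
      exact this
    rw [d1, d2]
    ring
  have c2 : ∀ j, P.coeff (j + 2) = F.coeff (j + 2) - ((2 * Real.cos θ : ℝ) : ℂ) * F.coeff (j + 1) +
      F.coeff j := by
    intro j
    rw [e]
    simp only [coeff_add, coeff_sub, coeff_C_mul]
    rw [show j + 2 = (j + 1) + 1 from rfl, coeff_X_mul, coeff_X_mul, coeff_X_mul]
  induction j with
  | zero =>
    have h0 : F.coeff 0 = a4_f ((2 * Real.cos θ : ℝ) : ℂ) P.coeff 0 := by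
      rw [a4_f, c0]
    refine ⟨h0, ?_⟩
    rw [zero_add, a4_f, ← h0, c1]
    ring
  | succ j ih =>
    refine ⟨ih.2, ?_⟩
    rw [show j + 1 + 1 = j + 2 from rfl, a4_f, ← ih.1, ← ih.2, c2]
    ring

theorem a4_f_cont {c : ℝ → ℂ} {p : ℝ → ℕ → ℂ} (hc : Continuous c)
    (hp : ∀ j, Continuous (fun t => p t j)) (j : ℕ) :
    Continuous (fun t => a4_f (c t) (p t) j) ∧ Continuous (fun t => a4_f (c t) (p t) (j + 1)) := by
  induction j with
  | zero =>
    have h0 : Continuous (fun t => a4_f (c t) (p t) 0) := by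
      simp only [a4_f]; exact hp 0
    refine ⟨h0, ?_⟩
    simp only [a4_f]
    exact (hp 1).add (hc.mul (hp 0))
  | succ j ih =>
    refine ⟨ih.2, ?_⟩
    have : (fun t => a4_f (c t) (p t) (j + 1 + 1)) =
        fun t => p t (j + 2) + c t * a4_f (c t) (p t) (j + 1) - a4_f (c t) (p t) j := by
      funext t
      rw [show j + 1 + 1 = j + 2 from rfl, a4_f]
    rw [this]
    exact ((hp _).add (hc.mul ih.2)).sub ih.1

theorem a4_prod_cont {ι : Type*} (S : Finset ι) (P : ι → ℝ → ℂ[X])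
    (hP : ∀ i j, Continuous (fun t => (P i t).coeff j)) (j : ℕ) :
    Continuous (fun t => (∏ i ∈ S, P i t).coeff j) := by
  classical
  induction S using Finset.induction_on generalizing j with
  | empty => simp only [Finset.prod_empty]; exact continuous_const
  | insert a S ha ih =>
    simp only [Finset.prod_insert ha, coeff_mul]
    exact continuous_finsetSum _ (fun x _ => (hP a x.1).mul (ih x.2))

theorem a4_pp_cont {n r : ℕ} {x : Fin n → ℝ → ℝ} {ζ : ℝ → ℝ} (hx : ∀ i, Continuous (x i))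
    (hζ : Continuous ζ) (j : ℕ) :
    Continuous (fun t => (pp (fun i => x i t) r (ζ t)).coeff j) := by
  unfold pp
  simp only [coeff_add, coeff_C_mul]
  refine Continuous.add ?_ ?_
  · apply a4_prod_cont
    intro i j
    simp only [coeff_sub, coeff_C_mul]
    exact continuous_const.sub ((Complex.continuous_ofReal.comp (hx i)).mul continuous_const)
  · exact (Complex.continuous_ofReal.comp hζ).mul continuous_const

theorem a4_xx_cont {n r : ℕ} {θ : ℝ → ℝ} {ψ : ℝ → Fin n → ℝ} (hθ : Continuous θ)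
    (hψ : ∀ i, Continuous (fun t => ψ t i)) (h : ∀ t, Adm r (θ t) (ψ t)) (i : Fin n) :
    Continuous (fun t => XX (θ t) (ψ t) i) := by
  unfold XX xx
  refine Continuous.div (Real.continuous_sin.comp (hψ i))
    (Real.continuous_sin.comp (hθ.add (hψ i))) ?_
  intro t
  have h1 := (h t).pos
  have h2 := (h t).nonneg i
  have h3 := (h t).lt' i
  exact (Real.sin_pos_of_pos_of_lt_pi (by linarith) (by linarith)).ne'

theorem a4_GG_cont {n : ℕ} {x : Fin n → ℝ → ℝ} {θ : ℝ → ℝ} (hx : ∀ i, Continuous (x i))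
    (hθ : Continuous θ) : Continuous (fun t => GG (fun i => x i t) (θ t)) := by
  unfold GG gg
  refine continuous_finsetProd _ (fun i _ => ?_)
  refine Real.continuous_sqrt.comp ?_
  exact ((continuous_const.sub ((continuous_const.mul (hx i)).mul (Real.continuous_cos.comp hθ))).add
    ((hx i).pow 2))

theorem a4_mult (s : ℂ) (M : Multiset ℂ) : (∀ z ∈ M, 1 < ‖z‖) → ‖s‖ ≤ 1 →
    (1 - ‖s‖) ^ (Multiset.card M) * ‖(M.map (fun z => 0 - z)).prod‖ ≤ ‖(M.map (fun z => s - z)).prod‖ := by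
  induction M using Multiset.induction_on with
  | empty => intro _ _; simp
  | cons a M ih =>
    intro h hs
    have ih' := ih (fun z hz => h z (Multiset.mem_cons_of_mem hz)) hs
    have ha := h a (Multiset.mem_cons_self a M)
    simp only [Multiset.map_cons, Multiset.prod_cons, norm_mul, Multiset.card_cons, pow_succ]
    have h1 : (1 - ‖s‖) * ‖0 - a‖ ≤ ‖s - a‖ := by
      have h2 : ‖a‖ - ‖s‖ ≤ ‖s - a‖ := by
        rw [norm_sub_rev]
        exact norm_sub_norm_le a s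
      rw [zero_sub, norm_neg]
      nlinarith [norm_nonneg s]
    have h3 : 0 ≤ (1 - ‖s‖) * ‖0 - a‖ := mul_nonneg (by linarith) (norm_nonneg _)
    have h4 : 0 ≤ (1 - ‖s‖) ^ (Multiset.card M) * ‖(M.map (fun z => 0 - z)).prod‖ :=
      mul_nonneg (pow_nonneg (by linarith) _) (norm_nonneg _)
    calc (1 - ‖s‖) ^ (Multiset.card M) * (1 - ‖s‖) * (‖0 - a‖ * ‖(M.map (fun z => 0 - z)).prod‖)
        = ((1 - ‖s‖) * ‖0 - a‖) * ((1 - ‖s‖) ^ (Multiset.card M) * ‖(M.map (fun z => 0 - z)).prod‖) := by ring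
      _ ≤ ‖s - a‖ * ‖(M.map (fun z => s - z)).prod‖ := mul_le_mul h1 ih' h4 (norm_nonneg _)

theorem a4_lower (F : ℂ[X]) (D : ℕ) (hD : F.natDegree ≤ D) (hF : ∀ s, F.eval s = 0 → 1 < ‖s‖) (s : ℂ)
    (hs : ‖s‖ ≤ 1) : (1 - ‖s‖) ^ D * ‖F.eval 0‖ ≤ ‖F.eval s‖ := by
  by_cases hF0 : F = 0
  · have := hF 0 (by rw [hF0]; simp)
    simp at this
    exact absurd this (by norm_num)
  have hsp := IsAlgClosed.splits F
  have e1 : ∀ z, F.eval z = F.leadingCoeff * (F.roots.map (fun a => z - a)).prod := by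
    intro z
    conv_lhs => rw [hsp.eq_prod_roots]
    rw [eval_mul, eval_C, eval_multiset_prod, Multiset.map_map]
    simp
  have hcard : Multiset.card F.roots = F.natDegree := hsp.natDegree_eq_card_roots.symm
  rw [e1 s, e1 0, norm_mul, norm_mul]
  have h1 := a4_mult s F.roots (fun z hz => hF z ((mem_roots hF0).1 hz)) hs
  have h2 : (1 - ‖s‖) ^ D ≤ (1 - ‖s‖) ^ (Multiset.card F.roots) :=
    pow_le_pow_of_le_one (by linarith) (by linarith [norm_nonneg s]) (by rw [hcard]; exact hD)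
  calc (1 - ‖s‖) ^ D * (‖F.leadingCoeff‖ * ‖(F.roots.map (fun a => 0 - a)).prod‖)
      ≤ (1 - ‖s‖) ^ (Multiset.card F.roots) * (‖F.leadingCoeff‖ * ‖(F.roots.map (fun a => 0 - a)).prod‖) :=
        mul_le_mul_of_nonneg_right h2 (mul_nonneg (norm_nonneg _) (norm_nonneg _))
    _ = ‖F.leadingCoeff‖ * ((1 - ‖s‖) ^ (Multiset.card F.roots) * ‖(F.roots.map (fun a => 0 - a)).prod‖) := by ring
    _ ≤ ‖F.leadingCoeff‖ * ‖(F.roots.map (fun a => s - a)).prod‖ :=
        mul_le_mul_of_nonneg_left h1 (norm_nonneg _)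

/-- No zeros on the unit circle. -/
theorem a4_circle {n r : ℕ} {θ : ℝ} {ψ : Fin n → ℝ} (h : Adm r θ ψ) (F : ℂ[X])
    (hF : pp (XX θ ψ) r (GG (XX θ ψ) θ) = q2 θ * F) (s : ℂ) (hs : ‖s‖ = 1) : F.eval s ≠ 0 := by
  intro h0
  obtain ⟨i, hi⟩ : ∃ i, 0 < ψ i := by
    by_contra hcon
    push Not at hcon
    have h1 : ∑ i, ψ i ≤ 0 := Finset.sum_nonpos (fun i _ => hcon i)
    rw [h.sum] at h1
    linarith [h.sum_pos]
  have hse : s = ee (Complex.arg s) := by
    have := Complex.norm_mul_exp_arg_mul_I s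
    rw [hs, Complex.ofReal_one, one_mul] at this
    rw [ee]
    exact this.symm
  have hl := low (XX θ ψ) (fun i => (xx_nonneg h i).1) r h.pos h.lt F hF i (Complex.arg s)
  rw [← hse, h0, norm_zero, zero_mul] at hl
  have h2 : 0 < XX θ ψ i * ∏ j ∈ Finset.univ.erase i, gg (XX θ ψ j) θ := by
    refine mul_pos ((xx_nonneg h i).2.1 hi) (Finset.prod_pos (fun j _ => ?_))
    rw [(xx_nonneg h j).2.2]
    have h3 : 0 < Real.sin θ := Real.sin_pos_of_pos_of_lt_pi h.pos h.lt
    have h4 : 0 < Real.sin (θ + ψ j) :=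
      Real.sin_pos_of_pos_of_lt_pi (by linarith [h.pos, h.nonneg j]) (by linarith [h.lt' j])
    exact pow_pos (div_pos h3 h4) 2
  linarith


/-- The family statement. -/
theorem a4_family {n r : ℕ} {θ : ℝ → ℝ} {ψ : ℝ → Fin n → ℝ} (hθ : Continuous θ)
    (hψ : ∀ i, Continuous (fun t => ψ t i)) (h : ∀ t, Adm r (θ t) (ψ t))
    (hg : Good r (θ 0) (ψ 0)) : Good r (θ 1) (ψ 1) := by
  set D : ℕ := max n r with hD
  set p : ℝ → ℕ → ℂ := fun t j => (pp (XX (θ t) (ψ t)) r (GG (XX (θ t) (ψ t)) (θ t))).coeff j with hp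
  set f : ℝ → ℕ → ℂ := fun t j => a4_f ((2 * Real.cos (θ t) : ℝ) : ℂ) (p t) j with hf
  obtain ⟨Φ, hΦ⟩ : ∃ Φ : ℝ → ℂ → ℂ, ∀ t s, Φ t s = ∑ j ∈ Finset.range D, f t j * s ^ j :=
    ⟨fun t s => ∑ j ∈ Finset.range D, f t j * s ^ j, fun _ _ => rfl⟩
  have hxx : ∀ i, Continuous (fun t => XX (θ t) (ψ t) i) := a4_xx_cont hθ hψ h
  have hpc : ∀ j, Continuous (fun t => p t j) := by
    intro j
    exact a4_pp_cont (x := fun i t => XX (θ t) (ψ t) i) hxx (a4_GG_cont hxx hθ) j
  have hfc : ∀ j, Continuous (fun t => f t j) := by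
    intro j
    refine (a4_f_cont ?_ hpc j).1
    exact Complex.continuous_ofReal.comp (continuous_const.mul (Real.continuous_cos.comp hθ))
  have hΦc : Continuous (fun z : ℝ × ℂ => Φ z.1 z.2) := by
    simp only [hΦ]
    refine continuous_finsetSum _ (fun j _ => ?_)
    exact ((hfc j).comp continuous_fst).mul (continuous_snd.pow j)
  -- evaluation of any quotient
  have hev : ∀ t (F : ℂ[X]), pp (XX (θ t) (ψ t)) r (GG (XX (θ t) (ψ t)) (θ t)) = q2 (θ t) * F →
      F.natDegree + 1 ≤ D ∧ (∀ s, F.eval s = Φ t s) ∧ 1 ≤ ‖F.eval 0‖ := by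
    intro t F hF
    obtain ⟨F', hF', hdeg, hz⟩ := exists_F (h t)
    have hco : ∀ G : ℂ[X], pp (XX (θ t) (ψ t)) r (GG (XX (θ t) (ψ t)) (θ t)) = q2 (θ t) * G →
        ∀ j, G.coeff j = f t j := fun G hG j => (a4_coeff hG j).1
    have hFF : F = F' := by
      ext j
      rw [hco F hF, hco F' hF']
    rw [hFF]
    have hd : F'.natDegree < D := by omega
    refine ⟨hd, ?_, ?_⟩
    · intro s
      rw [eval_eq_sum_range' hd, hΦ]
      exact Finset.sum_congr rfl (fun j _ => by rw [hco F' hF'])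
    · rw [hz]
      split_ifs with hr
      · have hG : 0 ≤ GG (XX (θ t) (ψ t)) (θ t) := Finset.prod_nonneg (fun i _ => Real.sqrt_nonneg _)
        rw [← Complex.ofReal_one, ← Complex.ofReal_add, Complex.norm_real, Real.norm_eq_abs,
          abs_of_nonneg (by linarith)]
        linarith
      · simp
  -- the set
  set T : Set ℝ := {t | ∀ s : ℂ, ‖s‖ ≤ 1 → (1 - ‖s‖) ^ D ≤ ‖Φ t s‖} with hT
  have hGT : ∀ t, (∀ s : ℂ, ‖s‖ ≤ 1 → Φ t s ≠ 0) → t ∈ T := by
    intro t hne
    obtain ⟨F, hF, _, _⟩ := exists_F (h t)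
    obtain ⟨h1, h2, h3⟩ := hev t F hF
    intro s hs
    have h4 := a4_lower F D (by omega) (fun z hz => by
      by_contra hcon
      exact hne z (not_lt.1 hcon) (by rw [← h2]; exact hz)) s hs
    rw [h2 s] at h4
    refine le_trans ?_ h4
    have h5 : 0 ≤ (1 - ‖s‖) ^ D := pow_nonneg (by linarith) _
    nlinarith
  have hTG : ∀ t ∈ T, ∀ s : ℂ, ‖s‖ ≤ 1 → Φ t s ≠ 0 := by
    intro t ht s hs
    obtain ⟨F, hF, _, _⟩ := exists_F (h t)
    obtain ⟨h1, h2, h3⟩ := hev t F hF
    rcases eq_or_lt_of_le hs with hs1 | hs1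
    · rw [← h2]
      exact a4_circle (h t) F hF s hs1
    · intro h0
      have := ht s hs
      rw [h0, norm_zero] at this
      have h5 : 0 < (1 - ‖s‖) ^ D := pow_pos (by linarith) _
      linarith
  have hΦs : ∀ s, Continuous (fun t => Φ t s) := by
    intro s
    simp only [hΦ]
    exact continuous_finsetSum _ (fun j _ => (hfc j).mul continuous_const)
  have hclosed : IsClosed T := by
    have hTi : T = ⋂ s : ℂ, ⋂ (_ : ‖s‖ ≤ 1), {t : ℝ | (1 - ‖s‖) ^ D ≤ ‖Φ t s‖} := by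
      ext t
      simp only [Set.mem_iInter]
      exact Iff.rfl
    rw [hTi]
    refine isClosed_iInter (fun s => isClosed_iInter (fun _ => ?_))
    have hc1 : Continuous (fun _ : ℝ => (1 - ‖s‖) ^ D) := continuous_const
    exact isClosed_le hc1 (hΦs s).norm
  have hopen : IsOpen T := by
    rw [isOpen_iff_eventually]
    intro t ht
    have hne := hTG t ht
    have hev2 : ∀ᶠ t' in nhds t, ∀ s ∈ Metric.closedBall (0 : ℂ) 1, Φ t' s ≠ 0 := by
      apply (isCompact_closedBall (0 : ℂ) 1).eventually_forall_of_forall_eventually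
      intro s hs
      have hs' : ‖s‖ ≤ 1 := by simpa using hs
      exact (hΦc.continuousAt (x := (t, s))).eventually_ne (hne s hs')
    filter_upwards [hev2] with t' ht'
    exact hGT t' (fun s hs => ht' s (by simpa using hs))
  have h0T : (0 : ℝ) ∈ T := by
    apply hGT
    intro s hs h0
    obtain ⟨F, hF, _, _⟩ := exists_F (h 0)
    obtain ⟨h1, h2, h3⟩ := hev 0 F hF
    have := hg F hF s (by rw [h2]; exact h0)
    linarith
  have huniv : T = Set.univ := IsClopen.eq_univ ⟨hclosed, hopen⟩ ⟨0, h0T⟩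
  have h1T : (1 : ℝ) ∈ T := by rw [huniv]; exact Set.mem_univ _
  intro F hF s hs
  by_contra hcon
  obtain ⟨_, h2, _⟩ := hev 1 F hF
  exact hTG 1 h1T s (not_lt.1 hcon) (by rw [← h2]; exact hs)

/-- The property is preserved along a segment of parameters. -/
theorem seg {n r : ℕ} {θ0 θ1 : ℝ} {ψ0 ψ1 : Fin n → ℝ} (h0 : Adm r θ0 ψ0) (h1 : Adm r θ1 ψ1)
    (hg : Good r θ0 ψ0) : Good r θ1 ψ1 := by
  set q : ℝ → ℝ := fun t => max 0 (min 1 t) with hq
  have hqc : Continuous q := continuous_const.max (continuous_const.min continuous_id)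
  have hq0 : q 0 = 0 := by simp [hq]
  have hq1 : q 1 = 1 := by simp [hq]
  have hql : ∀ t, 0 ≤ q t := fun t => le_max_left _ _
  have hqu : ∀ t, q t ≤ 1 := fun t => max_le zero_le_one (min_le_left _ _)
  have := a4_family (r := r) (θ := fun t => (1 - q t) * θ0 + q t * θ1)
    (ψ := fun t i => (1 - q t) * ψ0 i + q t * ψ1 i)
    (((continuous_const.sub hqc).mul continuous_const).add (hqc.mul continuous_const))
    (fun i => ((continuous_const.sub hqc).mul continuous_const).add (hqc.mul continuous_const))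
    (fun t => a4_adm h0 h1 (hql t) (hqu t))
    (by
      simp only [hq0, sub_zero, one_mul, zero_mul, add_zero]
      exact hg)
  simp only [hq1, sub_self, zero_mul, one_mul, zero_add] at this
  exact this

end Pool.Agent.H630Z
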