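import Pool.Agent.H630Z.Defs
set_option autoImplicit false

open Polynomial

namespace Pool.Agent.H630Z

theorem a5_prod {M : Type*} [CommMonoid M] {n m : ℕ} (h : m ≤ n) (c : M) :
    ∏ i : Fin n, (if (i : ℕ) < m then c else 1) = c ^ m := by
  obtain ⟨k, rfl⟩ := Nat.exists_eq_add_of_le h
  rw [Fin.prod_univ_add]
  simp

theorem a5_sum {n m : ℕ} (h : m ≤ n) (c : ℝ) :
    ∑ i : Fin n, (if (i : ℕ) < m then c else 0) = m * c := by
  obtain ⟨k, rfl⟩ := Nat.exists_eq_add_of_le h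
  rw [Fin.sum_univ_add]
  simp

/-- the angles -/
noncomputable def a5_psi (n m : ℕ) (α : ℝ) : Fin n → ℝ := fun i => if (i : ℕ) < m then α else 0

theorem a5_pp {n m : ℕ} (h : m ≤ n) (r : ℕ) (θ α ζ : ℝ) :
    pp (XX θ (a5_psi n m α)) r ζ = (1 - C ((xx θ α : ℝ) : ℂ) * X) ^ m + C (ζ : ℂ) * X ^ r := by
  unfold pp
  rw [← a5_prod h]
  congr 1
  refine Finset.prod_congr rfl fun i _ => ?_
  unfold XX a5_psi
  split_ifs
  · rfl
  · simp [xx]

theorem a5_GG {n m : ℕ} (h : m ≤ n) (θ α : ℝ) :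
    GG (XX θ (a5_psi n m α)) θ = (Real.sqrt (gg (xx θ α) θ)) ^ m := by
  unfold GG
  rw [← a5_prod h]
  refine Finset.prod_congr rfl fun i _ => ?_
  unfold XX a5_psi
  split_ifs
  · rfl
  · simp [xx, gg]

theorem a5_q2_ne (θ : ℝ) : q2 θ ≠ 0 := by
  intro h
  have := congrArg (eval 0) h
  simp [q2] at this

/-- the quotient -/
noncomputable def a5_T (θ : ℝ) : ℕ → ℂ[X]
  | 0 => 0
  | m + 1 => C ((Real.sin ((m + 1 : ℕ) * θ) : ℝ) : ℂ) + X * a5_T θ m

theorem a5_q2T (θ : ℝ) (m : ℕ) : q2 θ * a5_T θ m =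
    C ((Real.sin ((m : ℕ) * θ) : ℝ) : ℂ) - C ((Real.sin ((m + 1 : ℕ) * θ) : ℝ) : ℂ) * X +
      C ((Real.sin θ : ℝ) : ℂ) * X ^ (m + 1) := by
  induction m with
  | zero => simp [a5_T]
  | succ m ih =>
    have e : Real.sin ((m + 1 + 1 : ℕ) * θ) =
        2 * Real.cos θ * Real.sin ((m + 1 : ℕ) * θ) - Real.sin ((m : ℕ) * θ) := by
      have e1 : ((m + 1 + 1 : ℕ) : ℝ) * θ = ((m + 1 : ℕ) : ℝ) * θ + θ := by push_cast; ring
      have e2 : ((m : ℕ) : ℝ) * θ = ((m + 1 : ℕ) : ℝ) * θ - θ := by push_cast; ring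
      rw [e1, e2, Real.sin_add, Real.sin_sub]
      ring
    have h1 : q2 θ * a5_T θ (m + 1) = q2 θ * C ((Real.sin ((m + 1 : ℕ) * θ) : ℝ) : ℂ) +
        X * (q2 θ * a5_T θ m) := by
      rw [a5_T]; ring
    rw [h1, ih, e]
    unfold q2
    simp only [Complex.ofReal_sub, Complex.ofReal_mul, C_sub, C_mul]
    ring

/-- the values -/
theorem a5_T_one (θ : ℝ) (m : ℕ) (h : ∀ i, 1 ≤ i → i ≤ m → 0 < Real.sin ((i : ℕ) * θ)) :
    0 ≤ ((a5_T θ m).eval 1).re ∧ (1 ≤ m → 0 < ((a5_T θ m).eval 1).re) := by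
  induction m with
  | zero => simp [a5_T]
  | succ m ih =>
    have h0 := (ih (fun i h1 h2 => h i h1 (by omega))).1
    have h1 := h (m + 1) (by omega) le_rfl
    have h2 : 0 < ((a5_T θ (m + 1)).eval 1).re := by
      rw [a5_T]
      simp only [eval_add, eval_C, eval_mul, eval_X, one_mul, Complex.add_re, Complex.ofReal_re]
      linarith
    exact ⟨h2.le, fun _ => h2⟩

theorem a5_parts (θ : ℝ) (s : ℂ) (m : ℕ) : (1 - s) * (a5_T θ m).eval s =
    ((Real.sin ((m : ℕ) * θ) : ℝ) : ℂ) - ∑ i ∈ Finset.range m,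
      ((Real.sin ((i + 1 : ℕ) * θ) - Real.sin ((i : ℕ) * θ) : ℝ) : ℂ) * s ^ (m - i) := by
  induction m with
  | zero => simp [a5_T]
  | succ m ih =>
    have h1 : ∑ i ∈ Finset.range (m + 1),
        ((Real.sin ((i + 1 : ℕ) * θ) - Real.sin ((i : ℕ) * θ) : ℝ) : ℂ) * s ^ (m + 1 - i) =
        s * (∑ i ∈ Finset.range m,
          ((Real.sin ((i + 1 : ℕ) * θ) - Real.sin ((i : ℕ) * θ) : ℝ) : ℂ) * s ^ (m - i)) +
        ((Real.sin ((m + 1 : ℕ) * θ) - Real.sin ((m : ℕ) * θ) : ℝ) : ℂ) * s := by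
      rw [Finset.sum_range_succ, Finset.mul_sum]
      congr 1
      · refine Finset.sum_congr rfl fun i hi => ?_
        have hi' := Finset.mem_range.1 hi
        have e : m + 1 - i = (m - i) + 1 := by omega
        rw [e, pow_succ]
        ring
      · rw [show m + 1 - m = 1 by omega, pow_one]
    have h2 : (a5_T θ (m + 1)).eval s = ((Real.sin ((m + 1 : ℕ) * θ) : ℝ) : ℂ) +
        s * (a5_T θ m).eval s := by
      rw [a5_T]
      simp only [eval_add, eval_C, eval_mul, eval_X]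
    rw [h1, h2]
    simp only [Complex.ofReal_sub] at ih ⊢
    linear_combination s * ih

theorem a5_EK (θ : ℝ) (s : ℂ) (m : ℕ) (hm : 1 ≤ m)
    (hpos : ∀ i, 1 ≤ i → i ≤ m → 0 < Real.sin ((i : ℕ) * θ))
    (hmono : ∀ i, i < m → Real.sin ((i : ℕ) * θ) < Real.sin ((i + 1 : ℕ) * θ))
    (h0 : (a5_T θ m).eval s = 0) : 1 < ‖s‖ := by
  by_contra hs
  push Not at hs
  by_cases h1 : s = 1
  · subst h1
    have := (a5_T_one θ m hpos).2 hm
    rw [h0] at this
    simp at this
  · have hre : s.re < 1 := by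
      have h2 : s.re ≤ ‖s‖ := Complex.re_le_norm s
      rcases lt_or_eq_of_le (h2.trans hs) with h3 | h3
      · exact h3
      · exfalso
        apply h1
        have h4 : ‖s‖ ^ 2 = s.re ^ 2 + s.im ^ 2 := by
          rw [Complex.sq_norm, Complex.normSq_apply]; ring
        have h5 : ‖s‖ = 1 := le_antisymm hs (by rw [← h3]; exact h2)
        rw [h5, h3] at h4
        have h6 : s.im = 0 := by
          have : s.im ^ 2 = 0 := by linarith
          exact pow_eq_zero_iff (by norm_num) |>.1 this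
        exact Complex.ext h3 h6
    have h2 := a5_parts θ s m
    rw [h0, mul_zero] at h2
    have h3 : Real.sin ((m : ℕ) * θ) = ∑ i ∈ Finset.range m,
        (Real.sin ((i + 1 : ℕ) * θ) - Real.sin ((i : ℕ) * θ)) * (s ^ (m - i)).re := by
      have h4 := congrArg Complex.re h2
      simp only [Complex.zero_re, Complex.sub_re, Complex.ofReal_re, Complex.re_sum,
        Complex.re_ofReal_mul] at h4
      linarith
    have h5 : ∑ i ∈ Finset.range m,
        (Real.sin ((i + 1 : ℕ) * θ) - Real.sin ((i : ℕ) * θ)) * (s ^ (m - i)).re <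
        ∑ i ∈ Finset.range m, (Real.sin ((i + 1 : ℕ) * θ) - Real.sin ((i : ℕ) * θ)) := by
      refine Finset.sum_lt_sum (fun i hi => ?_) ⟨m - 1, Finset.mem_range.2 (by omega), ?_⟩
      · have hi' := Finset.mem_range.1 hi
        have h6 : (s ^ (m - i)).re ≤ 1 := by
          refine (Complex.re_le_norm _).trans ?_
          rw [norm_pow]
          exact pow_le_one₀ (norm_nonneg s) hs
        have h7 := hmono i hi'
        nlinarith
      · have h7 := hmono (m - 1) (by omega)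
        rw [show m - (m - 1) = 1 by omega, pow_one]
        nlinarith
    have h8 : ∑ i ∈ Finset.range m, (Real.sin ((i + 1 : ℕ) * θ) - Real.sin ((i : ℕ) * θ)) =
        Real.sin ((m : ℕ) * θ) := by
      rw [Finset.sum_range_sub (fun i : ℕ => Real.sin ((i : ℕ) * θ))]
      simp
    linarith

theorem a5_case2 {n r : ℕ} (hr : 2 ≤ r) (hn : 1 ≤ n) :
    ∃ (θ : ℝ) (ψ : Fin n → ℝ), Adm r θ ψ ∧ Good r θ ψ := by
  have hpi := Real.pi_pos
  have hr' : (2 : ℝ) ≤ r := by exact_mod_cast hr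
  obtain ⟨θ, hθ⟩ : ∃ θ : ℝ, θ = Real.pi / (2 * r) := ⟨_, rfl⟩
  have hrθ : (r : ℝ) * θ = Real.pi / 2 := by
    rw [hθ]
    field_simp
  have hθ0 : 0 < θ := by rw [hθ]; positivity
  have hθ4 : θ ≤ Real.pi / 4 := by nlinarith
  refine ⟨θ, a5_psi n 1 (Real.pi / 2), ⟨hθ0, by linarith, ?_, ?_, ?_, ?_⟩, ?_⟩
  · intro i
    unfold a5_psi
    split_ifs <;> linarith
  · intro i
    unfold a5_psi
    split_ifs <;> linarith
  · unfold a5_psi
    rw [a5_sum hn, hrθ]
    push_cast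
    ring
  · rw [hrθ]; linarith
  · intro F hF s hs
    have hcos : 0 < Real.cos θ := Real.cos_pos_of_mem_Ioo ⟨by linarith, by linarith⟩
    have hx : xx θ (Real.pi / 2) = 1 / Real.cos θ := by
      unfold xx
      rw [Real.sin_pi_div_two, Real.sin_add_pi_div_two]
    have hg : gg (1 / Real.cos θ) θ = (Real.sin θ / Real.cos θ) ^ 2 := by
      unfold gg
      have := Real.sin_sq_add_cos_sq θ
      field_simp
      linarith
    have hsin : 0 < Real.sin θ := Real.sin_pos_of_pos_of_lt_pi hθ0 (by linarith)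
    rw [a5_pp hn, a5_GG hn, hx, hg, Real.sqrt_sq (by positivity), pow_one, pow_one] at hF
    have hc0 : ((Real.cos θ : ℝ) : ℂ) ≠ 0 := by exact_mod_cast hcos.ne'
    have hr1 : r = (r - 1) + 1 := by omega
    have hmul : q2 θ * (C ((Real.cos θ : ℝ) : ℂ) * F) = q2 θ * a5_T θ (r - 1) := by
      rw [a5_q2T, ← hr1]
      have e1 : Real.sin (((r - 1 : ℕ) : ℝ) * θ) = Real.cos θ := by
        have e2 : (((r - 1 : ℕ) : ℝ)) = (r : ℝ) - 1 := by
          rw [Nat.cast_sub (by omega), Nat.cast_one]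
        rw [e2, sub_mul, hrθ, one_mul, Real.sin_pi_div_two_sub]
      have e3 : Real.sin ((r : ℝ) * θ) = 1 := by rw [hrθ, Real.sin_pi_div_two]
      rw [e1, e3]
      have e4 : q2 θ * (C ((Real.cos θ : ℝ) : ℂ) * F) = C ((Real.cos θ : ℝ) : ℂ) * (q2 θ * F) := by
        ring
      rw [e4, ← hF]
      have e5 : (C ((Real.cos θ : ℝ) : ℂ) : ℂ[X]) * C (((1 / Real.cos θ : ℝ)) : ℂ) = 1 := by
        rw [← C_mul, ← Complex.ofReal_mul, mul_one_div_cancel hcos.ne', Complex.ofReal_one, C_1]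
      have e6 : (C ((Real.cos θ : ℝ) : ℂ) : ℂ[X]) * C (((Real.sin θ / Real.cos θ : ℝ)) : ℂ) =
          C ((Real.sin θ : ℝ) : ℂ) := by
        rw [← C_mul, ← Complex.ofReal_mul, mul_div_cancel₀ _ hcos.ne']
      rw [Complex.ofReal_one, C_1]
      linear_combination (-X : ℂ[X]) * e5 + X ^ r * e6
    have hFT := mul_left_cancel₀ (a5_q2_ne θ) hmul
    have hroot : (a5_T θ (r - 1)).eval s = 0 := by
      rw [← hFT, eval_mul, hs, mul_zero]
    have hang : ∀ i : ℕ, i ≤ r - 1 → (i : ℝ) * θ ≤ Real.pi / 2 - θ := by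
      intro i hi
      have : (i : ℝ) ≤ (r : ℝ) - 1 := by
        have : i + 1 ≤ r := by omega
        have : ((i + 1 : ℕ) : ℝ) ≤ r := by exact_mod_cast this
        push_cast at this
        linarith
      nlinarith
    refine a5_EK θ s (r - 1) (by omega) ?_ ?_ hroot
    · intro i h1 h2
      have h3 := hang i h2
      have h4 : (1 : ℝ) ≤ i := by exact_mod_cast h1
      exact Real.sin_pos_of_pos_of_lt_pi (by positivity) (by linarith)
    · intro i hi
      have h3 := hang (i + 1) (by omega)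
      have h4 : (0 : ℝ) ≤ i := Nat.cast_nonneg i
      refine Real.sin_lt_sin_of_lt_of_le_pi_div_two ?_ ?_ ?_
      · have : 0 ≤ (i : ℝ) * θ := by positivity
        linarith
      · linarith
      · push_cast
        linarith

theorem a5_sqrt2 : Real.sqrt 2 * Real.sqrt 2 = 2 := Real.mul_self_sqrt (by norm_num)

theorem a5_case1 {n : ℕ} (hn : 2 ≤ n) :
    ∃ (θ : ℝ) (ψ : Fin n → ℝ), Adm 1 θ ψ ∧ Good 1 θ ψ := by
  have hpi := Real.pi_pos
  refine ⟨Real.pi / 2, a5_psi n 2 (Real.pi / 4), ⟨by linarith, by linarith, ?_, ?_, ?_, ?_⟩, ?_⟩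
  · intro i
    unfold a5_psi
    split_ifs <;> linarith
  · intro i
    unfold a5_psi
    split_ifs <;> linarith
  · unfold a5_psi
    rw [a5_sum hn]
    push_cast
    ring
  · push_cast
    linarith
  · intro F hF s hs
    have hx : xx (Real.pi / 2) (Real.pi / 4) = 1 := by
      unfold xx
      rw [add_comm, Real.sin_add_pi_div_two, Real.sin_pi_div_four, Real.cos_pi_div_four]
      exact div_self (by positivity)
    have hg : gg 1 (Real.pi / 2) = 2 := by
      unfold gg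
      rw [Real.cos_pi_div_two]
      norm_num
    have hs2 : (Real.sqrt 2) ^ 2 = 2 := Real.sq_sqrt (by norm_num)
    rw [a5_pp hn, a5_GG hn, hx, hg, hs2] at hF
    have h1 : q2 (Real.pi / 2) * F = q2 (Real.pi / 2) * 1 := by
      rw [← hF]
      unfold q2
      rw [Real.cos_pi_div_two]
      simp only [Complex.ofReal_one, C_1, mul_zero, Complex.ofReal_zero, C_0, zero_mul, pow_one]
      have : (C ((2 : ℝ) : ℂ) : ℂ[X]) = 2 := by
        rw [Complex.ofReal_ofNat]; rfl
      rw [this]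
      ring
    have h2 := mul_left_cancel₀ (a5_q2_ne _) h1
    rw [h2] at hs
    simp at hs

theorem a5_case0 {n : ℕ} (hn : 2 ≤ n) :
    ∃ (θ : ℝ) (ψ : Fin n → ℝ), Adm 0 θ ψ ∧ Good 0 θ ψ := by
  have hpi := Real.pi_pos
  refine ⟨Real.pi / 4, a5_psi n 2 (Real.pi / 2), ⟨by linarith, by linarith, ?_, ?_, ?_, ?_⟩, ?_⟩
  · intro i
    unfold a5_psi
    split_ifs <;> linarith
  · intro i
    unfold a5_psi
    split_ifs <;> linarith
  · unfold a5_psi
    rw [a5_sum hn]
    push_cast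
    ring
  · push_cast
    linarith
  · intro F hF s hs
    have h20 : Real.sqrt 2 ≠ 0 := by positivity
    have hx : xx (Real.pi / 4) (Real.pi / 2) = Real.sqrt 2 := by
      unfold xx
      rw [Real.sin_add_pi_div_two, Real.sin_pi_div_two, Real.cos_pi_div_four]
      field_simp
      linarith [a5_sqrt2]
    have hg : gg (Real.sqrt 2) (Real.pi / 4) = 1 := by
      unfold gg
      rw [Real.cos_pi_div_four]
      nlinarith [a5_sqrt2]
    rw [a5_pp hn, a5_GG hn, hx, hg, Real.sqrt_one, one_pow] at hF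
    have h1 : q2 (Real.pi / 4) * F = q2 (Real.pi / 4) * 2 := by
      rw [← hF]
      unfold q2
      rw [Real.cos_pi_div_four]
      have e1 : (2 * (Real.sqrt 2 / 2) : ℝ) = Real.sqrt 2 := by ring
      rw [e1]
      simp only [Complex.ofReal_one, C_1, pow_zero, one_mul]
      have e2 : (C ((Real.sqrt 2 : ℝ) : ℂ) : ℂ[X]) * C ((Real.sqrt 2 : ℝ) : ℂ) = 2 := by
        rw [← C_mul, ← Complex.ofReal_mul, a5_sqrt2, Complex.ofReal_ofNat]; rfl
      linear_combination X ^ 2 * e2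
    have h2 := mul_left_cancel₀ (a5_q2_ne _) h1
    rw [h2] at hs
    simp at hs

/-- -/
theorem base {n r : ℕ} (h : Nd n r) : ∃ (θ : ℝ) (ψ : Fin n → ℝ), Adm r θ ψ ∧ Good r θ ψ := by
  rcases h with ⟨hr, hn⟩ | ⟨hr, hn⟩
  · exact a5_case2 hr hn
  · interval_cases r
    · exact a5_case0 hn
    · exact a5_case1 hn

end Pool.Agent.H630Z
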