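import Pool.Agent.H630Z.Defs
set_option autoImplicit false

open Polynomial

namespace Pool.Agent.H630Z


theorem a6_prod (u : ℂ) (hu : ‖u‖ = 1) (ε : ℝ) (hε : 0 ≤ ε) (T : Multiset ℂ)
    (hT : ∀ a ∈ T, 1 < ‖a‖) :
    (T.map (fun a => ‖u - a‖)).prod ≤ (T.map (fun a => ‖a‖)).prod * 2 ^ T.card *
      ε ^ (T.filter (fun a => ‖a - u‖ ≤ ε)).card := by
  induction T using Multiset.induction_on with
  | empty => simp
  | cons a T ih =>
    have hTT : ∀ b ∈ T, 1 < ‖b‖ := fun b hb => hT b (Multiset.mem_cons_of_mem hb)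
    have ha : 1 < ‖a‖ := hT a (Multiset.mem_cons_self a T)
    have h := ih hTT
    rw [Multiset.map_cons, Multiset.prod_cons, Multiset.map_cons, Multiset.prod_cons,
      Multiset.card_cons]
    have hA : 0 ≤ (T.map (fun a => ‖a‖)).prod :=
      Multiset.prod_nonneg (by
        intro b hb
        obtain ⟨c, _, rfl⟩ := Multiset.mem_map.1 hb
        exact norm_nonneg c)
    have hX : 0 ≤ (T.map (fun a => ‖u - a‖)).prod :=
      Multiset.prod_nonneg (by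
        intro b hb
        obtain ⟨c, _, rfl⟩ := Multiset.mem_map.1 hb
        exact norm_nonneg _)
    by_cases hc : ‖a - u‖ ≤ ε
    · rw [Multiset.filter_cons_of_pos (p := fun a : ℂ => ‖a - u‖ ≤ ε) T hc, Multiset.card_cons]
      have h1 : ‖u - a‖ ≤ ‖a‖ * 2 * ε := by
        rw [norm_sub_rev]
        have h2 : (1 : ℝ) ≤ ‖a‖ * 2 := by linarith
        calc ‖a - u‖ ≤ ε := hc
          _ = 1 * ε := (one_mul ε).symm
          _ ≤ ‖a‖ * 2 * ε := mul_le_mul_of_nonneg_right h2 hε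
      calc ‖u - a‖ * (T.map (fun a => ‖u - a‖)).prod
          ≤ (‖a‖ * 2 * ε) * ((T.map (fun a => ‖a‖)).prod * 2 ^ T.card *
            ε ^ (T.filter (fun a => ‖a - u‖ ≤ ε)).card) :=
            mul_le_mul h1 h hX (by positivity)
        _ = _ := by ring
    · rw [Multiset.filter_cons_of_neg (p := fun a : ℂ => ‖a - u‖ ≤ ε) T hc]
      have h1 : ‖u - a‖ ≤ ‖a‖ * 2 := by
        calc ‖u - a‖ ≤ ‖u‖ + ‖a‖ := norm_sub_le _ _
          _ ≤ ‖a‖ * 2 := by rw [hu]; linarith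
      calc ‖u - a‖ * (T.map (fun a => ‖u - a‖)).prod
          ≤ (‖a‖ * 2) * ((T.map (fun a => ‖a‖)).prod * 2 ^ T.card *
            ε ^ (T.filter (fun a => ‖a - u‖ ≤ ε)).card) :=
            mul_le_mul h1 h hX (by positivity)
        _ = _ := by ring

theorem a6_eval (F : ℂ[X]) (x : ℂ) :
    ‖F.eval x‖ = ‖F.leadingCoeff‖ * (F.roots.map (fun a => ‖x - a‖)).prod := by
  rw [(IsAlgClosed.splits F).eval_eq_prod_roots x, norm_mul]
  congr 1
  have h : ∀ T : Multiset ℂ, ‖(T.map (fun a => x - a)).prod‖ = (T.map (fun a => ‖x - a‖)).prod := by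
    intro T
    induction T using Multiset.induction_on with
    | empty => simp
    | cons a T ih =>
      rw [Multiset.map_cons, Multiset.prod_cons, Multiset.map_cons, Multiset.prod_cons, norm_mul, ih]
  exact h F.roots

theorem a6_main (F : ℂ[X]) (hF : ∀ s : ℂ, F.eval s = 0 → 1 < ‖s‖) (d : ℕ) (hd : F.natDegree ≤ d)
    (s : ℂ) (hs : F.eval s = 0) (k : ℕ) (ε : ℝ) (hε : 0 ≤ ε) (hε1 : ε ≤ 1)
    (hk : k ≤ ((F.roots.erase s).filter (fun a => ‖a - s / (‖s‖ : ℂ)‖ ≤ ε)).card) :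
    ‖F.eval (s / (‖s‖ : ℂ))‖ ≤ ‖F.eval 0‖ * (‖s‖ - 1) * 2 ^ d * ε ^ k := by
  have hF0 : F ≠ 0 := by
    rintro rfl
    have := hF 0 (by simp)
    rw [norm_zero] at this
    linarith
  have hs1 : 1 < ‖s‖ := hF s hs
  have hs0 : (‖s‖ : ℂ) ≠ 0 := by
    have : ‖s‖ ≠ 0 := by linarith
    exact_mod_cast this
  obtain ⟨u, hu⟩ : ∃ u : ℂ, u = s / (‖s‖ : ℂ) := ⟨_, rfl⟩
  rw [← hu] at hk ⊢
  have hu1 : ‖u‖ = 1 := by
    rw [hu, norm_div, Complex.norm_real, norm_norm, div_self (by linarith)]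
  have hus : ‖u - s‖ = ‖s‖ - 1 := by
    have h1 : u - s = -(((‖s‖ - 1 : ℝ) : ℂ) * u) := by
      rw [hu]
      push_cast
      field_simp
      ring
    rw [h1, norm_neg, norm_mul, hu1, mul_one, Complex.norm_real, Real.norm_eq_abs,
      abs_of_nonneg (by linarith)]
  have hmem : s ∈ F.roots := (mem_roots hF0).2 hs
  obtain ⟨T, hT⟩ : ∃ T : Multiset ℂ, T = F.roots.erase s := ⟨_, rfl⟩
  have hcons : F.roots = s ::ₘ T := by rw [hT, Multiset.cons_erase hmem]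
  rw [← hT] at hk
  have hTn : ∀ a ∈ T, 1 < ‖a‖ := by
    intro a ha
    have h1 : a ∈ F.roots := by rw [hcons]; exact Multiset.mem_cons_of_mem ha
    exact hF a ((mem_roots hF0).1 h1)
  have h1 := a6_prod u hu1 ε hε T hTn
  have hcard : T.card ≤ d := by
    have h2 : F.roots.card ≤ F.natDegree := F.card_roots'
    rw [hcons, Multiset.card_cons] at h2
    omega
  have hA : 0 ≤ (T.map (fun a => ‖a‖)).prod :=
    Multiset.prod_nonneg (by
      intro b hb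
      obtain ⟨c, _, rfl⟩ := Multiset.mem_map.1 hb
      exact norm_nonneg c)
  rw [a6_eval F u, a6_eval F 0, hcons, Multiset.map_cons, Multiset.prod_cons, Multiset.map_cons,
    Multiset.prod_cons, hus]
  simp only [zero_sub, norm_neg]
  have h3 : (2 : ℝ) ^ T.card ≤ 2 ^ d := pow_le_pow_right₀ (by norm_num) hcard
  have h4 : ε ^ (T.filter (fun a => ‖a - u‖ ≤ ε)).card ≤ ε ^ k :=
    pow_le_pow_of_le_one hε hε1 hk
  have h5 : (T.map (fun a => ‖u - a‖)).prod ≤ (T.map (fun a => ‖a‖)).prod * (2 ^ d * ε ^ k) := by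
    refine h1.trans ?_
    rw [mul_assoc]
    refine mul_le_mul_of_nonneg_left ?_ hA
    exact mul_le_mul h3 h4 (by positivity) (by positivity)
  have h6 : (‖s‖ - 1) * (T.map (fun a => ‖u - a‖)).prod ≤
      (‖s‖ * (‖s‖ - 1)) * ((T.map (fun a => ‖a‖)).prod * (2 ^ d * ε ^ k)) := by
    refine mul_le_mul ?_ h5 ?_ ?_
    · have h7 : 0 ≤ ‖s‖ - 1 := by linarith
      calc ‖s‖ - 1 = 1 * (‖s‖ - 1) := (one_mul _).symm
        _ ≤ ‖s‖ * (‖s‖ - 1) := mul_le_mul_of_nonneg_right hs1.le h7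
    · exact Multiset.prod_nonneg (by
        intro b hb
        obtain ⟨c, _, rfl⟩ := Multiset.mem_map.1 hb
        exact norm_nonneg _)
    · have h7 : 0 ≤ ‖s‖ - 1 := by linarith
      positivity
  calc ‖F.leadingCoeff‖ * ((‖s‖ - 1) * (T.map (fun a => ‖u - a‖)).prod)
      ≤ ‖F.leadingCoeff‖ * ((‖s‖ * (‖s‖ - 1)) * ((T.map (fun a => ‖a‖)).prod * (2 ^ d * ε ^ k))) :=
        mul_le_mul_of_nonneg_left h6 (norm_nonneg _)
    _ = _ := by ring

/-- A root close to the unit circle gives a small value on the circle.  Proof: `F ≠ 0`, `F(0) ≠ 0`,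
`F(u) = F(0) ∏_j (1 - u / s_j)` over the multiset of the roots (at most `d`), `‖1 - u / s_j‖ ≤ 2` for all,
and for `s_j = s`, `u = s/‖s‖`: `‖1 - u/s‖ = 1 - 1/‖s‖ ≤ ‖s‖ - 1`. -/
theorem gap0 (F : ℂ[X]) (hF : ∀ s : ℂ, F.eval s = 0 → 1 < ‖s‖) (d : ℕ) (hd : F.natDegree ≤ d)
    (s : ℂ) (hs : F.eval s = 0) :
    ‖F.eval (s / (‖s‖ : ℂ))‖ ≤ ‖F.eval 0‖ * (‖s‖ - 1) * 2 ^ d := by
  have h := a6_main F hF d hd s hs 0 1 (by norm_num) le_rfl (Nat.zero_le _)
  rwa [pow_zero, mul_one] at h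

/-- The same if there are `k` other roots close to the point `u = s/‖s‖` of the circle: for such a root `a`,
`‖1 - u/a‖ = ‖a - u‖/‖a‖ ≤ ε`. -/
theorem gap1 (F : ℂ[X]) (hF : ∀ s : ℂ, F.eval s = 0 → 1 < ‖s‖) (d : ℕ) (hd : F.natDegree ≤ d)
    (s : ℂ) (hs : F.eval s = 0) (k : ℕ) (ε : ℝ) (hε : 0 ≤ ε) (hε1 : ε ≤ 1)
    (hk : k + 1 ≤ (F.roots.filter (fun a => ‖a - s / (‖s‖ : ℂ)‖ ≤ ε)).card)
    (hsε : ‖s - s / (‖s‖ : ℂ)‖ ≤ ε) :
    ‖F.eval (s / (‖s‖ : ℂ))‖ ≤ ‖F.eval 0‖ * (‖s‖ - 1) * 2 ^ d * ε ^ k := by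
  refine a6_main F hF d hd s hs k ε hε hε1 ?_
  have hF0 : F ≠ 0 := by
    rintro rfl
    have := hF 0 (by simp)
    rw [norm_zero] at this
    linarith
  have hmem : s ∈ F.roots := (mem_roots hF0).2 hs
  rw [← Multiset.cons_erase hmem, Multiset.filter_cons_of_pos
    (p := fun a : ℂ => ‖a - s / (‖s‖ : ℂ)‖ ≤ ε) _ hsε, Multiset.card_cons] at hk
  exact Nat.le_of_succ_le_succ hk

end Pool.Agent.H630Z
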