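import Pool.Agent.H630Z.Defs
set_option autoImplicit false

open Polynomial

namespace Pool.Agent.H630Z


theorem a7_key {θ ψ : ℝ} (h0 : 0 < θ) (h1 : 0 < ψ) (h2 : ψ < Real.pi - θ) :
    ψ * Real.sin (θ + ψ) ≤ Real.pi * Real.sin ψ := by
  have hpi := Real.pi_pos
  have hs : 0 < Real.sin ψ := Real.sin_pos_of_pos_of_lt_pi h1 (by linarith)
  rcases le_or_gt ψ (Real.pi / 2) with h | h
  · have h3 := Real.mul_le_sin h1.le h
    have h4 : 2 * ψ ≤ Real.pi * Real.sin ψ := by
      have h5 : Real.pi * (2 / Real.pi * ψ) ≤ Real.pi * Real.sin ψ :=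
        mul_le_mul_of_nonneg_left h3 hpi.le
      have h6 : Real.pi * (2 / Real.pi * ψ) = 2 * ψ := by field_simp
      linarith
    have h7 : ψ * Real.sin (θ + ψ) ≤ ψ * 1 := mul_le_mul_of_nonneg_left (Real.sin_le_one _) h1.le
    linarith
  · have h3 : Real.sin (θ + ψ) ≤ Real.sin ψ := by
      have e1 : Real.sin (θ + ψ) = Real.cos (θ + ψ - Real.pi / 2) := by
        rw [Real.cos_sub_pi_div_two]
      have e2 : Real.sin ψ = Real.cos (ψ - Real.pi / 2) := by
        rw [Real.cos_sub_pi_div_two]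
      rw [e1, e2]
      apply Real.cos_le_cos_of_nonneg_of_le_pi
      · linarith
      · linarith
      · linarith
    calc ψ * Real.sin (θ + ψ) ≤ ψ * Real.sin ψ := mul_le_mul_of_nonneg_left h3 h1.le
      _ ≤ Real.pi * Real.sin ψ := mul_le_mul_of_nonneg_right (by linarith) hs.le

/-- Elementary bounds.  Proof: if `ψ ≤ π/2` then `sin ψ ≥ 2 ψ / π` and `sin (θ + ψ) ≤ 1`, so `x ≥ 2ψ/π`.  If `ψ > π/2`
then `π/2 < ψ < θ + ψ < π` and `sin` decreases there, so `x > 1 > ψ/π`.  The second part: put `ψ' = π - θ - ψ ∈ (0, π - θ)`;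
`sin (θ + ψ) = sin ψ'`, `sin ψ = sin (θ + ψ')`, so `1/x = sin ψ' / sin (θ + ψ')` and the first part applies to `ψ'`. -/
theorem xx_bd {θ ψ : ℝ} (h0 : 0 < θ) (h1 : 0 < ψ) (h2 : ψ < Real.pi - θ) :
    0 < xx θ ψ ∧ ψ ≤ Real.pi * xx θ ψ ∧ (Real.pi - θ - ψ) * xx θ ψ ≤ Real.pi := by
  have hpi := Real.pi_pos
  have hs : 0 < Real.sin ψ := Real.sin_pos_of_pos_of_lt_pi h1 (by linarith)
  have hs2 : 0 < Real.sin (θ + ψ) := Real.sin_pos_of_pos_of_lt_pi (by linarith) (by linarith)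
  unfold xx
  refine ⟨div_pos hs hs2, ?_, ?_⟩
  · rw [← mul_div_assoc, le_div_iff₀ hs2]
    exact a7_key h0 h1 h2
  · rw [← mul_div_assoc, div_le_iff₀ hs2]
    have h3 := a7_key (ψ := Real.pi - θ - ψ) h0 (by linarith) (by linarith)
    have e1 : Real.sin (θ + (Real.pi - θ - ψ)) = Real.sin ψ := by
      rw [show θ + (Real.pi - θ - ψ) = Real.pi - ψ by ring, Real.sin_pi_sub]
    have e2 : Real.sin (Real.pi - θ - ψ) = Real.sin (θ + ψ) := by
      rw [show Real.pi - θ - ψ = Real.pi - (θ + ψ) by ring, Real.sin_pi_sub]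
    rw [e1, e2] at h3
    exact h3

/-- Polynomial bounds for `τ`.  Proof: `x i = lam i * τ = xx θ (ψ i)`, `∑ ψ i = π - r θ`.  By `xx_bd`
`∑ ψ i ≤ π τ ∑ lam i`, and `dl ≤ ∑ ψ i` (`r ≥ 1`: `∑ ψ i = r (Th - θ) ≥ dl`; `r = 0`: `∑ ψ i = π ≥ θ ≥ dl`).
With `ψ' i = π - θ - ψ i`, `∑ ψ' i = n (π - θ) - π + r θ` and `τ ∑ ψ' i ≤ π ∑ 1 / lam i`; and `dl ≤ ∑ ψ' i`:
`r = 0`: it is `n (Th - θ)`;  `r = 1`, `n ≥ 2`: it is `(n - 1) (π - θ) ≥ π - θ = Th - θ`;
`r ≥ 2`, `n ≥ 1`: it is `(n-1) (π - θ) + (r - 1) θ ≥ θ`. -/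
theorem tau_bounds {n r : ℕ} (h : Nd n r) (lam : Fin n → ℝ) (hlam : ∀ i, 0 < lam i) :
    ∃ C : ℝ, 0 < C ∧ ∀ θ τ : ℝ, θ ∈ Set.Ioo 0 (Th n r) → Cv lam r θ τ →
      dl n r θ ≤ C * τ ∧ τ * dl n r θ ≤ C := by
  have hpi := Real.pi_pos
  have hS1 : 0 ≤ ∑ i, lam i := Finset.sum_nonneg (fun i _ => (hlam i).le)
  have hS2 : 0 ≤ ∑ i, 1 / lam i := Finset.sum_nonneg (fun i _ => (one_div_pos.2 (hlam i)).le)
  refine ⟨Real.pi * ∑ i, lam i + Real.pi * ∑ i, 1 / lam i + 1, by positivity, ?_⟩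
  intro θ τ hθ hcv
  obtain ⟨hτ, ψ, hadm, hψ, hx⟩ := hcv
  have hθ0 : 0 < θ := hθ.1
  have hθT : 0 < Th n r - θ := by linarith [hθ.2]
  have hb := fun i => xx_bd hθ0 (hψ i) (hadm.lt' i)
  have hA : Real.pi - r * θ ≤ Real.pi * (∑ i, lam i) * τ := by
    rw [← hadm.sum]
    calc ∑ i, ψ i ≤ ∑ i, Real.pi * (lam i * τ) := by
          apply Finset.sum_le_sum
          intro i _
          rw [← hx i]
          exact (hb i).2.1
      _ = Real.pi * (∑ i, lam i) * τ := by
          rw [Finset.mul_sum, Finset.sum_mul]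
          apply Finset.sum_congr rfl
          intro i _
          ring
  have hB : τ * (n * (Real.pi - θ) - (Real.pi - r * θ)) ≤ Real.pi * ∑ i, 1 / lam i := by
    have e : (n * (Real.pi - θ) - (Real.pi - r * θ)) = ∑ i, (Real.pi - θ - ψ i) := by
      rw [Finset.sum_sub_distrib, hadm.sum]
      simp
      try ring
    rw [e, Finset.mul_sum, Finset.mul_sum]
    apply Finset.sum_le_sum
    intro i _
    have h1 := (hb i).2.2
    rw [hx i] at h1
    rw [mul_one_div, le_div_iff₀ (hlam i)]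
    linarith
  have hdl1 : dl n r θ ≤ θ := min_le_left _ _
  have hdl2 : dl n r θ ≤ Th n r - θ := min_le_right _ _
  have hdl0 : 0 < dl n r θ := lt_min hθ0 hθT
  have hC1 : dl n r θ ≤ Real.pi - r * θ := by
    rcases Nat.eq_zero_or_pos r with hr | hr
    · subst hr
      have := hadm.lt
      push_cast
      linarith
    · have hr' : (1 : ℝ) ≤ r := by exact_mod_cast hr
      have hT : Th n r = Real.pi / r := by
        unfold Th
        rw [if_neg (by omega)]
      have e : Real.pi - r * θ = r * (Th n r - θ) := by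
        rw [hT]; field_simp
      rw [e]
      nlinarith
  have hC2 : dl n r θ ≤ n * (Real.pi - θ) - (Real.pi - r * θ) := by
    have hθpi := hadm.lt
    rcases Nat.eq_zero_or_pos r with hr | hr
    · subst hr
      have hn : 2 ≤ n := by
        rcases h with h | h
        · omega
        · exact h.2
      have hn' : (2 : ℝ) ≤ n := by exact_mod_cast hn
      have hT : Th n 0 = Real.pi * (1 - 1 / (n : ℝ)) := by
        unfold Th
        rw [if_pos rfl]
      have e : n * (Real.pi - θ) - (Real.pi - ((0 : ℕ) : ℝ) * θ) = n * (Th n 0 - θ) := by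
        rw [hT]; push_cast; field_simp; ring
      rw [e]
      nlinarith
    · rcases Nat.lt_or_ge r 2 with hr2 | hr2
      · have hr1 : r = 1 := by omega
        subst hr1
        have hn : 2 ≤ n := by
          rcases h with h | h
          · omega
          · exact h.2
        have hn' : (2 : ℝ) ≤ n := by exact_mod_cast hn
        have hT : Th n 1 = Real.pi := by
          unfold Th
          rw [if_neg (by omega)]
          simp
        rw [hT] at hdl2
        push_cast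
        nlinarith
      · have hn : 1 ≤ n := by
          rcases h with h | h
          · exact h.2
          · omega
        have hn' : (1 : ℝ) ≤ n := by exact_mod_cast hn
        have hr' : (2 : ℝ) ≤ r := by exact_mod_cast hr2
        nlinarith [mul_nonneg (sub_nonneg.2 hn') (sub_pos.2 hθpi).le, mul_nonneg (sub_nonneg.2 hr') hθ0.le]
  refine ⟨?_, ?_⟩
  · have h1 : 0 ≤ Real.pi * ∑ i, 1 / lam i := by positivity
    calc dl n r θ ≤ Real.pi - r * θ := hC1
      _ ≤ Real.pi * (∑ i, lam i) * τ := hA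
      _ ≤ (Real.pi * ∑ i, lam i + Real.pi * ∑ i, 1 / lam i + 1) * τ := by
          apply mul_le_mul_of_nonneg_right _ hτ.le
          linarith
  · have h1 : 0 ≤ Real.pi * ∑ i, lam i := by positivity
    calc τ * dl n r θ ≤ τ * (n * (Real.pi - θ) - (Real.pi - r * θ)) :=
          mul_le_mul_of_nonneg_left hC2 hτ.le
      _ ≤ Real.pi * ∑ i, 1 / lam i := hB
      _ ≤ _ := by linarith

end Pool.Agent.H630Z
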