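import Pool.Agent.H630Z.Defs
set_option autoImplicit false

open Polynomial

namespace Pool.Agent.H630Z

/-- the angle -/
noncomputable def a8_ps (l θ v : ℝ) : ℝ :=
  Real.pi / 2 - Real.arctan ((v / l - Real.cos θ) / Real.sin θ)

/-- the function whose zero is wanted -/
noncomputable def a8_P {n : ℕ} (lam : Fin n → ℝ) (r : ℕ) (θ v : ℝ) : ℝ :=
  ∑ i, a8_ps (lam i) θ v - (Real.pi - r * θ)

theorem a8_ps_anti {l θ : ℝ} (hl : 0 < l) (hs : 0 < Real.sin θ) :
    StrictAnti (fun v => a8_ps l θ v) := by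
  intro v w hvw
  have h1 : (v / l - Real.cos θ) / Real.sin θ < (w / l - Real.cos θ) / Real.sin θ := by
    apply div_lt_div_of_pos_right _ hs
    have : v / l < w / l := div_lt_div_of_pos_right hvw hl
    linarith
  have h2 := Real.arctan_strictMono h1
  simp only [a8_ps]
  linarith

theorem a8_P_anti {n : ℕ} (hn : 1 ≤ n) {lam : Fin n → ℝ} (hlam : ∀ i, 0 < lam i) (r : ℕ) {θ : ℝ}
    (hs : 0 < Real.sin θ) : StrictAnti (fun v => a8_P lam r θ v) := by
  intro v w hvw
  have hne : (Finset.univ : Finset (Fin n)).Nonempty := ⟨⟨0, hn⟩, Finset.mem_univ _⟩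
  have := Finset.sum_lt_sum_of_nonempty hne (fun i _ => a8_ps_anti (hlam i) hs hvw)
  simp only [a8_P]
  simp only at this
  linarith

theorem a8_ps_zero {l θ : ℝ} (h0 : 0 < θ) (h1 : θ < Real.pi) : a8_ps l θ 0 = Real.pi - θ := by
  have h2 : (0 / l - Real.cos θ) / Real.sin θ = Real.tan (θ - Real.pi / 2) := by
    rw [Real.tan_eq_sin_div_cos, Real.sin_sub_pi_div_two, Real.cos_sub_pi_div_two]
    simp
  rw [a8_ps, h2, Real.arctan_tan (by linarith) (by linarith)]
  ring

theorem a8_ps_pos (l θ v : ℝ) : 0 < a8_ps l θ v := by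
  have := Real.arctan_lt_pi_div_two ((v / l - Real.cos θ) / Real.sin θ)
  simp only [a8_ps]
  linarith

theorem a8_ps_lt {l θ v : ℝ} (hl : 0 < l) (h0 : 0 < θ) (h1 : θ < Real.pi) (hv : 0 < v) :
    a8_ps l θ v < Real.pi - θ := by
  rw [← a8_ps_zero (l := l) h0 h1]
  exact a8_ps_anti hl (Real.sin_pos_of_pos_of_lt_pi h0 h1) hv

theorem a8_xx {l θ v : ℝ} (hl : 0 < l) (h0 : 0 < θ) (h1 : θ < Real.pi) (hv : 0 < v) :
    xx θ (a8_ps l θ v) = l * v⁻¹ := by
  have hs := Real.sin_pos_of_pos_of_lt_pi h0 h1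
  set u := (v / l - Real.cos θ) / Real.sin θ with hu
  have hc : 0 < Real.cos (Real.arctan u) := Real.cos_arctan_pos u
  have h2 : Real.sin (Real.arctan u) = u * Real.cos (Real.arctan u) := by
    have := Real.tan_arctan u
    rw [Real.tan_eq_sin_div_cos, div_eq_iff hc.ne'] at this
    exact this
  have h3 : u * Real.sin θ = v / l - Real.cos θ := by
    rw [hu, div_mul_cancel₀ _ hs.ne']
  have h4 : a8_ps l θ v = Real.pi / 2 - Real.arctan u := rfl
  rw [xx, h4, Real.sin_pi_div_two_sub, Real.sin_add, Real.cos_pi_div_two_sub,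
    Real.sin_pi_div_two_sub, h2]
  have h5 : Real.sin θ * (u * Real.cos (Real.arctan u)) + Real.cos θ * Real.cos (Real.arctan u) =
      Real.cos (Real.arctan u) * (v / l) := by
    have : Real.sin θ * (u * Real.cos (Real.arctan u)) = Real.cos (Real.arctan u) * (u * Real.sin θ) := by
      ring
    rw [this, h3]
    ring
  rw [h5]
  field_simp

theorem a8_ps_tendsto {l θ : ℝ} (hl : 0 < l) (hs : 0 < Real.sin θ) :
    Filter.Tendsto (fun v => a8_ps l θ v) Filter.atTop (nhds 0) := by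
  have h1 : Filter.Tendsto (fun v : ℝ => (v / l - Real.cos θ) / Real.sin θ) Filter.atTop
      Filter.atTop := by
    apply Filter.Tendsto.atTop_div_const hs
    exact Filter.tendsto_atTop_add_const_right _ _ (Filter.tendsto_id.atTop_div_const hl)
  have h2 := (Real.tendsto_arctan_atTop.mono_right nhdsWithin_le_nhds).comp h1
  have h3 := h2.const_sub (Real.pi / 2)
  rw [sub_self] at h3
  exact h3

theorem a8_P_tendsto {n : ℕ} {lam : Fin n → ℝ} (hlam : ∀ i, 0 < lam i) (r : ℕ) {θ : ℝ}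
    (hs : 0 < Real.sin θ) :
    Filter.Tendsto (fun v => a8_P lam r θ v) Filter.atTop (nhds (-(Real.pi - r * θ))) := by
  have h1 : Filter.Tendsto (fun v => ∑ i, a8_ps (lam i) θ v) Filter.atTop
      (nhds (∑ _i : Fin n, (0 : ℝ))) :=
    tendsto_finsetSum _ (fun i _ => a8_ps_tendsto (hlam i) hs)
  have h2 := h1.sub_const (Real.pi - r * θ)
  rw [Finset.sum_const_zero, zero_sub] at h2
  exact h2

theorem a8_P_cont {n : ℕ} (lam : Fin n → ℝ) (r : ℕ) (θ : ℝ) :
    Continuous (fun v => a8_P lam r θ v) := by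
  unfold a8_P a8_ps
  refine Continuous.sub (continuous_finsetSum _ fun i _ => ?_) continuous_const
  refine continuous_const.sub (Real.continuous_arctan.comp ?_)
  exact ((continuous_id.div_const _).sub continuous_const).div_const _

theorem a8_P_cont' {n : ℕ} (lam : Fin n → ℝ) (r : ℕ) (v : ℝ) {θ : ℝ} (hs : 0 < Real.sin θ) :
    ContinuousAt (fun θ => a8_P lam r θ v) θ := by
  unfold a8_P a8_ps
  refine ContinuousAt.sub ?_ (by fun_prop)
  apply tendsto_finsetSum
  intro i _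
  refine Filter.Tendsto.sub tendsto_const_nhds ?_
  have h1 : ContinuousAt (fun θ => (v / lam i - Real.cos θ) / Real.sin θ) θ :=
    ContinuousAt.div (by fun_prop) (by fun_prop) hs.ne'
  exact (Real.continuous_arctan.continuousAt).comp h1

theorem a8_range {n r : ℕ} (h : Nd n r) {θ : ℝ} (hθ : θ ∈ Set.Ioo 0 (Th n r)) :
    θ < Real.pi ∧ 0 < Real.pi - r * θ ∧ 0 < n * (Real.pi - θ) - (Real.pi - r * θ) ∧ 1 ≤ n := by
  obtain ⟨h0, h1⟩ := hθ
  have hpi := Real.pi_pos
  unfold Th at h1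
  rcases h with ⟨hr, hn⟩ | ⟨hr, hn⟩
  · have hn' : (1 : ℝ) ≤ n := by exact_mod_cast hn
    have hr' : (2 : ℝ) ≤ r := by exact_mod_cast hr
    rw [if_neg (by omega)] at h1
    have h2 : r * θ < Real.pi := by
      rw [lt_div_iff₀ (by linarith)] at h1
      linarith
    have h3 : θ < Real.pi := by nlinarith
    refine ⟨h3, by linarith, ?_, hn⟩
    have h4 : 0 ≤ ((n : ℝ) - 1) * (Real.pi - θ) := mul_nonneg (by linarith) (by linarith)
    have h5 : 0 < ((r : ℝ) - 1) * θ := mul_pos (by linarith) h0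
    nlinarith
  · have hn' : (2 : ℝ) ≤ n := by exact_mod_cast hn
    rcases Nat.le_one_iff_eq_zero_or_eq_one.1 hr with hr | hr
    · subst hr
      rw [if_pos rfl] at h1
      have h3 : (0 : ℝ) < 1 / n := by positivity
      have h4 : θ < Real.pi := by nlinarith
      refine ⟨h4, by simpa using hpi, ?_, by omega⟩
      have h5 : (n : ℝ) * θ < n * (Real.pi * (1 - 1 / n)) := by
        apply mul_lt_mul_of_pos_left h1
        linarith
      have h6 : (n : ℝ) * (Real.pi * (1 - 1 / n)) = n * Real.pi - Real.pi := by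
        field_simp
      simp only [Nat.cast_zero, zero_mul, sub_zero]
      nlinarith
    · subst hr
      rw [if_neg (by omega), Nat.cast_one, div_one] at h1
      refine ⟨h1, by simpa using h1, ?_, by omega⟩
      have h5 : 0 < ((n : ℝ) - 1) * (Real.pi - θ) := mul_pos (by linarith) (by linarith)
      rw [Nat.cast_one, one_mul]
      nlinarith

theorem a8_ex {n r : ℕ} (h : Nd n r) (lam : Fin n → ℝ) (hlam : ∀ i, 0 < lam i) {θ : ℝ}
    (hθ : θ ∈ Set.Ioo 0 (Th n r)) : ∃ v, 0 < v ∧ a8_P lam r θ v = 0 := by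
  obtain ⟨h1, h2, h3, h4⟩ := a8_range h hθ
  have hs := Real.sin_pos_of_pos_of_lt_pi hθ.1 h1
  have h5 : 0 < a8_P lam r θ 0 := by
    have : a8_P lam r θ 0 = n * (Real.pi - θ) - (Real.pi - r * θ) := by
      simp [a8_P, a8_ps_zero hθ.1 h1]
      ring
    rw [this]
    exact h3
  have h6 : ∀ᶠ v in Filter.atTop, a8_P lam r θ v < 0 :=
    (a8_P_tendsto hlam r hs).eventually_lt_const (by linarith)
  obtain ⟨M, hM1, hM2⟩ := (h6.and (Filter.eventually_ge_atTop 0)).exists
  have h7 := intermediate_value_Icc' hM2 (a8_P_cont lam r θ).continuousOn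
  obtain ⟨v, hv1, hv2⟩ := h7 ⟨hM1.le, h5.le⟩
  refine ⟨v, lt_of_le_of_ne hv1.1 ?_, hv2⟩
  rintro rfl
  have hv3 : a8_P lam r θ 0 = 0 := hv2
  rw [hv3] at h5
  exact lt_irrefl _ h5

/-- -/
theorem curve {n r : ℕ} (h : Nd n r) (lam : Fin n → ℝ) (hlam : ∀ i, 0 < lam i) :
    ∃ τ : ℝ → ℝ, ContinuousOn τ (Set.Ioo 0 (Th n r)) ∧
      ∀ θ ∈ Set.Ioo 0 (Th n r), Cv lam r θ (τ θ) := by
  classical
  let v : ℝ → ℝ := fun θ =>
    if hθ : θ ∈ Set.Ioo 0 (Th n r) then (a8_ex h lam hlam hθ).choose else 1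
  have hv : ∀ θ ∈ Set.Ioo 0 (Th n r), 0 < v θ ∧ a8_P lam r θ (v θ) = 0 := by
    intro θ hθ
    simp only [v, dif_pos hθ]
    exact (a8_ex h lam hlam hθ).choose_spec
  have hvc : ContinuousOn v (Set.Ioo 0 (Th n r)) := by
    intro θ hθ
    have hθ' := hθ
    obtain ⟨h1, h2, h3, h4⟩ := a8_range h hθ
    have hs := Real.sin_pos_of_pos_of_lt_pi hθ.1 h1
    apply tendsto_order.2
    constructor
    · intro a ha
      have h5 : 0 < a8_P lam r θ a := by
        rw [← (hv θ hθ).2]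
        exact a8_P_anti h4 hlam r hs ha
      have h6 : ∀ᶠ x in nhdsWithin θ (Set.Ioo 0 (Th n r)), 0 < a8_P lam r x a :=
        ((a8_P_cont' lam r a hs).mono_left nhdsWithin_le_nhds).eventually_const_lt h5
      filter_upwards [h6, self_mem_nhdsWithin] with x hx hx'
      obtain ⟨g1, g2, g3, g4⟩ := a8_range h hx'
      have gs := Real.sin_pos_of_pos_of_lt_pi hx'.1 g1
      rw [← (hv x hx').2] at hx
      exact (a8_P_anti g4 hlam r gs).lt_iff_gt.1 hx
    · intro a ha
      have h5 : a8_P lam r θ a < 0 := by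
        rw [← (hv θ hθ).2]
        exact a8_P_anti h4 hlam r hs ha
      have h6 : ∀ᶠ x in nhdsWithin θ (Set.Ioo 0 (Th n r)), a8_P lam r x a < 0 :=
        ((a8_P_cont' lam r a hs).mono_left nhdsWithin_le_nhds).eventually_lt_const h5
      filter_upwards [h6, self_mem_nhdsWithin] with x hx hx'
      obtain ⟨g1, g2, g3, g4⟩ := a8_range h hx'
      have gs := Real.sin_pos_of_pos_of_lt_pi hx'.1 g1
      rw [← (hv x hx').2] at hx
      exact (a8_P_anti g4 hlam r gs).lt_iff_gt.1 hx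
  refine ⟨fun θ => (v θ)⁻¹, hvc.inv₀ (fun θ hθ => (hv θ hθ).1.ne'), ?_⟩
  intro θ hθ
  obtain ⟨h1, h2, h3, h4⟩ := a8_range h hθ
  obtain ⟨hv1, hv2⟩ := hv θ hθ
  refine ⟨inv_pos.2 hv1, fun i => a8_ps (lam i) θ (v θ), ?_, fun i => a8_ps_pos _ _ _, fun i =>
    a8_xx (hlam i) hθ.1 h1 hv1⟩
  exact
    { pos := hθ.1
      lt := h1
      nonneg := fun i => (a8_ps_pos _ _ _).le
      lt' := fun i => a8_ps_lt (hlam i) hθ.1 h1 hv1
      sum := by
        have := hv2
        unfold a8_P at this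
        linarith
      sum_pos := h2 }

end Pool.Agent.H630Z
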