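import Pool.Agent.H630Z.A4
import Pool.Agent.H630Z.A5

set_option autoImplicit false

open Polynomial

namespace Pool.Agent.H630Z

/-- all the roots of the normalised polynomial besides the pair are outside the closed unit disc -/
theorem good {n r : ℕ} (h : Nd n r) {θ : ℝ} {ψ : Fin n → ℝ} (hA : Adm r θ ψ) : Good r θ ψ := by
  obtain ⟨θ0, ψ0, h0, hg⟩ := base h
  exact seg h0 hA hg

end Pool.Agent.H630Z
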