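import Pool.Agent.H630Z.Defs2
import Pool.Agent.H630Z.A1
import Pool.Agent.H630Z.A2
import Pool.Agent.H630Z.A3
import Pool.Agent.H630Z.A6
import Pool.Agent.H630Z.Good
set_option autoImplicit false

open Polynomial

namespace Pool.Agent.H630Z


theorem b0_ee_add (θ : ℝ) : ee θ + ee (-θ) = ((2 * Real.cos θ : ℝ) : ℂ) := by
  unfold ee
  push_cast
  rw [Complex.cos]
  ring

theorem b0_ee_mul (θ : ℝ) : ee θ * ee (-θ) = 1 := by
  unfold ee
  rw [← Complex.exp_add]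
  push_cast
  rw [show (θ : ℂ) * Complex.I + -(θ : ℂ) * Complex.I = 0 by ring, Complex.exp_zero]

theorem b0_q2 (θ : ℝ) (s : ℂ) (h : (q2 θ).eval s = 0) : s = ee θ ∨ s = ee (-θ) := by
  have h1 : (q2 θ).eval s = (s - ee θ) * (s - ee (-θ)) := by
    unfold q2
    simp only [eval_add, eval_sub, eval_one, eval_mul, eval_C, eval_X, eval_pow]
    rw [← b0_ee_add]
    have := b0_ee_mul θ
    linear_combination -this
  rw [h1] at h
  rcases mul_eq_zero.mp h with h2 | h2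
  · exact Or.inl (sub_eq_zero.mp h2)
  · exact Or.inr (sub_eq_zero.mp h2)

theorem b0_sqrt (x φ : ℝ) (hx : 0 ≤ x) : Real.sqrt (gg x φ) ≤ 1 + x := by
  rw [← Real.sqrt_sq (show (0:ℝ) ≤ 1 + x by linarith)]
  apply Real.sqrt_le_sqrt
  unfold gg
  have := Real.neg_one_le_cos φ
  nlinarith

theorem b0_GG {n : ℕ} (x : Fin n → ℝ) (hx : ∀ i, 0 ≤ x i) (φ : ℝ) :
    GG x φ ≤ ∏ j, (1 + x j) := by
  unfold GG
  exact Finset.prod_le_prod (fun i _ => Real.sqrt_nonneg _) (fun i _ => b0_sqrt _ _ (hx i))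

theorem b0_GG_nonneg {n : ℕ} (x : Fin n → ℝ) (φ : ℝ) : 0 ≤ GG x φ := by
  unfold GG
  exact Finset.prod_nonneg (fun i _ => Real.sqrt_nonneg _)

theorem b0_one_le {n : ℕ} (x : Fin n → ℝ) (hx : ∀ i, 0 ≤ x i) :
    (1:ℝ) ≤ ∏ j, (1 + x j) := by
  have h : ∏ j : Fin n, (1:ℝ) ≤ ∏ j, (1 + x j) :=
    Finset.prod_le_prod (fun i _ => zero_le_one) (fun i _ => by linarith [hx i])
  simpa using h

theorem b0_ee_arg (s : ℂ) (hs : s ≠ 0) : ee (Complex.arg s) = s / (‖s‖ : ℂ) := by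
  unfold ee
  have h1 := Complex.norm_mul_exp_arg_mul_I s
  have h2 : (‖s‖ : ℂ) ≠ 0 := by
    exact_mod_cast (norm_ne_zero_iff.mpr hs)
  rw [eq_div_iff h2, mul_comm]
  exact h1

/-- The reduction to the normalised polynomial.  Proof: take `ψ` from `hC.adm`; `XX θ ψ = fun i => lam i * τ`.
`DD lam c r (zz ..)` at `τ s` equals `c * pp (..) r (GG ..)` at `s` (`zz = c G / τ ^ r`, `τ > 0`).  `exists_F`, `good`.
For a root `t` of `DD`, `s = t / τ` is a root of `pp = q2 θ * F`; `q2 θ` has only the roots `ee θ`, `ee (-θ)`. -/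
theorem near_basic {n r : ℕ} (h : Nd n r) (lam : Fin n → ℝ) (hlam : ∀ i, 0 < lam i) (c : ℝ)
    (hc : 0 < c) {θ τ : ℝ} (hC : Cv lam r θ τ) :
    ∃ F : ℂ[X], pp (fun i => lam i * τ) r (GG (fun i => lam i * τ) θ) = q2 θ * F ∧
      F.natDegree + 2 ≤ max n r ∧
      F.eval 0 = (if r = 0 then 1 + (GG (fun i => lam i * τ) θ : ℂ) else 1) ∧
      (∀ s : ℂ, F.eval s = 0 → 1 < ‖s‖) ∧
      (∀ s : ℂ, (DD lam c r (zz lam c r θ τ)).eval (τ * s) =
        c * (pp (fun i => lam i * τ) r (GG (fun i => lam i * τ) θ)).eval s) ∧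
      ∀ t : ℂ, (DD lam c r (zz lam c r θ τ)).eval t = 0 → t ≠ τ * ee θ → t ≠ τ * ee (-θ) →
        F.eval (t / τ) = 0 := by
  obtain ⟨ψ, hA, hψ, hx⟩ := hC.adm
  have hX : XX θ ψ = fun i => lam i * τ := by
    funext i
    exact hx i
  obtain ⟨F, hF, hd, h0⟩ := exists_F hA
  have hg := good h hA
  have hτ : (τ : ℂ) ≠ 0 := by exact_mod_cast hC.pos.ne'
  have hg2 := hg F hF
  rw [hX] at hF h0
  have hev : ∀ s : ℂ, (DD lam c r (zz lam c r θ τ)).eval (τ * s) =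
      c * (pp (fun i => lam i * τ) r (GG (fun i => lam i * τ) θ)).eval s := by
    intro s
    unfold DD pp zz
    simp only [eval_add, eval_sub, eval_one, eval_mul, eval_C, eval_X, eval_pow, eval_prod]
    push_cast
    rw [mul_pow, mul_add]
    congr 1
    · congr 1
      apply Finset.prod_congr rfl
      intro i _
      ring
    · generalize GG (fun i => lam i * τ) θ = g
      field_simp
  refine ⟨F, hF, hd, h0, hg2, hev, ?_⟩
  intro t ht h1 h2
  have hts : (τ : ℂ) * (t / τ) = t := by field_simp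
  have h3 := hev (t / τ)
  rw [hts, ht] at h3
  have hc' : (c : ℂ) ≠ 0 := by exact_mod_cast hc.ne'
  have h4 : (pp (fun i => lam i * τ) r (GG (fun i => lam i * τ) θ)).eval (t / τ) = 0 := by
    rcases mul_eq_zero.mp h3.symm with h5 | h5
    · exact absurd h5 hc'
    · exact h5
  rw [hF, eval_mul] at h4
  rcases mul_eq_zero.mp h4 with h5 | h5
  · exfalso
    rcases b0_q2 θ _ h5 with h6 | h6
    · apply h1
      rw [← hts, h6]
    · apply h2
      rw [← hts, h6]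
  · exact h5

/-- Proof: with `F` of `near_basic` and `s = t / τ`, `‖s‖ > 1`.  `gap0` (with `d = n + r`) gives
`‖F(u)‖ ≤ ‖F(0)‖ (‖s‖ - 1) 2^(n+r)` with `u = s/‖s‖ = ee (arg s)`, and `low` with `φ = arg s`:
`x i ∏_{j≠i} gg (x j) θ ≤ ‖F(u)‖ (GG x φ + GG x θ)`.  Each `√(gg (x j) φ) ≤ 1 + x j`, so `GG x φ ≤ ∏ (1 + x j) =: P ≥ 1`,
`‖F(0)‖ ≤ 1 + GG x θ ≤ 2 P`, `GG x φ + GG x θ ≤ 2 P`. -/
theorem near_kappa {n r : ℕ} (h : Nd n r) (lam : Fin n → ℝ) (hlam : ∀ i, 0 < lam i) (c : ℝ)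
    (hc : 0 < c) {θ τ : ℝ} (hC : Cv lam r θ τ) (t : ℂ)
    (ht : (DD lam c r (zz lam c r θ τ)).eval t = 0) (h1 : t ≠ τ * ee θ) (h2 : t ≠ τ * ee (-θ))
    (i : Fin n) :
    τ < ‖t‖ ∧ lam i * τ * ∏ j ∈ Finset.univ.erase i, gg (lam j * τ) θ ≤
      2 ^ (n + r + 2) * (‖t‖ / τ - 1) * (∏ j, (1 + lam j * τ)) ^ 2 := by
  obtain ⟨F, hF, hd, h0, hg, hev, hroot⟩ := near_basic h lam hlam c hc hC
  obtain ⟨ψ, hA, hψ, hxx⟩ := hC.adm
  have hτ0 := hC.pos
  have hs := hroot t ht h1 h2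
  set s : ℂ := t / τ with hsd
  have hs1 : 1 < ‖s‖ := hg s hs
  have hnorm : ‖s‖ = ‖t‖ / τ := by
    rw [hsd, norm_div, Complex.norm_real, Real.norm_of_nonneg hτ0.le]
  have hs0 : s ≠ 0 := by
    intro h
    rw [h, norm_zero] at hs1
    linarith
  have hx : ∀ j, 0 ≤ lam j * τ := fun j => (mul_pos (hlam j) hτ0).le
  refine ⟨?_, ?_⟩
  · rw [hnorm, lt_div_iff₀ hτ0, one_mul] at hs1
    exact hs1
  · have hgap := gap0 F hg (n + r) (by
      have : max n r ≤ n + r := by omega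
      omega) s hs
    have hlow := low (fun j => lam j * τ) hx r hA.pos hA.lt F hF i (Complex.arg s)
    rw [b0_ee_arg s hs0] at hlow
    set P : ℝ := ∏ j, (1 + lam j * τ) with hP
    have hP1 : 1 ≤ P := b0_one_le (fun j => lam j * τ) hx
    have hG1 : GG (fun j => lam j * τ) (Complex.arg s) ≤ P := b0_GG _ hx _
    have hG2 : GG (fun j => lam j * τ) θ ≤ P := b0_GG _ hx _
    have hG3 : 0 ≤ GG (fun j => lam j * τ) θ := b0_GG_nonneg _ _
    have hG4 : 0 ≤ GG (fun j => lam j * τ) (Complex.arg s) := b0_GG_nonneg _ _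
    have hF0 : ‖F.eval 0‖ ≤ 2 * P := by
      rw [h0]
      split_ifs with hr
      · calc ‖(1 + (GG (fun i => lam i * τ) θ : ℂ))‖
            ≤ ‖(1:ℂ)‖ + ‖(GG (fun i => lam i * τ) θ : ℂ)‖ := norm_add_le _ _
          _ = 1 + GG (fun i => lam i * τ) θ := by
              rw [norm_one, Complex.norm_real, Real.norm_of_nonneg hG3]
          _ ≤ 2 * P := by linarith
      · rw [norm_one]
        linarith
    have hs2 : 0 ≤ ‖s‖ - 1 := by linarith
    rw [← hnorm]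
    calc lam i * τ * ∏ j ∈ Finset.univ.erase i, gg (lam j * τ) θ
        ≤ ‖F.eval (s / (‖s‖ : ℂ))‖ *
          (GG (fun j => lam j * τ) (Complex.arg s) + GG (fun j => lam j * τ) θ) := hlow
      _ ≤ (‖F.eval 0‖ * (‖s‖ - 1) * 2 ^ (n + r)) * (2 * P) := by
          apply mul_le_mul hgap (by linarith) (by linarith) (by positivity)
      _ ≤ ((2 * P) * (‖s‖ - 1) * 2 ^ (n + r)) * (2 * P) := by
          gcongr
      _ = 2 ^ (n + r + 2) * (‖s‖ - 1) * P ^ 2 := by ring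

end Pool.Agent.H630Z
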