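import Pool.Agent.H630Z.B0
import Pool.Agent.H630Z.A7
set_option autoImplicit false

open Polynomial

namespace Pool.Agent.H630Z


theorem b1_Th_le {n r : ℕ} (h : Nd n r) : Th n r ≤ Real.pi := by
  unfold Th
  have hpi := Real.pi_pos
  split_ifs with hr
  · have h1 : (0 : ℝ) ≤ 1 / (n : ℝ) := by positivity
    nlinarith
  · have h1 : (1 : ℝ) ≤ r := by exact_mod_cast Nat.one_le_iff_ne_zero.2 hr
    exact div_le_self hpi.le h1

theorem b1_pos {n r : ℕ} (h : Nd n r) : 0 < n := by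
  rcases h with h | h <;> omega

theorem b1_gg (x θ : ℝ) : Real.sin θ ^ 2 ≤ gg x θ := by
  unfold gg
  nlinarith [sq_nonneg (x - Real.cos θ), Real.sin_sq_add_cos_sq θ]

theorem b1_gg1 {x θ : ℝ} (hx : 0 ≤ x) (hc : Real.cos θ ≤ 0) : 1 ≤ gg x θ := by
  unfold gg
  nlinarith [mul_nonneg hx (neg_nonneg.2 hc), sq_nonneg x]

theorem b1_sin {δ θ : ℝ} (h0 : 0 < δ) (h1 : δ ≤ θ) (h2 : θ ≤ Real.pi - δ) : Real.sin δ ≤ Real.sin θ := by
  have hpi := Real.pi_pos
  rcases le_total θ (Real.pi / 2) with h | h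
  · exact Real.sin_le_sin_of_le_of_le_pi_div_two (by linarith) h h1
  · rw [← Real.sin_pi_sub θ]
    exact Real.sin_le_sin_of_le_of_le_pi_div_two (by linarith) (by linarith) (by linarith)

/-- the final step -/
theorem b1_fin {n r : ℕ} (lam : Fin n → ℝ) (hlam : ∀ i, 0 < lam i) {a T τ q : ℝ} {K θ : ℝ} (ha : 0 < a)
    (hK : 0 < K) (hτ : 0 < τ) (hT : τ ≤ T) (i : Fin n)
    (h1 : a ≤ lam i * τ * ∏ j ∈ Finset.univ.erase i, gg (lam j * τ) θ)
    (h2 : lam i * τ * ∏ j ∈ Finset.univ.erase i, gg (lam j * τ) θ ≤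
      K * (q / τ - 1) * (∏ j, (1 + lam j * τ)) ^ 2)
    (hq1 : τ < q) (hq : q < (1 + a / (2 * (K * (∏ j, (1 + lam j * T)) ^ 2))) * τ) : False := by
  have hT0 : 0 < T := lt_of_lt_of_le hτ hT
  have hP : 0 < ∏ j, (1 + lam j * T) := Finset.prod_pos fun j _ => by
    have := mul_pos (hlam j) hT0
    linarith
  have hP2 : (∏ j, (1 + lam j * τ)) ≤ ∏ j, (1 + lam j * T) :=
    Finset.prod_le_prod (fun j _ => by have := mul_pos (hlam j) hτ; linarith)
      (fun j _ => by have := mul_le_mul_of_nonneg_left hT (hlam j).le; linarith)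
  have hP0 : 0 ≤ ∏ j, (1 + lam j * τ) := Finset.prod_nonneg fun j _ => by
    have := mul_pos (hlam j) hτ
    linarith
  have hP3 : (∏ j, (1 + lam j * τ)) ^ 2 ≤ (∏ j, (1 + lam j * T)) ^ 2 := pow_le_pow_left₀ hP0 hP2 2
  set Q := (∏ j, (1 + lam j * T)) ^ 2 with hQdef
  have hQ : 0 < Q := by positivity
  have e1 : q / τ - 1 < a / (2 * (K * Q)) := by
    have : q / τ < 1 + a / (2 * (K * Q)) := by
      rw [div_lt_iff₀ hτ]
      exact hq
    linarith
  have e0 : 0 ≤ q / τ - 1 := by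
    have : 1 ≤ q / τ := by
      rw [le_div_iff₀ hτ]
      linarith
    linarith
  have e2 : K * (q / τ - 1) * (∏ j, (1 + lam j * τ)) ^ 2 ≤ K * (q / τ - 1) * Q :=
    mul_le_mul_of_nonneg_left hP3 (by positivity)
  have e3 : K * (q / τ - 1) * Q ≤ K * (a / (2 * (K * Q))) * Q := by
    have := mul_le_mul_of_nonneg_left e1.le hK.le
    exact mul_le_mul_of_nonneg_right this hQ.le
  have e4 : K * (a / (2 * (K * Q))) * Q = a / 2 := by
    field_simp
  linarith

/-- The middle range: there are no near roots.  Proof: `dl ≥ δ0` there, so by `tau_bounds`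
`δ0 / C ≤ τ ≤ C / δ0`; `sin θ ≥ s0 > 0` (`[δ0, Th - δ0]` is a compact subset of `(0, π)`, `Th ≤ π`);
`gg x θ = (x - cos θ)² + sin² θ ≥ s0²`.  Take any index `i` (`n ≥ 1`).  `near_kappa` gives
`lam i τ s0^(2(n-1)) ≤ 2^(n+r+2) (‖t‖/τ - 1) (∏ (1 + lam j C / δ0))²`, so `‖t‖/τ - 1 ≥ η > 0`; with this `η` the
hypothesis `‖t‖ < (1 + η) τ` of `NearOK` is contradictory. -/
theorem near_mid {n r : ℕ} (h : Nd n r) (lam : Fin n → ℝ) (hlam : ∀ i, 0 < lam i) (c : ℝ)
    (hc : 0 < c) (A : ℝ[X]) (δ0 : ℝ) (hδ : 0 < δ0) :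
    ∃ η : ℝ, 0 < η ∧ ∀ C θ τ : ℝ, δ0 ≤ θ → θ ≤ Th n r - δ0 → Cv lam r θ τ →
      NearOK lam c r A η C θ τ := by
  have hn := b1_pos h
  have hpi := Real.pi_pos
  have hTh := b1_Th_le h
  obtain ⟨C0, hC0, hb⟩ := tau_bounds h lam hlam
  by_cases hd : δ0 ≤ Real.pi / 2
  swap
  · refine ⟨1, one_pos, fun C θ τ h1 h2 => ?_⟩
    exfalso
    linarith
  have hs0 : 0 < Real.sin δ0 := Real.sin_pos_of_pos_of_lt_pi hδ (by linarith)
  let i : Fin n := ⟨0, hn⟩
  have ha : 0 < lam i * (δ0 / C0) * ∏ j ∈ Finset.univ.erase i, (Real.sin δ0) ^ 2 := by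
    have := hlam i
    positivity
  have hP : 0 < ∏ j, (1 + lam j * (C0 / δ0)) := Finset.prod_pos fun j _ => by
    have := hlam j
    positivity
  refine ⟨lam i * (δ0 / C0) * (∏ j ∈ Finset.univ.erase i, (Real.sin δ0) ^ 2) /
    (2 * (2 ^ (n + r + 2) * (∏ j, (1 + lam j * (C0 / δ0))) ^ 2)), by positivity, ?_⟩
  intro C θ τ h1 h2 hC t ht hne1 hne2 hlt
  exfalso
  have hdl : δ0 ≤ dl n r θ := le_min h1 (by linarith)
  obtain ⟨hb1, hb2⟩ := hb θ τ ⟨by linarith, by linarith⟩ hC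
  have hτ := hC.pos
  have hτ1 : δ0 / C0 ≤ τ := by
    rw [div_le_iff₀ hC0]
    linarith
  have hτ2 : τ ≤ C0 / δ0 := by
    rw [le_div_iff₀ hδ]
    have := mul_le_mul_of_nonneg_left hdl hτ.le
    linarith
  obtain ⟨hk1, hk2⟩ := near_kappa h lam hlam c hc hC t ht hne1 hne2 i
  have hsin := b1_sin hδ h1 (by linarith)
  have hlow : lam i * (δ0 / C0) * (∏ j ∈ Finset.univ.erase i, (Real.sin δ0) ^ 2) ≤
      lam i * τ * ∏ j ∈ Finset.univ.erase i, gg (lam j * τ) θ := by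
    refine mul_le_mul (mul_le_mul_of_nonneg_left hτ1 (hlam i).le)
      (Finset.prod_le_prod (fun _ _ => sq_nonneg _) fun j _ => ?_)
      (Finset.prod_nonneg fun _ _ => sq_nonneg _) (mul_nonneg (hlam i).le hτ.le)
    exact (pow_le_pow_left₀ hs0.le hsin 2).trans (b1_gg _ _)
  exact b1_fin (n := n) (r := r) lam hlam ha (by positivity) hτ hτ2 i hlow hk2 hk1 hlt

/-- Right end, `r = 1` (so `n ≥ 2`, `Th = π`): no near roots for `θ ∈ [π/2, π)`.  Proof: take `ψ` from `Cv`;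
`∑ ψ i = π - θ`.  Some `ψ i ≤ (π - θ)/2`, hence `ψ i ≤ π - θ - ψ i ≤ π/2`, `sin (ψ i) ≤ sin (π - θ - ψ i) = sin (θ + ψ i)`, so
`lam i τ ≤ 1`, `τ ≤ 1/lam i`, and all `lam j τ ≤ Λ` for a constant `Λ`.  Concavity of `sin` on `[0, π/2]` with `π - θ ≤ π/2`:
`sin (ψ j) ≥ (ψ j/(π - θ)) sin (π - θ)` and `sin (θ + ψ j) = sin (π - θ - ψ j) ≤ sin (π - θ)`, so `lam j τ ≥ ψ j / (π - θ)` and
`∑ lam j τ ≥ 1`; so some `lam i τ ≥ 1/n`.  As `cos θ ≤ 0`, `gg x θ ≥ 1` for `x ≥ 0`.  `near_kappa` with this `i`: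
`1/n ≤ 2^(n+r+2) (‖t‖/τ - 1) (1 + Λ)^(2n)`. -/
theorem near_right1 {n r : ℕ} (h : Nd n r) (hr : r = 1) (lam : Fin n → ℝ) (hlam : ∀ i, 0 < lam i)
    (c : ℝ) (hc : 0 < c) (A : ℝ[X]) :
    ∃ η : ℝ, 0 < η ∧ ∀ C θ τ : ℝ, Real.pi / 2 ≤ θ → θ < Th n r → Cv lam r θ τ →
      NearOK lam c r A η C θ τ := by
  subst hr
  have hn : 2 ≤ n := by
    rcases h with h | h <;> omega
  have hpi := Real.pi_pos
  have hTh : Th n 1 = Real.pi := by
    unfold Th
    rw [if_neg one_ne_zero]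
    simp
  have hn0 : (0 : ℝ) < n := by exact_mod_cast (by omega : 0 < n)
  have hB : 0 < ∑ j, 1 / lam j :=
    Finset.sum_pos (fun j _ => by have := hlam j; positivity) ⟨⟨0, by omega⟩, Finset.mem_univ _⟩
  have hP : 0 < ∏ j, (1 + lam j * (∑ j, 1 / lam j)) := Finset.prod_pos fun j _ => by
    have := hlam j
    positivity
  refine ⟨1 / n / (2 * (2 ^ (n + 1 + 2) * (∏ j, (1 + lam j * (∑ j, 1 / lam j))) ^ 2)), by positivity, ?_⟩
  intro C θ τ h1 h2 hC t ht hne1 hne2 hlt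
  exfalso
  rw [hTh] at h2
  have hτ := hC.pos
  obtain ⟨ψ, hadm, hψ, hx⟩ := hC.adm
  have hsum : ∑ i, ψ i = Real.pi - θ := by
    have := hadm.sum
    rw [this]
    push_cast
    ring
  have hlt' := hadm.lt'
  have hsinpos : ∀ j, 0 < Real.sin (θ + ψ j) := fun j => by
    rw [← Real.sin_pi_sub]
    have := hlt' j
    have := hψ j
    exact Real.sin_pos_of_pos_of_lt_pi (by linarith) (by linarith)
  -- upper bound of τ
  have hup : ∃ i, ψ i ≤ (Real.pi - θ) / 2 := by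
    by_contra hcon
    push Not at hcon
    let i0 : Fin n := ⟨0, by omega⟩
    let i1 : Fin n := ⟨1, by omega⟩
    have hne : i0 ≠ i1 := by
      intro h'
      have := congrArg Fin.val h'
      simp [i0, i1] at this
    have hle : ψ i0 + ψ i1 ≤ ∑ i, ψ i := by
      rw [← Finset.sum_pair hne]
      exact Finset.sum_le_sum_of_subset_of_nonneg (Finset.subset_univ _) fun j _ _ => (hψ j).le
    have a0 := hcon i0
    have a1 := hcon i1
    linarith
  obtain ⟨i2, hi2⟩ := hup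
  have hτ2 : τ ≤ ∑ j, 1 / lam j := by
    have e1 : xx θ (ψ i2) ≤ 1 := by
      unfold xx
      rw [div_le_one (hsinpos i2), ← Real.sin_pi_sub (θ + ψ i2)]
      have := hψ i2
      exact Real.sin_le_sin_of_le_of_le_pi_div_two (by linarith) (by linarith) (by linarith)
    rw [hx i2] at e1
    have e2 : τ ≤ 1 / lam i2 := by
      rw [le_div_iff₀ (hlam i2)]
      linarith
    exact e2.trans (Finset.single_le_sum (f := fun j => 1 / lam j)
      (fun j _ => by have := hlam j; positivity) (Finset.mem_univ i2))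
  -- lower bound of the sum
  have hlow : ∀ j, ψ j / (Real.pi - θ) ≤ lam j * τ := fun j => by
    rw [← hx j]
    unfold xx
    have hpt : 0 < Real.pi - θ := by linarith
    have c1 : ψ j / (Real.pi - θ) * Real.sin (Real.pi - θ) ≤ Real.sin (ψ j) := by
      have hm1 : Real.pi - θ ∈ Set.Icc 0 Real.pi := ⟨by linarith, by linarith⟩
      have hm2 : (0 : ℝ) ∈ Set.Icc 0 Real.pi := ⟨le_rfl, by linarith⟩
      have hw1 : 0 ≤ ψ j / (Real.pi - θ) := div_nonneg (hψ j).le hpt.le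
      have hw2 : 0 ≤ 1 - ψ j / (Real.pi - θ) := by
        rw [sub_nonneg, div_le_one hpt]; exact (hlt' j).le
      have hconc := strictConcaveOn_sin_Icc.concaveOn.2 hm1 hm2 hw1 hw2 (by ring)
      simp only [smul_eq_mul, mul_zero, add_zero, Real.sin_zero] at hconc
      rwa [div_mul_cancel₀ _ hpt.ne'] at hconc
    have c2 : Real.sin (θ + ψ j) ≤ Real.sin (Real.pi - θ) := by
      rw [← Real.sin_pi_sub (θ + ψ j)]
      have := hψ j
      have := hlt' j
      exact Real.sin_le_sin_of_le_of_le_pi_div_two (by linarith) (by linarith) (by linarith)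
    rw [le_div_iff₀ (hsinpos j)]
    refine le_trans (mul_le_mul_of_nonneg_left c2 (div_nonneg (hψ j).le hpt.le)) c1
  have hex : ∃ i, 1 / (n : ℝ) ≤ lam i * τ := by
    by_contra hcon
    push Not at hcon
    have e1 : ∑ j, ψ j / (Real.pi - θ) = 1 := by
      rw [← Finset.sum_div, hsum, div_self (by linarith)]
    have e2 : ∑ j, lam j * τ < ∑ _j : Fin n, 1 / (n : ℝ) :=
      Finset.sum_lt_sum_of_nonempty ⟨⟨0, by omega⟩, Finset.mem_univ _⟩ fun j _ => hcon j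
    have e3 : ∑ _j : Fin n, 1 / (n : ℝ) = 1 := by
      rw [Finset.sum_const, Finset.card_univ, Fintype.card_fin, nsmul_eq_mul]
      field_simp
    have e4 : ∑ j, ψ j / (Real.pi - θ) ≤ ∑ j, lam j * τ := Finset.sum_le_sum fun j _ => hlow j
    linarith
  obtain ⟨i, hi⟩ := hex
  obtain ⟨hk1, hk2⟩ := near_kappa h lam hlam c hc hC t ht hne1 hne2 i
  have hcos : Real.cos θ ≤ 0 := Real.cos_nonpos_of_pi_div_two_le_of_le h1 (by linarith)
  have hge : 1 / (n : ℝ) ≤ lam i * τ * ∏ j ∈ Finset.univ.erase i, gg (lam j * τ) θ := by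
    have hp : 1 ≤ ∏ j ∈ Finset.univ.erase i, gg (lam j * τ) θ := by
      have := Finset.prod_le_prod (s := Finset.univ.erase i) (f := fun _ => (1 : ℝ))
        (g := fun j => gg (lam j * τ) θ) (fun _ _ => zero_le_one)
        (fun j _ => b1_gg1 (mul_nonneg (hlam j).le hτ.le) hcos)
      simpa using this
    have h0 : 0 ≤ lam i * τ := mul_nonneg (hlam i).le hτ.le
    nlinarith
  exact b1_fin (n := n) (r := 1) lam hlam (by positivity) (by positivity) hτ hτ2 i hge hk2 hk1 hlt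

end Pool.Agent.H630Z
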