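import Pool.Agent.H630Z.B0
import Pool.Agent.H630Z.A7
set_option autoImplicit false

open Polynomial

namespace Pool.Agent.H630Z


theorem b2_sin {T φ : ℝ} (hT : 0 < T) (hT2 : T ≤ Real.pi / 2) (h1 : T / 2 ≤ φ)
    (h2 : φ ≤ 3 * Real.pi / 4) : Real.sin (T / 2) ≤ Real.sin φ := by
  rcases le_total φ (Real.pi / 2) with h | h
  · exact Real.sin_le_sin_of_le_of_le_pi_div_two (by linarith [Real.pi_pos]) h h1
  · rw [← Real.sin_pi_sub φ]
    apply Real.sin_le_sin_of_le_of_le_pi_div_two (by linarith [Real.pi_pos]) (by linarith)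
    linarith

theorem b2_gg {x θ c : ℝ} (hc : 0 ≤ c) (h : c ≤ Real.sin θ) : c ^ 2 ≤ gg x θ := by
  unfold gg
  have h1 : c ^ 2 ≤ Real.sin θ ^ 2 := pow_le_pow_left₀ hc h 2
  nlinarith [sq_nonneg (x - Real.cos θ), Real.sin_sq_add_cos_sq θ]

theorem b2_norm (τ θ : ℝ) (h : 0 < τ) : ‖(τ : ℂ) * ee θ‖ = τ := by
  unfold ee
  rw [norm_mul, Complex.norm_exp_ofReal_mul_I, mul_one, Complex.norm_real, Real.norm_eq_abs,
    abs_of_pos h]

theorem b2_factor (A : ℝ[X]) (hA : A ≠ 0) :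
    ∃ (j : ℕ) (b ρ : ℝ), 0 < b ∧ 0 < ρ ∧ ∀ s : ℂ, ‖s‖ ≤ ρ →
      ‖s‖ ^ j * b ≤ ‖aeval s A‖ ∧ ‖aeval s A‖ ≤ 3 * (‖s‖ ^ j * b) := by
  obtain ⟨B, hB, hBd⟩ := exists_eq_pow_rootMultiplicity_mul_and_not_dvd A hA 0
  set j := rootMultiplicity 0 A with hj
  rw [C_0, sub_zero] at hB hBd
  rw [X_dvd_iff] at hBd
  have hb : 0 < ‖(algebraMap ℝ ℂ) (B.coeff 0)‖ := by
    rw [norm_pos_iff]
    simpa using hBd
  set b0 := ‖(algebraMap ℝ ℂ) (B.coeff 0)‖ with hb0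
  have hcont : Continuous fun s : ℂ => aeval s B := by
    exact Polynomial.continuous_aeval B
  have h0 : aeval (0 : ℂ) B = (algebraMap ℝ ℂ) (B.coeff 0) := by
    rw [← Polynomial.coeff_zero_eq_aeval_zero']
  have hat := Metric.continuousAt_iff.1 (hcont.continuousAt (x := (0 : ℂ))) (b0 / 2) (by linarith)
  obtain ⟨ρ, hρ, hρ2⟩ := hat
  refine ⟨j, b0 / 2, ρ / 2, by linarith, by linarith, ?_⟩
  intro s hs
  have h1 : dist s 0 < ρ := by
    rw [dist_zero_right]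
    linarith
  have h2 := hρ2 h1
  simp only [h0] at h2
  rw [dist_eq_norm] at h2
  have h3 : b0 / 2 ≤ ‖aeval s B‖ := by
    have := norm_sub_norm_le ((algebraMap ℝ ℂ) (B.coeff 0)) (aeval s B)
    rw [norm_sub_rev] at this
    linarith
  have h4 : ‖aeval s B‖ ≤ 3 * (b0 / 2) := by
    have := norm_sub_norm_le (aeval s B) ((algebraMap ℝ ℂ) (B.coeff 0))
    linarith
  have h5 : ‖aeval s A‖ = ‖s‖ ^ j * ‖aeval s B‖ := by
    conv_lhs => rw [hB]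
    rw [map_mul, map_pow, aeval_X, norm_mul, norm_pow]
  have h6 : 0 ≤ ‖s‖ ^ j := by positivity
  rw [h5]
  constructor
  · exact mul_le_mul_of_nonneg_left h3 h6
  · calc ‖s‖ ^ j * ‖aeval s B‖ ≤ ‖s‖ ^ j * (3 * (b0 / 2)) := mul_le_mul_of_nonneg_left h4 h6
      _ = 3 * (‖s‖ ^ j * (b0 / 2)) := by ring


theorem b2_cmp {j : ℕ} {b D τ s a1 a2 : ℝ} (hb : 0 < b) (hτ : 0 < τ) (hD : 0 < D)
    (hs1 : τ < s) (hs2 : s ≤ 2 * τ) (h1 : s ^ j * b ≤ a1) (h2 : a1 ≤ 3 * (s ^ j * b))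
    (h3 : τ ^ j * b ≤ a2) (h4 : a2 ≤ 3 * (τ ^ j * b)) :
    a1 ≤ (D + 3 * 2 ^ j) * a2 ∧ a2 ≤ (D + 3 * 2 ^ j) * a1 ∧ 0 < a1 := by
  have hs : 0 < s := hτ.trans hs1
  have hpow1 : s ^ j ≤ 2 ^ j * τ ^ j := by
    rw [← mul_pow]
    exact pow_le_pow_left₀ hs.le hs2 j
  have hpow2 : τ ^ j ≤ s ^ j := pow_le_pow_left₀ hτ.le hs1.le j
  have hτj : 0 < τ ^ j := by positivity
  have hsj : 0 < s ^ j := by positivity
  have h2j1 : (1 : ℝ) ≤ 2 ^ j := one_le_pow₀ (by norm_num)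
  have ha1 : 0 < a1 := lt_of_lt_of_le (by positivity) h1
  have ha2 : 0 < a2 := lt_of_lt_of_le (by positivity) h3
  refine ⟨?_, ?_, ha1⟩
  · have e1 : 3 * (s ^ j * b) ≤ 3 * 2 ^ j * (τ ^ j * b) := by
      have := mul_le_mul_of_nonneg_right hpow1 hb.le
      nlinarith
    have e2 : 3 * 2 ^ j * (τ ^ j * b) ≤ 3 * 2 ^ j * a2 :=
      mul_le_mul_of_nonneg_left h3 (by positivity)
    have e3 : 0 < D * a2 := by positivity
    linarith
  · have e1 : τ ^ j * b ≤ s ^ j * b := mul_le_mul_of_nonneg_right hpow2 hb.le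
    have e2 : 3 * a1 ≤ 3 * 2 ^ j * a1 := by nlinarith
    have e3 : 0 < D * a1 := by positivity
    linarith

/-- Right end, `r ≥ 2` (`Th = π / r ≤ π/2`).  Proof: let `ψ` be from `Cv`, `∑ ψ i = π - r θ = r (Th - θ)`.  For
`δ0 ≤ π / (4 r)`: `θ ≥ Th / 2`, `dl = Th - θ`, `θ + ψ i ≤ θ + r (Th - θ) ≤ Th + (r-1) δ0 ≤ 3π/4`, `≥ Th/2`, so `sin (θ + ψ i) ≥ c1 > 0`
and `lam i τ ≤ ψ i / c1 ≤ r (Th - θ) / c1`, so `τ ≤ C' dl ≤ C' δ0` is small.  `sin θ ≥ sin (Th/2)`; `gg x θ = (x - cos θ)² + sin² θ ≥ sin² θ`.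
`near_kappa` with any index `i` gives `‖t‖/τ - 1 ≥ c2 τ ≥ c3 dl` (last step by `tau_bounds`: `dl ≤ C τ`), which is the first
claim of `NearOK`.  Take `η = 1`: `τ < ‖t‖ < 2 τ`.  Write `A = X^j * B`, `B(0) ≠ 0` (`A ≠ 0`); `‖B(t)‖ ∈ [‖B 0‖/2, 2 ‖B 0‖]` for
`‖t‖ ≤ 2 τ ≤ 2 C' δ0` small (continuity at `0`), so `‖A(t)‖` and `‖A(τ e^{iθ})‖` are both between `‖B 0‖/2 τ^j` and `2 ‖B 0‖ (2 τ)^j`. -/
theorem near_right2 {n r : ℕ} (h : Nd n r) (hr : 2 ≤ r) (lam : Fin n → ℝ) (hlam : ∀ i, 0 < lam i)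
    (c : ℝ) (hc : 0 < c) (A : ℝ[X]) (hA : A ≠ 0) :
    ∃ δ0 η C : ℝ, 0 < δ0 ∧ 0 < η ∧ 0 < C ∧ ∀ θ τ : ℝ, 0 < θ → Th n r - δ0 ≤ θ → θ < Th n r →
      Cv lam r θ τ → NearOK lam c r A η C θ τ := by
  have hn : 1 ≤ n := by
    rcases h with h | h
    · exact h.2
    · omega
  have hr0 : (0 : ℝ) < r := by
    have : 0 < r := by omega
    exact_mod_cast this
  have hr2 : (2 : ℝ) ≤ r := by exact_mod_cast hr
  set T := Th n r with hTdef
  have hTr : T = Real.pi / r := by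
    rw [hTdef]
    unfold Th
    rw [if_neg (by omega)]
  have hpi := Real.pi_pos
  have hT : 0 < T := by rw [hTr]; positivity
  have hT2 : T ≤ Real.pi / 2 := by
    rw [hTr]
    exact div_le_div_of_nonneg_left hpi.le (by norm_num) hr2
  have hrT : (r : ℝ) * T = Real.pi := by
    rw [hTr]
    field_simp
  set c1 := Real.sin (T / 2) with hc1
  have hc1p : 0 < c1 := Real.sin_pos_of_pos_of_lt_pi (by linarith) (by linarith)
  let i0 : Fin n := ⟨0, by omega⟩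
  set l0 := lam i0 with hl0
  have hl0p : 0 < l0 := hlam i0
  obtain ⟨j, b, ρ, hb, hρ, hfac⟩ := b2_factor A hA
  obtain ⟨C1, hC1, hC1b⟩ := tau_bounds h lam hlam
  set K1 : ℝ := ((1 + Real.pi / (4 * c1)) ^ n) ^ 2 with hK1
  have hK1p : 0 < K1 := by positivity
  set c2 : ℝ := (c1 ^ 2) ^ (n - 1) with hc2
  have hc2p : 0 < c2 := by positivity
  set c3 : ℝ := l0 * c2 / (2 ^ (n + r + 2) * K1) with hc3
  have hc3p : 0 < c3 := by positivity
  set δ0 : ℝ := min (Real.pi / (4 * r)) (ρ * c1 * l0 / (2 * r)) with hδ0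
  have hδ0p : 0 < δ0 := lt_min (by positivity) (by positivity)
  have hδ1 : r * δ0 ≤ Real.pi / 4 := by
    have : δ0 ≤ Real.pi / (4 * r) := min_le_left _ _
    calc (r : ℝ) * δ0 ≤ r * (Real.pi / (4 * r)) := by gcongr
      _ = Real.pi / 4 := by field_simp
  have hδ2 : r * δ0 ≤ ρ * c1 * l0 / 2 := by
    have : δ0 ≤ ρ * c1 * l0 / (2 * r) := min_le_right _ _
    calc (r : ℝ) * δ0 ≤ r * (ρ * c1 * l0 / (2 * r)) := by gcongr
      _ = ρ * c1 * l0 / 2 := by field_simp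
  refine ⟨δ0, 1, C1 / c3 + 3 * 2 ^ j, hδ0p, one_pos, by positivity, ?_⟩
  intro θ τ hθ hθ1 hθ2 hCv t ht h1 h2 ht3
  have hCv' := hCv
  obtain ⟨hτ, ψ, hadm, hψ, hxx⟩ := hCv'
  have hsum := hadm.sum
  have hsum' : ∑ i, ψ i = r * (T - θ) := by rw [hsum, mul_sub, hrT]
  have hTθ : T - θ ≤ δ0 := by linarith
  have hTθp : 0 < T - θ := by linarith
  have hψle : ∀ i, ψ i ≤ r * (T - θ) := by
    intro i
    rw [← hsum']
    exact Finset.single_le_sum (f := ψ) (fun k _ => (hψ k).le) (Finset.mem_univ i)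
  have hrd : r * (T - θ) ≤ r * δ0 := by gcongr
  have hδT : δ0 ≤ T / 2 := by
    have h3 : (r : ℝ) * δ0 ≤ r * (T / 2) := by
      have : (r : ℝ) * (T / 2) = Real.pi / 2 := by rw [← hrT]; ring
      rw [this]
      linarith
    exact le_of_mul_le_mul_left h3 hr0
  have hθT : T / 2 ≤ θ := by linarith
  have hsinθ : c1 ≤ Real.sin θ := b2_sin hT hT2 hθT (by linarith)
  have hsinψ : ∀ i, c1 ≤ Real.sin (θ + ψ i) := by
    intro i
    apply b2_sin hT hT2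
    · linarith [hψ i]
    · have := hψle i
      linarith
  have hlt : ∀ i, lam i * τ ≤ r * (T - θ) / c1 := by
    intro i
    rw [← hxx i]
    unfold xx
    have h3 : Real.sin (ψ i) ≤ r * (T - θ) := (Real.sin_le (hψ i).le).trans (hψle i)
    have h4 : 0 < Real.sin (θ + ψ i) := lt_of_lt_of_le hc1p (hsinψ i)
    calc Real.sin (ψ i) / Real.sin (θ + ψ i) ≤ (r * (T - θ)) / Real.sin (θ + ψ i) := by gcongr
      _ ≤ r * (T - θ) / c1 := by
        apply div_le_div_of_nonneg_left (by positivity) hc1p (hsinψ i)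
  have hτρ : 2 * τ ≤ ρ := by
    have h3 := hlt i0
    have h4 : r * (T - θ) / c1 ≤ ρ * l0 / 2 := by
      rw [div_le_iff₀ hc1p]
      calc r * (T - θ) ≤ ρ * c1 * l0 / 2 := hrd.trans hδ2
        _ = ρ * l0 / 2 * c1 := by ring
    have h5 : l0 * τ ≤ ρ * l0 / 2 := h3.trans h4
    have h6 : l0 * (2 * τ) ≤ l0 * ρ := by linarith
    exact le_of_mul_le_mul_left h6 hl0p
  have hltc : ∀ i, lam i * τ ≤ Real.pi / (4 * c1) := by
    intro i
    refine (hlt i).trans ?_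
    rw [div_le_div_iff₀ hc1p (by positivity)]
    have : r * (T - θ) ≤ Real.pi / 4 := hrd.trans hδ1
    nlinarith
  obtain ⟨hk1, hk2⟩ := near_kappa h lam hlam c hc hCv t ht h1 h2 i0
  have hprod1 : c2 ≤ ∏ k ∈ Finset.univ.erase i0, gg (lam k * τ) θ := by
    have h3 : ∏ k ∈ Finset.univ.erase i0, (c1 ^ 2) ≤ ∏ k ∈ Finset.univ.erase i0, gg (lam k * τ) θ := by
      apply Finset.prod_le_prod
      · intro k _; positivity
      · intro k _
        exact b2_gg hc1p.le hsinθ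
    rw [Finset.prod_const, Finset.card_erase_of_mem (Finset.mem_univ i0), Finset.card_univ,
      Fintype.card_fin] at h3
    exact h3
  have hprod2 : (∏ k, (1 + lam k * τ)) ^ 2 ≤ K1 := by
    have h3 : ∏ k, (1 + lam k * τ) ≤ ∏ _k : Fin n, (1 + Real.pi / (4 * c1)) := by
      apply Finset.prod_le_prod
      · intro k _
        have := hlam k
        positivity
      · intro k _
        linarith [hltc k]
    rw [Finset.prod_const, Finset.card_univ, Fintype.card_fin] at h3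
    have h4 : 0 ≤ ∏ k, (1 + lam k * τ) := by
      apply Finset.prod_nonneg
      intro k _
      have := hlam k
      positivity
    exact pow_le_pow_left₀ h4 h3 2
  have hx : 0 < ‖t‖ / τ - 1 := by
    rw [sub_pos, lt_div_iff₀ hτ, one_mul]
    exact hk1
  have hmain : c3 * τ ≤ ‖t‖ / τ - 1 := by
    have h3 : l0 * τ * c2 ≤ 2 ^ (n + r + 2) * (‖t‖ / τ - 1) * K1 := by
      calc l0 * τ * c2 ≤ l0 * τ * ∏ k ∈ Finset.univ.erase i0, gg (lam k * τ) θ := by gcongr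
        _ ≤ 2 ^ (n + r + 2) * (‖t‖ / τ - 1) * (∏ k, (1 + lam k * τ)) ^ 2 := hk2
        _ ≤ 2 ^ (n + r + 2) * (‖t‖ / τ - 1) * K1 := by
          gcongr
    rw [hc3, div_mul_eq_mul_div, div_le_iff₀ (by positivity)]
    calc l0 * c2 * τ = l0 * τ * c2 := by ring
      _ ≤ 2 ^ (n + r + 2) * (‖t‖ / τ - 1) * K1 := h3
      _ = (‖t‖ / τ - 1) * (2 ^ (n + r + 2) * K1) := by ring
  have hdl := (hC1b θ τ ⟨hθ, hθ2⟩ hCv).1
  have hdl0 : 0 < dl n r θ := lt_min hθ hTθp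
  have hCpos : 0 < C1 / c3 := by positivity
  have h2j : (0 : ℝ) < 3 * 2 ^ j := by positivity
  refine ⟨?_, ?_⟩
  · have h3 : dl n r θ / (C1 / c3 + 3 * 2 ^ j) ≤ c3 * τ := by
      rw [div_le_iff₀ (by positivity)]
      calc dl n r θ ≤ C1 * τ := hdl
        _ = c3 * τ * (C1 / c3) := by field_simp
        _ ≤ c3 * τ * (C1 / c3 + 3 * 2 ^ j) := by
          have : 0 < c3 * τ := by positivity
          nlinarith
    calc τ * (1 + dl n r θ / (C1 / c3 + 3 * 2 ^ j)) ≤ τ * (1 + (‖t‖ / τ - 1)) := by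
          have := h3.trans hmain
          gcongr
      _ = ‖t‖ := by field_simp; ring
  · have htn : ‖t‖ ≤ 2 * τ := by linarith
    have hen : ‖(τ : ℂ) * ee θ‖ = τ := b2_norm τ θ hτ
    obtain ⟨ha1, ha2⟩ := hfac t (htn.trans hτρ)
    obtain ⟨hb1, hb2⟩ := hfac ((τ : ℂ) * ee θ) (by rw [hen]; linarith)
    rw [hen] at hb1 hb2
    obtain ⟨g1, g2, g3⟩ := b2_cmp hb hτ hCpos hk1 htn ha1 ha2 hb1 hb2
    exact ⟨g1, g2, fun h0 => by rw [h0, norm_zero] at g3; exact lt_irrefl _ g3⟩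

end Pool.Agent.H630Z
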