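import Pool.Agent.H630Z.B0
import Pool.Agent.H630Z.A7
set_option autoImplicit false

open Polynomial

namespace Pool.Agent.H630Z

/-- size of a polynomial for large argument -/
theorem b3_poly (A : ℝ[X]) (hA : A ≠ 0) : ∃ R : ℝ, 1 ≤ R ∧ ∀ t : ℂ, R ≤ ‖t‖ →
    |A.leadingCoeff| * ‖t‖ ^ A.natDegree / 2 ≤ ‖aeval t A‖ ∧
      ‖aeval t A‖ ≤ 2 * (|A.leadingCoeff| * ‖t‖ ^ A.natDegree) := by
  have ha : 0 < |A.leadingCoeff| := abs_pos.2 (leadingCoeff_ne_zero.2 hA)
  set S : ℝ := ∑ k ∈ Finset.range A.natDegree, |A.coeff k| with hS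
  have hS0 : 0 ≤ S := Finset.sum_nonneg fun _ _ => abs_nonneg _
  refine ⟨max 1 (2 * (S + 1) / |A.leadingCoeff|), le_max_left _ _, fun t ht => ?_⟩
  have ht1 : 1 ≤ ‖t‖ := (le_max_left _ _).trans ht
  have ht2 : 2 * (S + 1) / |A.leadingCoeff| ≤ ‖t‖ := (le_max_right _ _).trans ht
  have h1 : aeval t A = (∑ k ∈ Finset.range A.natDegree, A.coeff k • t ^ k) +
      A.leadingCoeff • t ^ A.natDegree := by
    rw [aeval_eq_sum_range, Finset.sum_range_succ, coeff_natDegree]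
  set E : ℂ := ∑ k ∈ Finset.range A.natDegree, A.coeff k • t ^ k with hE
  have h2 : ‖E‖ * ‖t‖ ≤ S * ‖t‖ ^ A.natDegree := by
    have : ‖E‖ ≤ ∑ k ∈ Finset.range A.natDegree, |A.coeff k| * ‖t‖ ^ k := by
      refine (norm_sum_le _ _).trans (Finset.sum_le_sum fun k _ => ?_)
      rw [norm_smul, norm_pow, Real.norm_eq_abs]
    refine (mul_le_mul_of_nonneg_right this (norm_nonneg _)).trans ?_
    rw [hS, Finset.sum_mul, Finset.sum_mul]
    refine Finset.sum_le_sum fun k hk => ?_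
    rw [mul_assoc, ← pow_succ]
    exact mul_le_mul_of_nonneg_left (pow_le_pow_right₀ ht1 (Finset.mem_range.1 hk)) (abs_nonneg _)
  have h3 : ‖E‖ ≤ |A.leadingCoeff| * ‖t‖ ^ A.natDegree / 2 := by
    have h4 : ‖E‖ * (2 * (S + 1) / |A.leadingCoeff|) ≤ (S + 1) * ‖t‖ ^ A.natDegree := by
      refine (mul_le_mul_of_nonneg_left ht2 (norm_nonneg _)).trans (h2.trans ?_)
      have : 0 ≤ ‖t‖ ^ A.natDegree := by positivity
      nlinarith
    have h5 : ‖E‖ * (2 * (S + 1)) ≤ (S + 1) * ‖t‖ ^ A.natDegree * |A.leadingCoeff| := by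
      have h6 := mul_le_mul_of_nonneg_right h4 ha.le
      have h7 : ‖E‖ * (2 * (S + 1) / |A.leadingCoeff|) * |A.leadingCoeff| =
          ‖E‖ * (2 * (S + 1)) := by
        field_simp
      rwa [h7] at h6
    have h8 : 0 < S + 1 := by linarith
    have h9 : (S + 1) * (‖E‖ * 2) ≤ (S + 1) * (|A.leadingCoeff| * ‖t‖ ^ A.natDegree) := by
      nlinarith
    have := le_of_mul_le_mul_left h9 h8
    linarith
  have h10 : ‖A.leadingCoeff • t ^ A.natDegree‖ = |A.leadingCoeff| * ‖t‖ ^ A.natDegree := by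
    rw [norm_smul, norm_pow, Real.norm_eq_abs]
  have h11 : 0 ≤ |A.leadingCoeff| * ‖t‖ ^ A.natDegree := by positivity
  rw [h1]
  constructor
  · have := norm_sub_le (E + A.leadingCoeff • t ^ A.natDegree) E
    rw [add_sub_cancel_left, h10] at this
    linarith
  · have := norm_add_le E (A.leadingCoeff • t ^ A.natDegree)
    rw [h10] at this
    linarith

/-- lower bound for the sine -/
theorem b3_sin {d x : ℝ} (hd : 0 < d) (h1 : d ≤ x) (h2 : x ≤ Real.pi - d) : Real.sin d ≤ Real.sin x := by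
  rcases le_total x (Real.pi / 2) with h | h
  · exact Real.sin_le_sin_of_le_of_le_pi_div_two (by linarith [Real.pi_pos]) h h1
  · rw [← Real.sin_pi_sub x]
    exact Real.sin_le_sin_of_le_of_le_pi_div_two (by linarith [Real.pi_pos]) (by linarith)
      (by linarith)

theorem b3_ne (θ : ℝ) : ‖ee θ‖ = 1 := by
  unfold ee
  exact Complex.norm_exp_ofReal_mul_I θ

theorem near_right0 {n r : ℕ} (h : Nd n r) (hr : r = 0) (lam : Fin n → ℝ) (hlam : ∀ i, 0 < lam i)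
    (c : ℝ) (hc : 0 < c) (A : ℝ[X]) (hA : A ≠ 0) :
    ∃ δ0 η C : ℝ, 0 < δ0 ∧ 0 < η ∧ 0 < C ∧ ∀ θ τ : ℝ, 0 < θ → Th n r - δ0 ≤ θ → θ < Th n r →
      Cv lam r θ τ → NearOK lam c r A η C θ τ := by
  subst hr
  have hn2 : 2 ≤ n := by
    rcases h with h | h
    · omega
    · exact h.2
  have hnR : (2 : ℝ) ≤ n := by exact_mod_cast hn2
  have hn0 : (0 : ℝ) < n := by linarith
  obtain ⟨C0, hC0, htau⟩ := tau_bounds h lam hlam
  obtain ⟨R, hR1, hR⟩ := b3_poly A hA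
  have hpi := Real.pi_pos
  -- index
  let i0 : Fin n := ⟨0, by omega⟩
  set d : ℝ := Real.pi / (4 * n) with hd
  have hd0 : 0 < d := by positivity
  have hdn : d * (4 * n) = Real.pi := by rw [hd]; field_simp
  have hd8 : 8 * d ≤ Real.pi := by nlinarith
  set c1 : ℝ := Real.sin d with hc1
  have hc10 : 0 < c1 := Real.sin_pos_of_pos_of_lt_pi hd0 (by linarith)
  have hTh : Th n 0 = Real.pi - 4 * d := by
    simp only [Th, if_pos]
    rw [hd]; field_simp
  -- sum of the lam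
  set L : ℝ := ∑ i, lam i with hL
  have hLi : ∀ i, lam i ≤ L := fun i =>
    Finset.single_le_sum (f := lam) (fun j _ => (hlam j).le) (Finset.mem_univ i)
  have hL0 : 0 < L := (hlam i0).trans_le (hLi i0)
  set δ0 : ℝ := min (d / n) (min (c1 / n) (c1 / (n * L * R))) with hδ
  have hR0 : 0 < R := by linarith
  have hδ0 : 0 < δ0 := by
    refine lt_min (by positivity) (lt_min (by positivity) (by positivity))
  have hδ1 : n * δ0 ≤ d := by
    have := min_le_left (d / n) (min (c1 / n) (c1 / (n * L * R)))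
    rw [← hδ, le_div_iff₀ hn0] at this
    linarith
  have hδ2 : n * δ0 ≤ c1 := by
    have := (min_le_right (d / n) (min (c1 / n) (c1 / (n * L * R)))).trans (min_le_left _ _)
    rw [← hδ, le_div_iff₀ hn0] at this
    linarith
  have hδ3 : δ0 * (n * L * R) ≤ c1 := by
    have := (min_le_right (d / n) (min (c1 / n) (c1 / (n * L * R)))).trans (min_le_right _ _)
    rwa [← hδ, le_div_iff₀ (by positivity)] at this
  set c3 : ℝ := (c1 ^ 2) ^ (n - 1) / (2 ^ (n + 0 + 2) * 4 ^ n) with hc3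
  have hc30 : 0 < c3 := by positivity
  set Cc : ℝ := max (lam i0 * C0 / c3) (4 * 2 ^ A.natDegree) with hCc
  have hCc0 : 0 < Cc := lt_max_of_lt_right (by positivity)
  refine ⟨δ0, 1, Cc, hδ0, one_pos, hCc0, fun θ τ hθ0 hθ1 hθ2 hcv t ht ht1 ht2 htn => ?_⟩
  set D : ℝ := Th n 0 - θ with hD
  have hD0 : 0 < D := by linarith
  have hDδ : D ≤ δ0 := by linarith
  have hnD : n * D ≤ n * δ0 := mul_le_mul_of_nonneg_left hDδ hn0.le
  have hDn : D ≤ n * D := by nlinarith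
  have hθl : d ≤ θ := by linarith
  have hθu : θ ≤ Real.pi - d := by linarith
  have hdl : dl n 0 θ = D := by
    unfold dl
    rw [min_eq_right]
    linarith
  obtain ⟨ψ, hadm, hψ0, hψ⟩ := hcv.adm
  have hτ := hcv.pos
  -- the reflected angles
  have hsum : ∑ i, (Real.pi - θ - ψ i) = n * D := by
    rw [Finset.sum_sub_distrib, Finset.sum_const, Finset.card_univ, Fintype.card_fin, hadm.sum,
      nsmul_eq_mul, hD, hTh]
    push_cast
    nlinarith
  have hψ' : ∀ i, Real.pi - θ - ψ i ≤ n * D := fun i => by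
    rw [← hsum]
    exact Finset.single_le_sum (f := fun i => Real.pi - θ - ψ i)
      (fun j _ => by have := hadm.lt' j; linarith) (Finset.mem_univ i)
  have hsin0 : c1 ≤ Real.sin θ := b3_sin hd0 hθl hθu
  have hx : ∀ i, c1 ≤ lam i * τ * (n * D) := by
    intro i
    have h0 := hadm.lt' i
    have h1 : 0 < Real.pi - θ - ψ i := by linarith
    have h2 := hψ' i
    have h3 : c1 ≤ Real.sin (ψ i) := by
      rw [← Real.sin_pi_sub]
      exact b3_sin hd0 (by linarith) (by linarith)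
    have h4 : Real.sin (θ + ψ i) ≤ n * D := by
      rw [← Real.sin_pi_sub]
      have := Real.sin_le (x := Real.pi - (θ + ψ i)) (by linarith)
      linarith
    have h5 : 0 < Real.sin (θ + ψ i) :=
      Real.sin_pos_of_pos_of_lt_pi (by linarith [hψ0 i]) (by linarith)
    have h6 := hψ i
    unfold xx at h6
    rw [div_eq_iff h5.ne'] at h6
    have h7 : 0 < lam i * τ := mul_pos (hlam i) hτ
    nlinarith
  have hx1 : ∀ i, 1 ≤ lam i * τ := by
    intro i
    have h1 := hx i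
    have h7 : 0 < lam i * τ := mul_pos (hlam i) hτ
    by_contra h8
    push Not at h8
    have : lam i * τ * (n * D) < 1 * (n * D) := mul_lt_mul_of_pos_right h8 (by positivity)
    linarith
  have hτR : R ≤ τ := by
    have h1 := hx i0
    have h2 : lam i0 * τ * (n * D) ≤ L * τ * (n * δ0) := by
      have := hLi i0
      gcongr
    have h3 : δ0 * (n * L * R) ≤ δ0 * (n * L) * τ := by nlinarith
    have h4 : 0 < δ0 * (n * L) := by positivity
    nlinarith
  obtain ⟨hk1, hk2⟩ := near_kappa h lam hlam c hc hcv t ht ht1 ht2 i0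
  have hy : 0 < ‖t‖ / τ - 1 := by
    rw [sub_pos, lt_div_iff₀ hτ]; linarith
  have hgg : ∀ x : ℝ, c1 ^ 2 * x ^ 2 ≤ gg x θ := by
    intro x
    unfold gg
    have h1 : c1 ^ 2 ≤ Real.sin θ ^ 2 := by
      exact pow_le_pow_left₀ hc10.le hsin0 2
    have h2 := Real.sin_sq_add_cos_sq θ
    have h3 : c1 ^ 2 * x ^ 2 ≤ Real.sin θ ^ 2 * x ^ 2 := mul_le_mul_of_nonneg_right h1 (sq_nonneg x)
    nlinarith [sq_nonneg (1 - x * Real.cos θ)]
  have hprod1 : (c1 ^ 2) ^ (n - 1) * ∏ j ∈ Finset.univ.erase i0, (lam j * τ) ^ 2 ≤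
      ∏ j ∈ Finset.univ.erase i0, gg (lam j * τ) θ := by
    have h1 : (c1 ^ 2) ^ (n - 1) = ∏ j ∈ Finset.univ.erase i0, c1 ^ 2 := by
      rw [Finset.prod_const, Finset.card_erase_of_mem (Finset.mem_univ _), Finset.card_univ,
        Fintype.card_fin]
    rw [h1, ← Finset.prod_mul_distrib]
    exact Finset.prod_le_prod (fun j _ => by positivity) fun j _ => hgg _
  have hprod2 : ∏ j, (1 + lam j * τ) ≤ 2 ^ n * ∏ j, (lam j * τ) := by
    have h1 : (2 : ℝ) ^ n = ∏ _j : Fin n, (2 : ℝ) := by simp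
    rw [h1, ← Finset.prod_mul_distrib]
    refine Finset.prod_le_prod (fun j _ => by linarith [hx1 j]) fun j _ => ?_
    linarith [hx1 j]
  set P : ℝ := ∏ j ∈ Finset.univ.erase i0, (lam j * τ) ^ 2 with hP
  have hP0 : 0 < P := Finset.prod_pos fun j _ => by
    have := hx1 j
    positivity
  have hprod3 : (∏ j, (lam j * τ)) ^ 2 = (lam i0 * τ) ^ 2 * P := by
    rw [← Finset.prod_pow, hP]
    exact (Finset.mul_prod_erase Finset.univ (fun j => (lam j * τ) ^ 2) (Finset.mem_univ i0)).symm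
  have hx0 : 0 < lam i0 * τ := mul_pos (hlam _) hτ
  have hmain : c3 ≤ (‖t‖ / τ - 1) * (lam i0 * τ) := by
    have h1 : lam i0 * τ * ((c1 ^ 2) ^ (n - 1) * P) ≤
        2 ^ (n + 0 + 2) * (‖t‖ / τ - 1) * ((2 ^ n) ^ 2 * ((lam i0 * τ) ^ 2 * P)) := by
      calc lam i0 * τ * ((c1 ^ 2) ^ (n - 1) * P)
          ≤ lam i0 * τ * ∏ j ∈ Finset.univ.erase i0, gg (lam j * τ) θ :=
            mul_le_mul_of_nonneg_left hprod1 hx0.le
        _ ≤ 2 ^ (n + 0 + 2) * (‖t‖ / τ - 1) * (∏ j, (1 + lam j * τ)) ^ 2 := hk2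
        _ ≤ 2 ^ (n + 0 + 2) * (‖t‖ / τ - 1) * (2 ^ n * ∏ j, (lam j * τ)) ^ 2 := by
            refine mul_le_mul_of_nonneg_left (pow_le_pow_left₀ ?_ hprod2 2) (by positivity)
            exact Finset.prod_nonneg fun j _ => by linarith [hx1 j]
        _ = _ := by rw [mul_pow, hprod3]
    have h2 : ((2 : ℝ) ^ n) ^ 2 = 4 ^ n := by
      rw [← pow_mul, mul_comm, pow_mul]; norm_num
    rw [h2] at h1
    rw [hc3, div_le_iff₀ (by positivity)]
    have h3 : 0 < lam i0 * τ * P := by positivity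
    refine le_of_mul_le_mul_left ?_ h3
    calc lam i0 * τ * P * (c1 ^ 2) ^ (n - 1) = lam i0 * τ * ((c1 ^ 2) ^ (n - 1) * P) := by ring
      _ ≤ _ := h1
      _ = _ := by ring
  have hDC := (htau θ τ ⟨hθ0, hθ2⟩ hcv).2
  rw [hdl] at hDC ⊢
  have hC1 : lam i0 * C0 / c3 ≤ Cc := le_max_left _ _
  have hC2 : 4 * 2 ^ A.natDegree ≤ Cc := le_max_right _ _
  have hC4 : 4 ≤ Cc := by
    have : (1 : ℝ) ≤ 2 ^ A.natDegree := one_le_pow₀ (by norm_num)
    linarith
  have hlast : τ * (1 + D / Cc) ≤ ‖t‖ := by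
    have h1 : D / Cc ≤ ‖t‖ / τ - 1 := by
      rw [div_le_iff₀ hCc0]
      rw [div_le_iff₀ hc30] at hC1
      -- D * c3 ≤ D * y * lam τ ≤ y * lam * C0 ≤ y * Cc * c3
      have h2 : D * c3 ≤ D * ((‖t‖ / τ - 1) * (lam i0 * τ)) := mul_le_mul_of_nonneg_left hmain hD0.le
      have h3 : D * ((‖t‖ / τ - 1) * (lam i0 * τ)) = (‖t‖ / τ - 1) * (lam i0 * (τ * D)) := by ring
      have h4 : (‖t‖ / τ - 1) * (lam i0 * (τ * D)) ≤ (‖t‖ / τ - 1) * (lam i0 * C0) :=
        mul_le_mul_of_nonneg_left (mul_le_mul_of_nonneg_left hDC (hlam _).le) hy.le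
      have h5 : (‖t‖ / τ - 1) * (lam i0 * C0) ≤ (‖t‖ / τ - 1) * (Cc * c3) :=
        mul_le_mul_of_nonneg_left hC1 hy.le
      have h6 : c3 * D ≤ c3 * ((‖t‖ / τ - 1) * Cc) := by nlinarith
      exact le_of_mul_le_mul_left h6 hc30
    have h7 : τ * (1 + D / Cc) ≤ τ * (‖t‖ / τ) := mul_le_mul_of_nonneg_left (by linarith) hτ.le
    rwa [mul_div_cancel₀ _ hτ.ne'] at h7
  have hn1 : ‖(τ : ℂ) * ee θ‖ = τ := by
    rw [norm_mul, b3_ne, mul_one, Complex.norm_real, Real.norm_of_nonneg hτ.le]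
  obtain ⟨ha1, ha2⟩ := hR (τ * ee θ) (by rw [hn1]; exact hτR)
  obtain ⟨hb1, hb2⟩ := hR t (by linarith)
  rw [hn1] at ha1 ha2
  have ha : 0 < |A.leadingCoeff| := abs_pos.2 (leadingCoeff_ne_zero.2 hA)
  have ht0 : 0 < ‖t‖ := by linarith
  refine ⟨hlast, ?_, ?_, ?_⟩
  · have h1 : ‖t‖ ^ A.natDegree ≤ (2 * τ) ^ A.natDegree :=
      pow_le_pow_left₀ ht0.le (by linarith) _
    rw [mul_pow] at h1
    calc ‖aeval t A‖ ≤ 2 * (|A.leadingCoeff| * ‖t‖ ^ A.natDegree) := hb2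
      _ ≤ 2 * (|A.leadingCoeff| * (2 ^ A.natDegree * τ ^ A.natDegree)) := by gcongr
      _ = 4 * 2 ^ A.natDegree * (|A.leadingCoeff| * τ ^ A.natDegree / 2) := by ring
      _ ≤ 4 * 2 ^ A.natDegree * ‖aeval ((τ : ℂ) * ee θ) A‖ := by gcongr
      _ ≤ Cc * ‖aeval ((τ : ℂ) * ee θ) A‖ := by gcongr
  · have h1 : τ ^ A.natDegree ≤ ‖t‖ ^ A.natDegree := pow_le_pow_left₀ hτ.le hk1.le _
    calc ‖aeval ((τ : ℂ) * ee θ) A‖ ≤ 2 * (|A.leadingCoeff| * τ ^ A.natDegree) := ha2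
      _ ≤ 2 * (|A.leadingCoeff| * ‖t‖ ^ A.natDegree) := by gcongr
      _ = 4 * (|A.leadingCoeff| * ‖t‖ ^ A.natDegree / 2) := by ring
      _ ≤ 4 * ‖aeval t A‖ := by gcongr
      _ ≤ Cc * ‖aeval t A‖ := by gcongr
  · intro h0
    rw [h0, norm_zero] at hb1
    have : 0 < |A.leadingCoeff| * ‖t‖ ^ A.natDegree / 2 := by positivity
    linarith

end Pool.Agent.H630Z
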