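import Pool.Agent.H630Z.B0
import Pool.Agent.H630Z.A7
set_option autoImplicit false

open Polynomial

namespace Pool.Agent.H630Z


theorem b4_half {θ ψ : ℝ} (h0 : 0 < θ) (h1 : θ ≤ ψ) (h2 : ψ < Real.pi - θ) :
    1 / 2 < xx θ ψ := by
  unfold xx
  have hs : 0 < Real.sin (θ + ψ) := Real.sin_pos_of_pos_of_lt_pi (by linarith) (by linarith)
  have hψ : 0 < Real.sin ψ := Real.sin_pos_of_pos_of_lt_pi (by linarith) (by linarith)
  have hθ : 0 < Real.sin θ := Real.sin_pos_of_pos_of_lt_pi (by linarith) (by linarith)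
  rw [lt_div_iff₀ hs, Real.sin_add]
  have h3 : Real.sin θ ≤ Real.sin ψ := by
    have h := Real.sin_sub_sin ψ θ
    have a1 : 0 ≤ Real.sin ((ψ - θ) / 2) :=
      Real.sin_nonneg_of_nonneg_of_le_pi (by linarith) (by linarith)
    have a2 : 0 ≤ Real.cos ((ψ + θ) / 2) :=
      Real.cos_nonneg_of_neg_pi_div_two_le_of_le (by linarith) (by linarith)
    have a3 : 0 ≤ 2 * Real.sin ((ψ - θ) / 2) * Real.cos ((ψ + θ) / 2) := by positivity
    linarith
  have h4 : Real.cos θ < 1 := by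
    rw [← Real.cos_zero]
    exact Real.cos_lt_cos_of_nonneg_of_le_pi le_rfl (by linarith) h0
  have h5 : Real.cos ψ ≤ 1 := Real.cos_le_one _
  have h6 : Real.sin θ * Real.cos ψ ≤ Real.sin θ := by nlinarith
  have h7 : Real.cos θ * Real.sin ψ < Real.sin ψ := by nlinarith
  linarith

theorem b4_inv (θ ψ : ℝ) : xx θ (Real.pi - θ - ψ) = (xx θ ψ)⁻¹ := by
  unfold xx
  rw [inv_div]
  have e1 : Real.sin (Real.pi - θ - ψ) = Real.sin (θ + ψ) := by
    rw [← Real.sin_pi_sub (θ + ψ)]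
    congr 1
    ring
  have e2 : Real.sin (θ + (Real.pi - θ - ψ)) = Real.sin ψ := by
    rw [← Real.sin_pi_sub ψ]
    congr 1
    ring
  rw [e1, e2]

theorem b4_pos {θ ψ : ℝ} (h0 : 0 < θ) (h1 : 0 < ψ) (h2 : ψ < Real.pi - θ) : 0 < xx θ ψ := by
  unfold xx
  apply div_pos
  · exact Real.sin_pos_of_pos_of_lt_pi (by linarith) (by linarith)
  · exact Real.sin_pos_of_pos_of_lt_pi (by linarith) (by linarith)

theorem b4_two {θ ψ : ℝ} (h0 : 0 < θ) (h1 : 0 < ψ) (h2 : ψ ≤ Real.pi - 2 * θ) :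
    xx θ ψ < 2 := by
  have h3 := b4_half (θ := θ) (ψ := Real.pi - θ - ψ) h0 (by linarith) (by linarith)
  rw [b4_inv] at h3
  have h4 : 0 < xx θ ψ := b4_pos h0 h1 (by linarith)
  have h5 := (lt_inv_comm₀ (by norm_num) h4).1 h3
  norm_num at h5
  exact h5

theorem b4_cot {θ a b : ℝ} (h0 : 0 < θ) (ha : 0 < a) (hb : 0 < b) (ha' : a < Real.pi - θ)
    (hb' : b < Real.pi - θ) (hab : a + b ≤ Real.pi) :
    2 * Real.cos θ ≤ (xx θ a)⁻¹ + (xx θ b)⁻¹ := by
  unfold xx
  rw [inv_div, inv_div]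
  have sa : 0 < Real.sin a := Real.sin_pos_of_pos_of_lt_pi (by linarith) (by linarith)
  have sb : 0 < Real.sin b := Real.sin_pos_of_pos_of_lt_pi (by linarith) (by linarith)
  have st : 0 < Real.sin θ := Real.sin_pos_of_pos_of_lt_pi (by linarith) (by linarith)
  have sab : 0 ≤ Real.sin (a + b) := Real.sin_nonneg_of_nonneg_of_le_pi (by linarith) hab
  have key : Real.sin (θ + a) / Real.sin a + Real.sin (θ + b) / Real.sin b - 2 * Real.cos θ =
      Real.sin θ * Real.sin (a + b) / (Real.sin a * Real.sin b) := by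
    rw [Real.sin_add, Real.sin_add, Real.sin_add]
    field_simp
    ring
  have : 0 ≤ Real.sin θ * Real.sin (a + b) / (Real.sin a * Real.sin b) := by positivity
  linarith

theorem b4_rho {n : ℕ} (lam : Fin n → ℝ) (hlam : ∀ i, 0 < lam i) (i0 : Fin n)
    (hi0 : ∀ j, j ≠ i0 → lam j < lam i0) :
    ∃ ρ : ℝ, 0 < ρ ∧ ρ < 1 ∧ ∀ j, j ≠ i0 → lam j ≤ ρ * lam i0 := by
  by_cases hne : (Finset.univ.erase i0).Nonempty
  · obtain ⟨k, hk, hmax⟩ := Finset.exists_max_image _ lam hne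
    refine ⟨lam k / lam i0, div_pos (hlam k) (hlam i0),
      (div_lt_one (hlam i0)).2 (hi0 k (Finset.ne_of_mem_erase hk)), fun j hj => ?_⟩
    rw [div_mul_cancel₀ _ (hlam i0).ne']
    exact hmax j (Finset.mem_erase.2 ⟨hj, Finset.mem_univ _⟩)
  · exact ⟨1 / 2, by norm_num, by norm_num,
      fun j hj => absurd ⟨j, Finset.mem_erase.2 ⟨hj, Finset.mem_univ _⟩⟩ hne⟩

/-- Left end when the largest `lam` is simple: no near roots.  Proof: let `ψ` be from `Cv`, `x i = lam i τ`,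
`cot (ψ i) = (1/x i - cos θ)/sin θ` (i.e. `cos (ψ i) sin θ x i = (1 - x i cos θ) sin (ψ i)`).
(1) For `j ≠ i0`: `ψ i0 + ψ j ≤ ∑ ψ = π - r θ ≤ π`, so `sin (ψ i0 + ψ j) ≥ 0`, i.e. `cot ψ i0 + cot ψ j ≥ 0`, i.e.
`1/x i0 + 1/x j ≥ 2 cos θ`.  With `ρ < 1` a bound for all `lam j / lam i0` (`j ≠ i0`): `1/x i0 ≤ ρ / x j`, so `x j ≤ (1+ρ)/(2 cos θ) ≤ ρ' < 1`
for `θ ≤ δ0`.  (2) then `cot (ψ j) ≥ (1/ρ' - 1)/sin θ`, so `ψ j < π/2`, `ψ j ≤ tan (ψ j) ≤ C1 θ`.  (3) `ψ i0 = π - r θ - ∑_{j≠i0} ψ j ≥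
π - C2 θ`; put `ψ' = π - θ - ψ i0 ∈ (0, C2 θ]`: `x i0 = sin (θ + ψ')/sin ψ'`, and `sin (θ + ψ') - sin ψ' = 2 sin (θ/2) cos (ψ' + θ/2) ≥ c3 θ`,
`sin ψ' ≤ C2 θ`, so `x i0 ≥ 1 + c4`.  (4) `x i0` is bounded above: if `n ≥ 2` then `x i0 = lam i0/lam j · x j ≤ C`; if `n = 1` then
`r ≥ 2`, `ψ i0 = π - r θ`, `x i0 = sin (rθ)/sin ((r-1)θ) ≤ rθ / ((2/π)(r-1)θ) ≤ π`.  (5) `gg (x j) θ ≥ (1 - x j)² ≥ c5 > 0` for all `j`
(as `x ≥ 0`, `cos θ ≤ 1`), so `near_kappa` with `i = i0` gives `‖t‖/τ - 1 ≥ η > 0`; with this `η`, `NearOK` is vacuous. -/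
theorem near_left1 {n r : ℕ} (h : Nd n r) (lam : Fin n → ℝ) (hlam : ∀ i, 0 < lam i)
    (c : ℝ) (hc : 0 < c) (A : ℝ[X]) (i0 : Fin n) (hi0 : ∀ j, j ≠ i0 → lam j < lam i0) :
    ∃ δ0 η : ℝ, 0 < δ0 ∧ 0 < η ∧ ∀ C θ τ : ℝ, 0 < θ → θ ≤ δ0 → θ < Th n r →
      Cv lam r θ τ → NearOK lam c r A η C θ τ := by
  obtain ⟨ρ, hρ0, hρ1, hρ⟩ := b4_rho lam hlam i0 hi0
  set ρ' : ℝ := 2 * (1 + ρ) / (3 + ρ) with hρ'
  have hρ'1 : ρ' < 1 := by
    rw [hρ', div_lt_one (by linarith)]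
    linarith
  have hρ'0 : 0 < ρ' := by positivity
  set K : ℝ := (∑ j, lam i0 / lam j) + 2 with hK
  have hsum0 : 0 ≤ ∑ j, lam i0 / lam j :=
    Finset.sum_nonneg fun j _ => (div_pos (hlam i0) (hlam j)).le
  have hK2 : 2 ≤ K := by rw [hK]; linarith
  set c5 : ℝ := (1 - ρ') ^ 2 with hc5
  have hc5p : 0 < c5 := by
    have : 0 < 1 - ρ' := by linarith
    positivity
  set η : ℝ := 1 / 2 * c5 ^ (n - 1) / (2 ^ (n + r + 2) * ((1 + K) ^ n) ^ 2) with hη
  have hηp : 0 < η := by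
    have : 0 < 1 + K := by linarith
    positivity
  have hnpos : 0 < n := Fin.pos i0
  set δ0 : ℝ := min (min 1 ((1 - ρ) / 2)) (Real.pi / (2 * (n + r))) with hδ0
  have hnr : (0 : ℝ) < n + r := by
    have : (0 : ℝ) < n := by exact_mod_cast hnpos
    positivity
  have hδp : 0 < δ0 := by
    rw [hδ0]
    refine lt_min (lt_min one_pos (by linarith)) ?_
    have := Real.pi_pos
    positivity
  refine ⟨δ0, η, hδp, hηp, ?_⟩
  intro C θ τ hθ hθδ hTh hCv t ht ht1 ht2 hlt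
  exfalso
  have hθ1 : θ ≤ 1 := hθδ.trans ((min_le_left _ _).trans (min_le_left _ _))
  have hθ2 : θ ≤ (1 - ρ) / 2 := hθδ.trans ((min_le_left _ _).trans (min_le_right _ _))
  have hθ3 : θ ≤ Real.pi / (2 * (n + r)) := hθδ.trans (min_le_right _ _)
  have hτ := hCv.pos
  obtain ⟨ψ, hadm, hψ0, hx⟩ := hCv.adm
  have hπ := Real.pi_pos
  -- cosine bound
  have hcos : (3 + ρ) / 4 ≤ Real.cos θ := by
    have h1 := Real.one_sub_sq_div_two_le_cos (x := θ)
    nlinarith
  have hxpos : ∀ i, 0 < lam i * τ := fun i => mul_pos (hlam i) hτ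
  -- the largest x is at least one half
  have hhalf : 1 / 2 < lam i0 * τ := by
    have hex : ∃ j, θ ≤ ψ j := by
      by_contra hcon
      push Not at hcon
      have h1 : ∑ j, ψ j ≤ ∑ _j : Fin n, θ := Finset.sum_le_sum fun j _ => (hcon j).le
      rw [hadm.sum, Finset.sum_const, Finset.card_univ, Fintype.card_fin, nsmul_eq_mul] at h1
      have h2 : Real.pi ≤ (n + r) * θ := by linarith
      have h3 : (n + r) * θ ≤ (n + r) * (Real.pi / (2 * (n + r))) :=
        mul_le_mul_of_nonneg_left hθ3 hnr.le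
      have h4 : ((n : ℝ) + r) * (Real.pi / (2 * (n + r))) = Real.pi / 2 := by
        field_simp
      linarith
    obtain ⟨j, hj⟩ := hex
    have h1 := b4_half hθ hj (hadm.lt' j)
    rw [hx j] at h1
    by_cases hji : j = i0
    · rw [← hji]; exact h1
    · have := hi0 j hji
      have : lam j * τ ≤ lam i0 * τ := mul_le_mul_of_nonneg_right this.le hτ.le
      linarith
  -- the others are at most ρ'
  have hoth : ∀ j, j ≠ i0 → lam j * τ ≤ ρ' := by
    intro j hj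
    have hsum : ψ i0 + ψ j ≤ Real.pi := by
      have h1 : ∑ k ∈ ({i0, j} : Finset (Fin n)), ψ k ≤ ∑ k, ψ k :=
        Finset.sum_le_sum_of_subset_of_nonneg (Finset.subset_univ _)
          fun k _ _ => (hψ0 k).le
      rw [Finset.sum_pair (Ne.symm hj), hadm.sum] at h1
      have : (0 : ℝ) ≤ r * θ := by positivity
      linarith
    have h2 := b4_cot hθ (hψ0 i0) (hψ0 j) (hadm.lt' i0) (hadm.lt' j) hsum
    rw [hx i0, hx j] at h2
    have h3 : (lam i0 * τ)⁻¹ ≤ ρ * (lam j * τ)⁻¹ := by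
      rw [inv_eq_one_div, inv_eq_one_div, mul_one_div, div_le_div_iff₀ (hxpos i0) (hxpos j)]
      have := mul_le_mul_of_nonneg_right (hρ j hj) hτ.le
      nlinarith
    have h4 : 2 * Real.cos θ ≤ (1 + ρ) * (lam j * τ)⁻¹ := by linarith
    have h5 : (3 + ρ) / 2 ≤ (1 + ρ) * (lam j * τ)⁻¹ := by linarith
    rw [← div_eq_mul_inv, div_le_div_iff₀ (by norm_num) (hxpos j)] at h5
    rw [hρ', le_div_iff₀ (by linarith)]
    nlinarith
  -- upper bound of all
  have hup0 : lam i0 * τ ≤ K := by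
    by_cases hne : ∃ j, j ≠ i0
    · obtain ⟨j, hj⟩ := hne
      have h1 := hoth j hj
      have h2 : lam i0 * τ = lam i0 / lam j * (lam j * τ) := by
        have := (hlam j).ne'
        field_simp
      have h3 : lam i0 / lam j ≤ ∑ k, lam i0 / lam k :=
        Finset.single_le_sum (f := fun k => lam i0 / lam k)
          (fun k _ => (div_pos (hlam i0) (hlam k)).le) (Finset.mem_univ j)
      have h4 : 0 < lam i0 / lam j := div_pos (hlam i0) (hlam j)
      rw [h2]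
      calc lam i0 / lam j * (lam j * τ) ≤ lam i0 / lam j * 1 :=
            mul_le_mul_of_nonneg_left (by linarith) h4.le
        _ ≤ K := by rw [hK]; linarith
    · push Not at hne
      have hr : 2 ≤ r := by
        rcases h with h | h
        · exact h.1
        · exfalso
          have h1 : (⟨0, by omega⟩ : Fin n) = i0 := hne _
          have h2 : (⟨1, by omega⟩ : Fin n) = i0 := hne _
          have h3 := h1.trans h2.symm
          simp at h3
      have hs : ∑ k, ψ k = ψ i0 := Fintype.sum_eq_single i0 fun k hk => absurd (hne k) hk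
      have h1 : ψ i0 = Real.pi - r * θ := by rw [← hs, hadm.sum]
      have h2 : (2 : ℝ) * θ ≤ r * θ := by
        have : (2 : ℝ) ≤ r := by exact_mod_cast hr
        exact mul_le_mul_of_nonneg_right this hθ.le
      have h3 := b4_two hθ (hψ0 i0) (by rw [h1]; linarith)
      rw [hx i0] at h3
      linarith
  have hup : ∀ j, lam j * τ ≤ K := by
    intro j
    by_cases hj : j = i0
    · rw [hj]; exact hup0
    · have := hoth j hj
      linarith
  obtain ⟨hk1, hk2⟩ := near_kappa h lam hlam c hc hCv t ht ht1 ht2 i0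
  have hpos1 : 0 < ‖t‖ / τ - 1 := by
    rw [sub_pos, lt_div_iff₀ hτ]
    linarith
  have hlow : 1 / 2 * c5 ^ (n - 1) ≤
      lam i0 * τ * ∏ j ∈ Finset.univ.erase i0, gg (lam j * τ) θ := by
    have h1 : c5 ^ (n - 1) ≤ ∏ j ∈ Finset.univ.erase i0, gg (lam j * τ) θ := by
      have hcard : (Finset.univ.erase i0 : Finset (Fin n)).card = n - 1 := by
        rw [Finset.card_erase_of_mem (Finset.mem_univ _), Finset.card_univ, Fintype.card_fin]
      rw [← hcard, ← Finset.prod_const]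
      apply Finset.prod_le_prod
      · intro j _
        exact hc5p.le
      · intro j hj
        have hj' := Finset.ne_of_mem_erase hj
        have h2 := hoth j hj'
        have h3 := hxpos j
        have h4 := Real.cos_le_one θ
        rw [hc5]
        unfold gg
        nlinarith [mul_nonneg h3.le (sub_nonneg.2 h4)]
    exact mul_le_mul hhalf.le h1 (by positivity) (hxpos i0).le
  have hprod : ∏ j, (1 + lam j * τ) ≤ (1 + K) ^ n := by
    calc ∏ j, (1 + lam j * τ) ≤ ∏ _j : Fin n, (1 + K) := by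
          apply Finset.prod_le_prod
          · intro j _
            have := hxpos j
            linarith
          · intro j _
            have := hup j
            linarith
      _ = (1 + K) ^ n := by rw [Finset.prod_const, Finset.card_univ, Fintype.card_fin]
  have hprod0 : 0 ≤ ∏ j, (1 + lam j * τ) := by
    apply Finset.prod_nonneg
    intro j _
    have := hxpos j
    linarith
  have hfin : 1 / 2 * c5 ^ (n - 1) ≤
      2 ^ (n + r + 2) * (‖t‖ / τ - 1) * ((1 + K) ^ n) ^ 2 := by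
    refine (hlow.trans hk2).trans ?_
    apply mul_le_mul_of_nonneg_left _ (by positivity)
    exact pow_le_pow_left₀ hprod0 hprod 2
  have hη2 : η ≤ ‖t‖ / τ - 1 := by
    have hK1 : 0 < 1 + K := by linarith
    rw [hη, div_le_iff₀ (by positivity)]
    calc 1 / 2 * c5 ^ (n - 1) ≤ 2 ^ (n + r + 2) * (‖t‖ / τ - 1) * ((1 + K) ^ n) ^ 2 := hfin
      _ = (‖t‖ / τ - 1) * (2 ^ (n + r + 2) * ((1 + K) ^ n) ^ 2) := by ring
  have : ‖t‖ / τ < 1 + η := by
    rw [div_lt_iff₀ hτ]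
    exact hlt
  linarith

end Pool.Agent.H630Z
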