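import Pool.Agent.H630Z.Defs2
import Pool.Agent.H630Z.A7
set_option autoImplicit false

open Polynomial

namespace Pool.Agent.H630Z


/-- `xx θ` is injective on `(0, π - θ)` -/
theorem b5_inj {θ a b : ℝ} (h0 : 0 < θ) (hθ : θ < Real.pi) (ha : 0 < a) (ha' : a < Real.pi - θ)
    (hb : 0 < b) (hb' : b < Real.pi - θ) (h : xx θ a = xx θ b) : a = b := by
  have hSa : 0 < Real.sin (θ + a) := Real.sin_pos_of_pos_of_lt_pi (by linarith) (by linarith)
  have hSb : 0 < Real.sin (θ + b) := Real.sin_pos_of_pos_of_lt_pi (by linarith) (by linarith)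
  have hs : 0 < Real.sin θ := Real.sin_pos_of_pos_of_lt_pi h0 hθ
  unfold xx at h
  rw [div_eq_div_iff hSa.ne' hSb.ne', Real.sin_add, Real.sin_add] at h
  have h2 : Real.sin θ * Real.sin (a - b) = 0 := by
    rw [Real.sin_sub]; linarith
  have h3 : Real.sin (a - b) = 0 := by
    rcases mul_eq_zero.mp h2 with h4 | h4
    · exact absurd h4 hs.ne'
    · exact h4
  have h4 := (Real.sin_eq_zero_iff_of_lt_of_lt (by linarith) (by linarith)).mp h3
  linarith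

/-- a bound for the quotients `lam j / lam i0 < 1` -/
theorem b5_rho {n : ℕ} (lam : Fin n → ℝ) (hlam : ∀ i, 0 < lam i) (i0 : Fin n)
    (hmax : ∀ j, lam j ≤ lam i0) :
    ∃ ρ0 : ℝ, 0 < ρ0 ∧ ρ0 < 1 ∧ ∀ j, lam j ≠ lam i0 → lam j ≤ ρ0 * lam i0 := by
  classical
  let f : Fin n → ℝ := fun j => if lam j = lam i0 then 1 / 2 else lam j / lam i0
  have hne : (Finset.univ : Finset (Fin n)).Nonempty := ⟨i0, Finset.mem_univ _⟩
  refine ⟨Finset.univ.sup' hne f, ?_, ?_, ?_⟩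
  · have h1 : f i0 ≤ Finset.univ.sup' hne f := Finset.le_sup' f (Finset.mem_univ i0)
    have h2 : f i0 = 1 / 2 := by simp [f]
    rw [h2] at h1
    linarith
  · rw [Finset.sup'_lt_iff]
    intro j _
    by_cases hj : lam j = lam i0
    · simp only [f, hj, if_true]; norm_num
    · simp only [f, hj, if_false]
      rw [div_lt_one (hlam i0)]
      exact lt_of_le_of_ne (hmax j) hj
  · intro j hj
    have h1 : f j ≤ Finset.univ.sup' hne f := Finset.le_sup' f (Finset.mem_univ j)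
    have h2 : f j = lam j / lam i0 := by simp only [f, hj, if_false]
    rw [h2, div_le_iff₀ (hlam i0)] at h1
    exact h1

/-- `√ gg (xx θ ψ) θ = sin θ / sin (θ + ψ)` -/
theorem b5_gg {θ ψ : ℝ} (hS : 0 < Real.sin (θ + ψ)) (hs : 0 ≤ Real.sin θ) :
    Real.sqrt (gg (xx θ ψ) θ) = Real.sin θ / Real.sin (θ + ψ) := by
  have h1 : gg (xx θ ψ) θ = (Real.sin θ / Real.sin (θ + ψ)) ^ 2 := by
    unfold gg xx
    have h2 : Real.sin (θ + ψ) ^ 2 - 2 * Real.sin ψ * Real.cos θ * Real.sin (θ + ψ) +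
        Real.sin ψ ^ 2 = Real.sin θ ^ 2 := by
      rw [Real.sin_add]
      have h3 := Real.sin_sq_add_cos_sq ψ
      have h4 := Real.sin_sq_add_cos_sq θ
      have h5 : Real.cos ψ ^ 2 = 1 - Real.sin ψ ^ 2 := by linarith
      have h6 : Real.cos θ ^ 2 = 1 - Real.sin θ ^ 2 := by linarith
      ring_nf
      rw [h5, h6]
      ring
    have h3 : Real.sin (θ + ψ) ≠ 0 := hS.ne'
    rw [div_pow, div_pow, eq_div_iff (pow_ne_zero 2 h3), ← h2]
    field_simp
  rw [h1, Real.sqrt_sq (div_nonneg hs hS.le)]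

/-- Left end, the largest `lam` has multiplicity `k ≥ 2`: estimates.  Proof: let `ψ` be from `Cv`, `x j = lam j τ`,
`x = x i0`, `K = {j | lam j = lam i0}`, `k = #K ≥ 2`.  `xx θ` is injective on `(0, π - θ)` (`cot ψ = (1/x - cos θ)/sin θ`), so all `ψ j`,
`j ∈ K`, are equal to `ψ := ψ i0`, `k ψ ≤ ∑ ψ j = π - r θ ≤ π`, so `ψ ≤ π/2` and `cot ψ ≥ 0`, `1/x ≥ cos θ`, `x ≤ 1/cos θ ≤ 1 + θ` (`θ` small).
For `j ∉ K`: `lam j ≤ ρ0 lam i0` with `ρ0 < 1`, so `x j ≤ ρ0 / cos θ ≤ ρ < 1` and `cot (ψ j) = (1/x j - cos θ)/sin θ ≥ (1/ρ - 1)/sin θ`, so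
`ψ j ≤ tan (ψ j) ≤ C1 θ`.  So `k ψ ≥ π - C2 θ`, `ψ ≥ π/(2k)` for `θ` small, `1/x = cos θ + sin θ cot ψ ≤ 1 + C3 θ`.
`√(gg x θ) = sin θ / sin (θ + ψ)` (`x = sin ψ/sin (θ+ψ)`), with `π/(2k) ≤ θ + ψ ≤ π/2 + δ0`, `sin (θ + ψ) ∈ [c4, 1]`. -/
theorem left_a {n r : ℕ} (h : Nd n r) (lam : Fin n → ℝ) (hlam : ∀ i, 0 < lam i)
    (i0 i1 : Fin n) (h01 : i1 ≠ i0) (he : lam i1 = lam i0) (hmax : ∀ j, lam j ≤ lam i0) :
    ∃ δ0 c0 C0 ρ : ℝ, 0 < δ0 ∧ 0 < c0 ∧ 0 < C0 ∧ ρ < 1 ∧ ∀ θ τ : ℝ, 0 < θ → θ ≤ δ0 →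
      Cv lam r θ τ → |lam i0 * τ - 1| ≤ C0 * θ ∧ c0 * θ ≤ Real.sqrt (gg (lam i0 * τ) θ) ∧
        Real.sqrt (gg (lam i0 * τ) θ) ≤ C0 * θ ∧ ∀ j, lam j ≠ lam i0 → lam j * τ ≤ ρ := by
  classical
  obtain ⟨ρ0, hρ0, hρ1, hρ⟩ := b5_rho lam hlam i0 hmax
  have hn : 0 < n := i0.pos
  have hnR : (1 : ℝ) ≤ n := by exact_mod_cast hn
  set ρ : ℝ := (1 + ρ0) / 2 with hρdef
  have hρlt : ρ < 1 := by rw [hρdef]; linarith
  have hρpos : 0 < ρ := by rw [hρdef]; linarith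
  set C1 : ℝ := 2 / (1 - ρ) with hC1
  have hC1pos : 0 < C1 := div_pos two_pos (by linarith)
  have hden : 0 < (r : ℝ) + n * C1 := by
    have : (0 : ℝ) ≤ r := Nat.cast_nonneg r
    have h2 : 0 < (n : ℝ) * C1 := mul_pos (by linarith) hC1pos
    linarith
  refine ⟨min 1 (min ((1 - ρ0) / 2) (1 / ((r : ℝ) + n * C1))), 1 / 2, Real.pi * n, ρ, ?_, by norm_num,
    mul_pos Real.pi_pos (by linarith), hρlt, ?_⟩
  · refine lt_min one_pos (lt_min (by linarith) (one_div_pos.mpr hden))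
  intro θ τ hθ0 hθδ hCv
  obtain ⟨hτ, ψ, hadm, hψpos, hxx⟩ := hCv
  have hθ1 : θ ≤ 1 := le_trans hθδ (min_le_left _ _)
  have hθ2 : θ ≤ (1 - ρ0) / 2 := le_trans hθδ (le_trans (min_le_right _ _) (min_le_left _ _))
  have hθ3 : θ ≤ 1 / ((r : ℝ) + n * C1) :=
    le_trans hθδ (le_trans (min_le_right _ _) (min_le_right _ _))
  have hθ3' : θ * ((r : ℝ) + n * C1) ≤ 1 := by
    rwa [le_div_iff₀ hden] at hθ3
  have hpi := Real.pi_gt_three
  have hpi4 := Real.pi_le_four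
  have hsθ : 0 < Real.sin θ := Real.sin_pos_of_pos_of_lt_pi hθ0 (by linarith)
  have hsθle : Real.sin θ ≤ θ := Real.sin_le hθ0.le
  have hcosθ : 1 - θ ^ 2 / 2 ≤ Real.cos θ := Real.one_sub_sq_div_two_le_cos
  have hcosθ1 : Real.cos θ ≤ 1 := Real.cos_le_one θ
  have hcosθ2 : 1 / 2 ≤ Real.cos θ := by nlinarith
  have hSpos : ∀ j, 0 < Real.sin (θ + ψ j) := fun j =>
    Real.sin_pos_of_pos_of_lt_pi (by linarith [hψpos j]) (by linarith [hadm.lt' j])
  have hspos : ∀ j, 0 < Real.sin (ψ j) := fun j =>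
    Real.sin_pos_of_pos_of_lt_pi (hψpos j) (by linarith [hadm.lt' j])
  -- all equal on K
  have hK : ∀ j, lam j = lam i0 → ψ j = ψ i0 := by
    intro j hj
    refine b5_inj hθ0 hadm.lt (hψpos j) (hadm.lt' j) (hψpos i0) (hadm.lt' i0) ?_
    rw [hxx j, hxx i0, hj]
  -- ψ i0 ≤ π / 2
  have hrθ : 0 ≤ (r : ℝ) * θ := mul_nonneg (Nat.cast_nonneg r) hθ0.le
  have hψ2 : ψ i0 ≤ Real.pi / 2 := by
    have h1 : ψ i1 + ψ i0 ≤ ∑ i, ψ i := by
      have h2 : ∑ i ∈ ({i1, i0} : Finset (Fin n)), ψ i ≤ ∑ i, ψ i :=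
        Finset.sum_le_sum_of_subset_of_nonneg (Finset.subset_univ _)
          (fun i _ _ => (hψpos i).le)
      rwa [Finset.sum_pair h01] at h2
    rw [hK i1 he, hadm.sum] at h1
    linarith
  have hcψ : 0 ≤ Real.cos (ψ i0) :=
    Real.cos_nonneg_of_neg_pi_div_two_le_of_le (by linarith [hψpos i0]) hψ2
  -- the equation x sin (θ + ψ) = sin ψ
  have heq : ∀ j, lam j * τ * Real.sin (θ + ψ j) = Real.sin (ψ j) := by
    intro j
    have h1 := hxx j
    unfold xx at h1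
    rw [div_eq_iff (hSpos j).ne'] at h1
    linarith
  have hxpos : ∀ j, 0 < lam j * τ := fun j => mul_pos (hlam j) hτ
  -- x cos θ ≤ 1
  have hxcos : lam i0 * τ * Real.cos θ ≤ 1 := by
    have h1 := heq i0
    rw [Real.sin_add] at h1
    have h2 : 0 ≤ lam i0 * τ * (Real.sin θ * Real.cos (ψ i0)) :=
      mul_nonneg (hxpos i0).le (mul_nonneg hsθ.le hcψ)
    have h3 : lam i0 * τ * Real.cos θ * Real.sin (ψ i0) ≤ 1 * Real.sin (ψ i0) := by
      nlinarith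
    exact le_of_mul_le_mul_right h3 (hspos i0)
  have hx1 : lam i0 * τ ≤ 1 + θ := by
    have h1 : lam i0 * τ * Real.cos θ ≤ (1 + θ) * Real.cos θ := by
      have h2 : 1 ≤ (1 + θ) * Real.cos θ := by
        have h3 : 1 ≤ (1 + θ) * (1 - θ ^ 2 / 2) := by
          nlinarith [mul_nonneg hθ0.le (sub_nonneg.mpr hθ1),
            mul_nonneg (mul_nonneg hθ0.le hθ0.le) (sub_nonneg.mpr hθ1)]
        have h4 : (1 + θ) * (1 - θ ^ 2 / 2) ≤ (1 + θ) * Real.cos θ :=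
          mul_le_mul_of_nonneg_left hcosθ (by linarith)
        linarith
      linarith
    exact le_of_mul_le_mul_right h1 (by linarith)
  -- the other lam
  have hother : ∀ j, lam j ≠ lam i0 → lam j * τ ≤ ρ := by
    intro j hj
    have h1 := hρ j hj
    have h2 : lam j * τ ≤ ρ0 * (lam i0 * τ) := by
      have := mul_le_mul_of_nonneg_right h1 hτ.le
      linarith
    have h3 : ρ0 * (lam i0 * τ) ≤ ρ0 * (1 + θ) := mul_le_mul_of_nonneg_left hx1 hρ0.le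
    have h4 : ρ0 * (1 + θ) ≤ ρ := by
      rw [hρdef]
      nlinarith [mul_nonneg hρ0.le (sub_nonneg.mpr hθ2)]
    linarith
  have hψj : ∀ j, lam j ≠ lam i0 → ψ j ≤ C1 * θ := by
    intro j hj
    have hy := hother j hj
    have h1 := heq j
    rw [Real.sin_add] at h1
    set y := lam j * τ with hydef
    have hy0 : 0 < y := hxpos j
    have h2 : Real.sin (ψ j) * (1 - y * Real.cos θ) = y * Real.sin θ * Real.cos (ψ j) := by
      linarith
    have h3 : 1 - ρ ≤ 1 - y * Real.cos θ := by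
      have : y * Real.cos θ ≤ y * 1 := mul_le_mul_of_nonneg_left hcosθ1 hy0.le
      linarith
    have h4 : 0 < Real.sin (ψ j) * (1 - y * Real.cos θ) :=
      mul_pos (hspos j) (by linarith)
    have h5 : 0 < Real.cos (ψ j) := by
      rw [h2] at h4
      exact (pos_iff_pos_of_mul_pos h4).mp (mul_pos hy0 hsθ)
    have h6 : ψ j ≤ Real.pi / 2 := by
      by_contra hc
      have h7 : Real.cos (ψ j) ≤ 0 :=
        Real.cos_nonpos_of_pi_div_two_le_of_le (by linarith) (by linarith [hadm.lt' j])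
      linarith
    have h7 : 2 / Real.pi * ψ j ≤ Real.sin (ψ j) := Real.mul_le_sin (hψpos j).le h6
    have h8 : Real.sin (ψ j) * (1 - ρ) ≤ θ := by
      have h9 : Real.sin (ψ j) * (1 - ρ) ≤ Real.sin (ψ j) * (1 - y * Real.cos θ) :=
        mul_le_mul_of_nonneg_left h3 (hspos j).le
      have h10 : y * Real.sin θ * Real.cos (ψ j) ≤ 1 * θ * 1 := by
        refine mul_le_mul (mul_le_mul (by linarith) hsθle hsθ.le (by norm_num))
          (Real.cos_le_one _) h5.le (by linarith)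
      linarith
    have h9 : ψ j ≤ 2 * Real.sin (ψ j) := by
      have h10 : 1 / 2 * ψ j ≤ 2 / Real.pi * ψ j := by
        refine mul_le_mul_of_nonneg_right ?_ (hψpos j).le
        rw [div_le_div_iff₀ two_pos Real.pi_pos]
        linarith
      linarith
    rw [hC1, div_mul_eq_mul_div, le_div_iff₀ (by linarith)]
    nlinarith [mul_le_mul_of_nonneg_right h9 (by linarith : (0:ℝ) ≤ 1 - ρ)]
  -- lower bound for ψ i0
  have hψlow : 1 ≤ n * ψ i0 := by
    have h1 : ∑ i, ψ i ≤ ∑ _i : Fin n, (ψ i0 + C1 * θ) := by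
      refine Finset.sum_le_sum (fun j _ => ?_)
      by_cases hj : lam j = lam i0
      · rw [hK j hj]
        have : 0 < C1 * θ := mul_pos hC1pos hθ0
        linarith
      · have := hψj j hj
        linarith [hψpos i0]
    rw [Finset.sum_const, Finset.card_univ, Fintype.card_fin, nsmul_eq_mul, hadm.sum] at h1
    nlinarith
  -- lower bound for sin (θ + ψ)
  have hSlow : 1 ≤ Real.pi * n * Real.sin (θ + ψ i0) := by
    have h1 : 2 / Real.pi * ψ i0 ≤ Real.sin (ψ i0) := Real.mul_le_sin (hψpos i0).le hψ2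
    have h2 : 1 / 2 * Real.sin (ψ i0) ≤ Real.sin (θ + ψ i0) := by
      rw [Real.sin_add]
      have h3 : 0 ≤ Real.sin θ * Real.cos (ψ i0) := mul_nonneg hsθ.le hcψ
      have h4 : 1 / 2 * Real.sin (ψ i0) ≤ Real.cos θ * Real.sin (ψ i0) :=
        mul_le_mul_of_nonneg_right hcosθ2 (hspos i0).le
      linarith
    have h3 : ψ i0 / Real.pi ≤ Real.sin (θ + ψ i0) := by
      have h4 : ψ i0 / Real.pi = 1 / 2 * (2 / Real.pi * ψ i0) := by ring
      linarith
    have h4 : ψ i0 ≤ Real.sin (θ + ψ i0) * Real.pi := by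
      rwa [div_le_iff₀ Real.pi_pos] at h3
    have h5 : (n : ℝ) * ψ i0 ≤ n * (Real.sin (θ + ψ i0) * Real.pi) :=
      mul_le_mul_of_nonneg_left h4 (by linarith)
    linarith
  have hS := hSpos i0
  have hS1 : Real.sin (θ + ψ i0) ≤ 1 := Real.sin_le_one _
  have hx : lam i0 * τ = xx θ (ψ i0) := (hxx i0).symm
  have hgg : Real.sqrt (gg (lam i0 * τ) θ) = Real.sin θ / Real.sin (θ + ψ i0) := by
    rw [hx]; exact b5_gg hS hsθ.le
  refine ⟨?_, ?_, ?_, hother⟩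
  · have h1 : lam i0 * τ - 1 = (Real.sin (ψ i0) - Real.sin (θ + ψ i0)) / Real.sin (θ + ψ i0) := by
      rw [hx, xx, sub_div, div_self hS.ne']
    have h2 : |Real.sin (ψ i0) - Real.sin (θ + ψ i0)| ≤ θ := by
      have h3 : |Real.sin (ψ i0) - Real.sin (θ + ψ i0)| ≤ |ψ i0 - (θ + ψ i0)| := by
        have := Real.abs_sin_sub_sin_le (ψ i0) (θ + ψ i0)
        exact this
      have h4 : |ψ i0 - (θ + ψ i0)| = θ := by
        have : ψ i0 - (θ + ψ i0) = -θ := by ring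
        rw [this, abs_neg, abs_of_pos hθ0]
      linarith
    rw [h1, abs_div, abs_of_pos hS, div_le_iff₀ hS]
    nlinarith [mul_le_mul_of_nonneg_left hSlow hθ0.le]
  · rw [hgg, le_div_iff₀ hS]
    have h1 : 2 / Real.pi * θ ≤ Real.sin θ := Real.mul_le_sin hθ0.le (by linarith)
    have h2 : 1 / 2 * θ ≤ 2 / Real.pi * θ := by
      refine mul_le_mul_of_nonneg_right ?_ hθ0.le
      rw [div_le_div_iff₀ two_pos Real.pi_pos]
      linarith
    have h3 : 1 / 2 * θ * Real.sin (θ + ψ i0) ≤ 1 / 2 * θ * 1 :=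
      mul_le_mul_of_nonneg_left hS1 (by linarith)
    linarith
  · rw [hgg, div_le_iff₀ hS]
    nlinarith [mul_le_mul_of_nonneg_left hSlow hθ0.le]

end Pool.Agent.H630Z
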