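import Pool.Agent.H630Z.B0
import Pool.Agent.H630Z.B5
set_option autoImplicit false

open Polynomial

namespace Pool.Agent.H630Z


theorem b6_eval {n : ℕ} (x : Fin n → ℝ) (r : ℕ) (ζ : ℝ) (s : ℂ) :
    (pp x r ζ).eval s = (∏ i, (1 - (x i : ℂ) * s)) + (ζ : ℂ) * s ^ r := by
  unfold pp
  simp [eval_prod]

theorem b6_q2 {θ : ℝ} {s : ℂ} (h : (q2 θ).eval s = 0) : ‖s‖ = 1 := by
  have h1 : (s - ee θ) * (s - ee (-θ)) = 0 := by
    unfold q2 at h
    simp only [eval_add, eval_sub, eval_one, eval_mul, eval_C, eval_X, eval_pow] at h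
    have e1 : ee θ * ee (-θ) = 1 := by
      unfold ee
      rw [← Complex.exp_add]
      simp
    have e2 : ee θ + ee (-θ) = ((2 * Real.cos θ : ℝ) : ℂ) := by
      unfold ee
      push_cast
      rw [Complex.two_cos]
    linear_combination h + e1 - s * e2
  have n1 : ∀ t : ℝ, ‖ee t‖ = 1 := by
    intro t
    unfold ee
    exact Complex.norm_exp_ofReal_mul_I t
  rcases mul_eq_zero.mp h1 with h2 | h2
  · rw [sub_eq_zero.mp h2]
    exact n1 _
  · rw [sub_eq_zero.mp h2]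
    exact n1 _

theorem b6_prod (S : Multiset ℂ) (p : ℂ → Prop) [DecidablePred p] {u v : ℝ} (hu : 0 < u)
    (hv : 0 < v) (hv1 : v ≤ 1) :
    u ^ (S.filter p).card * v ^ S.card ≤ (S.map (fun a => if p a then u else v)).prod := by
  induction S using Multiset.induction_on with
  | empty => simp
  | cons a S ih =>
    have h0 : 0 < u ^ (S.filter p).card * v ^ S.card := by positivity
    by_cases h : p a
    · rw [Multiset.filter_cons_of_pos _ h, Multiset.card_cons, Multiset.card_cons,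
        Multiset.map_cons, Multiset.prod_cons, if_pos h]
      calc u ^ ((S.filter p).card + 1) * v ^ (S.card + 1) =
          u * (u ^ (S.filter p).card * v ^ S.card) * v := by ring
        _ ≤ u * (u ^ (S.filter p).card * v ^ S.card) * 1 :=
            mul_le_mul_of_nonneg_left hv1 (by positivity)
        _ = u * (u ^ (S.filter p).card * v ^ S.card) := by ring
        _ ≤ _ := mul_le_mul_of_nonneg_left ih hu.le
    · rw [Multiset.filter_cons_of_neg _ h, Multiset.card_cons,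
        Multiset.map_cons, Multiset.prod_cons, if_neg h]
      calc u ^ (S.filter p).card * v ^ (S.card + 1) =
          v * (u ^ (S.filter p).card * v ^ S.card) := by ring
        _ ≤ _ := mul_le_mul_of_nonneg_left ih hv.le

theorem b6_gg {y θ a : ℝ} (hy : 0 < y) (hya : y ≤ a) (ha : a < 1) :
    1 - a ≤ Real.sqrt (gg y θ) ∧ Real.sqrt (gg y θ) ≤ 2 := by
  unfold gg
  have c1 := Real.cos_le_one θ
  have c2 := Real.neg_one_le_cos θ
  constructor
  · apply Real.le_sqrt_of_sq_le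
    nlinarith [mul_le_mul_of_nonneg_left c1 hy.le]
  · rw [Real.sqrt_le_left (by norm_num)]
    nlinarith [mul_le_mul_of_nonneg_left c2 hy.le]

/-- lower bound of a polynomial in terms of the value at `0` -/
theorem b6_low {P : ℂ[X]} (w : ℂ) (p : ℂ → Prop) [DecidablePred p] {u v : ℝ} (hu : 0 < u)
    (hv : 0 < v) (hv1 : v ≤ 1) {m : ℕ} (hm : P.natDegree ≤ m)
    (h1 : ∀ a ∈ P.roots, p a → u * ‖a‖ ≤ ‖w - a‖) (h2 : ∀ a ∈ P.roots, ¬ p a → v * ‖a‖ ≤ ‖w - a‖) :
    ‖P.eval 0‖ * (u ^ (P.roots.filter p).card * v ^ m) ≤ ‖P.eval w‖ := by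
  have hs : P.Splits := IsAlgClosed.splits P
  have e1 := hs.eval_eq_prod_roots w
  have e0 := hs.eval_eq_prod_roots 0
  have f1 : ‖P.eval w‖ = ‖P.leadingCoeff‖ * (P.roots.map (fun a => ‖w - a‖)).prod := by
    rw [e1, norm_mul]
    congr 1
    have : ∀ S : Multiset ℂ, ‖(S.map (fun a => w - a)).prod‖ = (S.map (fun a => ‖w - a‖)).prod := by
      intro S
      induction S using Multiset.induction_on with
      | empty => simp
      | cons a S ih => rw [Multiset.map_cons, Multiset.prod_cons, norm_mul, ih, Multiset.map_cons,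
          Multiset.prod_cons]
    exact this _
  have f0 : ‖P.eval 0‖ = ‖P.leadingCoeff‖ * (P.roots.map (fun a => ‖a‖)).prod := by
    rw [e0, norm_mul]
    congr 1
    have : ∀ S : Multiset ℂ, ‖(S.map (fun a => (0 : ℂ) - a)).prod‖ =
        (S.map (fun a => ‖a‖)).prod := by
      intro S
      induction S using Multiset.induction_on with
      | empty => simp
      | cons a S ih => rw [Multiset.map_cons, Multiset.prod_cons, norm_mul, ih, Multiset.map_cons,
          Multiset.prod_cons, zero_sub, norm_neg]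
    exact this _
  have g1 : (P.roots.map (fun a => (if p a then u else v) * ‖a‖)).prod ≤
      (P.roots.map (fun a => ‖w - a‖)).prod := by
    apply Multiset.prod_map_le_prod_map₀
    · intro a _
      split_ifs <;> positivity
    · intro a ha
      split_ifs with hp
      · exact h1 a ha hp
      · exact h2 a ha hp
  rw [Multiset.prod_map_mul] at g1
  have g2 := b6_prod P.roots p hu hv hv1
  have g3 : v ^ m ≤ v ^ P.roots.card :=
    pow_le_pow_of_le_one hv.le hv1 ((P.card_roots').trans hm)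
  have n0 : 0 ≤ (P.roots.map (fun a => ‖a‖)).prod := by
    apply Multiset.prod_nonneg
    intro x hx
    obtain ⟨a, _, rfl⟩ := Multiset.mem_map.mp hx
    exact norm_nonneg _
  rw [f1, f0]
  calc ‖P.leadingCoeff‖ * (P.roots.map (fun a => ‖a‖)).prod *
        (u ^ (P.roots.filter p).card * v ^ m) ≤
      ‖P.leadingCoeff‖ * (P.roots.map (fun a => ‖a‖)).prod *
        (u ^ (P.roots.filter p).card * v ^ P.roots.card) := by
        apply mul_le_mul_of_nonneg_left _ (by positivity)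
        exact mul_le_mul_of_nonneg_left g3 (by positivity)
    _ ≤ ‖P.leadingCoeff‖ * (P.roots.map (fun a => ‖a‖)).prod *
        (P.roots.map (fun a => if p a then u else v)).prod :=
        mul_le_mul_of_nonneg_left g2 (by positivity)
    _ = ‖P.leadingCoeff‖ * ((P.roots.map (fun a => if p a then u else v)).prod *
        (P.roots.map (fun a => ‖a‖)).prod) := by ring
    _ ≤ _ := mul_le_mul_of_nonneg_left g1 (norm_nonneg _)

/-- Left end, multiplicity `k ≥ 2`: the near roots of the normalised polynomial `P = pp x r ζ`, `x j = lam j τ`,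
`x = x i0`, `ζ = GG x θ`, `K = {j | lam j = lam i0}`, `k = #K`.  Proof: by `near_basic` (with `c = 1`) `P = q2 θ * F`, so all roots `s` of
`P` have `‖s‖ ≥ 1`.  By `left_a`: `x ∈ [1/2, 2]`, `√(gg (x j) θ) ∈ [c θ, C θ]` for `j ∈ K` (`x j = x`), `√(gg (x j) θ) ∈ [1 - ρ, 2]` for `j ∉ K`,
so `ζ ∈ [c θ^k, C θ^k]`.  Choose `η ≤ 1` with `ρ (1 + η) < 1`, and `(1 + η) > 1`.
(1) Let `P(s) = 0`, `1 ≤ ‖s‖ < 1 + η`.  Then `∏ ‖1 - x j s‖ = ζ ‖s‖^r`; for `j ∉ K` `1 - ρ (1+η) ≤ ‖1 - x j s‖ ≤ 1 + ρ (1+η) ≤ 3`; so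
`‖1 - x s‖^k ∈ [c' θ^k, C' θ^k]`, take `k`-th roots.  `‖s - 1‖ ≤ ‖s - 1/x‖ + |1/x - 1| ≤ C θ`.
(2) Count: `P(1/x) = ζ x^{-r}` (a factor `1 - x · (1/x)` vanishes), and `P(1/x) = P(0) ∏_{s ∈ roots} (1 - 1/(x s))`, `‖P 0‖ ≥ 1`.  A root with
`‖s‖ ≥ 1 + η` has `‖1 - 1/(x s)‖ ≥ 1 - 1/(x (1+η)) ≥ c'' > 0` (for `θ ≤ δ0` small `x ≥ 1 - C0 θ` is close to `1`), a root with
`‖s‖ < 1 + η` has `‖1 - 1/(xs)‖ = ‖x s - 1‖/(x ‖s‖) ≥ c''' θ` by (1).  If `M` is the number of these (with multiplicity), then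
`c4 θ^M ≤ ζ x^{-r} ≤ C4 θ^k` with `c4`, `C4` independent of `θ`, so for `θ ≤ δ0` small `M ≥ k` (if `M ≤ k - 1`: `c4 θ^(k-1) ≤ C4 θ^k`, false for
`θ < c4/C4`).  The number of roots is at most `max n r`. -/
theorem left_b {n r : ℕ} (h : Nd n r) (lam : Fin n → ℝ) (hlam : ∀ i, 0 < lam i)
    (i0 i1 : Fin n) (h01 : i1 ≠ i0) (he : lam i1 = lam i0) (hmax : ∀ j, lam j ≤ lam i0) :
    ∃ δ0 η c0 C0 : ℝ, 0 < δ0 ∧ 0 < η ∧ 0 < c0 ∧ 0 < C0 ∧ ∀ θ τ : ℝ, 0 < θ → θ ≤ δ0 →
      Cv lam r θ τ →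
      (∀ s : ℂ, (pp (fun i => lam i * τ) r (GG (fun i => lam i * τ) θ)).eval s = 0 →
        ‖s‖ < 1 + η → c0 * θ ≤ ‖1 - lam i0 * τ * s‖ ∧ ‖1 - lam i0 * τ * s‖ ≤ C0 * θ ∧
          ‖s - 1‖ ≤ C0 * θ) ∧
      (Finset.univ.filter (fun j => lam j = lam i0)).card ≤
        (((pp (fun i => lam i * τ) r (GG (fun i => lam i * τ) θ)).roots).filter
          (fun s => ‖s‖ < 1 + η)).card := by
  classical
  obtain ⟨δa, ca, Ca, ρ0, hδa, hca, hCa, hρ0, ha⟩ := left_a h lam hlam i0 i1 h01 he hmax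
  obtain ⟨ρ, hρ1, hρ2, hρ3⟩ : ∃ ρ : ℝ, 0 ≤ ρ ∧ ρ0 ≤ ρ ∧ ρ < 1 :=
    ⟨max ρ0 0, le_max_right _ _, le_max_left _ _, max_lt hρ0 one_pos⟩
  obtain ⟨η, hη⟩ : ∃ η : ℝ, η = (1 - ρ) / 2 := ⟨_, rfl⟩
  have η0 : 0 < η := by rw [hη]; linarith
  have η1 : η ≤ 1 / 2 := by rw [hη]; linarith
  have ηρ : ρ * (1 + η) ≤ 1 - η := by
    rw [hη]
    nlinarith
  obtain ⟨K, hK⟩ : ∃ K : Finset (Fin n), K = Finset.univ.filter (fun j => lam j = lam i0) :=
    ⟨_, rfl⟩
  obtain ⟨K', hK'⟩ : ∃ K' : Finset (Fin n), K' = Finset.univ.filter (fun j => ¬ lam j = lam i0) :=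
    ⟨_, rfl⟩
  have hk1 : 1 ≤ K.card := Finset.card_pos.mpr ⟨i0, by rw [hK]; simp⟩
  have hkn : K'.card ≤ n := by
    have := K'.card_le_univ
    simpa using this
  obtain ⟨c1, hc1⟩ : ∃ c1 : ℝ, c1 = ca * η ^ n := ⟨_, rfl⟩
  obtain ⟨C1, hC1⟩ : ∃ C1 : ℝ, C1 = Ca * ((2 / η) ^ n * 2 ^ r) := ⟨_, rfl⟩
  have c10 : 0 < c1 := by rw [hc1]; positivity
  have C10 : 0 < C1 := by rw [hC1]; positivity
  obtain ⟨c2, hc2⟩ : ∃ c2 : ℝ, c2 = min (c1 / 4) 1 := ⟨_, rfl⟩
  have c20 : 0 < c2 := by rw [hc2]; exact lt_min (by positivity) one_pos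
  have c21 : c2 ≤ 1 := by rw [hc2]; exact min_le_right _ _
  have c22 : c2 ≤ c1 / 4 := by rw [hc2]; exact min_le_left _ _
  obtain ⟨δ1, hδ1⟩ : ∃ δ1 : ℝ, δ1 = c2 ^ (K.card - 1) * (η / 4) ^ (max n r) /
    (Ca ^ K.card * 2 ^ n * 2 ^ r) := ⟨_, rfl⟩
  have δ10 : 0 < δ1 := by rw [hδ1]; positivity
  refine ⟨min (min δa 1) (min (η / (8 * Ca)) (δ1 / 2)), η, c1, 2 * (C1 + Ca), by positivity, η0,
    c10, by positivity, ?_⟩
  intro θ τ hθ hθδ hC
  have hθa : θ ≤ δa := hθδ.trans ((min_le_left _ _).trans (min_le_left _ _))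
  have hθ1 : θ ≤ 1 := hθδ.trans ((min_le_left _ _).trans (min_le_right _ _))
  have hθη : θ ≤ η / (8 * Ca) := hθδ.trans ((min_le_right _ _).trans (min_le_left _ _))
  have hθδ1 : θ ≤ δ1 / 2 := hθδ.trans ((min_le_right _ _).trans (min_le_right _ _))
  have hCη : Ca * θ ≤ η / 8 := by
    rw [le_div_iff₀ (by positivity)] at hθη
    linarith
  obtain ⟨a1, a2, a3, a4⟩ := ha θ τ hθ hθa hC
  have hτ := hC.pos
  obtain ⟨x, hx⟩ : ∃ x : ℝ, x = lam i0 * τ := ⟨_, rfl⟩
  rw [← hx] at a1 a2 a3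
  have hx1 : 1 - η / 8 ≤ x ∧ x ≤ 1 + η / 8 := by
    rw [abs_le] at a1
    constructor <;> linarith
  have x0 : 0 < x := by linarith
  -- the number `ζ`
  obtain ⟨ζ, hζ⟩ : ∃ ζ : ℝ, ζ = GG (fun i => lam i * τ) θ := ⟨_, rfl⟩
  have sK : ∀ j ∈ K, lam j * τ = x := by
    intro j hj
    rw [hK, Finset.mem_filter] at hj
    rw [hj.2, hx]
  have sK' : ∀ j ∈ K', 0 < lam j * τ ∧ lam j * τ ≤ ρ := by
    intro j hj
    rw [hK', Finset.mem_filter] at hj
    exact ⟨mul_pos (hlam j) hτ, (a4 j hj.2).trans hρ2⟩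
  have z0 : ζ = Real.sqrt (gg x θ) ^ K.card * ∏ j ∈ K', Real.sqrt (gg (lam j * τ) θ) := by
    rw [hζ]
    unfold GG
    rw [← Finset.prod_filter_mul_prod_filter_not Finset.univ (fun j => lam j = lam i0), ← hK,
      ← hK']
    congr 1
    have e : ∏ j ∈ K, Real.sqrt (gg ((fun i => lam i * τ) j) θ) =
        ∏ _j ∈ K, Real.sqrt (gg x θ) := Finset.prod_congr rfl (fun j hj => by
      show Real.sqrt (gg (lam j * τ) θ) = _
      rw [sK j hj])
    rw [e, Finset.prod_const]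
  have g1 : (2 * η) ^ K'.card ≤ ∏ j ∈ K', Real.sqrt (gg (lam j * τ) θ) := by
    rw [← Finset.prod_const]
    apply Finset.prod_le_prod
    · intro j _
      positivity
    · intro j hj
      have := (b6_gg (θ := θ) (sK' j hj).1 (sK' j hj).2 hρ3).1
      rw [hη]
      linarith
  have g2 : ∏ j ∈ K', Real.sqrt (gg (lam j * τ) θ) ≤ 2 ^ K'.card := by
    rw [← Finset.prod_const]
    apply Finset.prod_le_prod
    · intro j _
      exact Real.sqrt_nonneg _
    · intro j hj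
      exact (b6_gg (θ := θ) (sK' j hj).1 (sK' j hj).2 hρ3).2
  have z1 : (ca * θ) ^ K.card * (2 * η) ^ K'.card ≤ ζ := by
    rw [z0]
    exact mul_le_mul (pow_le_pow_left₀ (by positivity) a2 _) g1 (by positivity) (by positivity)
  have z2 : ζ ≤ (Ca * θ) ^ K.card * 2 ^ K'.card := by
    rw [z0]
    exact mul_le_mul (pow_le_pow_left₀ (Real.sqrt_nonneg _) a3 _) g2
      (Finset.prod_nonneg (fun _ _ => Real.sqrt_nonneg _)) (by positivity)
  have ζ0 : 0 < ζ := lt_of_lt_of_le (by positivity) z1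
  rw [← hζ]
  -- the polynomial
  obtain ⟨F, hF1, hF2, -, hF4, -, -⟩ := near_basic h lam hlam 1 one_pos hC
  rw [← hζ] at hF1
  obtain ⟨Q, hQ⟩ : ∃ Q : ℂ[X], Q = pp (fun i => lam i * τ) r ζ := ⟨_, rfl⟩
  rw [← hQ] at hF1 ⊢
  have hev : ∀ s : ℂ, Q.eval s = (∏ i, (1 - ((lam i * τ : ℝ) : ℂ) * s)) + (ζ : ℂ) * s ^ r := by
    intro s
    rw [hQ]
    exact b6_eval _ _ _ _
  have hroot : ∀ s : ℂ, Q.eval s = 0 → 1 ≤ ‖s‖ := by
    intro s hs
    rw [hF1, eval_mul] at hs
    rcases mul_eq_zero.mp hs with h2 | h2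
    · exact (b6_q2 h2).ge
    · exact (hF4 s h2).le
  have hdeg : Q.natDegree ≤ max n r := by
    rw [hF1]
    refine natDegree_mul_le.trans ?_
    have : (q2 θ).natDegree ≤ 2 := by
      unfold q2
      compute_degree
    omega
  have hQ0 : 1 ≤ ‖Q.eval 0‖ := by
    rw [hev]
    simp only [mul_zero, sub_zero, Finset.prod_const_one]
    by_cases hr : r = 0
    · rw [hr, pow_zero, mul_one]
      have e1 : (1 : ℂ) + (ζ : ℂ) = ((1 + ζ : ℝ) : ℂ) := by push_cast; ring
      rw [e1, Complex.norm_of_nonneg (by positivity)]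
      linarith
    · rw [zero_pow hr, mul_zero, add_zero, norm_one]
  have hQne : Q ≠ 0 := by
    rintro h0
    rw [h0, eval_zero, norm_zero] at hQ0
    linarith
  -- part 1
  have part1 : ∀ s : ℂ, Q.eval s = 0 → ‖s‖ < 1 + η → c1 * θ ≤ ‖1 - x * s‖ ∧
      ‖1 - x * s‖ ≤ C1 * θ := by
    intro s hs hs1
    have hs0 := hroot s hs
    rw [hev] at hs
    have e1 : ∏ i, ‖1 - ((lam i * τ : ℝ) : ℂ) * s‖ = ζ * ‖s‖ ^ r := by
      have e2 : (∏ i, (1 - ((lam i * τ : ℝ) : ℂ) * s)) = -((ζ : ℂ) * s ^ r) :=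
        eq_neg_of_add_eq_zero_left hs
      rw [← norm_prod, e2, norm_neg, norm_mul, norm_pow, Complex.norm_of_nonneg ζ0.le]
    rw [← Finset.prod_filter_mul_prod_filter_not Finset.univ (fun j => lam j = lam i0), ← hK,
      ← hK'] at e1
    have e3 : ∏ j ∈ K, ‖1 - ((lam j * τ : ℝ) : ℂ) * s‖ = ‖1 - (x : ℂ) * s‖ ^ K.card := by
      rw [Finset.prod_congr rfl (fun j hj => by rw [sK j hj]), Finset.prod_const]
    rw [e3] at e1
    have bb : ∀ j ∈ K', η ≤ ‖1 - ((lam j * τ : ℝ) : ℂ) * s‖ ∧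
        ‖1 - ((lam j * τ : ℝ) : ℂ) * s‖ ≤ 2 := by
      intro j hj
      obtain ⟨y0, y1⟩ := sK' j hj
      have n1 : ‖((lam j * τ : ℝ) : ℂ) * s‖ ≤ 1 - η := by
        rw [norm_mul, Complex.norm_of_nonneg y0.le]
        calc lam j * τ * ‖s‖ ≤ ρ * (1 + η) :=
              mul_le_mul y1 hs1.le (norm_nonneg _) hρ1
          _ ≤ 1 - η := ηρ
      have n2 := norm_sub_norm_le (1 : ℂ) (((lam j * τ : ℝ) : ℂ) * s)
      have n3 := norm_sub_le (1 : ℂ) (((lam j * τ : ℝ) : ℂ) * s)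
      rw [norm_one] at n2 n3
      constructor <;> linarith
    have q1 : η ^ K'.card ≤ ∏ j ∈ K', ‖1 - ((lam j * τ : ℝ) : ℂ) * s‖ := by
      rw [← Finset.prod_const]
      exact Finset.prod_le_prod (fun _ _ => η0.le) (fun j hj => (bb j hj).1)
    have q2 : ∏ j ∈ K', ‖1 - ((lam j * τ : ℝ) : ℂ) * s‖ ≤ 2 ^ K'.card := by
      rw [← Finset.prod_const]
      exact Finset.prod_le_prod (fun _ _ => norm_nonneg _) (fun j hj => (bb j hj).2)
    have s1 : 1 ≤ ‖s‖ ^ r := one_le_pow₀ hs0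
    have s2 : ‖s‖ ^ r ≤ 2 ^ r := pow_le_pow_left₀ (norm_nonneg _) (by linarith) _
    have hη1 : η ≤ 1 := by linarith
    obtain ⟨T, hT⟩ : ∃ T : ℝ, T = ‖1 - (x : ℂ) * s‖ := ⟨_, rfl⟩
    have T0 : 0 ≤ T := by rw [hT]; exact norm_nonneg _
    rw [← hT] at e1 ⊢
    obtain ⟨R, hR⟩ : ∃ R : ℝ, R = ∏ j ∈ K', ‖1 - ((lam j * τ : ℝ) : ℂ) * s‖ := ⟨_, rfl⟩
    rw [← hR] at e1 q1 q2
    have hk0 : K.card ≠ 0 := by omega
    constructor
    · -- lower
      have t1 : (ca * θ) ^ K.card * (2 * η) ^ K'.card ≤ T ^ K.card * 2 ^ K'.card := by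
        calc (ca * θ) ^ K.card * (2 * η) ^ K'.card ≤ ζ * 1 := by rw [mul_one]; exact z1
          _ ≤ ζ * ‖s‖ ^ r := mul_le_mul_of_nonneg_left s1 ζ0.le
          _ = T ^ K.card * R := e1.symm
          _ ≤ T ^ K.card * 2 ^ K'.card := mul_le_mul_of_nonneg_left q2 (by positivity)
      have t2 : (ca * θ) ^ K.card * η ^ K'.card ≤ T ^ K.card := by
        have p2 : (0 : ℝ) < 2 ^ K'.card := by positivity
        rw [mul_pow 2 η] at t1
        have : (ca * θ) ^ K.card * η ^ K'.card * 2 ^ K'.card ≤ T ^ K.card * 2 ^ K'.card := by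
          calc (ca * θ) ^ K.card * η ^ K'.card * 2 ^ K'.card =
              (ca * θ) ^ K.card * (2 ^ K'.card * η ^ K'.card) := by ring
            _ ≤ _ := t1
        exact le_of_mul_le_mul_right this p2
      have t3 : (c1 * θ) ^ K.card ≤ T ^ K.card := by
        refine le_trans ?_ t2
        have e4 : (c1 * θ) ^ K.card = (ca * θ) ^ K.card * (η ^ n) ^ K.card := by
          rw [hc1, ← mul_pow]
          congr 1
          ring
        rw [e4]
        apply mul_le_mul_of_nonneg_left _ (by positivity)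
        calc (η ^ n) ^ K.card ≤ (η ^ n) ^ 1 :=
              pow_le_pow_of_le_one (by positivity) (pow_le_one₀ η0.le hη1) hk1
          _ = η ^ n := pow_one _
          _ ≤ η ^ K'.card := pow_le_pow_of_le_one η0.le hη1 hkn
      exact (pow_le_pow_iff_left₀ (by positivity) T0 hk0).mp t3
    · have t1 : T ^ K.card * η ^ K'.card ≤ (Ca * θ) ^ K.card * 2 ^ K'.card * 2 ^ r := by
        calc T ^ K.card * η ^ K'.card ≤ T ^ K.card * R :=
              mul_le_mul_of_nonneg_left q1 (by positivity)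
          _ = ζ * ‖s‖ ^ r := e1
          _ ≤ ((Ca * θ) ^ K.card * 2 ^ K'.card) * 2 ^ r :=
              mul_le_mul z2 s2 (by positivity) (by positivity)
      have t2 : T ^ K.card ≤ (Ca * θ) ^ K.card * ((2 / η) ^ K'.card * 2 ^ r) := by
        have p2 : (0 : ℝ) < η ^ K'.card := by positivity
        rw [div_pow]
        have e5 : (Ca * θ) ^ K.card * (2 ^ K'.card / η ^ K'.card * 2 ^ r) =
          ((Ca * θ) ^ K.card * 2 ^ K'.card * 2 ^ r) / η ^ K'.card := by
          field_simp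
        rw [e5, le_div_iff₀ p2]
        exact t1
      have h2η : 1 ≤ 2 / η := by
        rw [le_div_iff₀ η0]
        linarith
      have t3 : T ^ K.card ≤ (C1 * θ) ^ K.card := by
        refine t2.trans ?_
        have e4 : (C1 * θ) ^ K.card = (Ca * θ) ^ K.card * ((2 / η) ^ n * 2 ^ r) ^ K.card := by
          rw [hC1, ← mul_pow]
          congr 1
          ring
        rw [e4]
        apply mul_le_mul_of_nonneg_left _ (by positivity)
        have u1 : (1 : ℝ) ≤ (2 / η) ^ n * 2 ^ r := by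
          have v1 : (1 : ℝ) ≤ (2 / η) ^ n := one_le_pow₀ h2η
          have v2 : (1 : ℝ) ≤ 2 ^ r := one_le_pow₀ (by norm_num)
          nlinarith
        calc (2 / η) ^ K'.card * 2 ^ r ≤ (2 / η) ^ n * 2 ^ r := by
              apply mul_le_mul_of_nonneg_right _ (by positivity)
              exact pow_le_pow_right₀ h2η hkn
          _ = ((2 / η) ^ n * 2 ^ r) ^ 1 := (pow_one _).symm
          _ ≤ _ := pow_le_pow_right₀ u1 hk1
      exact (pow_le_pow_iff_left₀ T0 (by positivity) hk0).mp t3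
  refine ⟨?_, ?_⟩
  · intro s hs hs1
    obtain ⟨p1, p2⟩ := part1 s hs hs1
    have e1 : (lam i0 : ℂ) * (τ : ℂ) = (x : ℂ) := by rw [hx]; push_cast; ring
    rw [e1]
    refine ⟨p1, p2.trans ?_, ?_⟩
    · apply mul_le_mul_of_nonneg_right _ hθ.le
      linarith
    · have e2 : (x : ℂ) * (s - 1) = -(1 - (x : ℂ) * s) + ((1 - x : ℝ) : ℂ) := by
        push_cast
        ring
      have e3 : ‖(x : ℂ) * (s - 1)‖ ≤ C1 * θ + Ca * θ := by
        rw [e2]
        refine (norm_add_le _ _).trans ?_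
        rw [norm_neg, Complex.norm_real, Real.norm_eq_abs, abs_sub_comm]
        exact add_le_add p2 a1
      rw [norm_mul, Complex.norm_of_nonneg x0.le] at e3
      have n0 := norm_nonneg (s - 1)
      nlinarith
  · -- counting
    by_contra hcon
    push Not at hcon
    obtain ⟨M, hM⟩ : ∃ M : ℕ, M = (Q.roots.filter (fun s => ‖s‖ < 1 + η)).card := ⟨_, rfl⟩
    rw [← hK, ← hM] at hcon
    have hx2 : x ≤ 2 := by linarith
    have key := b6_low (P := Q) (((1 / x : ℝ) : ℂ)) (fun s => ‖s‖ < 1 + η) (u := c2 * θ)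
      (v := η / 4) (by positivity) (by positivity) (by linarith) hdeg ?_ ?_
    · rw [← hM] at key
      have w1 : Q.eval (((1 / x : ℝ) : ℂ)) = ((ζ * (1 / x) ^ r : ℝ) : ℂ) := by
        rw [hev]
        have : ∏ i, (1 - ((lam i * τ : ℝ) : ℂ) * ((1 / x : ℝ) : ℂ)) = 0 := by
          apply Finset.prod_eq_zero (Finset.mem_univ i0)
          rw [← hx, ← Complex.ofReal_mul, mul_one_div_cancel x0.ne']
          simp
        rw [this, zero_add]
        push_cast
        ring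
      rw [w1, Complex.norm_of_nonneg (by positivity)] at key
      have w2 : (1 / x) ^ r ≤ 2 ^ r := by
        apply pow_le_pow_left₀ (by positivity)
        rw [div_le_iff₀ x0]
        linarith
      have w3 : ζ * (1 / x) ^ r ≤ (Ca * θ) ^ K.card * 2 ^ n * 2 ^ r := by
        calc ζ * (1 / x) ^ r ≤ ((Ca * θ) ^ K.card * 2 ^ K'.card) * 2 ^ r :=
              mul_le_mul z2 w2 (by positivity) (by positivity)
          _ ≤ _ := by
            apply mul_le_mul_of_nonneg_right _ (by positivity)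
            apply mul_le_mul_of_nonneg_left _ (by positivity)
            exact pow_le_pow_right₀ (by norm_num) hkn
      have w4 : (c2 * θ) ^ (K.card - 1) * (η / 4) ^ (max n r) ≤
          (Ca * θ) ^ K.card * 2 ^ n * 2 ^ r := by
        refine le_trans ?_ w3
        refine le_trans ?_ key
        have w5 : (c2 * θ) ^ (K.card - 1) ≤ (c2 * θ) ^ M := by
          apply pow_le_pow_of_le_one (by positivity) _ (by omega)
          nlinarith
        have w6 : 0 ≤ (c2 * θ) ^ M * (η / 4) ^ (max n r) := by positivity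
        calc (c2 * θ) ^ (K.card - 1) * (η / 4) ^ (max n r) ≤
            1 * ((c2 * θ) ^ M * (η / 4) ^ (max n r)) := by
              rw [one_mul]
              exact mul_le_mul_of_nonneg_right w5 (by positivity)
          _ ≤ _ := mul_le_mul_of_nonneg_right hQ0 w6
      have w7 : (Ca * θ) ^ K.card = Ca ^ K.card * (θ ^ (K.card - 1) * θ) := by
        rw [mul_pow, ← pow_succ]
        congr 2
        omega
      rw [w7, mul_pow] at w4
      have tp : 0 < θ ^ (K.card - 1) := by positivity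
      have w8 : c2 ^ (K.card - 1) * (η / 4) ^ (max n r) ≤ Ca ^ K.card * 2 ^ n * 2 ^ r * θ := by
        have : (c2 ^ (K.card - 1) * (η / 4) ^ (max n r)) * θ ^ (K.card - 1) ≤
            (Ca ^ K.card * 2 ^ n * 2 ^ r * θ) * θ ^ (K.card - 1) := by
          calc (c2 ^ (K.card - 1) * (η / 4) ^ (max n r)) * θ ^ (K.card - 1) =
              c2 ^ (K.card - 1) * θ ^ (K.card - 1) * (η / 4) ^ (max n r) := by ring
            _ ≤ _ := w4
            _ = _ := by ring
        exact le_of_mul_le_mul_right this tp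
      have w9 : δ1 ≤ θ := by
        rw [hδ1, div_le_iff₀ (by positivity)]
        linarith
      linarith
    · -- near roots
      intro s hs hs1
      have hs' : Q.eval s = 0 := (mem_roots hQne).mp hs
      obtain ⟨p1, -⟩ := part1 s hs' hs1
      have e1 : (((1 / x : ℝ) : ℂ)) - s = ((1 / x : ℝ) : ℂ) * (1 - x * s) := by
        have : (x : ℂ) ≠ 0 := by exact_mod_cast x0.ne'
        push_cast
        field_simp
      rw [e1, norm_mul, Complex.norm_of_nonneg (by positivity)]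
      have hs2 : ‖s‖ ≤ 2 := by linarith
      have q1 : c2 * θ * ‖s‖ ≤ c1 / 4 * θ * 2 := by
        apply mul_le_mul _ hs2 (norm_nonneg _) (by positivity)
        exact mul_le_mul_of_nonneg_right c22 hθ.le
      have q2 : 1 / 2 ≤ 1 / x := one_div_le_one_div_of_le x0 hx2
      calc c2 * θ * ‖s‖ ≤ c1 / 4 * θ * 2 := q1
        _ = 1 / 2 * (c1 * θ) := by ring
        _ ≤ 1 / x * ‖1 - x * s‖ := mul_le_mul q2 p1 (by positivity) (by positivity)
    · intro s hs hs1
      push Not at hs1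
      have n2 := norm_sub_norm_le s (((1 / x : ℝ) : ℂ))
      rw [norm_sub_rev, Complex.norm_of_nonneg (by positivity)] at n2
      have q1 : 1 / x ≤ 1 / (1 - η / 8) := one_div_le_one_div_of_le (by linarith) hx1.1
      have q2 : 1 / (1 - η / 8) ≤ 1 + η / 4 := by
        rw [div_le_iff₀ (by linarith)]
        nlinarith
      nlinarith

end Pool.Agent.H630Z
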