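import Pool.Agent.H630Z.B0
import Pool.Agent.H630Z.B5
import Pool.Agent.H630Z.B6
set_option autoImplicit false

open Polynomial

namespace Pool.Agent.H630Z


theorem b7_norm (x φ : ℝ) : ‖(1 : ℂ) - x * ee φ‖ = Real.sqrt (gg x φ) := by
  rw [Complex.norm_eq_sqrt_sq_add_sq]
  congr 1
  have h1 : ((1 : ℂ) - x * ee φ).re = 1 - x * Real.cos φ := by
    simp [ee, Complex.exp_ofReal_mul_I_re]
  have h2 : ((1 : ℂ) - x * ee φ).im = - (x * Real.sin φ) := by
    simp [ee, Complex.exp_ofReal_mul_I_im]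
  rw [h1, h2, gg]
  nlinarith [Real.sin_sq_add_cos_sq φ]

theorem b7_nee (φ : ℝ) : ‖ee φ‖ = 1 := by
  simp [ee, Complex.norm_exp_ofReal_mul_I]

theorem b7_A (A : ℝ[X]) (hA : A ≠ 0) (t0 a b : ℝ) (ha : 0 < a) (hb : 0 < b) :
    ∃ δ M : ℝ, 0 < δ ∧ 0 < M ∧ ∀ θ : ℝ, 0 < θ → θ ≤ δ → ∀ w1 w2 : ℂ,
      a * θ ≤ ‖w1 - t0‖ → ‖w1 - t0‖ ≤ b * θ → a * θ ≤ ‖w2 - t0‖ → ‖w2 - t0‖ ≤ b * θ →
      ‖aeval w1 A‖ ≤ M * ‖aeval w2 A‖ ∧ aeval w1 A ≠ 0 := by
  obtain ⟨B, hB, hnd⟩ := Polynomial.exists_eq_pow_rootMultiplicity_mul_and_not_dvd A hA t0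
  generalize A.rootMultiplicity t0 = m at hB
  have hB0 : B.eval t0 ≠ 0 := by
    intro h; exact hnd (dvd_iff_isRoot.2 h)
  have hBt : aeval ((t0 : ℝ) : ℂ) B = ((B.eval t0 : ℝ) : ℂ) := by
    have := Polynomial.aeval_algebraMap_apply_eq_algebraMap_eval (A := ℂ) t0 B
    simpa using this
  have hev : ∀ w : ℂ, aeval w A = (w - t0) ^ m * aeval w B := by
    intro w; subst hB; simp
  have hcont : Continuous (fun w : ℂ => aeval w B) := Polynomial.continuous_aeval B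
  have hβ : 0 < |B.eval t0| := abs_pos.2 hB0
  set β := |B.eval t0| with hβdef
  obtain ⟨ε, hε, hball⟩ := Metric.continuousAt_iff.1 (hcont.continuousAt (x := (t0 : ℂ))) (β / 2)
    (by positivity)
  have hnB : ‖aeval ((t0 : ℝ) : ℂ) B‖ = β := by
    rw [hBt, Complex.norm_real, Real.norm_eq_abs]
  have hup : ∀ w : ℂ, ‖w - t0‖ < ε → β / 2 ≤ ‖aeval w B‖ ∧ ‖aeval w B‖ ≤ 2 * β := by
    intro w hw
    have h1 := hball (x := w) (by rw [dist_eq_norm]; exact hw)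
    rw [dist_eq_norm] at h1
    have h2 : ‖aeval ((t0 : ℝ) : ℂ) B‖ ≤ ‖aeval w B‖ + ‖aeval w B - aeval ((t0 : ℝ) : ℂ) B‖ := by
      have := norm_sub_le (aeval w B) (aeval w B - aeval ((t0 : ℝ) : ℂ) B)
      rwa [sub_sub_cancel] at this
    have h3 : ‖aeval w B‖ ≤ ‖aeval w B - aeval ((t0 : ℝ) : ℂ) B‖ + ‖aeval ((t0 : ℝ) : ℂ) B‖ := by
      have := norm_add_le (aeval w B - aeval ((t0 : ℝ) : ℂ) B) (aeval ((t0 : ℝ) : ℂ) B)
      rwa [sub_add_cancel] at this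
    rw [hnB] at h2 h3
    constructor <;> linarith
  refine ⟨ε / (2 * b), 4 * (b / a) ^ m, by positivity, by positivity, ?_⟩
  intro θ hθ hθδ w1 w2 h1a h1b h2a h2b
  have hbε : b * θ < ε := by
    have : b * θ ≤ b * (ε / (2 * b)) := by gcongr
    have h' : b * (ε / (2 * b)) = ε / 2 := by field_simp
    linarith
  obtain ⟨l1, u1⟩ := hup w1 (by linarith)
  obtain ⟨l2, u2⟩ := hup w2 (by linarith)
  have haθ : 0 < a * θ := by positivity
  constructor
  · rw [hev w1, hev w2, norm_mul, norm_mul, norm_pow, norm_pow]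
    have e1 : ‖w1 - (t0 : ℂ)‖ ^ m ≤ (b * θ) ^ m := by gcongr
    have e2 : (a * θ) ^ m ≤ ‖w2 - (t0 : ℂ)‖ ^ m := by gcongr
    calc ‖w1 - (t0 : ℂ)‖ ^ m * ‖aeval w1 B‖ ≤ (b * θ) ^ m * (2 * β) := by
          gcongr
      _ = 4 * (b / a) ^ m * ((a * θ) ^ m * (β / 2)) := by
          rw [div_pow, mul_pow, mul_pow]
          have : a ^ m ≠ 0 := by positivity
          field_simp
          ring
      _ ≤ 4 * (b / a) ^ m * (‖w2 - (t0 : ℂ)‖ ^ m * ‖aeval w2 B‖) := by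
          gcongr
  · rw [hev w1]
    apply mul_ne_zero
    · apply pow_ne_zero
      intro h
      rw [h, norm_zero] at h1a
      linarith
    · intro h
      rw [h, norm_zero] at l1
      linarith

theorem b7_key {n r : ℕ} (x : Fin n → ℝ) (hx : ∀ i, 0 ≤ x i) (K : Finset (Fin n)) (i0 : Fin n)
    (hi0 : i0 ∈ K) (hK : ∀ j ∈ K, x j = x i0) (ca Ca Cb ρ : ℝ) (hca : 0 < ca) (_hCa : 0 < Ca)
    (hCb : 0 < Cb) (hρ : ρ < 1) {θ : ℝ} (h0 : 0 < θ) (h1 : θ < Real.pi)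
    (hθC : Ca * θ ≤ 1 / 2)
    (hx0 : |x i0 - 1| ≤ Ca * θ) (hg1 : ca * θ ≤ Real.sqrt (gg (x i0) θ))
    (hg2 : Real.sqrt (gg (x i0) θ) ≤ Ca * θ)
    (hρ' : ∀ j, j ∉ K → x j ≤ ρ)
    (F : ℂ[X]) (hF : pp x r (GG x θ) = q2 θ * F) (φ : ℝ) (hφ : ‖ee φ - 1‖ ≤ (1 + Cb) * θ) :
    (1 / 2) * ((ca ^ 2) ^ (K.card - 1) * ((1 - ρ) ^ 2) ^
        ((Finset.univ.erase i0).filter (fun j => j ∉ K)).card) * (θ ^ 2) ^ (K.card - 1) ≤
      ‖F.eval (ee φ)‖ * (2 * ((Ca + 2 * (1 + Cb)) ^ K.card *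
        2 ^ (Finset.univ.filter (fun j => j ∉ K)).card) * θ ^ K.card) ∧
    GG x θ ≤ (Ca + 2 * (1 + Cb)) ^ K.card *
        2 ^ (Finset.univ.filter (fun j => j ∉ K)).card * θ ^ K.card := by
  classical
  have hx1 := abs_le.1 hx0
  -- the two upper bounds
  have hup : ∀ ω : ℝ, (Real.sqrt (gg (x i0) ω) ≤ (Ca + 2 * (1 + Cb)) * θ) →
      GG x ω ≤ (Ca + 2 * (1 + Cb)) ^ K.card *
        2 ^ (Finset.univ.filter (fun j => j ∉ K)).card * θ ^ K.card := by
    intro ω hω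
    have e1 : GG x ω ≤ ∏ j : Fin n, (if j ∈ K then (Ca + 2 * (1 + Cb)) * θ else 2) := by
      unfold GG
      apply Finset.prod_le_prod
      · intro j _; exact Real.sqrt_nonneg _
      · intro j _
        split_ifs with hj
        · rw [hK j hj]; exact hω
        · rw [← b7_norm]
          calc ‖(1 : ℂ) - x j * ee ω‖ ≤ ‖(1 : ℂ)‖ + ‖(x j : ℂ) * ee ω‖ := norm_sub_le _ _
            _ = 1 + x j := by
                rw [norm_one, norm_mul, b7_nee, mul_one, Complex.norm_real, Real.norm_eq_abs,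
                  abs_of_nonneg (hx j)]
            _ ≤ 2 := by linarith [hρ' j hj]
    rw [Finset.prod_ite, Finset.prod_const, Finset.prod_const] at e1
    have e2 : (Finset.univ.filter (fun j => j ∈ K)) = K := by ext; simp
    rw [e2] at e1
    calc GG x ω ≤ _ := e1
      _ = _ := by rw [mul_pow]; ring
  have hGθ := hup θ (hg2.trans (by
    apply mul_le_mul_of_nonneg_right _ h0.le
    linarith))
  have hGφ := hup φ (by
    rw [← b7_norm]
    have e : (1 : ℂ) - x i0 * ee φ = ((1 - x i0 : ℝ) : ℂ) - x i0 * (ee φ - 1) := by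
      push_cast; ring
    rw [e]
    calc ‖((1 - x i0 : ℝ) : ℂ) - x i0 * (ee φ - 1)‖
        ≤ ‖((1 - x i0 : ℝ) : ℂ)‖ + ‖(x i0 : ℂ) * (ee φ - 1)‖ := norm_sub_le _ _
      _ = |x i0 - 1| + x i0 * ‖ee φ - 1‖ := by
          rw [norm_mul, Complex.norm_real, Complex.norm_real, Real.norm_eq_abs, Real.norm_eq_abs,
            abs_of_nonneg (hx i0), abs_sub_comm]
      _ ≤ Ca * θ + 2 * ((1 + Cb) * θ) := by
          have : x i0 * ‖ee φ - 1‖ ≤ 2 * ((1 + Cb) * θ) := by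
            apply mul_le_mul _ hφ (norm_nonneg _) (by norm_num)
            linarith
          linarith
      _ = (Ca + 2 * (1 + Cb)) * θ := by ring)
  refine ⟨?_, hGθ⟩
  have hlow := low x hx r h0 h1 F hF i0 φ
  have hprod : ∏ j ∈ Finset.univ.erase i0, (if j ∈ K then (ca * θ) ^ 2 else (1 - ρ) ^ 2) ≤
      ∏ j ∈ Finset.univ.erase i0, gg (x j) θ := by
    apply Finset.prod_le_prod
    · intro j _; split_ifs <;> positivity
    · intro j _
      have hgn : 0 ≤ gg (x j) θ := by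
        unfold gg
        nlinarith [Real.sin_sq_add_cos_sq θ, sq_nonneg (x j - Real.cos θ), sq_nonneg (Real.sin θ)]
      split_ifs with hj
      · rw [hK j hj] at hgn ⊢
        calc (ca * θ) ^ 2 ≤ (Real.sqrt (gg (x i0) θ)) ^ 2 := by gcongr
          _ = gg (x i0) θ := Real.sq_sqrt hgn
      · have h5 := hρ' j hj
        have h6 : (1 - ρ) ^ 2 ≤ (1 - x j) ^ 2 := by
          apply pow_le_pow_left₀ (by linarith) (by linarith)
        unfold gg
        nlinarith [Real.cos_le_one θ, hx j, mul_nonneg (hx j) (sub_nonneg.2 (Real.cos_le_one θ))]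
  rw [Finset.prod_ite, Finset.prod_const, Finset.prod_const] at hprod
  have e3 : ((Finset.univ.erase i0).filter (fun j => j ∈ K)) = K.erase i0 := by
    ext j; simp [Finset.mem_erase]
  rw [e3, Finset.card_erase_of_mem hi0] at hprod
  have hQ : 0 ≤ ((ca * θ) ^ 2) ^ (K.card - 1) *
      ((1 - ρ) ^ 2) ^ ((Finset.univ.erase i0).filter (fun j => j ∉ K)).card := by positivity
  calc (1 / 2) * ((ca ^ 2) ^ (K.card - 1) * ((1 - ρ) ^ 2) ^
        ((Finset.univ.erase i0).filter (fun j => j ∉ K)).card) * (θ ^ 2) ^ (K.card - 1)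
      = (1 / 2) * (((ca * θ) ^ 2) ^ (K.card - 1) *
      ((1 - ρ) ^ 2) ^ ((Finset.univ.erase i0).filter (fun j => j ∉ K)).card) := by
        rw [mul_pow ca θ 2, mul_pow]; ring
    _ ≤ x i0 * ∏ j ∈ Finset.univ.erase i0, gg (x j) θ := by
        apply mul_le_mul _ hprod hQ (hx i0)
        linarith
    _ ≤ ‖F.eval (ee φ)‖ * (GG x φ + GG x θ) := hlow
    _ ≤ ‖F.eval (ee φ)‖ * (2 * ((Ca + 2 * (1 + Cb)) ^ K.card *
        2 ^ (Finset.univ.filter (fun j => j ∉ K)).card) * θ ^ K.card) := by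
        apply mul_le_mul_of_nonneg_left _ (norm_nonneg _)
        linarith


theorem b7_roots (θ : ℝ) (F P : ℂ[X]) (hF0 : F ≠ 0) (hP : P = q2 θ * F) (p : ℂ → Prop)
    [DecidablePred p] : (P.roots.filter p).card ≤ 2 + (F.roots.filter p).card := by
  have hq : q2 θ ≠ 0 := by
    intro h
    have := congrArg (fun f => Polynomial.eval 0 f) h
    simp [q2] at this
  have hdeg : (q2 θ).natDegree ≤ 2 := by
    unfold q2
    compute_degree
  rw [hP, Polynomial.roots_mul (mul_ne_zero hq hF0), Multiset.filter_add, Multiset.card_add]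
  have h1 : ((q2 θ).roots.filter p).card ≤ (q2 θ).roots.card :=
    Multiset.card_le_card (Multiset.filter_le _ _)
  have h2 := Polynomial.card_roots' (q2 θ)
  omega

/-- Left end, multiplicity `k ≥ 2`.  Proof: notation of `left_a`, `left_b`; let `t` be a near root, `s = t/τ`, `F(s) = 0`,
`κ = ‖s‖ - 1 > 0`, `u = s/‖s‖`.  Values of `A`: with `t0 = 1/lam i0`, `‖t - t0‖ = ‖1 - x s‖/lam i0 ∈ [c θ, C θ]`, and the same for
`τ e^{iθ}` (`‖1 - x e^{iθ}‖ = √(gg x θ)`); write `A = (X - t0)^j B`, `B(t0) ≠ 0`; for `θ` small `‖B‖ ∈ [‖B t0‖/2, 2 ‖B t0‖]` at both points,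
so the values are comparable and nonzero.  The bound `κ ≥ c θ` (and `dl ≤ θ`): if `κ > θ` done, so let `κ ≤ θ`.
`‖u - 1‖ ≤ ‖u - s‖ + ‖s - 1‖ ≤ C θ`, `‖s - u‖ = κ ≤ θ`.  With `φ = arg u` (`u = ee φ`), `GG x φ = ∏ ‖1 - x j u‖ ≤ C θ^k` (for `j ∈ K`
`‖1 - x u‖ ≤ |1 - x| + x ‖1 - u‖ ≤ C θ`, for `j ∉ K` it is `≤ 2`), `GG x θ ≤ C θ^k` too, and for `j ≠ i0` `gg (x j) θ ≥ c θ²` if `j ∈ K`, `≥ (1-ρ)²` if
not, so `low` with `i = i0` gives `c θ^(2(k-1)) ≤ ‖F(u)‖ · C θ^k`, i.e. `‖F(u)‖ ≥ c θ^(k-2)` (`k ≥ 2`).  The multiset of roots of `pp = q2 θ * F` is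
`{ee θ, ee (-θ)} + roots F`, so by `left_b` `F` has at least `k - 2` roots `a` with `‖a‖ < 1 + η`; all of them, and `s`, have
`‖a - u‖ ≤ ‖a - 1‖ + ‖1 - u‖ ≤ C1 θ =: ε` (`≤ 1` for `θ ≤ δ0`), so the filter in `gap1` has at least `max (k - 2) 1 ≥ (k - 3) + 1` elements (`s` is one of
them; natural subtraction).  `gap1` with `k - 3`: `‖F(u)‖ ≤ ‖F 0‖ κ 2^d ε^(k-3)`, `‖F 0‖ ≤ 1 + GG ≤ 2^(n+1)` or so.  If `k ≥ 3`: `κ ≥ c θ^(k-2)/θ^(k-3) = c θ`;
if `k = 2`: `κ ≥ c ≥ c' θ`. -/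
theorem near_left2 {n r : ℕ} (h : Nd n r) (lam : Fin n → ℝ) (hlam : ∀ i, 0 < lam i)
    (c : ℝ) (hc : 0 < c) (A : ℝ[X]) (hA : A ≠ 0)
    (i0 i1 : Fin n) (h01 : i1 ≠ i0) (he : lam i1 = lam i0) (hmax : ∀ j, lam j ≤ lam i0) :
    ∃ δ0 η C : ℝ, 0 < δ0 ∧ 0 < η ∧ 0 < C ∧ ∀ θ τ : ℝ, 0 < θ → θ ≤ δ0 → θ < Th n r →
      Cv lam r θ τ → NearOK lam c r A η C θ τ := by
  classical
  obtain ⟨δa, ca, Ca, ρ, hδa, hca, hCa, hρ, hleft⟩ := left_a h lam hlam i0 i1 h01 he hmax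
  obtain ⟨δb, η, cb, Cb, hδb, hη, hcb, hCb, hleftb⟩ := left_b h lam hlam i0 i1 h01 he hmax
  set K := Finset.univ.filter (fun j => lam j = lam i0) with hKdef
  have hi0K : i0 ∈ K := by simp [hKdef]
  have hi1K : i1 ∈ K := by simp [hKdef, he]
  have hk2 : 2 ≤ K.card := by
    have : ({i0, i1} : Finset (Fin n)) ⊆ K := by
      intro j hj
      simp only [Finset.mem_insert, Finset.mem_singleton] at hj
      rcases hj with rfl | rfl
      · exact hi0K
      · exact hi1K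
    calc 2 = ({i0, i1} : Finset (Fin n)).card := by rw [Finset.card_pair h01.symm]
      _ ≤ K.card := Finset.card_le_card this
  have hl0 := hlam i0
  obtain ⟨δA, M, hδA, hM, hAA⟩ := b7_A A hA (1 / lam i0) (min ca cb / lam i0)
    (max Ca Cb / lam i0) (by positivity) (by positivity)
  set k := K.card with hkdef
  set G1 : ℝ := (Ca + 2 * (1 + Cb)) ^ k * 2 ^ (Finset.univ.filter (fun j => j ∉ K)).card with hG1
  set L1 : ℝ := (1 / 2) * ((ca ^ 2) ^ (k - 1) * ((1 - ρ) ^ 2) ^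
        ((Finset.univ.erase i0).filter (fun j => j ∉ K)).card) with hL1
  have hG1p : 0 < G1 := by positivity
  have hL1p : 0 < L1 := by
    have : 0 < 1 - ρ := by linarith
    positivity
  set d := max n r with hd
  set c3 : ℝ := L1 / (2 * G1) with hc3
  have hc3p : 0 < c3 := by positivity
  set R1 : ℝ := (1 + G1) * 2 ^ d * (1 + 2 * Cb) ^ (k - 3) with hR1
  have hR1p : 0 < R1 := by positivity
  set C : ℝ := 1 + R1 / c3 + M with hC
  have hCp : 0 < C := by positivity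
  refine ⟨min (min δa δb) (min δA (min 1 (min (1 / (2 * Ca)) (1 / (1 + 2 * Cb))))), η, C,
    by positivity, hη, hCp, ?_⟩
  intro θ τ hθ hθδ hθT hCv t ht htp htm htn
  simp only [le_min_iff] at hθδ
  obtain ⟨⟨hθa, hθb⟩, hθA, hθ1, hθCa, hθCb⟩ := hθδ
  obtain ⟨hx0, hg1, hg2, hρj⟩ := hleft θ τ hθ hθa hCv
  obtain ⟨hroot, hcard⟩ := hleftb θ τ hθ hθb hCv
  obtain ⟨F, hpp, hFdeg, hF0, hFroot, hDD, hDF⟩ := near_basic h lam hlam c hc hCv
  have hτ : 0 < τ := hCv.pos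
  have hθπ : θ < Real.pi := by
    obtain ⟨ψ, hψ, _⟩ := hCv.adm
    exact hψ.lt
  set x : Fin n → ℝ := fun i => lam i * τ with hx
  have hxn : ∀ i, 0 ≤ x i := fun i => by
    have := hlam i
    simp only [hx]; positivity
  have hFne : F ≠ 0 := by
    intro hF
    have := hFroot 0 (by simp [hF])
    simp at this
    linarith
  -- the root `s`
  set s : ℂ := t / τ with hs
  have hτC : (τ : ℂ) ≠ 0 := by exact_mod_cast hτ.ne'
  have hts : t = τ * s := by rw [hs]; field_simp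
  have hFs : F.eval s = 0 := hDF t ht htp htm
  have hs1 : 1 < ‖s‖ := hFroot s hFs
  have hnt : ‖t‖ = τ * ‖s‖ := by
    rw [hts, norm_mul, Complex.norm_real, Real.norm_eq_abs, abs_of_pos hτ]
  have hsη : ‖s‖ < 1 + η := by
    rw [hnt, mul_comm] at htn
    exact lt_of_mul_lt_mul_right htn hτ.le
  have hpps : ∀ a : ℂ, F.eval a = 0 → (pp x r (GG x θ)).eval a = 0 := by
    intro a ha
    rw [hpp, eval_mul, ha, mul_zero]
  obtain ⟨hs2, hs3, hs4⟩ := hroot s (hpps s hFs) hsη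
  -- the values of `A`
  have hfac : ∀ w : ℂ, ‖(1 : ℂ) - lam i0 * τ * w‖ = lam i0 * ‖τ * w - ((1 / lam i0 : ℝ) : ℂ)‖ := by
    intro w
    have hlC : (lam i0 : ℂ) ≠ 0 := by exact_mod_cast hl0.ne'
    have e : (1 : ℂ) - lam i0 * τ * w = -((lam i0 : ℂ) * (τ * w - ((1 / lam i0 : ℝ) : ℂ))) := by
      push_cast
      field_simp
      ring
    rw [e, norm_neg, norm_mul, Complex.norm_real, Real.norm_eq_abs, abs_of_pos hl0]
  have hw1a : min ca cb / lam i0 * θ ≤ ‖t - ((1 / lam i0 : ℝ) : ℂ)‖ := by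
    rw [hfac, ← hts] at hs2
    rw [div_mul_eq_mul_div, div_le_iff₀ hl0]
    have : min ca cb * θ ≤ cb * θ := by
      apply mul_le_mul_of_nonneg_right (min_le_right _ _) hθ.le
    linarith
  have hw1b : ‖t - ((1 / lam i0 : ℝ) : ℂ)‖ ≤ max Ca Cb / lam i0 * θ := by
    rw [hfac, ← hts] at hs3
    rw [div_mul_eq_mul_div, le_div_iff₀ hl0]
    have : Cb * θ ≤ max Ca Cb * θ := by
      apply mul_le_mul_of_nonneg_right (le_max_right _ _) hθ.le
    linarith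
  have hgx : Real.sqrt (gg (lam i0 * τ) θ) = lam i0 * ‖τ * ee θ - ((1 / lam i0 : ℝ) : ℂ)‖ := by
    rw [← hfac, ← b7_norm]
    push_cast
    rfl
  have hw2a : min ca cb / lam i0 * θ ≤ ‖τ * ee θ - ((1 / lam i0 : ℝ) : ℂ)‖ := by
    rw [hgx] at hg1
    rw [div_mul_eq_mul_div, div_le_iff₀ hl0]
    have : min ca cb * θ ≤ ca * θ := by
      apply mul_le_mul_of_nonneg_right (min_le_left _ _) hθ.le
    linarith
  have hw2b : ‖τ * ee θ - ((1 / lam i0 : ℝ) : ℂ)‖ ≤ max Ca Cb / lam i0 * θ := by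
    rw [hgx] at hg2
    rw [div_mul_eq_mul_div, le_div_iff₀ hl0]
    have : Ca * θ ≤ max Ca Cb * θ := by
      apply mul_le_mul_of_nonneg_right (le_max_left _ _) hθ.le
    linarith
  obtain ⟨hA1, hA2⟩ := hAA θ hθ hθA t (τ * ee θ) hw1a hw1b hw2a hw2b
  obtain ⟨hA3, _⟩ := hAA θ hθ hθA (τ * ee θ) t hw2a hw2b hw1a hw1b
  have hMC : M ≤ C := by
    have : 0 < R1 / c3 := by positivity
    rw [hC]; linarith
  refine ⟨?_, hA1.trans (by gcongr), hA3.trans (by gcongr), hA2⟩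
  -- the main part
  rw [hnt]
  apply mul_le_mul_of_nonneg_left _ hτ.le
  suffices hsuf : θ / C ≤ ‖s‖ - 1 by
    have : dl n r θ / C ≤ θ / C := by
      apply div_le_div_of_nonneg_right _ hCp.le
      exact min_le_left _ _
    linarith
  rw [div_le_iff₀ hCp]
  by_cases hκ : θ < ‖s‖ - 1
  · have : 1 ≤ C := by
      have : 0 < R1 / c3 := by positivity
      rw [hC]; linarith
    nlinarith
  push Not at hκ
  -- the point `u`
  have hs0 : (‖s‖ : ℂ) ≠ 0 := by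
    have : (0 : ℝ) < ‖s‖ := by linarith
    exact_mod_cast this.ne'
  set u : ℂ := s / (‖s‖ : ℂ) with hu
  have hsu : ‖s - u‖ = ‖s‖ - 1 := by
    have e : s - u = u * ((‖s‖ - 1 : ℝ) : ℂ) := by
      rw [hu]; push_cast; field_simp
    have hun : ‖u‖ = 1 := by
      rw [hu, norm_div, Complex.norm_real, norm_norm]
      apply div_self
      linarith
    rw [e, norm_mul, hun, one_mul, Complex.norm_real, Real.norm_eq_abs, abs_of_nonneg (by linarith)]
  have hu1 : ‖u - 1‖ ≤ (1 + Cb) * θ := by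
    calc ‖u - 1‖ = ‖(s - 1) - (s - u)‖ := by congr 1; ring
      _ ≤ ‖s - 1‖ + ‖s - u‖ := norm_sub_le _ _
      _ ≤ Cb * θ + θ := by rw [hsu]; linarith
      _ = (1 + Cb) * θ := by ring
  obtain ⟨φ, hφ⟩ : ∃ φ : ℝ, ee φ = u := by
    refine ⟨Complex.arg s, ?_⟩
    have := Complex.norm_mul_exp_arg_mul_I s
    unfold ee
    rw [hu, eq_div_iff hs0, mul_comm]
    exact this
  have hCaθ : Ca * θ ≤ 1 / 2 := by
    calc Ca * θ ≤ Ca * (1 / (2 * Ca)) := by gcongr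
      _ = 1 / 2 := by field_simp
  have hε1 : (1 + 2 * Cb) * θ ≤ 1 := by
    calc (1 + 2 * Cb) * θ ≤ (1 + 2 * Cb) * (1 / (1 + 2 * Cb)) := by gcongr
      _ = 1 := by field_simp
  obtain ⟨hkey1, hkey2⟩ := b7_key (r := r) x hxn K i0 hi0K (fun j hj => by
      have : lam j = lam i0 := (Finset.mem_filter.1 hj).2
      simp only [hx, this]) ca Ca Cb ρ hca hCa hCb hρ hθ hθπ hCaθ hx0 hg1 hg2 (fun j hj => hρj j (fun hh =>
        hj (Finset.mem_filter.2 ⟨Finset.mem_univ j, hh⟩))) F hpp φ (by rw [hφ]; exact hu1)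
  rw [hφ, ← hkdef] at hkey1
  rw [← hkdef] at hkey2
  rw [← hG1] at hkey1 hkey2
  rw [← hL1] at hkey1
  -- lower bound for `‖F(u)‖`
  have hlowF : c3 * θ ^ (k - 2) ≤ ‖F.eval u‖ := by
    obtain ⟨j, hj⟩ : ∃ j, k = j + 2 := ⟨k - 2, by omega⟩
    have e1 : k - 1 = j + 1 := by omega
    have e2 : k - 2 = j := by omega
    rw [e1, hj] at hkey1
    rw [e2, hc3, div_mul_eq_mul_div, div_le_iff₀ (by positivity)]
    have hθ2 : 0 < θ ^ (j + 2) := by positivity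
    have e3 : L1 * (θ ^ 2) ^ (j + 1) = (L1 * θ ^ j) * θ ^ (j + 2) := by
      rw [← pow_mul]; ring
    rw [e3] at hkey1
    have e4 : ‖F.eval u‖ * (2 * G1 * θ ^ (j + 2)) = (‖F.eval u‖ * (2 * G1)) * θ ^ (j + 2) := by ring
    rw [e4] at hkey1
    exact le_of_mul_le_mul_right hkey1 hθ2
  -- the number of roots
  have hmem : s ∈ F.roots := by
    rw [Polynomial.mem_roots hFne]; exact hFs
  have hcount : (k - 3) + 1 ≤ (F.roots.filter (fun a => ‖a - u‖ ≤ (1 + 2 * Cb) * θ)).card := by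
    have hnear : ∀ a ∈ F.roots, ‖a‖ < 1 + η → ‖a - u‖ ≤ (1 + 2 * Cb) * θ := by
      intro a ha haη
      have hFa : F.eval a = 0 := (Polynomial.mem_roots hFne).1 ha
      obtain ⟨_, _, h3⟩ := hroot a (hpps a hFa) haη
      calc ‖a - u‖ = ‖(a - 1) - (u - 1)‖ := by congr 1; ring
        _ ≤ ‖a - 1‖ + ‖u - 1‖ := norm_sub_le _ _
        _ ≤ Cb * θ + (1 + Cb) * θ := by linarith
        _ = (1 + 2 * Cb) * θ := by ring
    have h1 : 1 ≤ (F.roots.filter (fun a => ‖a - u‖ ≤ (1 + 2 * Cb) * θ)).card := by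
      rw [Nat.one_le_iff_ne_zero, Ne, Multiset.card_eq_zero]
      intro h0
      have : s ∈ F.roots.filter (fun a => ‖a - u‖ ≤ (1 + 2 * Cb) * θ) :=
        Multiset.mem_filter.2 ⟨hmem, hnear s hmem hsη⟩
      rw [h0] at this
      simp at this
    have h2 : (F.roots.filter (fun a => ‖a‖ < 1 + η)).card ≤
        (F.roots.filter (fun a => ‖a - u‖ ≤ (1 + 2 * Cb) * θ)).card := by
      apply Multiset.card_le_card
      have e : F.roots.filter (fun a => ‖a‖ < 1 + η) =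
          F.roots.filter (fun a => ‖a‖ < 1 + η ∧ ‖a - u‖ ≤ (1 + 2 * Cb) * θ) := by
        apply Multiset.filter_congr
        intro a ha
        exact ⟨fun h => ⟨h, hnear a ha h⟩, fun h => h.1⟩
      rw [e]
      apply Multiset.monotone_filter_right
      intro a ha
      exact ha.2
    have h3 := b7_roots θ F _ hFne hpp (fun a => ‖a‖ < 1 + η)
    have h4 : k ≤ 2 + (F.roots.filter (fun a => ‖a‖ < 1 + η)).card := by
      refine le_trans ?_ h3
      convert hcard using 2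
    omega
  have hgap := gap1 F hFroot d (by omega) s hFs (k - 3) ((1 + 2 * Cb) * θ) (by positivity) hε1
    (by convert hcount using 2) (by
      rw [← hu, hsu]
      nlinarith)
  rw [← hu] at hgap
  have hF0n : ‖F.eval 0‖ ≤ 1 + G1 := by
    have hGn : 0 ≤ GG x θ := by
      unfold GG; apply Finset.prod_nonneg; intro j _; exact Real.sqrt_nonneg _
    have hGle : GG x θ ≤ G1 := by
      calc GG x θ ≤ G1 * θ ^ k := hkey2
        _ ≤ G1 * 1 := by
            apply mul_le_mul_of_nonneg_left _ hG1p.le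
            exact pow_le_one₀ hθ.le hθ1
        _ = G1 := mul_one _
    rw [hF0]
    split_ifs
    · have e : (1 : ℂ) + (GG x θ : ℂ) = ((1 + GG x θ : ℝ) : ℂ) := by push_cast; ring
      rw [e, Complex.norm_real, Real.norm_eq_abs, abs_of_nonneg (by linarith)]
      linarith
    · simp; linarith
  have hκ0 : 0 < ‖s‖ - 1 := by linarith
  have hup : ‖F.eval u‖ ≤ R1 * θ ^ (k - 3) * (‖s‖ - 1) := by
    calc ‖F.eval u‖ ≤ ‖F.eval 0‖ * (‖s‖ - 1) * 2 ^ d * ((1 + 2 * Cb) * θ) ^ (k - 3) := hgap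
      _ ≤ (1 + G1) * (‖s‖ - 1) * 2 ^ d * ((1 + 2 * Cb) * θ) ^ (k - 3) := by gcongr
      _ = R1 * θ ^ (k - 3) * (‖s‖ - 1) := by rw [hR1, mul_pow]; ring
  have hfin : c3 * θ ≤ R1 * (‖s‖ - 1) := by
    have h5 := hlowF.trans hup
    rcases Nat.lt_or_ge k 3 with hk3 | hk3
    · have e1 : k - 2 = 0 := by omega
      have e2 : k - 3 = 0 := by omega
      rw [e1, pow_zero, mul_one, e2, pow_zero, mul_one] at h5
      nlinarith
    · obtain ⟨j, hj⟩ : ∃ j, k = j + 3 := ⟨k - 3, by omega⟩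
      have e1 : k - 2 = j + 1 := by omega
      have e2 : k - 3 = j := by omega
      rw [e1, e2] at h5
      have hθj : 0 < θ ^ j := by positivity
      have e3 : c3 * θ ^ (j + 1) = (c3 * θ) * θ ^ j := by ring
      have e4 : R1 * θ ^ j * (‖s‖ - 1) = (R1 * (‖s‖ - 1)) * θ ^ j := by ring
      rw [e3, e4] at h5
      exact le_of_mul_le_mul_right h5 hθj
  have h6 : θ ≤ (‖s‖ - 1) * (R1 / c3) := by
    rw [mul_div_assoc', le_div_iff₀ hc3p]
    linarith
  have h7 : (‖s‖ - 1) * (R1 / c3) ≤ (‖s‖ - 1) * C := by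
    apply mul_le_mul_of_nonneg_left _ hκ0.le
    rw [hC]; linarith
  linarith

end Pool.Agent.H630Z
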