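import Pool.Agent.H630Z.Defs
set_option autoImplicit false

open Polynomial

namespace Pool.Agent.H630Z


/-- the product `∏ (1 - u X)` as a power series -/
noncomputable def c1a_Q (s : Multiset ℂ) : PowerSeries ℂ :=
  (s.map (fun u => (1 : PowerSeries ℂ) - PowerSeries.C u * PowerSeries.X)).prod

/-- the product `∏ (1 - u X)⁻¹` as a power series -/
noncomputable def c1a_R (s : Multiset ℂ) : PowerSeries ℂ :=
  (s.map (fun u => PowerSeries.mk (fun n => u ^ n))).prod

theorem c1a_one (u : ℂ) :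
    ((1 : PowerSeries ℂ) - PowerSeries.C u * PowerSeries.X) * PowerSeries.mk (fun n => u ^ n) = 1 := by
  ext n
  rw [sub_mul, one_mul, mul_assoc, map_sub, PowerSeries.coeff_C_mul, PowerSeries.coeff_mk]
  cases n with
  | zero => simp
  | succ n =>
    rw [mul_comm PowerSeries.X, PowerSeries.coeff_succ_mul_X, PowerSeries.coeff_mk,
      PowerSeries.coeff_one]
    simp [pow_succ, mul_comm]

theorem c1a_QR (s : Multiset ℂ) : c1a_Q s * c1a_R s = 1 := by
  unfold c1a_Q c1a_R
  rw [← Multiset.prod_map_mul]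
  simp [c1a_one]

theorem c1a_Q_bound (ρ : ℝ) (hρ : 0 < ρ) (s : Multiset ℂ) :
    (∀ u ∈ s, ‖u‖ * ρ ≤ 1) → ∀ i : ℕ,
      ‖PowerSeries.coeff i (c1a_Q s)‖ * ρ ^ i ≤ 2 ^ (Multiset.card s) := by
  induction s using Multiset.induction_on with
  | empty =>
    intro _ i
    simp only [c1a_Q, Multiset.map_zero, Multiset.prod_zero, Multiset.card_zero, pow_zero,
      PowerSeries.coeff_one]
    split_ifs with hi
    · subst hi; simp
    · simp
  | cons u s ih =>
    intro hu i
    have hu0 : ‖u‖ * ρ ≤ 1 := hu u (Multiset.mem_cons_self u s)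
    have ih' := ih (fun v hv => hu v (Multiset.mem_cons_of_mem hv))
    have hQ : c1a_Q (u ::ₘ s) = c1a_Q s - PowerSeries.C u * (c1a_Q s * PowerSeries.X) := by
      simp only [c1a_Q, Multiset.map_cons, Multiset.prod_cons]
      ring
    rw [hQ, map_sub, PowerSeries.coeff_C_mul, Multiset.card_cons, pow_succ]
    cases i with
    | zero =>
      have h1 := ih' 0
      simp only [pow_zero, mul_one] at h1 ⊢
      rw [PowerSeries.coeff_zero_mul_X, mul_zero, sub_zero]
      have : (0:ℝ) ≤ 2 ^ Multiset.card s := by positivity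
      linarith
    | succ i =>
      rw [PowerSeries.coeff_succ_mul_X]
      have h1 := ih' (i + 1)
      have h2 := ih' i
      have h3 : ‖PowerSeries.coeff (i + 1) (c1a_Q s) - u * PowerSeries.coeff i (c1a_Q s)‖ ≤
          ‖PowerSeries.coeff (i + 1) (c1a_Q s)‖ + ‖u‖ * ‖PowerSeries.coeff i (c1a_Q s)‖ := by
        refine (norm_sub_le _ _).trans ?_
        rw [norm_mul]
      have hp : (0:ℝ) ≤ ρ ^ (i + 1) := by positivity
      have h4 : ‖u‖ * ‖PowerSeries.coeff i (c1a_Q s)‖ * ρ ^ (i + 1) ≤ 2 ^ Multiset.card s := by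
        have : ‖u‖ * ‖PowerSeries.coeff i (c1a_Q s)‖ * ρ ^ (i + 1) =
          (‖u‖ * ρ) * (‖PowerSeries.coeff i (c1a_Q s)‖ * ρ ^ i) := by ring
        rw [this]
        calc (‖u‖ * ρ) * (‖PowerSeries.coeff i (c1a_Q s)‖ * ρ ^ i)
            ≤ 1 * (‖PowerSeries.coeff i (c1a_Q s)‖ * ρ ^ i) := by
              apply mul_le_mul_of_nonneg_right hu0 (by positivity)
          _ ≤ 2 ^ Multiset.card s := by rw [one_mul]; exact h2
      calc _ ≤ (‖PowerSeries.coeff (i + 1) (c1a_Q s)‖ + ‖u‖ * ‖PowerSeries.coeff i (c1a_Q s)‖) *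
            ρ ^ (i + 1) := mul_le_mul_of_nonneg_right h3 hp
        _ = ‖PowerSeries.coeff (i + 1) (c1a_Q s)‖ * ρ ^ (i + 1) +
            ‖u‖ * ‖PowerSeries.coeff i (c1a_Q s)‖ * ρ ^ (i + 1) := by ring
        _ ≤ _ := by linarith

theorem c1a_R_bound (ρ : ℝ) (hρ : 0 < ρ) (s : Multiset ℂ) :
    (∀ u ∈ s, ‖u‖ * ρ ≤ 1) → ∀ i : ℕ,
      ‖PowerSeries.coeff i (c1a_R s)‖ * ρ ^ i ≤ ((i : ℝ) + 1) ^ (Multiset.card s) := by
  induction s using Multiset.induction_on with
  | empty =>
    intro _ i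
    simp only [c1a_R, Multiset.map_zero, Multiset.prod_zero, Multiset.card_zero, pow_zero,
      PowerSeries.coeff_one]
    split_ifs with hi
    · subst hi; simp
    · simp
  | cons u s ih =>
    intro hu k
    have hu0 : ‖u‖ * ρ ≤ 1 := hu u (Multiset.mem_cons_self u s)
    have ih' := ih (fun v hv => hu v (Multiset.mem_cons_of_mem hv))
    have hR : c1a_R (u ::ₘ s) = PowerSeries.mk (fun n => u ^ n) * c1a_R s := by
      simp only [c1a_R, Multiset.map_cons, Multiset.prod_cons]
    rw [hR, PowerSeries.coeff_mul, Multiset.card_cons]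
    have h1 : ‖∑ p ∈ Finset.HasAntidiagonal.antidiagonal k,
        PowerSeries.coeff p.1 (PowerSeries.mk (fun n => u ^ n)) * PowerSeries.coeff p.2 (c1a_R s)‖ *
          ρ ^ k ≤
        ∑ p ∈ Finset.HasAntidiagonal.antidiagonal k, ((k : ℝ) + 1) ^ (Multiset.card s) := by
      calc _ ≤ (∑ p ∈ Finset.HasAntidiagonal.antidiagonal k,
        ‖PowerSeries.coeff p.1 (PowerSeries.mk (fun n => u ^ n)) * PowerSeries.coeff p.2 (c1a_R s)‖)
          * ρ ^ k := mul_le_mul_of_nonneg_right (norm_sum_le _ _) (by positivity)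
        _ = ∑ p ∈ Finset.HasAntidiagonal.antidiagonal k,
        ‖PowerSeries.coeff p.1 (PowerSeries.mk (fun n => u ^ n)) * PowerSeries.coeff p.2 (c1a_R s)‖
          * ρ ^ k := Finset.sum_mul _ _ _
        _ ≤ _ := by
          apply Finset.sum_le_sum
          intro p hp
          have hpk : p.1 + p.2 = k := Finset.HasAntidiagonal.mem_antidiagonal.mp hp
          rw [PowerSeries.coeff_mk, norm_mul, norm_pow, ← hpk, pow_add]
          have e1 : ‖u‖ ^ p.1 * ‖PowerSeries.coeff p.2 (c1a_R s)‖ * (ρ ^ p.1 * ρ ^ p.2) =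
            (‖u‖ * ρ) ^ p.1 * (‖PowerSeries.coeff p.2 (c1a_R s)‖ * ρ ^ p.2) := by
            rw [mul_pow]; ring
          rw [e1]
          calc (‖u‖ * ρ) ^ p.1 * (‖PowerSeries.coeff p.2 (c1a_R s)‖ * ρ ^ p.2)
              ≤ 1 * (‖PowerSeries.coeff p.2 (c1a_R s)‖ * ρ ^ p.2) := by
                apply mul_le_mul_of_nonneg_right _ (by positivity)
                exact pow_le_one₀ (by positivity) hu0
            _ ≤ ((p.2 : ℝ) + 1) ^ Multiset.card s := by rw [one_mul]; exact ih' p.2
            _ ≤ _ := by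
              apply pow_le_pow_left₀ (by positivity)
              have : (0:ℝ) ≤ (p.1 : ℝ) := Nat.cast_nonneg _
              push_cast
              linarith
    refine h1.trans ?_
    rw [Finset.sum_const, Finset.Nat.card_antidiagonal, nsmul_eq_mul, pow_succ]
    push_cast
    linarith [mul_comm ((k:ℝ) + 1) (((k:ℝ) + 1) ^ Multiset.card s)]

theorem c1a_fac (r : Multiset ℂ) : (∀ t ∈ r, t ≠ 0) →
    ∃ c : ℂ, c ≠ 0 ∧ (((r.map (fun t => X - C t)).prod : ℂ[X]) : PowerSeries ℂ) =
      PowerSeries.C c * c1a_Q (r.map (fun t => t⁻¹)) := by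
  induction r using Multiset.induction_on with
  | empty =>
    intro _
    refine ⟨1, one_ne_zero, ?_⟩
    simp [c1a_Q]
  | cons t r ih =>
    intro ht
    obtain ⟨c, hc, h⟩ := ih (fun v hv => ht v (Multiset.mem_cons_of_mem hv))
    have ht0 : t ≠ 0 := ht t (Multiset.mem_cons_self t r)
    refine ⟨-t * c, mul_ne_zero (neg_ne_zero.mpr ht0) hc, ?_⟩
    rw [Multiset.map_cons, Multiset.prod_cons, Polynomial.coe_mul, h]
    simp only [c1a_Q, Multiset.map_cons, Multiset.prod_cons]
    have h1 : (((X - C t : ℂ[X])) : PowerSeries ℂ) =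
        PowerSeries.C (-t) * (1 - PowerSeries.C t⁻¹ * PowerSeries.X) := by
      rw [Polynomial.coe_sub, Polynomial.coe_X, Polynomial.coe_C, mul_sub, ← mul_assoc, ← map_mul]
      have : -t * t⁻¹ = -1 := by field_simp
      rw [this, map_neg, map_neg, map_one]
      ring
    rw [h1, map_mul]
    ring

/-- Growth of the coefficients of a rational function whose poles have absolute value `≥ ρ`. -/
theorem growth (E P : ℂ[X]) (e : PowerSeries ℂ) (d : ℕ) (hE : E.natDegree ≤ d)
    (hP : P.natDegree ≤ d) (h0 : E.eval 0 ≠ 0) (h : (E : PowerSeries ℂ) * e = (P : PowerSeries ℂ))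
    (ρ : ℝ) (hρ : 0 < ρ) (hout : ∀ t : ℂ, E.eval t = 0 → ρ ≤ ‖t‖) (m : ℕ) :
    ‖PowerSeries.coeff m e‖ * ρ ^ m ≤ (d + 1) * 2 ^ d * (m + 1) ^ d *
      ∑ l ∈ Finset.range (d + 1), ρ ^ l * ‖PowerSeries.coeff l e‖ := by
  have hE0 : E ≠ 0 := by
    rintro rfl
    simp at h0
  have hroots : ∀ t ∈ E.roots, ρ ≤ ‖t‖ := by
    intro t ht
    exact hout t ((Polynomial.mem_roots hE0).mp ht)
  have hroots0 : ∀ t ∈ E.roots, t ≠ 0 := by
    intro t ht h
    have := hroots t ht
    rw [h, norm_zero] at this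
    linarith
  obtain ⟨c, hc, hfac⟩ := c1a_fac E.roots hroots0
  have hEP : (E : PowerSeries ℂ) =
      PowerSeries.C (E.leadingCoeff * c) * c1a_Q (E.roots.map (fun t => t⁻¹)) := by
    have h1 := (IsAlgClosed.splits E).eq_prod_roots
    have h2 : (E : PowerSeries ℂ) =
      ((C E.leadingCoeff * (E.roots.map (fun t => X - C t)).prod : ℂ[X]) : PowerSeries ℂ) := by
      rw [← h1]
    rw [h2, Polynomial.coe_mul, hfac, Polynomial.coe_C, map_mul, mul_assoc]
  set s := E.roots.map (fun t => t⁻¹) with hs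
  have hsu : ∀ u ∈ s, ‖u‖ * ρ ≤ 1 := by
    intro u hu
    rw [hs, Multiset.mem_map] at hu
    obtain ⟨t, ht, rfl⟩ := hu
    have h1 := hroots t ht
    have h2 : 0 < ‖t‖ := lt_of_lt_of_le hρ h1
    rw [norm_inv, inv_mul_le_iff₀ h2, mul_one]
    exact h1
  have hcard : Multiset.card s ≤ d := by
    rw [hs, Multiset.card_map]
    exact (Polynomial.card_roots' E).trans hE
  set b : ℂ := E.leadingCoeff * c with hb
  have hb0 : b ≠ 0 := mul_ne_zero (Polynomial.leadingCoeff_ne_zero.mpr hE0) hc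
  have hT : c1a_Q s * e = PowerSeries.C b⁻¹ * (P : PowerSeries ℂ) := by
    rw [← h, hEP, ← mul_assoc, ← mul_assoc, ← map_mul, inv_mul_cancel₀ hb0, map_one, one_mul]
  have he : e = (c1a_Q s * e) * c1a_R s := by
    calc e = (c1a_Q s * c1a_R s) * e := by rw [c1a_QR, one_mul]
      _ = _ := by ring
  set S : ℝ := ∑ l ∈ Finset.range (d + 1), ρ ^ l * ‖PowerSeries.coeff l e‖ with hS
  have hS0 : 0 ≤ S := Finset.sum_nonneg (fun l _ => by positivity)
  -- bounds of the coefficients of T
  have hTz : ∀ l : ℕ, d < l → PowerSeries.coeff l (c1a_Q s * e) = 0 := by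
    intro l hl
    rw [hT, PowerSeries.coeff_C_mul, Polynomial.coeff_coe,
      Polynomial.coeff_eq_zero_of_natDegree_lt (lt_of_le_of_lt hP hl), mul_zero]
  have h2d : (2:ℝ) ^ Multiset.card s ≤ 2 ^ d := pow_le_pow_right₀ (by norm_num) hcard
  have hTb : ∀ l : ℕ, l ≤ d → ‖PowerSeries.coeff l (c1a_Q s * e)‖ * ρ ^ l ≤ 2 ^ d * S := by
    intro l hl
    rw [PowerSeries.coeff_mul]
    calc _ ≤ (∑ p ∈ Finset.HasAntidiagonal.antidiagonal l,
          ‖PowerSeries.coeff p.1 (c1a_Q s) * PowerSeries.coeff p.2 e‖) * ρ ^ l :=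
          mul_le_mul_of_nonneg_right (norm_sum_le _ _) (by positivity)
      _ = ∑ p ∈ Finset.HasAntidiagonal.antidiagonal l,
          ‖PowerSeries.coeff p.1 (c1a_Q s) * PowerSeries.coeff p.2 e‖ * ρ ^ l :=
          Finset.sum_mul _ _ _
      _ ≤ ∑ p ∈ Finset.HasAntidiagonal.antidiagonal l, 2 ^ d * (ρ ^ p.2 * ‖PowerSeries.coeff p.2 e‖) := by
          apply Finset.sum_le_sum
          intro p hp
          have hpk : p.1 + p.2 = l := Finset.HasAntidiagonal.mem_antidiagonal.mp hp
          have e1 : ‖PowerSeries.coeff p.1 (c1a_Q s) * PowerSeries.coeff p.2 e‖ * ρ ^ l =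
            (‖PowerSeries.coeff p.1 (c1a_Q s)‖ * ρ ^ p.1) *
              (ρ ^ p.2 * ‖PowerSeries.coeff p.2 e‖) := by
            rw [norm_mul, ← hpk, pow_add]; ring
          rw [e1]
          apply mul_le_mul_of_nonneg_right _ (by positivity)
          exact (c1a_Q_bound ρ hρ s hsu p.1).trans h2d
      _ = 2 ^ d * ∑ p ∈ Finset.HasAntidiagonal.antidiagonal l, (ρ ^ p.2 * ‖PowerSeries.coeff p.2 e‖) :=
          (Finset.mul_sum _ _ _).symm
      _ ≤ 2 ^ d * S := by
          apply mul_le_mul_of_nonneg_left _ (by positivity)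
          rw [Finset.Nat.sum_antidiagonal_eq_sum_range_succ_mk]
          have e2 : ∑ k ∈ Finset.range l.succ, ρ ^ (l - k) * ‖PowerSeries.coeff (l - k) e‖ =
            ∑ k ∈ Finset.range l.succ, ρ ^ k * ‖PowerSeries.coeff k e‖ := by
            have := Finset.sum_range_reflect
              (fun k => ρ ^ k * ‖PowerSeries.coeff k e‖) l.succ
            rw [← this]
            apply Finset.sum_congr rfl
            intro k hk
            have : l.succ - 1 - k = l - k := by omega
            rw [this]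
          simp only []
          rw [e2, hS]
          apply Finset.sum_le_sum_of_subset_of_nonneg
          · intro k hk
            simp only [Finset.mem_range] at hk ⊢
            omega
          · intro k _ _
            positivity
  have hTm : (((m:ℝ) + 1) ^ Multiset.card s) ≤ ((m:ℝ) + 1) ^ d :=
    pow_le_pow_right₀ (by
      have : (0:ℝ) ≤ (m:ℝ) := Nat.cast_nonneg _
      linarith) hcard
  have hRb : ∀ k ≤ m, ‖PowerSeries.coeff k (c1a_R s)‖ * ρ ^ k ≤ ((m:ℝ) + 1) ^ d := by
    intro k hk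
    refine (c1a_R_bound ρ hρ s hsu k).trans (le_trans ?_ hTm)
    apply pow_le_pow_left₀ (by positivity)
    have : (k:ℝ) ≤ (m:ℝ) := by exact_mod_cast hk
    linarith
  have key : ‖PowerSeries.coeff m e‖ * ρ ^ m ≤
      ∑ p ∈ Finset.HasAntidiagonal.antidiagonal m, (if p.1 ≤ d then 2 ^ d * S * ((m:ℝ) + 1) ^ d else 0) := by
    conv_lhs => rw [he, PowerSeries.coeff_mul]
    calc _ ≤ (∑ p ∈ Finset.HasAntidiagonal.antidiagonal m,
          ‖PowerSeries.coeff p.1 (c1a_Q s * e) * PowerSeries.coeff p.2 (c1a_R s)‖) * ρ ^ m :=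
          mul_le_mul_of_nonneg_right (norm_sum_le _ _) (by positivity)
      _ = ∑ p ∈ Finset.HasAntidiagonal.antidiagonal m,
          ‖PowerSeries.coeff p.1 (c1a_Q s * e) * PowerSeries.coeff p.2 (c1a_R s)‖ * ρ ^ m :=
          Finset.sum_mul _ _ _
      _ ≤ _ := by
          apply Finset.sum_le_sum
          intro p hp
          have hpk : p.1 + p.2 = m := Finset.HasAntidiagonal.mem_antidiagonal.mp hp
          split_ifs with hd
          · have e1 : ‖PowerSeries.coeff p.1 (c1a_Q s * e) * PowerSeries.coeff p.2 (c1a_R s)‖ *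
                ρ ^ m =
              (‖PowerSeries.coeff p.1 (c1a_Q s * e)‖ * ρ ^ p.1) *
                (‖PowerSeries.coeff p.2 (c1a_R s)‖ * ρ ^ p.2) := by
              rw [norm_mul, ← hpk, pow_add]; ring
            rw [e1]
            apply mul_le_mul (hTb p.1 hd) (hRb p.2 (by omega)) (by positivity) (by positivity)
          · rw [hTz p.1 (by omega), zero_mul, norm_zero, zero_mul]
  refine key.trans ?_
  rw [Finset.sum_ite, Finset.sum_const_zero, add_zero, Finset.sum_const, nsmul_eq_mul]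
  have hcardf : ((Finset.HasAntidiagonal.antidiagonal m).filter (fun p => p.1 ≤ d)).card ≤ d + 1 := by
    have : ((Finset.HasAntidiagonal.antidiagonal m).filter (fun p => p.1 ≤ d)).card ≤
        (Finset.range (d + 1)).card := by
      apply Finset.card_le_card_of_injOn (fun p => p.1)
      · intro p hp
        simp only [Finset.coe_filter, Set.mem_ofPred_eq] at hp
        simp only [Finset.coe_range, Set.mem_Iio]
        omega
      · intro p hp q hq hpq
        simp only [Finset.coe_filter, Set.mem_ofPred_eq, Finset.HasAntidiagonal.mem_antidiagonal] at hp hq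
        have : p.2 = q.2 := by
          have := hp.1; have := hq.1
          simp only at hpq
          omega
        exact Prod.ext hpq this
    simpa using this
  have hcr : (((Finset.HasAntidiagonal.antidiagonal m).filter (fun p => p.1 ≤ d)).card : ℝ) ≤ (d:ℝ) + 1 := by
    exact_mod_cast hcardf
  calc _ ≤ ((d:ℝ) + 1) * (2 ^ d * S * ((m:ℝ) + 1) ^ d) :=
        mul_le_mul_of_nonneg_right hcr (by positivity)
    _ = _ := by ring

end Pool.Agent.H630Z
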