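import Pool.Agent.H630Z.C1A
set_option autoImplicit false

open Polynomial

namespace Pool.Agent.H630Z


theorem c1b_dvd (T : Finset ℂ) (P : ℂ[X]) (h : ∀ t ∈ T, P.eval t = 0) :
    (∏ t ∈ T, (X - C t)) ∣ P := by
  refine Finset.prod_dvd_of_coprime ?_ ?_
  · intro s _ t _ hst
    exact pairwise_coprime_X_sub_C (Function.injective_id) hst
  · intro t ht
    exact dvd_iff_isRoot.2 (h t ht)

theorem c1b_geom {t : ℂ} (ht : t ≠ 0) :
    ((C t - X : ℂ[X]) : PowerSeries ℂ) * PowerSeries.mk (fun m => (t⁻¹) ^ (m + 1)) = 1 := by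
  ext n
  rw [Polynomial.coe_sub, Polynomial.coe_C, Polynomial.coe_X, sub_mul, map_sub,
    PowerSeries.coeff_C_mul, PowerSeries.coeff_mk]
  rcases n with _ | n
  · rw [PowerSeries.coeff_zero_X_mul, sub_zero, zero_add, pow_one, mul_inv_cancel₀ ht]
    simp
  · rw [PowerSeries.coeff_succ_X_mul, PowerSeries.coeff_mk, pow_succ (t⁻¹) (n + 1), mul_left_comm,
      mul_inv_cancel₀ ht, mul_one, sub_self, PowerSeries.coeff_one, if_neg (Nat.succ_ne_zero n)]

/-- -/
theorem pf (D Nn : ℂ[X]) (d : ℕ) (hD : D.natDegree ≤ d) (hN : Nn.natDegree ≤ d)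
    (h0 : D.eval 0 ≠ 0) (T : Finset ℂ)
    (hT : ∀ t ∈ T, D.eval t = 0 ∧ (derivative D).eval t ≠ 0) (ρ : ℝ) (hρ : 0 < ρ)
    (hout : ∀ t : ℂ, D.eval t = 0 → t ∉ T → ρ ≤ ‖t‖) (e : ℕ → ℂ)
    (he : ∀ m, e m = PowerSeries.coeff m ((Nn : PowerSeries ℂ) * (D : PowerSeries ℂ)⁻¹) +
      ∑ t ∈ T, Nn.eval t / (derivative D).eval t * (t⁻¹) ^ (m + 1)) (m : ℕ) :
    ‖e m‖ * ρ ^ m ≤ (d + 1) * 2 ^ d * (m + 1) ^ d *
      ∑ l ∈ Finset.range (d + 1), ρ ^ l * ‖e l‖ := by
  classical
  set W : ℂ[X] := ∏ t ∈ T, (X - C t) with hW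
  have hWm : W.Monic := monic_prod_of_monic _ _ fun t _ => monic_X_sub_C t
  have hW0 : W ≠ 0 := hWm.ne_zero
  obtain ⟨E, hE⟩ := c1b_dvd T D (fun t ht => (hT t ht).1)
  rw [← hW] at hE
  have hD0 : D ≠ 0 := by
    rintro rfl
    simp at h0
  have hE0 : E ≠ 0 := by
    rintro rfl
    rw [mul_zero] at hE
    exact hD0 hE
  have hEd : E.natDegree ≤ d := by
    have h1 : D.natDegree = W.natDegree + E.natDegree := by
      rw [hE, natDegree_mul hW0 hE0]
    omega
  have hEe : E.eval 0 ≠ 0 := by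
    intro h1
    apply h0
    rw [hE, eval_mul, h1, mul_zero]
  set Dt : ℂ → ℂ[X] := fun t => (∏ s ∈ T.erase t, (X - C s)) * E with hDt
  have hDDt : ∀ t ∈ T, D = (X - C t) * Dt t := by
    intro t ht
    rw [hDt, hE, hW, ← Finset.mul_prod_erase T (fun s => X - C s) ht]
    ring
  have hder : ∀ t ∈ T, (derivative D).eval t = (Dt t).eval t := by
    intro t ht
    have h1 := congrArg (fun P => (derivative P).eval t) (hDDt t ht)
    simp only [derivative_mul, derivative_sub, derivative_X, derivative_C, sub_zero, one_mul,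
      eval_add, eval_mul, eval_sub, eval_X, eval_C, sub_self, zero_mul, add_zero] at h1
    exact h1
  have hEroot : ∀ t : ℂ, E.eval t = 0 → ρ ≤ ‖t‖ := by
    intro t ht
    refine hout t ?_ ?_
    · rw [hE, eval_mul, ht, mul_zero]
    · intro htT
      apply (hT t htT).2
      rw [hder t htT, hDt]
      show ((∏ s ∈ T.erase t, (X - C s)) * E).eval t = 0
      rw [eval_mul, ht, mul_zero]
  have hDtd : ∀ t ∈ T, (Dt t).natDegree ≤ d := by
    intro t ht
    have h1 : Dt t ∣ D := ⟨X - C t, by rw [mul_comm]; exact hDDt t ht⟩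
    exact (natDegree_le_of_dvd h1 hD0).trans hD
  set R : ℂ → ℂ := fun t => Nn.eval t / (derivative D).eval t with hR
  set P : ℂ[X] := Nn - ∑ t ∈ T, C (R t) * Dt t with hP
  have hPd : P.natDegree ≤ d := by
    rw [hP]
    refine (natDegree_sub_le _ _).trans (max_le hN ?_)
    refine natDegree_sum_le_of_forall_le T _ fun t ht => ?_
    exact (natDegree_C_mul_le _ _).trans (hDtd t ht)
  have hProot : ∀ s ∈ T, P.eval s = 0 := by
    intro s hs
    rw [hP, eval_sub, eval_finsetSum, Finset.sum_eq_single s]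
    · rw [eval_mul, eval_C, ← hder s hs, hR]
      show Nn.eval s - Nn.eval s / (derivative D).eval s * (derivative D).eval s = 0
      rw [div_mul_cancel₀ _ (hT s hs).2, sub_self]
    · intro t ht hts
      rw [eval_mul]
      have h1 : (Dt t).eval s = 0 := by
        show ((∏ r ∈ T.erase t, (X - C r)) * E).eval s = 0
        rw [eval_mul, eval_prod, Finset.prod_eq_zero (Finset.mem_erase.2 ⟨Ne.symm hts, hs⟩),
          zero_mul]
        simp
      rw [h1, mul_zero]
    · intro h1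
      exact absurd hs h1
  obtain ⟨P1, hP1⟩ := c1b_dvd T P hProot
  rw [← hW] at hP1
  have hP1d : P1.natDegree ≤ d := by
    by_cases h1 : P1 = 0
    · rw [h1, natDegree_zero]
      exact Nat.zero_le d
    · have h2 : P.natDegree = W.natDegree + P1.natDegree := by
        rw [hP1, natDegree_mul hW0 h1]
      omega
  -- the power series
  set e' : PowerSeries ℂ := PowerSeries.mk e with he'
  have hDu : PowerSeries.constantCoeff (D : PowerSeries ℂ) ≠ 0 := by
    rw [← PowerSeries.coeff_zero_eq_constantCoeff_apply, Polynomial.coeff_coe,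
      coeff_zero_eq_eval_zero]
    exact h0
  have he1 : e' = (Nn : PowerSeries ℂ) * (D : PowerSeries ℂ)⁻¹ +
      ∑ t ∈ T, PowerSeries.C (R t) * PowerSeries.mk (fun m => (t⁻¹) ^ (m + 1)) := by
    ext n
    rw [map_add, map_sum, he', PowerSeries.coeff_mk, he n]
    congr 1
    refine Finset.sum_congr rfl fun t _ => ?_
    rw [PowerSeries.coeff_C_mul, PowerSeries.coeff_mk]
  have hDe : (D : PowerSeries ℂ) * e' = (P : PowerSeries ℂ) := by
    rw [he1, mul_add, mul_left_comm, PowerSeries.mul_inv_cancel _ hDu, mul_one, hP,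
      Polynomial.coe_sub, sub_eq_add_neg, Finset.mul_sum]
    congr 1
    have h1 : ((∑ t ∈ T, C (R t) * Dt t : ℂ[X]) : PowerSeries ℂ) =
        ∑ t ∈ T, PowerSeries.C (R t) * (Dt t : PowerSeries ℂ) := by
      rw [← Polynomial.coeToPowerSeries.ringHom_apply, map_sum]
      refine Finset.sum_congr rfl fun t _ => ?_
      rw [Polynomial.coeToPowerSeries.ringHom_apply, Polynomial.coe_mul, Polynomial.coe_C]
    rw [h1, ← Finset.sum_neg_distrib]
    refine Finset.sum_congr rfl fun t ht => ?_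
    have ht0 : t ≠ 0 := by
      rintro rfl
      exact h0 (hT 0 ht).1
    have h2 := c1b_geom ht0
    have h3 : (D : PowerSeries ℂ) = -((Dt t : PowerSeries ℂ) * ((C t - X : ℂ[X]) : PowerSeries ℂ)) := by
      rw [← Polynomial.coe_mul, ← Polynomial.coe_neg]
      congr 1
      rw [hDDt t ht]
      ring
    rw [h3]
    calc -((Dt t : PowerSeries ℂ) * ((C t - X : ℂ[X]) : PowerSeries ℂ)) *
          (PowerSeries.C (R t) * PowerSeries.mk (fun m => (t⁻¹) ^ (m + 1))) =
        -(PowerSeries.C (R t) * (Dt t : PowerSeries ℂ)) * (((C t - X : ℂ[X]) : PowerSeries ℂ) *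
          PowerSeries.mk (fun m => (t⁻¹) ^ (m + 1))) := by ring
      _ = _ := by rw [h2, mul_one]
  have hWc : (W : PowerSeries ℂ) ≠ 0 := by
    intro h1
    apply hW0
    exact Polynomial.coe_eq_zero_iff.1 h1
  have hEe' : (E : PowerSeries ℂ) * e' = (P1 : PowerSeries ℂ) := by
    apply mul_left_cancel₀ hWc
    rw [← mul_assoc, ← Polynomial.coe_mul, ← Polynomial.coe_mul, ← hE, ← hP1]
    exact hDe
  have key := growth E P1 e' d hEd hP1d hEe hEe' ρ hρ hEroot m
  simpa only [he', PowerSeries.coeff_mk] using key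

end Pool.Agent.H630Z
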