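import Pool.Agent.H630Z.Defs2
set_option autoImplicit false

open Polynomial

namespace Pool.Agent.H630Z

/-- the assertion for a function of a complex variable -/
def c2_P (f : ℂ → ℂ) (d : ℕ) : Prop := ∃ (S : Finset ℝ) (B c : ℝ), 0 ≤ B ∧ 0 < c ∧
    (∀ θ τ ε : ℝ, 0 < θ → θ < Real.pi → 0 < τ → 0 ≤ ε → (∀ s ∈ S, ε ≤ |θ - s|) →
      c * (τ * ε) ^ d ≤ ‖f ((τ : ℂ) * ee θ)‖) ∧
    (∀ (a b : ℝ) (τ : ℝ → ℝ), 0 < a → a ≤ b → b < Real.pi → ContinuousOn τ (Set.Icc a b) →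
      (∀ θ ∈ Set.Icc a b, 0 < τ θ) → (∀ s ∈ S, s ∉ Set.Icc a b) →
      ∃ α : ℝ → ℝ, ContinuousOn α (Set.Icc a b) ∧ ∀ θ ∈ Set.Icc a b, |α θ| ≤ B ∧
        f ((τ θ : ℂ) * ee θ) = ‖f ((τ θ : ℂ) * ee θ)‖ * ee (α θ))

theorem c2_const (l : ℂ) (hl : l ≠ 0) : c2_P (fun _ => l) 0 := by
  refine ⟨∅, Real.pi, ‖l‖, Real.pi_pos.le, norm_pos_iff.mpr hl, ?_, ?_⟩
  · intro θ τ ε _ _ _ _ _
    simp
  · intro a b τ _ _ _ _ _ _
    refine ⟨fun _ => Complex.arg l, continuousOn_const, fun θ _ => ⟨Complex.abs_arg_le_pi l, ?_⟩⟩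
    simp only [ee]
    exact (Complex.norm_mul_exp_arg_mul_I l).symm

theorem c2_ee_add (x y : ℝ) : ee (x + y) = ee x * ee y := by
  simp only [ee]
  rw [← Complex.exp_add]
  congr 1
  push_cast
  ring

theorem c2_mul {f g : ℂ → ℂ} {d e : ℕ} (hf : c2_P f d) (hg : c2_P g e) :
    c2_P (fun t => f t * g t) (d + e) := by
  classical
  obtain ⟨S, B, c, hB, hc, h1, h2⟩ := hf
  obtain ⟨S', B', c', hB', hc', h1', h2'⟩ := hg
  refine ⟨S ∪ S', B + B', c * c', add_nonneg hB hB', mul_pos hc hc', ?_, ?_⟩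
  · intro θ τ ε hθ hθ' hτ hε hs
    have e1 := h1 θ τ ε hθ hθ' hτ hε (fun s h => hs s (Finset.mem_union_left _ h))
    have e2 := h1' θ τ ε hθ hθ' hτ hε (fun s h => hs s (Finset.mem_union_right _ h))
    rw [norm_mul]
    calc c * c' * (τ * ε) ^ (d + e) = (c * (τ * ε) ^ d) * (c' * (τ * ε) ^ e) := by
          rw [pow_add]; ring
      _ ≤ _ := by
          apply mul_le_mul e1 e2 _ (norm_nonneg _)
          positivity
  · intro a b τ ha hab hb hτ hpos hs
    obtain ⟨α, hα, hα'⟩ := h2 a b τ ha hab hb hτ hpos (fun s h => hs s (Finset.mem_union_left _ h))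
    obtain ⟨β, hβ, hβ'⟩ := h2' a b τ ha hab hb hτ hpos (fun s h => hs s (Finset.mem_union_right _ h))
    refine ⟨fun θ => α θ + β θ, hα.add hβ, fun θ hθ => ⟨?_, ?_⟩⟩
    · exact (abs_add_le _ _).trans (add_le_add (hα' θ hθ).1 (hβ' θ hθ).1)
    · have e1 := (hα' θ hθ).2
      have e2 := (hβ' θ hθ).2
      rw [norm_mul, c2_ee_add]
      push_cast
      calc f ((τ θ : ℂ) * ee θ) * g ((τ θ : ℂ) * ee θ)
          = (‖f ((τ θ : ℂ) * ee θ)‖ * ee (α θ)) * (‖g ((τ θ : ℂ) * ee θ)‖ * ee (β θ)) := by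
            rw [← e1, ← e2]
        _ = _ := by ring

theorem c2_sin (x ε : ℝ) (h1 : -Real.pi < x) (h2 : x < 2 * Real.pi) (hε : 0 ≤ ε)
    (ha : ε ≤ |x + Real.pi|) (hb : ε ≤ |x|) (hc : ε ≤ |x - Real.pi|)
    (hd : ε ≤ |x - 2 * Real.pi|) : 2 / Real.pi * ε ≤ |Real.sin x| := by
  have hpi := Real.pi_pos
  have key : ∀ y : ℝ, 0 ≤ y → y ≤ Real.pi → ε ≤ y → ε ≤ Real.pi - y →
      2 / Real.pi * ε ≤ Real.sin y := by
    intro y hy0 hy1 e1 e2
    have hp : 0 ≤ 2 / Real.pi := by positivity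
    rcases le_total y (Real.pi / 2) with h | h
    · exact (mul_le_mul_of_nonneg_left e1 hp).trans (Real.mul_le_sin hy0 h)
    · have := Real.mul_le_sin (x := Real.pi - y) (by linarith) (by linarith)
      rw [Real.sin_pi_sub] at this
      exact (mul_le_mul_of_nonneg_left e2 hp).trans this
  rcases le_total x 0 with h | h
  · rw [abs_of_nonneg (by linarith)] at ha
    rw [abs_of_nonpos h] at hb
    have := key (-x) (by linarith) (by linarith) hb (by linarith)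
    rw [Real.sin_neg] at this
    exact this.trans (neg_le_abs _)
  · rw [abs_of_nonneg h] at hb
    rcases le_total x Real.pi with h' | h'
    · rw [abs_of_nonpos (by linarith)] at hc
      have := key x h h' hb (by linarith)
      exact this.trans (le_abs_self _)
    · rw [abs_of_nonneg (by linarith)] at hc
      rw [abs_of_nonpos (by linarith)] at hd
      have := key (x - Real.pi) (by linarith) (by linarith) hc (by linarith)
      rw [Real.sin_sub_pi] at this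
      exact this.trans (neg_le_abs _)

theorem c2_sin_ne (x : ℝ) (h1 : -Real.pi < x) (h2 : x < 2 * Real.pi) (h3 : x ≠ 0)
    (h4 : x ≠ Real.pi) : Real.sin x ≠ 0 := by
  have hpi := Real.pi_pos
  intro h
  rw [Real.sin_eq_zero_iff] at h
  obtain ⟨k, hk⟩ := h
  have hk1 : -1 < (k : ℝ) := by
    by_contra hc
    push Not at hc
    have : (k : ℝ) * Real.pi ≤ -1 * Real.pi := mul_le_mul_of_nonneg_right hc hpi.le
    linarith
  have hk2 : (k : ℝ) < 2 := by
    by_contra hc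
    push Not at hc
    have : 2 * Real.pi ≤ (k : ℝ) * Real.pi := mul_le_mul_of_nonneg_right hc hpi.le
    linarith
  have e1 : (-1 : ℤ) < k := by exact_mod_cast hk1
  have e2 : k < (2 : ℤ) := by exact_mod_cast hk2
  have : k = 0 ∨ k = 1 := by omega
  rcases this with rfl | rfl
  · apply h3; rw [← hk]; simp
  · apply h4; rw [← hk]; simp

/-- the bracket -/
theorem c2_factor (a : ℂ) (θ τ : ℝ) :
    (τ : ℂ) * ee θ - a = ee (Complex.arg a) * ((τ : ℂ) * ee (θ - Complex.arg a) - (‖a‖ : ℂ)) := by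
  have h : (‖a‖ : ℂ) * ee (Complex.arg a) = a := Complex.norm_mul_exp_arg_mul_I a
  have h2 : ee (Complex.arg a) * ee (θ - Complex.arg a) = ee θ := by
    rw [← c2_ee_add]; congr 1; ring
  calc (τ : ℂ) * ee θ - a = (τ : ℂ) * (ee (Complex.arg a) * ee (θ - Complex.arg a))
        - (‖a‖ : ℂ) * ee (Complex.arg a) := by rw [h, h2]
    _ = _ := by ring

theorem c2_norm_ee (x : ℝ) : ‖ee x‖ = 1 := Complex.norm_exp_ofReal_mul_I x

theorem c2_im (a : ℂ) (θ τ : ℝ) :
    ((τ : ℂ) * ee (θ - Complex.arg a) - (‖a‖ : ℂ)).im = τ * Real.sin (θ - Complex.arg a) := by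
  rw [Complex.sub_im, Complex.ofReal_im, sub_zero, Complex.im_ofReal_mul, ee,
    Complex.exp_ofReal_mul_I_im]

theorem c2_lin (a : ℂ) : c2_P (fun t => t - a) 1 := by
  classical
  have hpi := Real.pi_pos
  set β := Complex.arg a with hβ
  have hβ1 : -Real.pi < β := Complex.neg_pi_lt_arg a
  have hβ2 : β ≤ Real.pi := Complex.arg_le_pi a
  refine ⟨{β - Real.pi, β, β + Real.pi, β + 2 * Real.pi}, 2 * Real.pi, 2 / Real.pi,
    by positivity, by positivity, ?_, ?_⟩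
  · intro θ τ ε hθ hθ' hτ hε hs
    have e1 := hs (β - Real.pi) (by simp)
    have e2 := hs β (by simp)
    have e3 := hs (β + Real.pi) (by simp)
    have e4 := hs (β + 2 * Real.pi) (by simp)
    have hsin := c2_sin (θ - β) ε (by linarith) (by linarith) hε
      (by convert e1 using 2; ring) e2 (by convert e3 using 2; ring) (by convert e4 using 2; ring)
    have him := c2_im a θ τ
    have hn : |((τ : ℂ) * ee (θ - Complex.arg a) - (‖a‖ : ℂ)).im| ≤
        ‖(τ : ℂ) * ee (θ - Complex.arg a) - (‖a‖ : ℂ)‖ := Complex.abs_im_le_norm _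
    have hf : ‖(τ : ℂ) * ee θ - a‖ = ‖(τ : ℂ) * ee (θ - Complex.arg a) - (‖a‖ : ℂ)‖ := by
      rw [c2_factor a θ τ, norm_mul, c2_norm_ee, one_mul]
    rw [pow_one]
    show 2 / Real.pi * (τ * ε) ≤ ‖(τ : ℂ) * ee θ - a‖
    rw [hf]
    refine le_trans ?_ hn
    rw [him, abs_mul, abs_of_pos hτ]
    calc 2 / Real.pi * (τ * ε) = τ * (2 / Real.pi * ε) := by ring
      _ ≤ _ := mul_le_mul_of_nonneg_left hsin hτ.le
  · intro a' b τ ha hab hb hτ hpos hs
    have hw : ∀ θ ∈ Set.Icc a' b,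
        ((τ θ : ℂ) * ee (θ - β) - (‖a‖ : ℂ)) ∈ Complex.slitPlane := by
      intro θ hθ
      rw [Complex.mem_slitPlane_iff]
      right
      rw [c2_im a θ (τ θ)]
      refine mul_ne_zero (hpos θ hθ).ne' ?_
      apply c2_sin_ne
      · have := hθ.1; linarith
      · have := hθ.2; linarith
      · intro h
        exact hs β (by simp) (by have : θ = β := by linarith
                                 rwa [← this])
      · intro h
        exact hs (β + Real.pi) (by simp) (by have : θ = β + Real.pi := by linarith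
                                             rwa [← this])
    refine ⟨fun θ => β + Complex.arg ((τ θ : ℂ) * ee (θ - β) - (‖a‖ : ℂ)), ?_, fun θ hθ => ⟨?_, ?_⟩⟩
    · apply continuousOn_const.add
      intro θ hθ
      have hc : ContinuousOn (fun θ : ℝ => (τ θ : ℂ) * ee (θ - β) - (‖a‖ : ℂ)) (Set.Icc a' b) := by
        apply ContinuousOn.sub _ continuousOn_const
        apply ContinuousOn.mul
        · exact Complex.continuous_ofReal.comp_continuousOn hτ
        · unfold ee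
          fun_prop
      exact ContinuousAt.comp_continuousWithinAt
        (f := fun θ : ℝ => (τ θ : ℂ) * ee (θ - β) - (‖a‖ : ℂ)) (g := Complex.arg)
        (Complex.continuousAt_arg (hw θ hθ)) (hc θ hθ)
    · calc |β + Complex.arg ((τ θ : ℂ) * ee (θ - β) - (‖a‖ : ℂ))|
          ≤ |β| + |Complex.arg ((τ θ : ℂ) * ee (θ - β) - (‖a‖ : ℂ))| := abs_add_le _ _
        _ ≤ Real.pi + Real.pi := add_le_add (Complex.abs_arg_le_pi a) (Complex.abs_arg_le_pi _)
        _ = 2 * Real.pi := by ring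
    · show (τ θ : ℂ) * ee θ - a = ‖(τ θ : ℂ) * ee θ - a‖ * _
      have hf : ‖(τ θ : ℂ) * ee θ - a‖ = ‖(τ θ : ℂ) * ee (θ - β) - (‖a‖ : ℂ)‖ := by
        rw [c2_factor a θ (τ θ), norm_mul, c2_norm_ee, one_mul]
      rw [hf, c2_ee_add]
      have h3 : (‖(τ θ : ℂ) * ee (θ - β) - (‖a‖ : ℂ)‖ : ℂ) *
          ee (Complex.arg ((τ θ : ℂ) * ee (θ - β) - (‖a‖ : ℂ))) =
          (τ θ : ℂ) * ee (θ - β) - (‖a‖ : ℂ) := Complex.norm_mul_exp_arg_mul_I _
      calc (τ θ : ℂ) * ee θ - a = ee β * ((τ θ : ℂ) * ee (θ - β) - (‖a‖ : ℂ)) := c2_factor a θ (τ θ)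
        _ = ee β * ((‖(τ θ : ℂ) * ee (θ - β) - (‖a‖ : ℂ)‖ : ℂ) *
          ee (Complex.arg ((τ θ : ℂ) * ee (θ - β) - (‖a‖ : ℂ)))) := by rw [h3]
        _ = _ := by ring

theorem c2_prod (R : Multiset ℂ) :
    c2_P (fun t => (R.map (fun a => t - a)).prod) (Multiset.card R) := by
  induction R using Multiset.induction with
  | empty =>
    simp only [Multiset.map_zero, Multiset.prod_zero, Multiset.card_zero]
    exact c2_const 1 one_ne_zero
  | cons a R ih =>
    simp only [Multiset.map_cons, Multiset.prod_cons, Multiset.card_cons]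
    rw [add_comm]
    exact c2_mul (c2_lin a) ih

theorem poly_arg (A : ℝ[X]) (hA : A ≠ 0) : ∃ (S : Finset ℝ) (B c : ℝ), 0 ≤ B ∧ 0 < c ∧
    (∀ θ τ ε : ℝ, 0 < θ → θ < Real.pi → 0 < τ → 0 ≤ ε → (∀ s ∈ S, ε ≤ |θ - s|) →
      c * (τ * ε) ^ A.natDegree ≤ ‖aeval ((τ : ℂ) * ee θ) A‖) ∧
    (∀ (a b : ℝ) (τ : ℝ → ℝ), 0 < a → a ≤ b → b < Real.pi → ContinuousOn τ (Set.Icc a b) →
      (∀ θ ∈ Set.Icc a b, 0 < τ θ) → (∀ s ∈ S, s ∉ Set.Icc a b) →
      ∃ α : ℝ → ℝ, ContinuousOn α (Set.Icc a b) ∧ ∀ θ ∈ Set.Icc a b, |α θ| ≤ B ∧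
        aeval ((τ θ : ℂ) * ee θ) A = ‖aeval ((τ θ : ℂ) * ee θ) A‖ * ee (α θ)) := by
  have hsp : (A.map (algebraMap ℝ ℂ)).Splits := IsAlgClosed.splits _
  have hA' : A.map (algebraMap ℝ ℂ) ≠ 0 := by
    rwa [Polynomial.map_ne_zero_iff (algebraMap ℝ ℂ).injective]
  have hev : ∀ t : ℂ, aeval t A = (A.map (algebraMap ℝ ℂ)).leadingCoeff *
      ((A.map (algebraMap ℝ ℂ)).roots.map (fun a => t - a)).prod := by
    intro t
    rw [← hsp.eval_eq_prod_roots, eval_map_algebraMap]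
  have hdeg : A.natDegree = 0 + Multiset.card (A.map (algebraMap ℝ ℂ)).roots := by
    rw [zero_add, ← hsp.natDegree_eq_card_roots, Polynomial.natDegree_map]
  have := c2_mul (c2_const _ (leadingCoeff_ne_zero.mpr hA'))
    (c2_prod (A.map (algebraMap ℝ ℂ)).roots)
  rw [← hdeg] at this
  have hfun : (fun t : ℂ => (A.map (algebraMap ℝ ℂ)).leadingCoeff *
      ((A.map (algebraMap ℝ ℂ)).roots.map (fun a => t - a)).prod) = fun t => aeval t A := by
    funext t; exact (hev t).symm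
  rw [hfun] at this
  exact this

end Pool.Agent.H630Z
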