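import Pool.Agent.H630Z.Defs
set_option autoImplicit false

namespace Pool.Agent.H630Z


theorem c3a_ind (f Φ : ℝ → ℝ) (a : ℝ) : ∀ (n : ℕ) (b : ℝ) (k0 : ℤ), a ≤ b →
    ContinuousOn f (Set.Icc a b) → ContinuousOn Φ (Set.Icc a b) →
    (∀ k : ℤ, ∀ θ ∈ Set.Icc a b, Φ θ = Real.pi * k → f θ * (-1 : ℝ) ^ k < 0) →
    Φ a ≤ Real.pi * k0 → Real.pi * ((k0 : ℝ) + n) ≤ Φ b →
    ∃ Z : Finset ℝ, (∀ θ ∈ Z, a ≤ θ ∧ θ ≤ b ∧ f θ = 0) ∧ n ≤ Z.card := by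
  intro n
  induction n with
  | zero =>
    intro b k0 _ _ _ _ _ _
    exact ⟨∅, by simp, by simp⟩
  | succ n ih =>
    intro b k0 hab hf hΦ hs h0 h1
    have hpi := Real.pi_pos
    push_cast at h1
    have hn : (0 : ℝ) ≤ n := Nat.cast_nonneg n
    have h2 : Real.pi * ((k0 : ℝ) + n) ≤ Φ b := by nlinarith
    have h3 : Φ a ≤ Real.pi * ((k0 : ℝ) + n) := by nlinarith
    obtain ⟨b', hb', hΦb'⟩ := intermediate_value_Icc hab hΦ ⟨h3, h2⟩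
    have hsub : Set.Icc b' b ⊆ Set.Icc a b := Set.Icc_subset_Icc_left hb'.1
    obtain ⟨b'', hb'', hΦb''⟩ := intermediate_value_Icc hb'.2 (hΦ.mono hsub)
      ⟨show Φ b' ≤ Real.pi * ((k0 : ℝ) + (n + 1)) by rw [hΦb']; nlinarith, h1⟩
    have hsub' : Set.Icc a b' ⊆ Set.Icc a b := Set.Icc_subset_Icc_right hb'.2
    obtain ⟨Z, hZ, hc⟩ := ih b' k0 hb'.1 (hf.mono hsub') (hΦ.mono hsub')
      (fun k θ hθ => hs k θ (hsub' hθ)) h0 (le_of_eq hΦb'.symm)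
    have e1 : f b' * (-1 : ℝ) ^ (k0 + n : ℤ) < 0 := by
      refine hs _ b' hb' ?_
      rw [hΦb']; push_cast; ring
    have e2 : f b'' * (-1 : ℝ) ^ (k0 + n + 1 : ℤ) < 0 := by
      refine hs _ b'' (hsub hb'') ?_
      rw [hΦb'']; push_cast; ring
    rw [zpow_add_one₀ (by norm_num : (-1 : ℝ) ≠ 0)] at e2
    have hs0 : (-1 : ℝ) ^ (k0 + n : ℤ) ≠ 0 := zpow_ne_zero _ (by norm_num)
    have hcont : ContinuousOn (fun θ => f θ * (-1 : ℝ) ^ (k0 + n : ℤ)) (Set.Icc b' b'') :=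
      (hf.mono ((Set.Icc_subset_Icc_right hb''.2).trans hsub)).mul continuousOn_const
    obtain ⟨c, hcI, hc0⟩ := intermediate_value_Icc hb''.1 hcont
      ⟨e1.le, (by nlinarith : (0 : ℝ) ≤ f b'' * (-1 : ℝ) ^ (k0 + n : ℤ))⟩
    have hfc : f c = 0 := by
      rcases mul_eq_zero.1 hc0 with h | h
      · exact h
      · exact absurd h hs0
    have hcb' : c ≠ b' := by
      rintro rfl
      rw [hfc] at e1
      simp at e1
    have hlt : b' < c := lt_of_le_of_ne hcI.1 (Ne.symm hcb')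
    have hcZ : c ∉ Z := fun h => absurd (hZ c h).2.1 (not_le.2 hlt)
    refine ⟨insert c Z, ?_, ?_⟩
    · intro θ hθ
      rcases Finset.mem_insert.1 hθ with rfl | h
      · exact ⟨hb'.1.trans hcI.1, hcI.2.trans hb''.2, hfc⟩
      · exact ⟨(hZ θ h).1, (hZ θ h).2.1.trans hb'.2, (hZ θ h).2.2⟩
    · rw [Finset.card_insert_of_notMem hcZ]
      omega

/-- Sign changes.  Proof: claim: if `a ≤ b`, `k0 ≤ k1` integers with `Φ a ≤ π k0`, `π k1 ≤ Φ b`, then there is a finite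
set of at least `k1 - k0` zeros of `f` in `[a, b]`.  Induction on `k1 - k0`: for `k1 = k0` empty set.  Else, by the intermediate value theorem
there is `b' ∈ [a, b]` with `Φ b' = π (k1 - 1)`, and `b'' ∈ [b', b]` with `Φ b'' = π k1`; the induction hypothesis on `[a, b']` gives
`k1 - 1 - k0` zeros in `[a, b']`; `f b'` and `f b''` are nonzero of opposite signs by `hs`, so there is a zero in `(b', b'')`, which is new.
Then choose `k0 = ⌈Φ a / π⌉`, `k1 = ⌊Φ b / π⌋` (if `k1 < k0` the claim is trivial with the empty set: `(Φ b - Φ a)/π - 2 ≤ 0`). -/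
theorem count_zeros (f Φ : ℝ → ℝ) (a b : ℝ) (hab : a ≤ b) (hf : ContinuousOn f (Set.Icc a b))
    (hΦ : ContinuousOn Φ (Set.Icc a b))
    (hs : ∀ k : ℤ, ∀ θ ∈ Set.Icc a b, Φ θ = Real.pi * k → f θ * (-1 : ℝ) ^ k < 0) :
    ∃ Z : Finset ℝ, (∀ θ ∈ Z, a ≤ θ ∧ θ ≤ b ∧ f θ = 0) ∧
      (Φ b - Φ a) / Real.pi - 2 ≤ (Z.card : ℝ) := by
  have hpi := Real.pi_pos
  have h1 := Int.lt_floor_add_one (Φ b / Real.pi)
  have h2 := Int.ceil_lt_add_one (Φ a / Real.pi)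
  have h3 := Int.floor_le (Φ b / Real.pi)
  have h4 := Int.le_ceil (Φ a / Real.pi)
  have hdiv : (Φ b - Φ a) / Real.pi = Φ b / Real.pi - Φ a / Real.pi := sub_div _ _ _
  rcases le_or_gt ⌈Φ a / Real.pi⌉ ⌊Φ b / Real.pi⌋ with h | h
  · obtain ⟨n, hn⟩ := Int.le.dest h
    have hn' : ((⌈Φ a / Real.pi⌉ : ℤ) : ℝ) + n = ((⌊Φ b / Real.pi⌋ : ℤ) : ℝ) := by
      exact_mod_cast hn
    obtain ⟨Z, hZ, hc⟩ := c3a_ind f Φ a n b ⌈Φ a / Real.pi⌉ hab hf hΦ hs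
      (by rw [div_le_iff₀ hpi] at h4; linarith)
      (by rw [hn']; rw [le_div_iff₀ hpi] at h3; linarith)
    refine ⟨Z, hZ, ?_⟩
    have hc' : (n : ℝ) ≤ Z.card := by exact_mod_cast hc
    rw [hdiv]
    linarith
  · refine ⟨∅, by simp, ?_⟩
    have h' : ((⌊Φ b / Real.pi⌋ : ℤ) : ℝ) + 1 ≤ ((⌈Φ a / Real.pi⌉ : ℤ) : ℝ) := by
      exact_mod_cast h
    rw [hdiv, Finset.card_empty, Nat.cast_zero]
    linarith

end Pool.Agent.H630Z
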