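import Pool.Agent.H630Z.Defs
set_option autoImplicit false

namespace Pool.Agent.H630Z

theorem c3b_aux (f : ℝ → ℝ) (ε M B : ℝ) (hε : 0 < ε) (hM : 0 ≤ M) (hB : 0 ≤ B) (S : Finset ℝ) :
    ∀ a0 b0 : ℝ, a0 ≤ b0 →
    (∀ a b : ℝ, a0 ≤ a → a ≤ b → b ≤ b0 → (∀ s ∈ S, ∀ θ ∈ Set.Icc a b, ε ≤ |θ - s|) →
      ∃ Z : Finset ℝ, (∀ θ ∈ Z, a ≤ θ ∧ θ ≤ b ∧ f θ = 0) ∧ M * (b - a) - B ≤ (Z.card : ℝ)) →
    ∃ Z : Finset ℝ, (∀ θ ∈ Z, a0 ≤ θ ∧ θ ≤ b0 ∧ f θ = 0) ∧
      M * (b0 - a0) - ((2 ^ S.card - 1) * (2 * ε * M) + 2 ^ S.card * B) ≤ (Z.card : ℝ) := by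
  classical
  induction S using Finset.induction_on with
  | empty =>
    intro a0 b0 hab h
    obtain ⟨Z, hZ, hc⟩ := h a0 b0 le_rfl hab le_rfl (by simp)
    refine ⟨Z, hZ, ?_⟩
    simp only [Finset.card_empty, pow_zero]
    linarith
  | insert s S hs ih =>
    intro a0 b0 hab h
    have hC : 0 ≤ ((2:ℝ) ^ S.card - 1) * (2 * ε * M) + 2 ^ S.card * B := by
      have h1 : (1:ℝ) ≤ 2 ^ S.card := one_le_pow₀ (by norm_num)
      have h2 : 0 ≤ 2 * ε * M := by positivity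
      have h3 : 0 ≤ ((2:ℝ) ^ S.card - 1) * (2 * ε * M) := mul_nonneg (by linarith) h2
      positivity
    -- left piece
    have hL : ∃ Z : Finset ℝ, (∀ θ ∈ Z, a0 ≤ θ ∧ θ ≤ min b0 (s - ε) ∧ f θ = 0) ∧
        M * max 0 (min b0 (s - ε) - a0) - ((2 ^ S.card - 1) * (2 * ε * M) + 2 ^ S.card * B)
          ≤ (Z.card : ℝ) := by
      by_cases hc : a0 ≤ min b0 (s - ε)
      · obtain ⟨Z, hZ, hcard⟩ := ih a0 (min b0 (s - ε)) hc (by
          intro a b ha hab' hb hS
          refine h a b ha hab' (hb.trans (min_le_left _ _)) ?_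
          intro t ht θ hθ
          rcases Finset.mem_insert.mp ht with rfl | ht
          · have h1 : θ ≤ t - ε := hθ.2.trans (hb.trans (min_le_right _ _))
            rw [abs_sub_comm]
            exact le_trans (by linarith) (le_abs_self _)
          · exact hS t ht θ hθ)
        refine ⟨Z, hZ, ?_⟩
        rw [max_eq_right (by linarith)]
        exact hcard
      · refine ⟨∅, by simp, ?_⟩
        push Not at hc
        rw [max_eq_left (by linarith)]
        simp only [Finset.card_empty, Nat.cast_zero]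
        linarith
    have hR : ∃ Z : Finset ℝ, (∀ θ ∈ Z, max a0 (s + ε) ≤ θ ∧ θ ≤ b0 ∧ f θ = 0) ∧
        M * max 0 (b0 - max a0 (s + ε)) - ((2 ^ S.card - 1) * (2 * ε * M) + 2 ^ S.card * B)
          ≤ (Z.card : ℝ) := by
      by_cases hc : max a0 (s + ε) ≤ b0
      · obtain ⟨Z, hZ, hcard⟩ := ih (max a0 (s + ε)) b0 hc (by
          intro a b ha hab' hb hS
          refine h a b ((le_max_left _ _).trans ha) hab' hb ?_
          intro t ht θ hθ
          rcases Finset.mem_insert.mp ht with rfl | ht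
          · have h1 : t + ε ≤ θ := ((le_max_right _ _).trans ha).trans hθ.1
            exact le_trans (by linarith) (le_abs_self _)
          · exact hS t ht θ hθ)
        refine ⟨Z, hZ, ?_⟩
        rw [max_eq_right (by linarith)]
        exact hcard
      · refine ⟨∅, by simp, ?_⟩
        push Not at hc
        have : max 0 (b0 - max a0 (s + ε)) = 0 := max_eq_left (by linarith)
        rw [this]
        simp only [Finset.card_empty, Nat.cast_zero]
        linarith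
    obtain ⟨Z1, hZ1, hc1⟩ := hL
    obtain ⟨Z2, hZ2, hc2⟩ := hR
    have hdis : Disjoint Z1 Z2 := by
      rw [Finset.disjoint_left]
      intro θ h1 h2
      have h3 : θ ≤ s - ε := (hZ1 θ h1).2.1.trans (min_le_right _ _)
      have h4 : s + ε ≤ θ := (le_max_right _ _).trans (hZ2 θ h2).1
      linarith
    refine ⟨Z1 ∪ Z2, ?_, ?_⟩
    · intro θ hθ
      rcases Finset.mem_union.mp hθ with h1 | h1
      · exact ⟨(hZ1 θ h1).1, (hZ1 θ h1).2.1.trans (min_le_left _ _), (hZ1 θ h1).2.2⟩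
      · exact ⟨(le_max_left _ _).trans (hZ2 θ h1).1, (hZ2 θ h1).2.1, (hZ2 θ h1).2.2⟩
    · have hlen : b0 - a0 - 2 * ε ≤ max 0 (min b0 (s - ε) - a0) + max 0 (b0 - max a0 (s + ε)) := by
        rcases le_total b0 (s - ε) with h1 | h1
        · rw [min_eq_left h1]
          have h2 := le_max_right (0:ℝ) (b0 - a0)
          have h3 := le_max_left (0:ℝ) (b0 - max a0 (s + ε))
          linarith
        · rw [min_eq_right h1]
          rcases le_total a0 (s + ε) with h4 | h4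
          · rw [max_eq_right h4]
            have h2 := le_max_right (0:ℝ) (s - ε - a0)
            have h3 := le_max_right (0:ℝ) (b0 - (s + ε))
            linarith
          · rw [max_eq_left h4]
            have h2 := le_max_left (0:ℝ) (s - ε - a0)
            have h3 := le_max_right (0:ℝ) (b0 - a0)
            linarith
      have hm := mul_le_mul_of_nonneg_left hlen hM
      rw [Finset.card_union_of_disjoint hdis, Finset.card_insert_of_notMem hs]
      push_cast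
      have hp : (2:ℝ) ^ (S.card + 1) = 2 * 2 ^ S.card := by ring
      rw [hp]
      nlinarith [hm, hc1, hc2]

/-- -/
theorem total (f : ℝ → ℝ) (S : Finset ℝ) (ε M B : ℝ) (hε : 0 < ε) (hM : 0 ≤ M) (hB : 0 ≤ B)
    (a0 b0 : ℝ) (hab : a0 ≤ b0)
    (h : ∀ a b : ℝ, a0 ≤ a → a ≤ b → b ≤ b0 → (∀ s ∈ S, ∀ θ ∈ Set.Icc a b, ε ≤ |θ - s|) →
      ∃ Z : Finset ℝ, (∀ θ ∈ Z, a ≤ θ ∧ θ ≤ b ∧ f θ = 0) ∧ M * (b - a) - B ≤ (Z.card : ℝ)) :
    ∃ Z : Finset ℝ, (∀ θ ∈ Z, a0 ≤ θ ∧ θ ≤ b0 ∧ f θ = 0) ∧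
      M * (b0 - a0) - 2 ^ S.card * (B + 2 * ε * M) ≤ (Z.card : ℝ) := by
  obtain ⟨Z, hZ, hc⟩ := c3b_aux f ε M B hε hM hB S a0 b0 hab h
  refine ⟨Z, hZ, le_trans ?_ hc⟩
  have : 0 ≤ 2 * ε * M := by positivity
  nlinarith

end Pool.Agent.H630Z
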