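import Pool.Agent.H630Z.Defs2
set_option autoImplicit false

open Polynomial

namespace Pool.Agent.H630Z

theorem c4a_eval {n : ℕ} (lam : Fin n → ℝ) (x : ℝ) :
    (∏ i, (1 - C (lam i) * X) : ℝ[X]).eval x = ∏ i, (1 - lam i * x) := by
  rw [eval_prod]
  simp

theorem c4a_map {n : ℕ} (lam : Fin n → ℝ) :
    (∏ i, (1 - C (lam i) * X) : ℝ[X]).map (algebraMap ℝ ℂ) =
      ∏ i, (1 - C ((lam i : ℂ)) * X) := by
  rw [Polynomial.map_prod]
  simp

theorem VV_ne {n r : ℕ} (hn : 1 ≤ n) (lam : Fin n → ℝ) (hlam : ∀ i, 0 < lam i) :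
    VV lam r ≠ 0 := by
  intro h
  rcases Nat.eq_zero_or_pos r with hr | hr
  · subst hr
    unfold VV at h
    rw [Nat.cast_zero, zero_mul, sub_zero] at h
    have h1 : derivative (∏ i, (1 - C (lam i) * X) : ℝ[X]) = 0 := by
      rcases mul_eq_zero.1 h with h2 | h2
      · exact absurd h2 X_ne_zero
      · exact h2
    have h2 := derivative_eq_zero.1 h1
    have h3 := eq_C_of_natDegree_eq_zero h2
    have h4 := c4a_eval lam 0
    have h5 := c4a_eval lam (lam ⟨0, hn⟩)⁻¹
    rw [h3, eval_C] at h4 h5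
    have h6 : (∏ i, (1 - lam i * (lam ⟨0, hn⟩)⁻¹)) = 0 := by
      apply Finset.prod_eq_zero (Finset.mem_univ (⟨0, hn⟩ : Fin n))
      rw [mul_inv_cancel₀ (hlam _).ne', sub_self]
    rw [h6, h4] at h5
    simp at h5
  · have h1 : (VV lam r).eval 0 = -(r : ℝ) := by
      unfold VV
      rw [eval_sub, eval_mul, eval_mul, c4a_eval]
      simp
    rw [h] at h1
    simp at h1
    omega

theorem at_root {n : ℕ} (N : ℝ[X][X]) (lam : Fin n → ℝ) (hlam : ∀ i, 0 < lam i) (c : ℝ)
    (hc : 0 < c) (r a : ℕ) (ha : ∀ j, (N.coeff j).natDegree ≤ a) (z : ℝ) (hz : 0 < z) (t : ℂ)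
    (ht : (DD lam c r z).eval t = 0) :
    t ≠ 0 ∧ t * (derivative (DD lam c r z)).eval t = c * aeval t (VV lam r) ∧
      t ^ (r * a) * (NN N z).eval t = aeval t (MM N lam c r a) := by
  have hQ : aeval t (∏ i, (1 - C (lam i) * X) : ℝ[X]) =
      (∏ i, (1 - C ((lam i : ℂ)) * X) : ℂ[X]).eval t := by
    rw [← c4a_map, eval_map_algebraMap]
  have hQ' : aeval t (derivative (∏ i, (1 - C (lam i) * X) : ℝ[X])) =
      (derivative (∏ i, (1 - C ((lam i : ℂ)) * X) : ℂ[X])).eval t := by
    rw [← c4a_map, derivative_map, eval_map_algebraMap]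
  have h0 : (c : ℂ) * (∏ i, (1 - C ((lam i : ℂ)) * X) : ℂ[X]).eval t + z * t ^ r = 0 := by
    have := ht
    unfold DD at this
    simpa only [eval_add, eval_mul, eval_C, eval_pow, eval_X] using this
  refine ⟨?_, ?_, ?_⟩
  · rintro rfl
    have h1 : (∏ i, (1 - C ((lam i : ℂ)) * X) : ℂ[X]).eval 0 = 1 := by
      rw [eval_prod]; simp
    rw [h1] at h0
    rcases Nat.eq_zero_or_pos r with hr | hr
    · subst hr
      rw [pow_zero, mul_one, mul_one, ← Complex.ofReal_add] at h0
      have := Complex.ofReal_eq_zero.1 h0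
      linarith
    · rw [zero_pow hr.ne', mul_zero, add_zero, mul_one] at h0
      have := Complex.ofReal_eq_zero.1 h0
      linarith
  · have h1 : (derivative (DD lam c r z)).eval t =
        c * (derivative (∏ i, (1 - C ((lam i : ℂ)) * X) : ℂ[X])).eval t +
          z * (r * t ^ (r - 1)) := by
      unfold DD
      rw [derivative_add, derivative_C_mul, derivative_C_mul_X_pow]
      simp only [eval_add, eval_mul, eval_C, eval_pow, eval_X]
      ring
    have h2 : aeval t (VV lam r) =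
        t * (derivative (∏ i, (1 - C ((lam i : ℂ)) * X) : ℂ[X])).eval t -
          r * (∏ i, (1 - C ((lam i : ℂ)) * X) : ℂ[X]).eval t := by
      unfold VV
      rw [map_sub, map_mul, map_mul, aeval_X, map_natCast, hQ, hQ']
    have h3 : (r : ℂ) * (t * t ^ (r - 1)) = r * t ^ r := by
      rcases Nat.eq_zero_or_pos r with hr | hr
      · subst hr; simp
      · rw [← pow_succ', Nat.sub_add_cancel hr]
    rw [h1, h2]
    linear_combination (z : ℂ) * h3 + (r : ℂ) * h0
  · have h1 : (NN N z).eval t = ∑ j ∈ Finset.range (N.natDegree + 1),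
        ((∑ l ∈ Finset.range (a + 1), ((N.coeff j).coeff l : ℂ) * (z : ℂ) ^ l)) * t ^ j := by
      unfold NN
      rw [Polynomial.map_map, eval_map, eval₂_eq_sum_range]
      refine Finset.sum_congr rfl fun j _ => ?_
      congr 1
      rw [RingHom.comp_apply, coe_evalRingHom,
        eval_eq_sum_range' (Nat.lt_succ_of_le (ha j)) z]
      simp
    have h2 : (-(c : ℂ)) * (∏ i, (1 - C ((lam i : ℂ)) * X) : ℂ[X]).eval t = z * t ^ r := by
      linear_combination -h0
    unfold MM
    rw [map_sum, h1, Finset.mul_sum]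
    refine Finset.sum_congr rfl fun j _ => ?_
    rw [map_sum, Finset.sum_mul, Finset.mul_sum]
    refine Finset.sum_congr rfl fun l hl => ?_
    have hl' : l ≤ a := Nat.lt_succ_iff.1 (Finset.mem_range.1 hl)
    rw [map_mul, map_mul, map_pow, map_pow, map_mul, aeval_X, map_neg, aeval_C, aeval_C, hQ]
    change _ = ((N.coeff j).coeff l : ℂ) * t ^ (j + r * (a - l)) *
      (-(c : ℂ) * (∏ i, (1 - C ((lam i : ℂ)) * X) : ℂ[X]).eval t) ^ l
    rw [h2]
    obtain ⟨b, rfl⟩ := Nat.exists_eq_add_of_le hl'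
    rw [Nat.add_sub_cancel_left, mul_add, pow_add, mul_pow, ← pow_mul, pow_add]
    ring

end Pool.Agent.H630Z
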