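import Pool.Agent.H630Z.C4A
set_option autoImplicit false

open Polynomial

namespace Pool.Agent.H630Z


theorem c4b_q {n : ℕ} (lam : Fin n → ℝ) (hlam : ∀ i, 0 < lam i) :
    (∏ i, (1 - C ((lam i : ℂ)) * X) : ℂ[X]).natDegree = n ∧
      (∏ i, (1 - C ((lam i : ℂ)) * X) : ℂ[X]).coeff n ≠ 0 := by
  have h1 : ∀ i, (1 - C ((lam i : ℂ)) * X : ℂ[X]).natDegree = 1 := by
    intro i
    have : (1 - C ((lam i : ℂ)) * X : ℂ[X]) = C (-(lam i : ℂ)) * X + C 1 := by
      simp only [map_neg, map_one]; ring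
    rw [this, natDegree_linear]
    exact neg_ne_zero.mpr (by exact_mod_cast (hlam i).ne')
  have h2 : ∀ i, (1 - C ((lam i : ℂ)) * X : ℂ[X]) ≠ 0 := by
    intro i h
    have := h1 i
    rw [h, natDegree_zero] at this
    exact zero_ne_one this
  have h3 : (∏ i, (1 - C ((lam i : ℂ)) * X) : ℂ[X]).natDegree = n := by
    rw [natDegree_prod _ _ (fun i _ => h2 i), Finset.sum_congr rfl (fun i _ => h1 i)]
    simp
  refine ⟨h3, ?_⟩
  have h4 : (∏ i, (1 - C ((lam i : ℂ)) * X) : ℂ[X]) ≠ 0 := Finset.prod_ne_zero_iff.mpr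
    (fun i _ => h2 i)
  have h5 := leadingCoeff_ne_zero.mpr h4
  rwa [leadingCoeff, h3] at h5

theorem c4b_deg {n : ℕ} (lam : Fin n → ℝ) (hlam : ∀ i, 0 < lam i) (c : ℝ) (hc : 0 < c) (r : ℕ)
    (z : ℝ) (hz : 0 < z)
    (hbad : (z : ℂ) ≠ -(c * (∏ i, (1 - C ((lam i : ℂ)) * X) : ℂ[X]).coeff n)) :
    (DD lam c r z).natDegree = max n r := by
  obtain ⟨hq, hqn⟩ := c4b_q lam hlam
  have hle : (DD lam c r z).natDegree ≤ max n r := by
    unfold DD
    refine (natDegree_add_le _ _).trans ?_
    apply max_le_max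
    · exact (natDegree_C_mul_le _ _).trans_eq hq
    · exact (natDegree_C_mul_le _ _).trans (natDegree_X_pow_le r)
  refine natDegree_eq_of_le_of_coeff_ne_zero hle ?_
  have hc' : (c : ℂ) ≠ 0 := by exact_mod_cast hc.ne'
  have hz' : (z : ℂ) ≠ 0 := by exact_mod_cast hz.ne'
  unfold DD
  rw [coeff_add, coeff_C_mul, coeff_C_mul, coeff_X_pow]
  rcases lt_trichotomy n r with h | h | h
  · rw [max_eq_right h.le, coeff_eq_zero_of_natDegree_lt (hq.trans_lt h)]
    simpa using hz'
  · subst h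
    rw [max_self, if_pos rfl, mul_one]
    intro h0
    exact hbad (eq_neg_of_add_eq_zero_right h0)
  · rw [max_eq_left h.le, if_neg h.ne', mul_zero, add_zero]
    exact mul_ne_zero hc' hqn

theorem c4b_roots {D : ℂ[X]} (hD : D ≠ 0)
    (hs : ∀ t, D.eval t = 0 → (derivative D).eval t ≠ 0) :
    D.roots.toFinset.card = D.natDegree := by
  have hnd : D.roots.Nodup := by
    rw [Multiset.nodup_iff_count_le_one]
    intro t
    rw [count_roots]
    by_contra hcon
    push Not at hcon
    obtain ⟨h1, h2⟩ := (one_lt_rootMultiplicity_iff_isRoot hD).mp hcon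
    exact hs t h1 h2
  rw [Multiset.toFinset_card_of_nodup hnd]
  exact (splits_iff_card_roots.mp (IsAlgClosed.splits D))

/-- `MM` is not zero. -/
theorem MM_ne {n : ℕ} (hn : 1 ≤ n) (N : ℝ[X][X]) (hN : N ≠ 0) (lam : Fin n → ℝ)
    (hlam : ∀ i, 0 < lam i) (c : ℝ) (hc : 0 < c) (r a : ℕ)
    (ha : ∀ j, (N.coeff j).natDegree ≤ a) (hdeg : N.natDegree < max n r) :
    MM N lam c r a ≠ 0 := by
  intro hM
  set q : ℂ[X] := ∏ i, (1 - C ((lam i : ℂ)) * X) with hqdef
  have hc' : (c : ℂ) ≠ 0 := by exact_mod_cast hc.ne'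
  let B : Set ℝ := {z : ℝ | (z : ℂ) = -(c * q.coeff n)} ∪
    ⋃ t ∈ ((VV lam r).aroots ℂ).toFinset, {z : ℝ | t ≠ 0 ∧ (z : ℂ) * t ^ r = -(c * q.eval t)}
  have hB : B.Finite := by
    apply Set.Finite.union
    · apply Set.Subsingleton.finite
      intro x hx y hy
      have : (x : ℂ) = y := hx.trans hy.symm
      exact_mod_cast this
    · apply Set.Finite.biUnion (Finset.finite_toSet _)
      intro t _
      apply Set.Subsingleton.finite
      rintro x ⟨ht, hx⟩ y ⟨_, hy⟩
      have h1 : (x : ℂ) * t ^ r = (y : ℂ) * t ^ r := hx.trans hy.symm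
      have h2 : (x : ℂ) = y := mul_right_cancel₀ (pow_ne_zero r ht) h1
      exact_mod_cast h2
  have key : ∀ z : ℝ, 0 < z → z ∉ B → NN N z = 0 := by
    intro z hz hzB
    have hz1 : (z : ℂ) ≠ -(c * q.coeff n) := fun h => hzB (Or.inl h)
    have hd := c4b_deg lam hlam c hc r z hz hz1
    have hd0 : 0 < max n r := lt_of_lt_of_le (by omega) (le_max_left n r)
    have hD0 : DD lam c r z ≠ 0 := by
      intro h
      rw [h, natDegree_zero] at hd
      omega
    have hs : ∀ t, (DD lam c r z).eval t = 0 → (derivative (DD lam c r z)).eval t ≠ 0 := by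
      intro t ht hdt
      obtain ⟨h1, h2, _⟩ := at_root N lam hlam c hc r a ha z hz t ht
      rw [hdt, mul_zero] at h2
      have h3 : aeval t (VV lam r) = 0 := by
        rcases mul_eq_zero.mp h2.symm with h | h
        · exact absurd h hc'
        · exact h
      apply hzB
      right
      rw [Set.mem_iUnion₂]
      refine ⟨t, ?_, h1, ?_⟩
      · rw [Multiset.mem_toFinset, mem_aroots]
        exact ⟨VV_ne hn lam hlam, h3⟩
      · have h4 : (c : ℂ) * q.eval t + z * t ^ r = 0 := by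
          have := ht
          unfold DD at this
          simpa [eval_add, eval_mul, eval_C, eval_pow, eval_X] using this
        exact eq_neg_of_add_eq_zero_right h4
    have hcard := c4b_roots hD0 hs
    refine eq_zero_of_natDegree_lt_card_of_eval_eq_zero' (NN N z)
      (DD lam c r z).roots.toFinset ?_ ?_
    · intro t ht
      rw [Multiset.mem_toFinset, mem_roots hD0] at ht
      obtain ⟨h1, _, h3⟩ := at_root N lam hlam c hc r a ha z hz t ht
      rw [hM, map_zero] at h3
      rcases mul_eq_zero.mp h3 with h | h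
      · exact absurd h (pow_ne_zero _ h1)
      · exact h
    · rw [hcard, hd]
      refine lt_of_le_of_lt ?_ hdeg
      unfold NN
      exact (natDegree_map_le).trans (natDegree_map_le)
  have hinf : {z : ℝ | 0 < z ∧ z ∉ B}.Infinite := by
    intro hfin
    have : (Set.Ioi (0 : ℝ)).Finite := by
      refine (hfin.union hB).subset ?_
      intro z hz
      by_cases h : z ∈ B
      · exact Or.inr h
      · exact Or.inl ⟨hz, h⟩
    exact Set.Ioi_infinite (0 : ℝ) this
  apply hN
  ext1 j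
  rw [coeff_zero]
  apply eq_zero_of_infinite_isRoot
  refine hinf.mono ?_
  rintro z ⟨hz, hzB⟩
  have h1 := key z hz hzB
  unfold NN at h1
  have h2 : N.map (evalRingHom z) = 0 :=
    (Polynomial.map_eq_zero_iff (algebraMap ℝ ℂ).injective).mp h1
  have h3 : (N.map (evalRingHom z)).coeff j = 0 := by rw [h2, coeff_zero]
  rw [coeff_map] at h3
  exact h3

end Pool.Agent.H630Z
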