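import Pool.Agent.H630Z.Defs2
set_option autoImplicit false

open Polynomial

namespace Pool.Agent.H630Z


/-- continuous and of polynomial growth on the positive half line -/
def c5a_Ok (f : ℝ → ℝ) : Prop :=
  ContinuousOn f (Set.Ioi 0) ∧ ∃ (K : ℝ) (k : ℕ), 0 < K ∧ ∀ z : ℝ, 0 < z → |f z| ≤ K * (1 + z) ^ k

theorem c5a_const (a : ℝ) : c5a_Ok (fun _ => a) := by
  refine ⟨continuousOn_const, |a| + 1, 0, by positivity, fun z _ => ?_⟩
  simp

theorem c5a_id : c5a_Ok (fun z => z) := by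
  refine ⟨continuousOn_id, 1, 1, one_pos, fun z hz => ?_⟩
  rw [abs_of_pos hz]; linarith [pow_one (1 + z)]

theorem c5a_add {f g : ℝ → ℝ} (hf : c5a_Ok f) (hg : c5a_Ok g) : c5a_Ok (fun z => f z + g z) := by
  obtain ⟨cf, A, k, hA, hf⟩ := hf
  obtain ⟨cg, B, l, hB, hg⟩ := hg
  refine ⟨cf.add cg, A + B, max k l, by positivity, fun z hz => ?_⟩
  have h1 : (1 + z) ^ k ≤ (1 + z) ^ (max k l) := pow_le_pow_right₀ (by linarith) (le_max_left _ _)
  have h2 : (1 + z) ^ l ≤ (1 + z) ^ (max k l) := pow_le_pow_right₀ (by linarith) (le_max_right _ _)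
  calc |f z + g z| ≤ |f z| + |g z| := abs_add_le _ _
    _ ≤ A * (1 + z) ^ k + B * (1 + z) ^ l := add_le_add (hf z hz) (hg z hz)
    _ ≤ A * (1 + z) ^ (max k l) + B * (1 + z) ^ (max k l) :=
        add_le_add (mul_le_mul_of_nonneg_left h1 hA.le) (mul_le_mul_of_nonneg_left h2 hB.le)
    _ = (A + B) * (1 + z) ^ (max k l) := by ring

theorem c5a_mul {f g : ℝ → ℝ} (hf : c5a_Ok f) (hg : c5a_Ok g) : c5a_Ok (fun z => f z * g z) := by
  obtain ⟨cf, A, k, hA, hf⟩ := hf
  obtain ⟨cg, B, l, hB, hg⟩ := hg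
  refine ⟨cf.mul cg, A * B, k + l, by positivity, fun z hz => ?_⟩
  have hz1 : 0 < 1 + z := by linarith
  rw [abs_mul]
  calc |f z| * |g z| ≤ (A * (1 + z) ^ k) * (B * (1 + z) ^ l) :=
        mul_le_mul (hf z hz) (hg z hz) (abs_nonneg _) (by positivity)
    _ = A * B * (1 + z) ^ (k + l) := by ring

theorem c5a_sum {ι : Type} (s : Finset ι) (f : ι → ℝ → ℝ) (h : ∀ i ∈ s, c5a_Ok (f i)) :
    c5a_Ok (fun z => ∑ i ∈ s, f i z) := by
  classical
  induction s using Finset.induction_on with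
  | empty => simpa using c5a_const 0
  | insert a s ha ih =>
    have h1 := c5a_add (h a (Finset.mem_insert_self _ _))
      (ih fun i hi => h i (Finset.mem_insert_of_mem hi))
    have h2 : (fun z => ∑ i ∈ insert a s, f i z) = fun z => f a z + ∑ i ∈ s, f i z := by
      funext z
      rw [Finset.sum_insert ha]
    rw [h2]
    exact h1

theorem c5a_poly (p : ℝ[X]) : c5a_Ok (fun z => p.eval z) := by
  induction p using Polynomial.induction_on' with
  | add p q hp hq =>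
    have h2 : (fun z => (p + q).eval z) = fun z => p.eval z + q.eval z := by
      funext z; rw [eval_add]
    rw [h2]; exact c5a_add hp hq
  | monomial n a =>
    have h2 : (fun z => (monomial n a).eval z) = fun z => a * z ^ n := by
      funext z; rw [eval_monomial]
    rw [h2]
    refine c5a_mul (c5a_const a) ?_
    induction n with
    | zero => simpa using c5a_const 1
    | succ n ih =>
      have h3 : (fun z : ℝ => z ^ (n + 1)) = fun z => z ^ n * z := by funext z; rw [pow_succ]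
      rw [h3]
      exact c5a_mul (ih (by funext z; rw [eval_monomial])) c5a_id

theorem c5a_D0 {n : ℕ} (lam : Fin n → ℝ) (c : ℝ) (r : ℕ) (z : ℝ) :
    PowerSeries.constantCoeff ((DR lam c r z : ℝ[X]) : PowerSeries ℝ) = c + z * 0 ^ r := by
  rw [← PowerSeries.coeff_zero_eq_constantCoeff_apply, Polynomial.coeff_coe,
    Polynomial.coeff_zero_eq_eval_zero]
  simp [DR, eval_prod]

theorem c5a_Dpos {n : ℕ} (lam : Fin n → ℝ) (c : ℝ) (r : ℕ) (z : ℝ) (hz : 0 < z) :
    c ≤ PowerSeries.constantCoeff ((DR lam c r z : ℝ[X]) : PowerSeries ℝ) := by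
  rw [c5a_D0]
  have : 0 ≤ z * 0 ^ r := by positivity
  linarith

theorem c5a_D {n : ℕ} (lam : Fin n → ℝ) (c : ℝ) (r : ℕ) (i : ℕ) :
    c5a_Ok (fun z => PowerSeries.coeff i ((DR lam c r z : ℝ[X]) : PowerSeries ℝ)) := by
  have h2 : (fun z => PowerSeries.coeff i ((DR lam c r z : ℝ[X]) : PowerSeries ℝ)) =
      fun z => (C c * ∏ i, (1 - C (lam i) * X)).coeff i + z * ((X : ℝ[X]) ^ r).coeff i := by
    funext z
    rw [Polynomial.coeff_coe, DR, coeff_add, coeff_C_mul, coeff_C_mul]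
  rw [h2]
  exact c5a_add (c5a_const _) (c5a_mul c5a_id (c5a_const _))

theorem c5a_invD {n : ℕ} (lam : Fin n → ℝ) (c : ℝ) (hc : 0 < c) (r : ℕ) :
    c5a_Ok (fun z => (PowerSeries.constantCoeff ((DR lam c r z : ℝ[X]) : PowerSeries ℝ))⁻¹) := by
  refine ⟨?_, c⁻¹, 0, inv_pos.mpr hc, fun z hz => ?_⟩
  · refine ContinuousOn.inv₀ ?_ fun z hz => ?_
    · have h2 : (fun z => PowerSeries.constantCoeff ((DR lam c r z : ℝ[X]) : PowerSeries ℝ)) =
        fun z => c + z * 0 ^ r := by funext z; exact c5a_D0 lam c r z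
      rw [h2]
      fun_prop
    · exact (hc.trans_le (c5a_Dpos lam c r z hz)).ne'
  · have h := c5a_Dpos lam c r z hz
    rw [abs_of_pos (inv_pos.mpr (hc.trans_le h)), pow_zero, mul_one]
    exact inv_anti₀ hc h

theorem c5a_inv {n : ℕ} (lam : Fin n → ℝ) (c : ℝ) (hc : 0 < c) (r : ℕ) (m : ℕ) :
    c5a_Ok (fun z => PowerSeries.coeff m (((DR lam c r z : ℝ[X]) : PowerSeries ℝ)⁻¹)) := by
  induction m using Nat.strong_induction_on with
  | _ m ih =>
    rcases Nat.eq_zero_or_pos m with rfl | hm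
    · have h2 : (fun z => PowerSeries.coeff 0 (((DR lam c r z : ℝ[X]) : PowerSeries ℝ)⁻¹)) =
        fun z => (PowerSeries.constantCoeff ((DR lam c r z : ℝ[X]) : PowerSeries ℝ))⁻¹ := by
        funext z
        rw [PowerSeries.coeff_inv, if_pos rfl]
      rw [h2]
      exact c5a_invD lam c hc r
    · have h2 : (fun z => PowerSeries.coeff m (((DR lam c r z : ℝ[X]) : PowerSeries ℝ)⁻¹)) =
        fun z => (-1) * (PowerSeries.constantCoeff
          ((DR lam c r z : ℝ[X]) : PowerSeries ℝ))⁻¹ * ∑ x ∈ Finset.HasAntidiagonal.antidiagonal m,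
            (if x.2 < m then PowerSeries.coeff x.1 ((DR lam c r z : ℝ[X]) : PowerSeries ℝ) *
              PowerSeries.coeff x.2 (((DR lam c r z : ℝ[X]) : PowerSeries ℝ)⁻¹) else 0) := by
        funext z
        rw [PowerSeries.coeff_inv, if_neg hm.ne', neg_one_mul]
      rw [h2]
      refine c5a_mul (c5a_mul (c5a_const _) (c5a_invD lam c hc r)) (c5a_sum _ _ fun x _ => ?_)
      by_cases hx : x.2 < m
      · simp only [if_pos hx]
        exact c5a_mul (c5a_D lam c r x.1) (ih x.2 hx)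
      · simp only [if_neg hx]
        exact c5a_const 0

theorem c5a_pr {n : ℕ} (N : ℝ[X][X]) (lam : Fin n → ℝ) (c : ℝ) (hc : 0 < c) (r : ℕ) (m : ℕ) :
    c5a_Ok (fun z => pr N lam c r m z) := by
  have h2 : (fun z => pr N lam c r m z) = fun z => ∑ x ∈ Finset.HasAntidiagonal.antidiagonal m,
      (N.coeff x.1).eval z *
        PowerSeries.coeff x.2 (((DR lam c r z : ℝ[X]) : PowerSeries ℝ)⁻¹) := by
    funext z
    rw [pr, PowerSeries.coeff_mul]
    apply Finset.sum_congr rfl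
    intro x _
    rw [Polynomial.coeff_coe, coeff_map]
    rfl
  rw [h2]
  exact c5a_sum _ _ fun x _ => c5a_mul (c5a_poly _) (c5a_inv lam c hc r x.2)

/-- Growth of the coefficients in `z`.  Proof: strong induction on `l`: with `D = DR lam c r z`, `D_0 = c` (`r ≥ 1`) or `c + z`
(`r = 0`), `D_0 ≥ c > 0`, and `D * p = N(·, z)` gives `D_0 p_l = N_l(z) - ∑_{i=1}^{l} D_i p_{l-i}`; `|D_i| ≤ C (1 + z)`, `|N_l(z)| ≤ C (1 + z)^a`. -/
theorem pr_bound {n : ℕ} (N : ℝ[X][X]) (lam : Fin n → ℝ) (c : ℝ) (hc : 0 < c) (r : ℕ) (l : ℕ) :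
    ∃ (C : ℝ) (k : ℕ), 0 < C ∧ ∀ z : ℝ, 0 < z → |pr N lam c r l z| ≤ C * (1 + z) ^ k :=
  (c5a_pr N lam c hc r l).2

/-- `pr` is a continuous function of `z > 0` (same recursion; or: `pr` is a quotient of a polynomial in `z` by `(D_0)^(m+1)`). -/
theorem pr_cont {n : ℕ} (N : ℝ[X][X]) (lam : Fin n → ℝ) (c : ℝ) (hc : 0 < c) (r : ℕ) (m : ℕ) :
    ContinuousOn (fun z => pr N lam c r m z) (Set.Ioi 0) :=
  (c5a_pr N lam c hc r m).1

end Pool.Agent.H630Z
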