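import Pool.Agent.H630Z.Defs2
set_option autoImplicit false

open Polynomial

namespace Pool.Agent.H630Z

/-- the complex denominator is the image of the real one -/
theorem c5b_map {n : ℕ} (lam : Fin n → ℝ) (c : ℝ) (r : ℕ) (z : ℝ) :
    DD lam c r z = (DR lam c r z).map (algebraMap ℝ ℂ) := by
  unfold DD DR
  simp [Polynomial.map_prod]

theorem c5b_const {n : ℕ} (lam : Fin n → ℝ) (c : ℝ) (hc : 0 < c) (r : ℕ) (z : ℝ) (hz : 0 < z) :
    PowerSeries.constantCoeff ((DR lam c r z : ℝ[X]) : PowerSeries ℝ) ≠ 0 := by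
  rw [Polynomial.constantCoeff_coe, Polynomial.coeff_zero_eq_eval_zero]
  unfold DR
  simp only [eval_add, eval_mul, eval_C, eval_prod, eval_sub, eval_one, eval_X, mul_zero, sub_zero,
    Finset.prod_const_one, mul_one, eval_pow]
  have : 0 ≤ z * 0 ^ r := by positivity
  linarith

theorem pr_complex {n : ℕ} (N : ℝ[X][X]) (lam : Fin n → ℝ) (c : ℝ) (hc : 0 < c) (r : ℕ) (m : ℕ)
    (z : ℝ) (hz : 0 < z) :
    PowerSeries.coeff m ((NN N z : PowerSeries ℂ) * ((DD lam c r z : ℂ[X]) : PowerSeries ℂ)⁻¹) =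
      ((pr N lam c r m z : ℝ) : ℂ) := by
  have h0 := c5b_const lam c hc r z hz
  have h1 : ((DD lam c r z : ℂ[X]) : PowerSeries ℂ) =
      PowerSeries.map (algebraMap ℝ ℂ) ((DR lam c r z : ℝ[X]) : PowerSeries ℝ) := by
    rw [c5b_map, Polynomial.polynomial_map_coe]
  have h2 : (PowerSeries.map (algebraMap ℝ ℂ) ((DR lam c r z : ℝ[X]) : PowerSeries ℝ))⁻¹ =
      PowerSeries.map (algebraMap ℝ ℂ) ((DR lam c r z : ℝ[X]) : PowerSeries ℝ)⁻¹ := by
    symm
    rw [PowerSeries.eq_inv_iff_mul_eq_one, ← map_mul, PowerSeries.inv_mul_cancel _ h0, map_one]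
    rw [← PowerSeries.coeff_zero_eq_constantCoeff_apply, PowerSeries.coeff_map,
      PowerSeries.coeff_zero_eq_constantCoeff_apply]
    exact (_root_.map_ne_zero _).2 h0
  have h3 : (NN N z : PowerSeries ℂ) =
      PowerSeries.map (algebraMap ℝ ℂ) ((N.map (evalRingHom z) : ℝ[X]) : PowerSeries ℝ) := by
    rw [NN, Polynomial.polynomial_map_coe]
  rw [h1, h2, h3, ← map_mul, PowerSeries.coeff_map, pr]
  rfl

end Pool.Agent.H630Z
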