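import Pool.Agent.H630Z.B0
set_option autoImplicit false

open Polynomial

namespace Pool.Agent.H630Z


theorem c6a_norm (θ : ℝ) : ‖ee θ‖ = 1 := by
  unfold ee
  exact Complex.norm_exp_ofReal_mul_I θ

theorem c6a_re (θ : ℝ) : (ee θ).re = Real.cos θ := by
  unfold ee
  exact Complex.exp_ofReal_mul_I_re θ

theorem c6a_im (θ : ℝ) : (ee θ).im = Real.sin θ := by
  unfold ee
  exact Complex.exp_ofReal_mul_I_im θ

theorem c6a_mul (θ : ℝ) : ee θ * ee (-θ) = 1 := by
  unfold ee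
  rw [← Complex.exp_add]
  push_cast
  rw [neg_mul, add_neg_cancel, Complex.exp_zero]

theorem c6a_add (θ : ℝ) : ee θ + ee (-θ) = ((2 * Real.cos θ : ℝ) : ℂ) := by
  apply Complex.ext
  · rw [Complex.add_re, c6a_re, c6a_re, Real.cos_neg, Complex.ofReal_re]
    ring
  · rw [Complex.add_im, c6a_im, c6a_im, Real.sin_neg, Complex.ofReal_im]
    ring

theorem c6a_q2 (θ : ℝ) (s : ℂ) : (q2 θ).eval s = (s - ee θ) * (s - ee (-θ)) := by
  unfold q2
  rw [eval_add, eval_sub, eval_mul, eval_C, eval_X, eval_one, eval_pow, eval_X, ← c6a_add]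
  linear_combination (-1 : ℂ) * c6a_mul θ

theorem c6a_dq2 (θ : ℝ) (s : ℂ) : (derivative (q2 θ)).eval s = 2 * s - (ee θ + ee (-θ)) := by
  unfold q2
  rw [c6a_add]
  simp only [derivative_add, derivative_sub, derivative_one, derivative_mul, derivative_C,
    derivative_X, derivative_X_pow, eval_add, eval_sub, eval_mul, eval_C, eval_X, eval_pow,
    eval_zero, eval_one]
  norm_num
  ring

theorem c6a_lt {n r : ℕ} (h : Nd n r) (lam : Fin n → ℝ) (hlam : ∀ i, 0 < lam i) (c : ℝ)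
    (hc : 0 < c) {θ1 τ1 θ2 τ2 : ℝ} (h1 : Cv lam r θ1 τ1) (h2 : Cv lam r θ2 τ2)
    (he : zz lam c r θ1 τ1 = zz lam c r θ2 τ2) (hne : θ1 ≠ θ2) : τ1 < τ2 := by
  obtain ⟨F1, -, -, -, hF1, -, hr1⟩ := near_basic h lam hlam c hc h1
  obtain ⟨F2, e2, -, -, -, hd2, -⟩ := near_basic h lam hlam c hc h2
  obtain ⟨ψ1, ha1, -, -⟩ := h1.adm
  obtain ⟨ψ2, ha2, -, -⟩ := h2.adm
  have p1 := h1.pos
  have p2 := h2.pos
  have hroot : (DD lam c r (zz lam c r θ1 τ1)).eval (τ2 * ee θ2) = 0 := by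
    rw [he, hd2, e2, eval_mul, c6a_q2, sub_self]
    ring
  have hcos : Real.cos θ1 ≠ Real.cos θ2 := by
    intro hh
    exact hne (Real.injOn_cos ⟨ha1.pos.le, ha1.lt.le⟩ ⟨ha2.pos.le, ha2.lt.le⟩ hh)
  have key : ∀ u : ℝ, (τ2 : ℂ) * ee θ2 = τ1 * ee u → Real.cos u = Real.cos θ2 := by
    intro u hu
    have hn := congrArg (fun z : ℂ => ‖z‖) hu
    simp only [norm_mul, c6a_norm, mul_one, Complex.norm_real, Real.norm_eq_abs] at hn
    rw [abs_of_pos p2, abs_of_pos p1] at hn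
    rw [hn] at hu
    have h3 : (τ1 : ℂ) ≠ 0 := by exact_mod_cast p1.ne'
    have h4 := mul_left_cancel₀ h3 hu
    rw [← c6a_re, ← c6a_re, h4]
  have hz := hr1 _ hroot (fun hh => hcos (key θ1 hh))
    (fun hh => hcos (by rw [← key (-θ1) hh, Real.cos_neg]))
  have hl := hF1 _ hz
  rw [norm_div, norm_mul, c6a_norm, Complex.norm_real, Complex.norm_real, Real.norm_eq_abs,
    Real.norm_eq_abs, abs_of_pos p1, abs_of_pos p2, mul_one, lt_div_iff₀ p1, one_mul] at hl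
  exact hl

/-- -/
theorem zz_inj {n r : ℕ} (h : Nd n r) (lam : Fin n → ℝ) (hlam : ∀ i, 0 < lam i) (c : ℝ)
    (hc : 0 < c) {θ1 τ1 θ2 τ2 : ℝ} (h1 : Cv lam r θ1 τ1) (h2 : Cv lam r θ2 τ2)
    (he : zz lam c r θ1 τ1 = zz lam c r θ2 τ2) : θ1 = θ2 := by
  by_contra hne
  have a1 := c6a_lt h lam hlam c hc h1 h2 he hne
  have a2 := c6a_lt h lam hlam c hc h2 h1 he.symm (Ne.symm hne)
  exact lt_asymm a1 a2

theorem c6a_der {n r : ℕ} (lam : Fin n → ℝ) (c : ℝ) (θ τ : ℝ) (F : ℂ[X])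
    (hF : pp (fun i => lam i * τ) r (GG (fun i => lam i * τ) θ) = q2 θ * F)
    (hD : ∀ s : ℂ, (DD lam c r (zz lam c r θ τ)).eval (τ * s) =
        c * (pp (fun i => lam i * τ) r (GG (fun i => lam i * τ) θ)).eval s) (s : ℂ) :
    τ * (derivative (DD lam c r (zz lam c r θ τ))).eval (τ * s) =
      c * ((derivative (q2 θ)).eval s * F.eval s + (q2 θ).eval s * (derivative F).eval s) := by
  have h1 : (DD lam c r (zz lam c r θ τ)).comp (C (τ : ℂ) * X) = C (c : ℂ) * (q2 θ * F) := by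
    apply Polynomial.funext
    intro x
    rw [eval_comp, eval_mul, eval_C, eval_X, hD, hF, eval_mul, eval_mul, eval_mul, eval_C]
  have h2 := congrArg (fun P : ℂ[X] => (derivative P).eval s) h1
  simp only [derivative_comp, derivative_mul, derivative_C, derivative_X, eval_mul, eval_add,
    eval_comp, eval_C, eval_X, zero_mul, zero_add, mul_one] at h2
  linear_combination h2

/-- -/
theorem pair_root {n r : ℕ} (h : Nd n r) (lam : Fin n → ℝ) (hlam : ∀ i, 0 < lam i) (c : ℝ)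
    (hc : 0 < c) {θ τ : ℝ} (hC : Cv lam r θ τ) :
    (DD lam c r (zz lam c r θ τ)).eval (τ * ee θ) = 0 ∧
    (DD lam c r (zz lam c r θ τ)).eval (τ * ee (-θ)) = 0 ∧
    (derivative (DD lam c r (zz lam c r θ τ))).eval (τ * ee θ) ≠ 0 ∧
    (derivative (DD lam c r (zz lam c r θ τ))).eval (τ * ee (-θ)) ≠ 0 ∧
    ((τ : ℂ) * ee θ ≠ τ * ee (-θ)) := by
  obtain ⟨F, e, -, -, hF, hd, -⟩ := near_basic h lam hlam c hc hC
  obtain ⟨ψ, ha, -, -⟩ := hC.adm
  have hp := hC.pos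
  have hs : 0 < Real.sin θ := Real.sin_pos_of_pos_of_lt_pi ha.pos ha.lt
  have hτ : (τ : ℂ) ≠ 0 := by exact_mod_cast hp.ne'
  have hc' : (c : ℂ) ≠ 0 := by exact_mod_cast hc.ne'
  have hne : ee θ ≠ ee (-θ) := by
    intro hh
    have := congrArg Complex.im hh
    rw [c6a_im, c6a_im, Real.sin_neg] at this
    linarith
  have hn : ∀ u : ℝ, F.eval (ee u) ≠ 0 := by
    intro u hu
    have := hF _ hu
    rw [c6a_norm] at this
    exact lt_irrefl _ this
  refine ⟨?_, ?_, ?_, ?_, ?_⟩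
  · rw [hd, e, eval_mul, c6a_q2, sub_self]
    ring
  · rw [hd, e, eval_mul, c6a_q2, sub_self]
    ring
  · intro h0
    have h1 := c6a_der lam c θ τ F e hd (ee θ)
    rw [h0, c6a_q2, c6a_dq2, sub_self, zero_mul, zero_mul, add_zero, mul_zero] at h1
    have h2 := mul_eq_zero.1 h1.symm
    rcases h2 with h2 | h2
    · exact hc' h2
    · rcases mul_eq_zero.1 h2 with h3 | h3
      · apply hne
        linear_combination h3
      · exact hn _ h3
  · intro h0
    have h1 := c6a_der lam c θ τ F e hd (ee (-θ))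
    rw [h0, c6a_q2, c6a_dq2, sub_self, mul_zero, mul_zero, zero_mul, add_zero] at h1
    have h2 := mul_eq_zero.1 h1.symm
    rcases h2 with h2 | h2
    · exact hc' h2
    · rcases mul_eq_zero.1 h2 with h3 | h3
      · apply hne
        linear_combination (-1 : ℂ) * h3
      · exact hn _ h3
  · intro hh
    exact hne (mul_left_cancel₀ hτ hh)

end Pool.Agent.H630Z
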