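import Pool.Agent.H630Z.Defs2
import Pool.Agent.H630Z.A7
set_option autoImplicit false

open Polynomial

namespace Pool.Agent.H630Z


theorem c6b_gg_pos {x θ : ℝ} (h0 : 0 < θ) (h1 : θ < Real.pi) : 0 < gg x θ := by
  have hs : 0 < Real.sin θ := Real.sin_pos_of_pos_of_lt_pi h0 h1
  have h := Real.sin_sq_add_cos_sq θ
  unfold gg
  nlinarith [sq_nonneg (x - Real.cos θ), mul_pos hs hs]

theorem c6b_sqrt_le {x θ : ℝ} (hx : 0 ≤ x) : Real.sqrt (gg x θ) ≤ 1 + x := by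
  rw [Real.sqrt_le_left (by linarith)]
  unfold gg
  nlinarith [Real.neg_one_le_cos θ]

/-- `zz` is positive (`gg (x i) θ ≥ sin² θ > 0`). -/
theorem zz_pos {n r : ℕ} (lam : Fin n → ℝ) (hlam : ∀ i, 0 < lam i) (c : ℝ)
    (hc : 0 < c) {θ τ : ℝ} (hC : Cv lam r θ τ) : 0 < zz lam c r θ τ := by
  obtain ⟨ψ, hA, -, -⟩ := hC.adm
  unfold zz GG
  refine div_pos (mul_pos hc ?_) (pow_pos hC.pos r)
  exact Finset.prod_pos (fun i _ => Real.sqrt_pos.2 (c6b_gg_pos hA.pos hA.lt))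

/-- `zz` is continuous along a continuous curve. -/
theorem zz_cont {n r : ℕ} (lam : Fin n → ℝ) (c : ℝ) (τ : ℝ → ℝ) (s : Set ℝ)
    (hτ : ContinuousOn τ s) (hpos : ∀ θ ∈ s, 0 < τ θ) :
    ContinuousOn (fun θ => zz lam c r θ (τ θ)) s := by
  unfold zz GG gg
  refine ContinuousOn.div ?_ (hτ.pow r) (fun θ hθ => (pow_pos (hpos θ hθ) r).ne')
  refine ContinuousOn.mul continuousOn_const ?_
  refine continuousOn_finsetProd _ (fun i _ => ?_)
  refine ContinuousOn.sqrt ?_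
  have hx : ContinuousOn (fun θ => lam i * τ θ) s := continuousOn_const.mul hτ
  refine ContinuousOn.add (ContinuousOn.sub continuousOn_const ?_) (hx.pow 2)
  exact (continuousOn_const.mul hx).mul Real.continuous_cos.continuousOn

/-- Polynomial bound for `zz`.  Proof: `zz = c GG / τ^r`, `GG ≤ ∏ (1 + lam i τ)`, `τ ≤ C/dl`, `1/τ ≤ C/dl`, and `dl ≤ π`, so
`1 ≤ π/dl`. -/
theorem zz_bound {n r : ℕ} (h : Nd n r) (lam : Fin n → ℝ) (hlam : ∀ i, 0 < lam i) (c : ℝ)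
    (hc : 0 < c) : ∃ (C : ℝ) (k : ℕ), 0 < C ∧ ∀ θ τ : ℝ, θ ∈ Set.Ioo 0 (Th n r) →
      Cv lam r θ τ → (1 + zz lam c r θ τ) * (dl n r θ) ^ k ≤ C := by
  obtain ⟨C, hC, hb⟩ := tau_bounds h lam hlam
  have hpi := Real.pi_pos
  have hprod : 0 < ∏ i, (Real.pi + lam i * C) :=
    Finset.prod_pos (fun i _ => by have := hlam i; positivity)
  refine ⟨Real.pi ^ (n + r) + c * (∏ i, (Real.pi + lam i * C)) * C ^ r, n + r, by positivity, ?_⟩
  intro θ τ hθ hCv
  obtain ⟨h1, h2⟩ := hb θ τ hθ hCv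
  obtain ⟨ψ, hA, -, -⟩ := hCv.adm
  have hτ := hCv.pos
  have hd0 : 0 < dl n r θ := by
    unfold dl
    exact lt_min hθ.1 (by have := hθ.2; linarith)
  have hdpi : dl n r θ ≤ Real.pi := le_trans (min_le_left _ _) hA.lt.le
  set d := dl n r θ with hd
  have hdp : d ^ (n + r) ≤ Real.pi ^ (n + r) := pow_le_pow_left₀ hd0.le hdpi _
  have hG0 : 0 ≤ GG (fun i => lam i * τ) θ := Finset.prod_nonneg (fun i _ => Real.sqrt_nonneg _)
  have hG : GG (fun i => lam i * τ) θ * d ^ n ≤ ∏ i, (Real.pi + lam i * C) := by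
    have h3 : d ^ n = ∏ _i : Fin n, d := by simp
    unfold GG
    rw [h3, ← Finset.prod_mul_distrib]
    refine Finset.prod_le_prod (fun i _ => mul_nonneg (Real.sqrt_nonneg _) hd0.le) (fun i _ => ?_)
    have hl := hlam i
    have h4 : Real.sqrt (gg (lam i * τ) θ) ≤ 1 + lam i * τ := c6b_sqrt_le (by positivity)
    calc Real.sqrt (gg (lam i * τ) θ) * d ≤ (1 + lam i * τ) * d :=
          mul_le_mul_of_nonneg_right h4 hd0.le
      _ = d + lam i * (τ * d) := by ring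
      _ ≤ Real.pi + lam i * C := add_le_add hdpi (mul_le_mul_of_nonneg_left h2 hl.le)
  have hr : d ^ r / τ ^ r ≤ C ^ r := by
    rw [← div_pow]
    refine pow_le_pow_left₀ (by positivity) ?_ _
    rw [div_le_iff₀ hτ]
    exact h1
  have hr0 : 0 ≤ d ^ r / τ ^ r := by positivity
  have key : zz lam c r θ τ * d ^ (n + r) =
      c * (GG (fun i => lam i * τ) θ * d ^ n) * (d ^ r / τ ^ r) := by
    unfold zz
    rw [pow_add]
    ring
  calc (1 + zz lam c r θ τ) * d ^ (n + r) = d ^ (n + r) + zz lam c r θ τ * d ^ (n + r) := by ring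
    _ ≤ Real.pi ^ (n + r) + c * (∏ i, (Real.pi + lam i * C)) * C ^ r := by
      rw [key]
      refine add_le_add hdp ?_
      refine mul_le_mul (mul_le_mul_of_nonneg_left hG hc.le) hr hr0 ?_
      positivity

end Pool.Agent.H630Z
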