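import Pool.Agent.H630Z.B1
import Pool.Agent.H630Z.B2
import Pool.Agent.H630Z.B3
import Pool.Agent.H630Z.B4
import Pool.Agent.H630Z.B7
set_option autoImplicit false

open Polynomial

namespace Pool.Agent.H630Z


theorem d1_mono {n r : ℕ} (lam : Fin n → ℝ) (c : ℝ) (A : ℝ[X]) {η η' C C' θ τ : ℝ}
    (h0 : 0 < θ) (h1 : θ < Th n r) (hτ : 0 < τ) (hC : 0 < C) (hCC : C ≤ C') (hη : η' ≤ η)
    (H : NearOK lam c r A η C θ τ) : NearOK lam c r A η' C' θ τ := by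
  intro t ht h2 h3 h4
  have hlt : ‖t‖ < (1 + η) * τ := by
    refine lt_of_lt_of_le h4 ?_
    have : (η' - η) * τ ≤ 0 := mul_nonpos_of_nonpos_of_nonneg (by linarith) hτ.le
    nlinarith
  obtain ⟨a1, a2, a3, a4⟩ := H t ht h2 h3 hlt
  have hdl : 0 ≤ dl n r θ := le_min h0.le (by linarith)
  refine ⟨?_, ?_, ?_, a4⟩
  · refine le_trans ?_ a1
    have : dl n r θ / C' ≤ dl n r θ / C := div_le_div_of_nonneg_left hdl hC hCC
    exact mul_le_mul_of_nonneg_left (by linarith) hτ.le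
  · exact a2.trans (mul_le_mul_of_nonneg_right hCC (norm_nonneg _))
  · exact a3.trans (mul_le_mul_of_nonneg_right hCC (norm_nonneg _))

theorem d1_left {n r : ℕ} (h : Nd n r) (lam : Fin n → ℝ) (hlam : ∀ i, 0 < lam i)
    (c : ℝ) (hc : 0 < c) (A : ℝ[X]) (hA : A ≠ 0) :
    ∃ δ0 η C : ℝ, 0 < δ0 ∧ 0 < η ∧ 0 < C ∧ ∀ θ τ : ℝ, 0 < θ → θ ≤ δ0 → θ < Th n r →
      Cv lam r θ τ → NearOK lam c r A η C θ τ := by
  have hn : 0 < n := by rcases h with h | h <;> omega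
  have : Nonempty (Fin n) := ⟨⟨0, hn⟩⟩
  obtain ⟨i0, hi0⟩ := Finite.exists_max lam
  by_cases hu : ∀ j, j ≠ i0 → lam j < lam i0
  · obtain ⟨δ0, η, h1, h2, h3⟩ := near_left1 h lam hlam c hc A i0 hu
    exact ⟨δ0, η, 1, h1, h2, one_pos, fun θ τ a b d e => h3 1 θ τ a b d e⟩
  · push Not at hu
    obtain ⟨i1, h01, h02⟩ := hu
    exact near_left2 h lam hlam c hc A hA i0 i1 h01 (le_antisymm (hi0 i1) h02) hi0

theorem d1_right {n r : ℕ} (h : Nd n r) (lam : Fin n → ℝ) (hlam : ∀ i, 0 < lam i)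
    (c : ℝ) (hc : 0 < c) (A : ℝ[X]) (hA : A ≠ 0) :
    ∃ δ0 η C : ℝ, 0 < δ0 ∧ 0 < η ∧ 0 < C ∧ ∀ θ τ : ℝ, 0 < θ → Th n r - δ0 ≤ θ → θ < Th n r →
      Cv lam r θ τ → NearOK lam c r A η C θ τ := by
  rcases Nat.lt_or_ge r 1 with h0 | h1
  · exact near_right0 h (by omega) lam hlam c hc A hA
  · rcases Nat.lt_or_ge r 2 with h2 | h2
    · have hr : r = 1 := by omega
      obtain ⟨η, e1, e2⟩ := near_right1 h hr lam hlam c hc A
      refine ⟨Real.pi / 2, η, 1, by positivity, e1, one_pos, ?_⟩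
      intro θ τ _ a b d
      refine e2 1 θ τ ?_ b d
      have hT : Th n r = Real.pi := by
        subst hr
        simp [Th]
      rw [hT] at a
      linarith
    · exact near_right2 h h2 lam hlam c hc A hA

/-- Proof: `NearOK` for `(η, C)` implies `NearOK` for `(η', C')`, `η' ≤ η`, `C' ≥ C` (`dl ≥ 0` for `0 < θ < Th`, `0 < τ`).  Left end: let `i0` be an
index with `lam i0` maximal (`n ≥ 1`); either it is the only one (`near_left1`) or there is `i1` (`near_left2`).  Right end: `r = 0`, `r = 1`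
(`Th = π`, `δ0 = π/2`), `r ≥ 2`.  Middle: `near_mid` with `δ0` the minimum of the two. -/
theorem near_all {n r : ℕ} (h : Nd n r) (lam : Fin n → ℝ) (hlam : ∀ i, 0 < lam i)
    (c : ℝ) (hc : 0 < c) (A : ℝ[X]) (hA : A ≠ 0) :
    ∃ η C : ℝ, 0 < η ∧ 0 < C ∧ ∀ θ τ : ℝ, 0 < θ → θ < Th n r → Cv lam r θ τ →
      NearOK lam c r A η C θ τ := by
  obtain ⟨δL, ηL, CL, l1, l2, l3, l4⟩ := d1_left h lam hlam c hc A hA
  obtain ⟨δR, ηR, CR, r1, r2, r3, r4⟩ := d1_right h lam hlam c hc A hA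
  obtain ⟨ηM, m1, m2⟩ := near_mid h lam hlam c hc A (min δL δR) (lt_min l1 r1)
  refine ⟨min ηM (min ηL ηR), max CL CR, lt_min m1 (lt_min l2 r2), lt_max_of_lt_left l3, ?_⟩
  intro θ τ h0 h1 hcv
  rcases le_or_gt θ δL with hL | hL
  · exact d1_mono lam c A h0 h1 hcv.pos l3 (le_max_left _ _)
      ((min_le_right _ _).trans (min_le_left _ _)) (l4 θ τ h0 hL h1 hcv)
  · rcases le_or_gt (Th n r - δR) θ with hR | hR
    · exact d1_mono lam c A h0 h1 hcv.pos r3 (le_max_right _ _)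
        ((min_le_right _ _).trans (min_le_right _ _)) (r4 θ τ h0 hR h1 hcv)
    · refine d1_mono lam c A h0 h1 hcv.pos (lt_max_of_lt_left l3) le_rfl (min_le_left _ _)
        (m2 (max CL CR) θ τ ((min_le_left _ _).trans hL.le) ?_ hcv)
      have := min_le_right δL δR
      linarith

end Pool.Agent.H630Z
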