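import Pool.Agent.H630Z.D1
import Pool.Agent.H630Z.C4A
import Pool.Agent.H630Z.C4B
import Pool.Agent.H630Z.C6A
import Pool.Agent.H630Z.C6B
set_option autoImplicit false

open Polynomial

namespace Pool.Agent.H630Z


/-- The residues at the near roots.  Proof: let `a` bound the degrees of the coefficients of `N`, `M = MM N lam c r a ≠ 0`, `V = VV lam r ≠ 0`
(`n ≥ 1` by `Nd`).  Apply `near_all` to `M` and to `V`; let `η` be the smaller (and `≤ 1`), `C1` the bigger constant.  For a near root `t`: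
`V(t) ≠ 0` so `D'(t) ≠ 0` by `at_root`, `N(t)/D'(t) = M(t) t / (t^(r a) c V(t))`, and the same identity for `RR` with `t' = τ e^{iθ}` (a root by
`pair_root`, `V(t') ≠ 0`).  `τ ≤ ‖t‖ ≤ 2 τ`, so `‖N(t)/D'(t)‖ ≤ C1 ‖M(t')‖ · 2 τ / (τ^(r a) c ‖V(t')‖/C1) = 2 C1² ‖RR‖`. -/
theorem res_cmp {n r : ℕ} (h : Nd n r) (lam : Fin n → ℝ) (hlam : ∀ i, 0 < lam i) (c : ℝ)
    (hc : 0 < c) (N : ℝ[X][X]) (hN : N ≠ 0) (hdeg : N.natDegree < max n r) :
    ∃ η C : ℝ, 0 < η ∧ 0 < C ∧ ∀ θ τ : ℝ, 0 < θ → θ < Th n r → Cv lam r θ τ →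
      ∀ t : ℂ, (DD lam c r (zz lam c r θ τ)).eval t = 0 → t ≠ τ * ee θ → t ≠ τ * ee (-θ) →
        ‖t‖ < (1 + η) * τ →
        τ * (1 + dl n r θ / C) ≤ ‖t‖ ∧ (derivative (DD lam c r (zz lam c r θ τ))).eval t ≠ 0 ∧
        ‖(NN N (zz lam c r θ τ)).eval t / (derivative (DD lam c r (zz lam c r θ τ))).eval t‖ ≤
          C * ‖RR N lam c r θ τ‖ := by
  have hn : 1 ≤ n := by rcases h with ⟨_, h⟩ | ⟨_, h⟩ <;> omega
  obtain ⟨a, ha⟩ : ∃ a, ∀ j, (N.coeff j).natDegree ≤ a := by
    refine ⟨∑ j ∈ Finset.range (N.natDegree + 1), (N.coeff j).natDegree, fun j => ?_⟩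
    by_cases hj : j ≤ N.natDegree
    · exact Finset.single_le_sum (f := fun j => (N.coeff j).natDegree) (fun _ _ => Nat.zero_le _)
        (Finset.mem_range.mpr (by omega))
    · rw [coeff_eq_zero_of_natDegree_lt (by omega)]
      simp
  have hM := MM_ne hn N hN lam hlam c hc r a ha hdeg
  have hV := VV_ne (r := r) hn lam hlam
  obtain ⟨η1, C1, hη1, hC1, h1⟩ := near_all h lam hlam c hc _ hM
  obtain ⟨η2, C2, hη2, hC2, h2⟩ := near_all h lam hlam c hc _ hV
  refine ⟨min (min η1 η2) 1, max C1 (2 * C1 * C2), lt_min (lt_min hη1 hη2) one_pos,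
    lt_of_lt_of_le hC1 (le_max_left _ _), ?_⟩
  intro θ τ hθ hθT hCv t ht htn htn' htlt
  have hτ : 0 < τ := hCv.pos
  have hdl : 0 < dl n r θ := lt_min hθ (by linarith)
  have l1 : ‖t‖ < (1 + η1) * τ := by
    refine lt_of_lt_of_le htlt (mul_le_mul_of_nonneg_right ?_ hτ.le)
    have := (min_le_left (min η1 η2) 1).trans (min_le_left _ _)
    linarith
  have l2 : ‖t‖ < (1 + η2) * τ := by
    refine lt_of_lt_of_le htlt (mul_le_mul_of_nonneg_right ?_ hτ.le)
    have := (min_le_left (min η1 η2) 1).trans (min_le_right _ _)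
    linarith
  have l3 : ‖t‖ ≤ 2 * τ := by
    refine le_trans htlt.le (mul_le_mul_of_nonneg_right ?_ hτ.le)
    have := min_le_right (min η1 η2) 1
    linarith
  obtain ⟨a1, a2, a3, a4⟩ := h1 θ τ hθ hθT hCv t ht htn htn' l1
  obtain ⟨b1, b2, b3, b4⟩ := h2 θ τ hθ hθT hCv t ht htn htn' l2
  have hz := zz_pos lam hlam c hc hCv
  obtain ⟨p1, p2, p3, p4, p5⟩ := pair_root h lam hlam c hc hCv
  obtain ⟨t0, t1, t2⟩ := at_root N lam hlam c hc r a ha _ hz t ht
  obtain ⟨s0, s1, s2⟩ := at_root N lam hlam c hc r a ha _ hz _ p1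
  have hD0 : (derivative (DD lam c r (zz lam c r θ τ))).eval t ≠ 0 := by
    intro h0
    rw [h0, mul_zero] at t1
    have hc' : (c : ℂ) ≠ 0 := by exact_mod_cast hc.ne'
    exact (mul_ne_zero hc' b4) t1.symm
  have hee : ‖(τ : ℂ) * ee θ‖ = τ := by
    rw [norm_mul, ee, Complex.norm_exp_ofReal_mul_I, mul_one, Complex.norm_real, Real.norm_eq_abs,
      abs_of_pos hτ]
  have hcn : ‖(c : ℂ)‖ = c := by rw [Complex.norm_real, Real.norm_eq_abs, abs_of_pos hc]
  refine ⟨?_, hD0, ?_⟩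
  · refine le_trans (mul_le_mul_of_nonneg_left ?_ hτ.le) a1
    have : dl n r θ / max C1 (2 * C1 * C2) ≤ dl n r θ / C1 :=
      div_le_div_of_nonneg_left hdl.le hC1 (le_max_left _ _)
    linarith
  · rw [RR, norm_div, norm_div]
    have q1 := congrArg norm t1
    have q2 := congrArg norm t2
    have q3 := congrArg norm s1
    have q4 := congrArg norm s2
    rw [norm_mul, norm_mul, hcn] at q1
    rw [norm_mul, norm_pow] at q2
    rw [norm_mul ((τ : ℂ) * ee θ), norm_mul (c : ℂ), hcn, hee] at q3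
    rw [norm_mul (((τ : ℂ) * ee θ) ^ (r * a)), norm_pow, hee] at q4
    have hT : 0 < ‖t‖ := norm_pos_iff.mpr t0
    have hTτ : τ ≤ ‖t‖ := by
      refine le_trans ?_ a1
      have : 0 ≤ dl n r θ / C1 := by positivity
      nlinarith
    have hv : 0 < ‖aeval t (VV lam r)‖ := norm_pos_iff.mpr b4
    have hD : 0 < ‖(derivative (DD lam c r (zz lam c r θ τ))).eval t‖ := norm_pos_iff.mpr hD0
    have hD' : 0 < ‖(derivative (DD lam c r (zz lam c r θ τ))).eval (τ * ee θ)‖ :=
      norm_pos_iff.mpr p3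
    have hm' : 0 ≤ ‖aeval (τ * ee θ) (MM N lam c r a)‖ := norm_nonneg _
    have hX' : 0 ≤ ‖(NN N (zz lam c r θ τ)).eval (τ * ee θ)‖ := norm_nonneg _
    have hX : 0 ≤ ‖(NN N (zz lam c r θ τ)).eval t‖ := norm_nonneg _
    generalize ‖aeval (τ * ee θ) (MM N lam c r a)‖ = m' at *
    generalize ‖aeval t (MM N lam c r a)‖ = m at *
    generalize ‖aeval (τ * ee θ) (VV lam r)‖ = v' at *
    generalize ‖aeval t (VV lam r)‖ = v at *
    generalize ‖(derivative (DD lam c r (zz lam c r θ τ))).eval (τ * ee θ)‖ = D' at *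
    generalize ‖(derivative (DD lam c r (zz lam c r θ τ))).eval t‖ = D at *
    generalize ‖(NN N (zz lam c r θ τ)).eval (τ * ee θ)‖ = X' at *
    generalize ‖(NN N (zz lam c r θ τ)).eval t‖ = X at *
    generalize ‖t‖ = T at *
    have hP : 0 < T ^ (r * a) := by positivity
    have hP' : 0 < τ ^ (r * a) := by positivity
    have hPP : τ ^ (r * a) ≤ T ^ (r * a) := pow_le_pow_left₀ hτ.le hTτ _
    generalize T ^ (r * a) = P at *
    generalize τ ^ (r * a) = P' at *
    -- X = m / P, D = c v / T, X' = m' / P', D' = c v' / τ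
    have hv' : 0 ≤ v' := by
      have : 0 < τ * D' := by positivity
      nlinarith
    have hK : X / D ≤ (2 * C1 * C2) * (X' / D') := by
      rw [← mul_div_assoc, div_le_div_iff₀ hD hD']
      -- X * D' ≤ 2 C1 C2 X' * D
      have e1 : (X * D') * (P * τ) = m * (c * v') := by rw [← q2, ← q3]; ring
      have e2 : (X' * D) * (P' * T) = m' * (c * v) := by rw [← q4, ← q1]; ring
      have hm : m * (c * v') ≤ (C1 * m') * (c * (C2 * v)) := by
        have h0 : 0 ≤ m := by rw [← q2]; positivity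
        gcongr
      have e3 : (X * D') * (P * τ) ≤ C1 * C2 * ((X' * D) * (P' * T)) := by
        rw [e1, e2]
        calc m * (c * v') ≤ (C1 * m') * (c * (C2 * v)) := hm
          _ = C1 * C2 * (m' * (c * v)) := by ring
      have e4 : C1 * C2 * ((X' * D) * (P' * T)) ≤ C1 * C2 * ((X' * D) * (P * (2 * τ))) := by
        gcongr
      have e5 : (X * D') * (P * τ) ≤ (2 * C1 * C2 * X' * D) * (P * τ) := by
        calc _ ≤ _ := e3.trans e4
          _ = _ := by ring
      exact le_of_mul_le_mul_right e5 (by positivity)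
    refine hK.trans ?_
    have : 0 ≤ X' / D' := by positivity
    exact mul_le_mul_of_nonneg_right (le_max_right _ _) this

end Pool.Agent.H630Z
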