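import Pool.Agent.H630Z.C4B
import Pool.Agent.H630Z.C6A
import Pool.Agent.H630Z.C6B
import Pool.Agent.H630Z.A7
import Pool.Agent.H630Z.C2

set_option autoImplicit false

open Polynomial

namespace Pool.Agent.H630Z

theorem d3m_upper (A : ℝ[X]) : ∃ C : ℝ, 0 < C ∧ ∀ t : ℂ,
    ‖aeval t A‖ ≤ C * (1 + ‖t‖) ^ A.natDegree := by
  refine ⟨∑ i ∈ Finset.range (A.natDegree + 1), |A.coeff i| + 1, by positivity, fun t => ?_⟩
  rw [aeval_eq_sum_range]
  calc ‖∑ i ∈ Finset.range (A.natDegree + 1), A.coeff i • t ^ i‖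
      ≤ ∑ i ∈ Finset.range (A.natDegree + 1), ‖A.coeff i • t ^ i‖ := norm_sum_le _ _
    _ ≤ ∑ i ∈ Finset.range (A.natDegree + 1), |A.coeff i| * (1 + ‖t‖) ^ A.natDegree := by
        apply Finset.sum_le_sum
        intro i hi
        rw [norm_smul, norm_pow, Real.norm_eq_abs]
        have h1 : ‖t‖ ^ i ≤ (1 + ‖t‖) ^ A.natDegree := by
          calc ‖t‖ ^ i ≤ (1 + ‖t‖) ^ i := by
                apply pow_le_pow_left₀ (norm_nonneg _)
                linarith
            _ ≤ (1 + ‖t‖) ^ A.natDegree := by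
                apply pow_le_pow_right₀
                · have := norm_nonneg t
                  linarith
                · rw [Finset.mem_range] at hi
                  omega
        gcongr
    _ = (∑ i ∈ Finset.range (A.natDegree + 1), |A.coeff i|) * (1 + ‖t‖) ^ A.natDegree := by
        rw [Finset.sum_mul]
    _ ≤ _ := by
        apply mul_le_mul_of_nonneg_right _ (by positivity)
        linarith

theorem d3m_norm (τ θ : ℝ) (h : 0 < τ) : ‖(τ : ℂ) * ee θ‖ = τ := by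
  unfold ee
  rw [norm_mul, Complex.norm_exp_ofReal_mul_I, mul_one, Complex.norm_real, Real.norm_eq_abs,
    abs_of_pos h]

theorem d3m_ee_add (x y : ℝ) : ee (x + y) = ee x * ee y := by
  unfold ee
  rw [← Complex.exp_add]
  congr 1
  push_cast
  ring

theorem d3m_ee_pow (x : ℝ) (k : ℕ) : ee x ^ k = ee (k * x) := by
  unfold ee
  rw [← Complex.exp_nat_mul]
  congr 1
  push_cast
  ring

theorem d3m_ee_ne (x : ℝ) : ee x ≠ 0 := Complex.exp_ne_zero _

theorem d3m_ee_norm (x : ℝ) : ‖ee x‖ = 1 := by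
  unfold ee
  rw [Complex.norm_exp_ofReal_mul_I]

theorem d3m_Th (n r : ℕ) : Th n r ≤ Real.pi := by
  have hpi := Real.pi_pos
  unfold Th
  split_ifs with h
  · have : (0 : ℝ) ≤ 1 / (n : ℝ) := by positivity
    nlinarith
  · have h1 : (1 : ℝ) ≤ r := by
      have : 1 ≤ r := Nat.one_le_iff_ne_zero.2 h
      exact_mod_cast this
    exact div_le_self hpi.le h1

theorem d3m_id {n r : ℕ} (h : Nd n r) (lam : Fin n → ℝ) (hlam : ∀ i, 0 < lam i) (c : ℝ)
    (hc : 0 < c) (N : ℝ[X][X]) (a : ℕ) (ha : ∀ j, (N.coeff j).natDegree ≤ a) {θ τ : ℝ}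
    (hC : Cv lam r θ τ) :
    aeval ((τ : ℂ) * ee θ) (VV lam r) ≠ 0 ∧
    RR N lam c r θ τ * (((τ : ℂ) * ee θ) ^ (r * a) * (c * aeval ((τ : ℂ) * ee θ) (VV lam r))) =
      aeval ((τ : ℂ) * ee θ) (MM N lam c r a) * ((τ : ℂ) * ee θ) := by
  obtain ⟨h1, -, h3, -, -⟩ := pair_root h lam hlam c hc hC
  have hz := zz_pos lam hlam c hc hC
  obtain ⟨ht, hd, hM⟩ := at_root N lam hlam c hc r a ha _ hz _ h1
  set t : ℂ := (τ : ℂ) * ee θ with htdef
  set D' := (derivative (DD lam c r (zz lam c r θ τ))).eval t with hD'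
  have hcV : (c : ℂ) * aeval t (VV lam r) ≠ 0 := by
    rw [← hd]
    exact mul_ne_zero ht h3
  refine ⟨right_ne_zero_of_mul hcV, ?_⟩
  have hRR : RR N lam c r θ τ = (NN N (zz lam c r θ τ)).eval t / D' := rfl
  rw [hRR, ← hd, ← hM]
  field_simp

theorem RR_arg {n r : ℕ} (h : Nd n r) (lam : Fin n → ℝ) (hlam : ∀ i, 0 < lam i) (c : ℝ)
    (hc : 0 < c) (N : ℝ[X][X]) (hN : N ≠ 0) (hdeg : N.natDegree < max n r) :
    ∃ (S : Finset ℝ) (B c0 : ℝ) (k : ℕ), 0 ≤ B ∧ 0 < c0 ∧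
      (∀ θ τ ε : ℝ, θ ∈ Set.Ioo 0 (Th n r) → Cv lam r θ τ → 0 < ε → ε ≤ 1 →
        (∀ s ∈ S, ε ≤ |θ - s|) → c0 * (dl n r θ * ε) ^ k ≤ ‖RR N lam c r θ τ‖) ∧
      (∀ (a b : ℝ) (τ : ℝ → ℝ), 0 < a → a ≤ b → b < Th n r → ContinuousOn τ (Set.Icc a b) →
        (∀ θ ∈ Set.Icc a b, Cv lam r θ (τ θ)) → (∀ s ∈ S, s ∉ Set.Icc a b) →
        ∃ α : ℝ → ℝ, ContinuousOn α (Set.Icc a b) ∧ ∀ θ ∈ Set.Icc a b, |α θ| ≤ B ∧
          RR N lam c r θ (τ θ) = ‖RR N lam c r θ (τ θ)‖ * ee (α θ)) := by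
  classical
  have hn : 1 ≤ n := by
    unfold Nd at h
    omega
  have hpi := Real.pi_pos
  set a := N.support.sup (fun j => (N.coeff j).natDegree) with hadef
  have ha : ∀ j, (N.coeff j).natDegree ≤ a := by
    intro j
    by_cases hj : j ∈ N.support
    · exact Finset.le_sup (f := fun j => (N.coeff j).natDegree) hj
    · rw [notMem_support_iff] at hj
      rw [hj]
      simp
  have hM := MM_ne hn N hN lam hlam c hc r a ha hdeg
  have hV := VV_ne (r := r) hn lam hlam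
  obtain ⟨S1, B1, c1, hB1, hc1, hl1, hα1⟩ := poly_arg _ hM
  obtain ⟨S2, B2, c2, hB2, hc2, hl2, hα2⟩ := poly_arg _ hV
  obtain ⟨C2, hC2, hup⟩ := d3m_upper (VV lam r)
  obtain ⟨Ct, hCt, htau⟩ := tau_bounds h lam hlam
  set k1 := (MM N lam c r a).natDegree with hk1
  set k2 := (VV lam r).natDegree with hk2
  refine ⟨S1 ∪ S2, B1 + B2 + (r * a + 1) * Real.pi,
    c1 / (Ct ^ (k1 + 1 + r * a) * c * C2 * (Real.pi + Ct) ^ k2), k1 + 1 + r * a + k2,
    by positivity, by positivity, ?_, ?_⟩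
  · intro θ τ ε hθ hCv hε hε1 hS
    obtain ⟨hVne, hid⟩ := d3m_id h lam hlam c hc N a ha hCv
    obtain ⟨ht1, ht2⟩ := htau θ τ hθ hCv
    have hτ := hCv.pos
    have hθπ : θ < Real.pi := lt_of_lt_of_le hθ.2 (d3m_Th n r)
    have hMlow := hl1 θ τ ε hθ.1 hθπ hτ hε.le (fun s hs => hS s (Finset.mem_union_left _ hs))
    have hVup := hup ((τ : ℂ) * ee θ)
    rw [d3m_norm τ θ hτ] at hVup
    set δ := dl n r θ with hδ
    have hδ0 : 0 < δ := by
      rw [hδ, dl]
      exact lt_min hθ.1 (by linarith [hθ.2])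
    have hδπ : δ ≤ Real.pi := by
      rw [hδ, dl]
      exact (min_le_left _ _).trans hθπ.le
    have hnorm := congrArg norm hid
    rw [norm_mul, norm_mul, norm_mul, norm_mul, norm_pow, d3m_norm τ θ hτ, Complex.norm_real,
      Real.norm_eq_abs, abs_of_pos hc] at hnorm
    set R := ‖RR N lam c r θ τ‖ with hR
    set v := ‖aeval ((τ : ℂ) * ee θ) (VV lam r)‖ with hv
    set μ := ‖aeval ((τ : ℂ) * ee θ) (MM N lam c r a)‖ with hμ
    have hR0 : 0 ≤ R := norm_nonneg _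
    -- lower bound of the right side
    have e1 : c1 * (δ * ε / Ct) ^ k1 * (δ / Ct) ≤ μ * τ := by
      have h1 : δ / Ct ≤ τ := by
        rw [div_le_iff₀ hCt]
        linarith
      have h2 : δ * ε / Ct ≤ τ * ε := by
        rw [div_le_iff₀ hCt]
        nlinarith
      calc c1 * (δ * ε / Ct) ^ k1 * (δ / Ct) ≤ c1 * (τ * ε) ^ k1 * τ := by gcongr
        _ ≤ μ * τ := by gcongr
    have e2 : R * (τ ^ (r * a) * (c * v)) ≤
        R * ((Ct / δ) ^ (r * a) * (c * (C2 * ((Real.pi + Ct) / δ) ^ k2))) := by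
      have h1 : τ ≤ Ct / δ := by
        rw [le_div_iff₀ hδ0]
        exact ht2
      have h2 : 1 + τ ≤ (Real.pi + Ct) / δ := by
        rw [le_div_iff₀ hδ0]
        nlinarith
      have h3 : v ≤ C2 * ((Real.pi + Ct) / δ) ^ k2 := by
        refine hVup.trans ?_
        gcongr
      gcongr
    have e3 : c1 * (δ * ε / Ct) ^ k1 * (δ / Ct) ≤
        R * ((Ct / δ) ^ (r * a) * (c * (C2 * ((Real.pi + Ct) / δ) ^ k2))) :=
      (e1.trans hnorm.symm.le).trans e2
    have e4 : (δ * ε) ^ (k1 + 1 + r * a + k2) ≤ (δ * ε) ^ k1 * δ ^ (1 + r * a + k2) := by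
      have : k1 + 1 + r * a + k2 = k1 + (1 + r * a + k2) := by ring
      rw [this, pow_add]
      have h5 : (δ * ε) ^ (1 + r * a + k2) ≤ δ ^ (1 + r * a + k2) := by
        apply pow_le_pow_left₀ (by positivity)
        nlinarith
      gcongr
    calc c1 / (Ct ^ (k1 + 1 + r * a) * c * C2 * (Real.pi + Ct) ^ k2) *
          (δ * ε) ^ (k1 + 1 + r * a + k2)
        ≤ c1 / (Ct ^ (k1 + 1 + r * a) * c * C2 * (Real.pi + Ct) ^ k2) *
          ((δ * ε) ^ k1 * δ ^ (1 + r * a + k2)) := by gcongr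
      _ ≤ R := by
        rw [div_mul_eq_mul_div, div_le_iff₀ (by positivity)]
        have e5 : c1 * (δ * ε / Ct) ^ k1 * (δ / Ct) *
            (Ct ^ (k1 + 1) * δ ^ (r * a) * δ ^ k2) = c1 * ((δ * ε) ^ k1 * δ ^ (1 + r * a + k2)) := by
          rw [div_pow, pow_add, pow_add, pow_add, pow_one, pow_one]
          field_simp
        have e6 : R * ((Ct / δ) ^ (r * a) * (c * (C2 * ((Real.pi + Ct) / δ) ^ k2))) *
            (Ct ^ (k1 + 1) * δ ^ (r * a) * δ ^ k2) =
            R * (Ct ^ (k1 + 1 + r * a) * c * C2 * (Real.pi + Ct) ^ k2) := by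
          rw [div_pow, div_pow, pow_add Ct (k1 + 1) (r * a)]
          field_simp
        rw [← e5, ← e6]
        gcongr
  · intro a' b' τ h0 hab hb hτ hCv hS
    have hbπ : b' < Real.pi := lt_of_lt_of_le hb (d3m_Th n r)
    have hpos : ∀ θ ∈ Set.Icc a' b', 0 < τ θ := fun θ hθ => (hCv θ hθ).pos
    obtain ⟨α1, hα1c, hα1⟩ := hα1 a' b' τ h0 hab hbπ hτ hpos
      (fun s hs => hS s (Finset.mem_union_left _ hs))
    obtain ⟨α2, hα2c, hα2⟩ := hα2 a' b' τ h0 hab hbπ hτ hpos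
      (fun s hs => hS s (Finset.mem_union_right _ hs))
    refine ⟨fun θ => α1 θ - α2 θ + (1 - (r * a : ℕ)) * θ, ?_, ?_⟩
    · exact (hα1c.sub hα2c).add (continuousOn_const.mul continuousOn_id)
    · intro θ hθ
      obtain ⟨hb1, he1⟩ := hα1 θ hθ
      obtain ⟨hb2, he2⟩ := hα2 θ hθ
      constructor
      · have h1 : |(1 - ((r * a : ℕ) : ℝ)) * θ| ≤ (r * a + 1) * Real.pi := by
          rw [abs_mul]
          have h2 : |(1 - ((r * a : ℕ) : ℝ))| ≤ r * a + 1 := by
            rw [abs_le]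
            push_cast
            constructor
            · have : (0 : ℝ) ≤ (r : ℝ) * a := by positivity
              linarith
            · have : (0 : ℝ) ≤ (r : ℝ) * a := by positivity
              linarith
          have h3 : |θ| ≤ Real.pi := by
            rw [abs_le]
            exact ⟨by linarith [hθ.1], by linarith [hθ.2]⟩
          gcongr
        calc |α1 θ - α2 θ + (1 - ((r * a : ℕ) : ℝ)) * θ|
            ≤ |α1 θ - α2 θ| + |(1 - ((r * a : ℕ) : ℝ)) * θ| := abs_add_le _ _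
          _ ≤ (|α1 θ| + |α2 θ|) + |(1 - ((r * a : ℕ) : ℝ)) * θ| := by
              gcongr
              exact abs_sub _ _
          _ ≤ B1 + B2 + (r * a + 1) * Real.pi := by linarith
      · obtain ⟨hVne, hid⟩ := d3m_id h lam hlam c hc N a ha (hCv θ hθ)
        have hτθ := hpos θ hθ
        have hnorm := congrArg norm hid
        rw [norm_mul, norm_mul, norm_mul, norm_mul, norm_pow, d3m_norm _ θ hτθ,
          Complex.norm_real, Real.norm_eq_abs, abs_of_pos hc] at hnorm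
        rw [he1, he2] at hid
        have hV0 : (‖aeval ((τ θ : ℂ) * ee θ) (VV lam r)‖ : ℂ) ≠ 0 := by
          rw [Complex.ofReal_ne_zero]
          exact norm_ne_zero_iff.2 hVne
        set v := ‖aeval ((τ θ : ℂ) * ee θ) (VV lam r)‖ with hv
        set μ := ‖aeval ((τ θ : ℂ) * ee θ) (MM N lam c r a)‖ with hμ
        have hnormC : ((‖RR N lam c r θ (τ θ)‖ : ℝ) : ℂ) * ((τ θ : ℂ) ^ (r * a) * (c * (v : ℂ))) =
            (μ : ℂ) * (τ θ : ℂ) := by
          exact_mod_cast hnorm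
        have hτc : (τ θ : ℂ) ≠ 0 := by
          rw [Complex.ofReal_ne_zero]
          exact hτθ.ne'
        have hcc : (c : ℂ) ≠ 0 := by
          rw [Complex.ofReal_ne_zero]
          exact hc.ne'
        have hee : ee (α1 θ - α2 θ + (1 - ((r * a : ℕ) : ℝ)) * θ) *
            (ee θ ^ (r * a) * ee (α2 θ)) = ee (α1 θ) * ee θ := by
          rw [d3m_ee_pow, ← d3m_ee_add, ← d3m_ee_add, ← d3m_ee_add]
          congr 1
          ring
        have hne : ((τ θ : ℂ) * ee θ) ^ (r * a) * (c * ((v : ℂ) * ee (α2 θ))) ≠ 0 := by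
          have := d3m_ee_ne (α2 θ)
          have := d3m_ee_ne θ
          positivity
        apply mul_right_cancel₀ hne
        rw [hid]
        calc (μ : ℂ) * ee (α1 θ) * ((τ θ : ℂ) * ee θ)
            = ((μ : ℂ) * (τ θ : ℂ)) * (ee (α1 θ) * ee θ) := by ring
          _ = ((‖RR N lam c r θ (τ θ)‖ : ℝ) : ℂ) * ((τ θ : ℂ) ^ (r * a) * (c * (v : ℂ))) *
              (ee (α1 θ - α2 θ + (1 - ((r * a : ℕ) : ℝ)) * θ) *
                (ee θ ^ (r * a) * ee (α2 θ))) := by rw [hnormC, hee]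
          _ = _ := by
              rw [mul_pow]
              ring

end Pool.Agent.H630Z
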