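import Pool.Agent.H630Z.C1B
import Pool.Agent.H630Z.D2
import Pool.Agent.H630Z.C5A
import Pool.Agent.H630Z.C5B
import Pool.Agent.H630Z.A7
set_option autoImplicit false

open Polynomial

namespace Pool.Agent.H630Z


theorem d4a_ee_conj (θ : ℝ) : ee (-θ) = (starRingEnd ℂ) (ee θ) := by
  unfold ee
  rw [← Complex.exp_conj]
  congr 1
  simp

theorem d4a_ee_norm (θ : ℝ) : ‖ee θ‖ = 1 := by
  unfold ee
  exact Complex.norm_exp_ofReal_mul_I θ

theorem d4a_ee_pow (θ : ℝ) (m : ℕ) : ee (-((m + 1) * θ)) = (ee (-θ)) ^ (m + 1) := by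
  unfold ee
  rw [← Complex.exp_nat_mul]
  congr 1
  push_cast
  ring

theorem d4a_abs (D Nn : ℂ[X]) (d : ℕ) (hD : D.natDegree ≤ d) (hN : Nn.natDegree ≤ d)
    (h0 : D.eval 0 ≠ 0) (u v : ℂ) (hu : ‖u‖ = 1) (huv : v = (starRingEnd ℂ) u) (R : ℂ)
    (τ η C1 δ : ℝ) (hτ : 0 < τ) (hη : 0 < η)
    (hC1 : 0 < C1) (hδ : 0 ≤ δ)
    (h1 : D.eval (τ * u) = 0) (h2 : D.eval (τ * v) = 0)
    (h1' : (derivative D).eval (τ * u) ≠ 0) (h2' : (derivative D).eval (τ * v) ≠ 0)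
    (h12 : (τ : ℂ) * u ≠ τ * v)
    (hR1 : Nn.eval (τ * u) / (derivative D).eval (τ * u) = R)
    (hR2 : Nn.eval (τ * v) / (derivative D).eval (τ * v) = (starRingEnd ℂ) R)
    (hnear : ∀ t : ℂ, D.eval t = 0 → t ≠ τ * u → t ≠ τ * v → ‖t‖ < (1 + η) * τ →
      τ * (1 + δ / C1) ≤ ‖t‖ ∧ (derivative D).eval t ≠ 0 ∧
        ‖Nn.eval t / (derivative D).eval t‖ ≤ C1 * ‖R‖)
    (p : ℕ → ℝ) (hp : ∀ m, PowerSeries.coeff m ((Nn : PowerSeries ℂ) * (D : PowerSeries ℂ)⁻¹) =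
      (p m : ℂ)) (m : ℕ) :
    |τ ^ (m + 1) * p m + 2 * (R * v ^ (m + 1)).re| ≤
      (d + 1) * 2 ^ d * (m + 1) ^ d * (∑ l ∈ Finset.range (d + 1),
        (1 + η) ^ l * (τ ^ (l + 1) * |p l| + d * (C1 + 1) * ‖R‖)) / (1 + η) ^ m
        + d * C1 * ‖R‖ / (1 + δ / C1) ^ (m + 1) := by
  classical
  have hD0 : D ≠ 0 := by
    rintro rfl
    simp at h0
  have hτc : (τ : ℂ) ≠ 0 := by exact_mod_cast hτ.ne'
  have hu0 : u ≠ 0 := by
    intro h
    rw [h, norm_zero] at hu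
    exact zero_ne_one hu
  have hvn : ‖v‖ = 1 := by rw [huv, RCLike.norm_conj, hu]
  have huvm : u * v = 1 := by
    rw [huv, Complex.mul_conj, Complex.normSq_eq_norm_sq, hu]
    simp
  have hui : u⁻¹ = v := by
    rw [inv_eq_iff_eq_inv]
    exact eq_inv_of_mul_eq_one_left huvm
  have hvi : v⁻¹ = u := by rw [← hui, inv_inv]
  have hn1 : ‖(τ : ℂ) * u‖ = τ := by
    rw [norm_mul, hu, mul_one, Complex.norm_real, Real.norm_of_nonneg hτ.le]
  have hn2 : ‖(τ : ℂ) * v‖ = τ := by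
    rw [norm_mul, hvn, mul_one, Complex.norm_real, Real.norm_of_nonneg hτ.le]
  have hρ : 0 < (1 + η) * τ := by positivity
  have hlt : τ < (1 + η) * τ := by nlinarith
  set T : Finset ℂ := D.roots.toFinset.filter (fun t => ‖t‖ < (1 + η) * τ) with hTdef
  have hTmem : ∀ t, t ∈ T ↔ D.eval t = 0 ∧ ‖t‖ < (1 + η) * τ := by
    intro t
    rw [hTdef, Finset.mem_filter, Multiset.mem_toFinset, mem_roots hD0, IsRoot.def]
  have hcard : T.card ≤ d := by
    calc T.card ≤ D.roots.toFinset.card := Finset.card_filter_le _ _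
      _ ≤ D.roots.card := Multiset.toFinset_card_le _
      _ ≤ D.natDegree := D.card_roots'
      _ ≤ d := hD
  have ht1 : (τ : ℂ) * u ∈ T := (hTmem _).2 ⟨h1, by rw [hn1]; exact hlt⟩
  have ht2 : (τ : ℂ) * v ∈ T := (hTmem _).2 ⟨h2, by rw [hn2]; exact hlt⟩
  have hRn : 0 ≤ ‖R‖ := norm_nonneg _
  have hprop : ∀ t ∈ T, τ ≤ ‖t‖ ∧ (derivative D).eval t ≠ 0 ∧
      ‖Nn.eval t / (derivative D).eval t‖ ≤ (C1 + 1) * ‖R‖ := by
    intro t ht
    obtain ⟨ha, hb⟩ := (hTmem t).1 ht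
    by_cases e1 : t = τ * u
    · subst e1
      refine ⟨hn1.ge, h1', ?_⟩
      rw [hR1]
      nlinarith
    · by_cases e2 : t = τ * v
      · subst e2
        refine ⟨hn2.ge, h2', ?_⟩
        rw [hR2, RCLike.norm_conj]
        nlinarith
      · obtain ⟨hc, hd', he⟩ := hnear t ha e1 e2 hb
        refine ⟨?_, hd', ?_⟩
        · have : 0 ≤ τ * (δ / C1) := by positivity
          nlinarith
        · nlinarith
  set e : ℕ → ℂ := fun m => PowerSeries.coeff m ((Nn : PowerSeries ℂ) * (D : PowerSeries ℂ)⁻¹) +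
      ∑ t ∈ T, Nn.eval t / (derivative D).eval t * (t⁻¹) ^ (m + 1) with hedef
  have key := pf D Nn d hD hN h0 T
    (fun t ht => ⟨((hTmem t).1 ht).1, (hprop t ht).2.1⟩) ((1 + η) * τ) hρ
    (by
      intro t hr hnt
      by_contra hc
      exact hnt ((hTmem t).2 ⟨hr, not_le.1 hc⟩)) e (fun m => rfl) m
  -- bound of e l
  have hel : ∀ l, τ ^ (l + 1) * ‖e l‖ ≤ τ ^ (l + 1) * |p l| + d * (C1 + 1) * ‖R‖ := by
    intro l
    have ha : ‖e l‖ ≤ |p l| + ∑ t ∈ T, (C1 + 1) * ‖R‖ * (τ⁻¹) ^ (l + 1) := by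
      rw [hedef]
      refine (norm_add_le _ _).trans (add_le_add ?_ ((norm_sum_le _ _).trans
        (Finset.sum_le_sum ?_)))
      · rw [hp l, Complex.norm_real, Real.norm_eq_abs]
      · intro t ht
        obtain ⟨hc, -, he⟩ := hprop t ht
        rw [norm_mul, norm_pow, norm_inv]
        have h3 : ‖t‖⁻¹ ≤ τ⁻¹ := inv_anti₀ hτ hc
        have h4 : (‖t‖⁻¹) ^ (l + 1) ≤ (τ⁻¹) ^ (l + 1) :=
          pow_le_pow_left₀ (by positivity) h3 _
        exact mul_le_mul he h4 (by positivity) (by positivity)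
    rw [Finset.sum_const, nsmul_eq_mul] at ha
    have hb : (T.card : ℝ) ≤ d := by exact_mod_cast hcard
    have hc : (T.card : ℝ) * ((C1 + 1) * ‖R‖ * (τ⁻¹) ^ (l + 1)) ≤
        d * ((C1 + 1) * ‖R‖ * (τ⁻¹) ^ (l + 1)) :=
      mul_le_mul_of_nonneg_right hb (by positivity)
    have hd1 : τ ^ (l + 1) * (τ⁻¹) ^ (l + 1) = 1 := by
      rw [← mul_pow, mul_inv_cancel₀ hτ.ne', one_pow]
    calc τ ^ (l + 1) * ‖e l‖ ≤ τ ^ (l + 1) * (|p l| + d * ((C1 + 1) * ‖R‖ * (τ⁻¹) ^ (l + 1))) :=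
          mul_le_mul_of_nonneg_left (ha.trans (by linarith)) (by positivity)
      _ = τ ^ (l + 1) * |p l| + d * (C1 + 1) * ‖R‖ * (τ ^ (l + 1) * (τ⁻¹) ^ (l + 1)) := by ring
      _ = τ ^ (l + 1) * |p l| + d * (C1 + 1) * ‖R‖ := by rw [hd1, mul_one]
  -- bound of τ^(m+1) ‖e m‖
  have hη1 : (0 : ℝ) < 1 + η := by linarith
  have hem : τ ^ (m + 1) * ‖e m‖ ≤ (d + 1) * 2 ^ d * (m + 1) ^ d * (∑ l ∈ Finset.range (d + 1),
        (1 + η) ^ l * (τ ^ (l + 1) * |p l| + d * (C1 + 1) * ‖R‖)) / (1 + η) ^ m := by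
    rw [le_div_iff₀ (by positivity)]
    have h3 : τ ^ (m + 1) * ‖e m‖ * (1 + η) ^ m = τ * (‖e m‖ * ((1 + η) * τ) ^ m) := by
      rw [mul_pow]; ring
    rw [h3]
    calc τ * (‖e m‖ * ((1 + η) * τ) ^ m)
        ≤ τ * ((d + 1) * 2 ^ d * (m + 1) ^ d *
          ∑ l ∈ Finset.range (d + 1), ((1 + η) * τ) ^ l * ‖e l‖) :=
          mul_le_mul_of_nonneg_left key hτ.le
      _ = (d + 1) * 2 ^ d * (m + 1) ^ d *
          ∑ l ∈ Finset.range (d + 1), (1 + η) ^ l * (τ ^ (l + 1) * ‖e l‖) := by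
          rw [Finset.mul_sum, Finset.mul_sum, Finset.mul_sum]
          refine Finset.sum_congr rfl fun l _ => ?_
          rw [mul_pow]; ring
      _ ≤ _ := by
          refine mul_le_mul_of_nonneg_left (Finset.sum_le_sum fun l _ => ?_) (by positivity)
          exact mul_le_mul_of_nonneg_left (hel l) (by positivity)
  -- the decomposition
  set T' : Finset ℂ := (T.erase (τ * u)).erase (τ * v) with hT'
  have hsum : ∑ t ∈ T, Nn.eval t / (derivative D).eval t * (t⁻¹) ^ (m + 1) =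
      R * ((τ * u)⁻¹) ^ (m + 1) + ((starRingEnd ℂ) R * ((τ * v)⁻¹) ^ (m + 1) +
        ∑ t ∈ T', Nn.eval t / (derivative D).eval t * (t⁻¹) ^ (m + 1)) := by
    rw [← Finset.add_sum_erase T _ ht1, hR1]
    have ht2' : (τ : ℂ) * v ∈ T.erase (τ * u) := Finset.mem_erase.2 ⟨h12.symm, ht2⟩
    rw [← Finset.add_sum_erase _ _ ht2', hR2]
  have hpow1 : (τ : ℂ) ^ (m + 1) * ((τ * u)⁻¹) ^ (m + 1) = v ^ (m + 1) := by
    rw [← mul_pow, mul_inv, hui, ← mul_assoc, mul_inv_cancel₀ hτc, one_mul]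
  have hpow2 : (τ : ℂ) ^ (m + 1) * ((τ * v)⁻¹) ^ (m + 1) = u ^ (m + 1) := by
    rw [← mul_pow, mul_inv, hvi, ← mul_assoc, mul_inv_cancel₀ hτc, one_mul]
  have hconj : R * v ^ (m + 1) + (starRingEnd ℂ) R * u ^ (m + 1) =
      ((2 * (R * v ^ (m + 1)).re : ℝ) : ℂ) := by
    have h3 : (starRingEnd ℂ) R * u ^ (m + 1) = (starRingEnd ℂ) (R * v ^ (m + 1)) := by
      rw [map_mul, map_pow, huv, Complex.conj_conj]
    rw [h3, Complex.add_conj]
  have hdec : ((τ ^ (m + 1) * p m + 2 * (R * v ^ (m + 1)).re : ℝ) : ℂ) =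
      (τ : ℂ) ^ (m + 1) * e m -
        ∑ t ∈ T', (τ : ℂ) ^ (m + 1) * (Nn.eval t / (derivative D).eval t * (t⁻¹) ^ (m + 1)) := by
    rw [hedef]
    simp only
    rw [hp m, hsum, ← Finset.mul_sum]
    have h5 : ((τ ^ (m + 1) * p m + 2 * (R * v ^ (m + 1)).re : ℝ) : ℂ) =
        (τ : ℂ) ^ (m + 1) * (p m : ℂ) + ((2 * (R * v ^ (m + 1)).re : ℝ) : ℂ) := by
      push_cast
      ring
    rw [h5, ← hconj, ← hpow1, ← hpow2]
    ring
  have hT'b : ‖∑ t ∈ T', (τ : ℂ) ^ (m + 1) *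
      (Nn.eval t / (derivative D).eval t * (t⁻¹) ^ (m + 1))‖ ≤
      d * C1 * ‖R‖ / (1 + δ / C1) ^ (m + 1) := by
    have hq : 0 < 1 + δ / C1 := by positivity
    have h6 : ∀ t ∈ T', ‖(τ : ℂ) ^ (m + 1) *
        (Nn.eval t / (derivative D).eval t * (t⁻¹) ^ (m + 1))‖ ≤
        C1 * ‖R‖ / (1 + δ / C1) ^ (m + 1) := by
      intro t ht
      rw [hT', Finset.mem_erase, Finset.mem_erase] at ht
      obtain ⟨ha, hb⟩ := (hTmem t).1 ht.2.2
      obtain ⟨hc, -, he⟩ := hnear t ha ht.2.1 ht.1 hb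
      have htn : 0 < ‖t‖ := lt_of_lt_of_le (by positivity) hc
      have h7 : ‖(τ : ℂ) ^ (m + 1) * (Nn.eval t / (derivative D).eval t * (t⁻¹) ^ (m + 1))‖ =
          ‖Nn.eval t / (derivative D).eval t‖ * (τ * ‖t‖⁻¹) ^ (m + 1) := by
        rw [norm_mul, norm_mul, norm_pow, norm_pow, norm_inv, Complex.norm_real,
          Real.norm_of_nonneg hτ.le, mul_pow]
        ring
      have h8 : τ * ‖t‖⁻¹ ≤ (1 + δ / C1)⁻¹ := by
        rw [← div_eq_mul_inv, div_le_iff₀ htn, ← div_eq_inv_mul, le_div_iff₀ hq]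
        exact hc
      have h9 : (τ * ‖t‖⁻¹) ^ (m + 1) ≤ ((1 + δ / C1)⁻¹) ^ (m + 1) :=
        pow_le_pow_left₀ (by positivity) h8 _
      rw [h7, div_eq_mul_inv (C1 * ‖R‖), ← inv_pow]
      exact mul_le_mul he h9 (by positivity) (by positivity)
    calc _ ≤ ∑ t ∈ T', ‖(τ : ℂ) ^ (m + 1) *
          (Nn.eval t / (derivative D).eval t * (t⁻¹) ^ (m + 1))‖ := norm_sum_le _ _
      _ ≤ ∑ t ∈ T', C1 * ‖R‖ / (1 + δ / C1) ^ (m + 1) := Finset.sum_le_sum h6
      _ = T'.card * (C1 * ‖R‖ / (1 + δ / C1) ^ (m + 1)) := by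
          rw [Finset.sum_const, nsmul_eq_mul]
      _ ≤ d * (C1 * ‖R‖ / (1 + δ / C1) ^ (m + 1)) := by
          refine mul_le_mul_of_nonneg_right ?_ (by positivity)
          have h10 : T'.card ≤ T.card := by
            rw [hT']
            exact (Finset.card_erase_le).trans Finset.card_erase_le
          exact_mod_cast h10.trans hcard
      _ = d * C1 * ‖R‖ / (1 + δ / C1) ^ (m + 1) := by ring
  have hfin : |τ ^ (m + 1) * p m + 2 * (R * v ^ (m + 1)).re| =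
      ‖((τ ^ (m + 1) * p m + 2 * (R * v ^ (m + 1)).re : ℝ) : ℂ)‖ := by
    rw [Complex.norm_real, Real.norm_eq_abs]
  rw [hfin, hdec]
  refine (norm_sub_le _ _).trans (add_le_add ?_ hT'b)
  rw [norm_mul, norm_pow, Complex.norm_real, Real.norm_of_nonneg hτ.le]
  exact hem


theorem d4a_deg {n : ℕ} (lam : Fin n → ℝ) (c : ℝ) (r : ℕ) (z : ℝ) :
    (DD lam c r z).natDegree ≤ max n r := by
  unfold DD
  refine (natDegree_add_le _ _).trans (max_le_max ?_ ?_)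
  · refine (natDegree_C_mul_le _ _).trans ?_
    refine (natDegree_prod_le _ _).trans ?_
    have h1 : ∀ i : Fin n, (1 - C ((lam i : ℂ)) * X : ℂ[X]).natDegree ≤ 1 := by
      intro i
      compute_degree
    calc ∑ i : Fin n, (1 - C ((lam i : ℂ)) * X : ℂ[X]).natDegree ≤ ∑ i : Fin n, 1 :=
          Finset.sum_le_sum fun i _ => h1 i
      _ = n := by simp
  · refine (natDegree_C_mul_le _ _).trans ?_
    simp

theorem d4a_eval0 {n : ℕ} (lam : Fin n → ℝ) (c : ℝ) (r : ℕ) (z : ℝ) (hc : 0 < c) (hz : 0 < z) :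
    (DD lam c r z).eval 0 ≠ 0 := by
  unfold DD
  rw [eval_add, eval_mul, eval_mul, eval_C, eval_C, eval_pow, eval_X, eval_prod]
  have h1 : ∏ j : Fin n, eval (0 : ℂ) (1 - C ((lam j : ℂ)) * X) = 1 := by
    refine Finset.prod_eq_one fun j _ => ?_
    simp
  rw [h1, mul_one]
  rcases Nat.eq_zero_or_pos r with h | h
  · subst h
    rw [pow_zero, mul_one]
    have h2 : c + z ≠ 0 := by positivity
    exact_mod_cast h2
  · rw [zero_pow h.ne', mul_zero, add_zero]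
    exact_mod_cast hc.ne'

theorem d4a_degN {n r : ℕ} (N : ℝ[X][X]) (hdeg : N.natDegree < max n r) (z : ℝ) :
    (NN N z).natDegree ≤ max n r := by
  unfold NN
  exact (natDegree_map_le.trans natDegree_map_le).trans hdeg.le

theorem d4a_conjN (N : ℝ[X][X]) (z : ℝ) (t : ℂ) :
    (NN N z).eval ((starRingEnd ℂ) t) = (starRingEnd ℂ) ((NN N z).eval t) := by
  unfold NN
  rw [eval_map_algebraMap, eval_map_algebraMap, aeval_conj]

theorem d4a_DR {n : ℕ} (lam : Fin n → ℝ) (c : ℝ) (r : ℕ) (z : ℝ) :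
    DD lam c r z = (DR lam c r z).map (algebraMap ℝ ℂ) := by
  unfold DD DR
  simp [Polynomial.map_prod]

theorem d4a_conjD {n : ℕ} (lam : Fin n → ℝ) (c : ℝ) (r : ℕ) (z : ℝ) (t : ℂ) :
    (derivative (DD lam c r z)).eval ((starRingEnd ℂ) t) =
      (starRingEnd ℂ) ((derivative (DD lam c r z)).eval t) := by
  rw [d4a_DR, derivative_map, eval_map_algebraMap, eval_map_algebraMap, aeval_conj]

theorem d4a_Th_le (n r : ℕ) : Th n r ≤ Real.pi := by
  unfold Th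
  have hpi := Real.pi_pos
  split_ifs with h
  · have h1 : (0 : ℝ) ≤ 1 / (n : ℝ) := by positivity
    nlinarith
  · have h1 : (1 : ℝ) ≤ r := by exact_mod_cast Nat.one_le_iff_ne_zero.2 h
    exact div_le_self hpi.le h1

/-- The main estimate. -/
theorem tail {n r : ℕ} (h : Nd n r) (lam : Fin n → ℝ) (hlam : ∀ i, 0 < lam i) (c : ℝ)
    (hc : 0 < c) (N : ℝ[X][X]) (hN : N ≠ 0) (hdeg : N.natDegree < max n r) :
    ∃ (η C : ℝ) (k : ℕ), 0 < η ∧ 0 < C ∧ ∀ θ τ : ℝ, θ ∈ Set.Ioo 0 (Th n r) → Cv lam r θ τ →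
      ∀ m : ℕ, |τ ^ (m + 1) * pr N lam c r m (zz lam c r θ τ) +
          2 * (RR N lam c r θ τ * ee (-((m + 1) * θ))).re| ≤
        C * (1 + ‖RR N lam c r θ τ‖) * (m + 1) ^ k / ((1 + η) ^ m * (dl n r θ) ^ k) +
          C * ‖RR N lam c r θ τ‖ / (1 + dl n r θ / C) ^ (m + 1) := by
  obtain ⟨η, C1, hη, hC1, hres⟩ := res_cmp h lam hlam c hc N hN hdeg
  obtain ⟨C2, k2, hC2, hzb⟩ := zz_bound h lam hlam c hc
  obtain ⟨C3, hC3, htau⟩ := tau_bounds h lam hlam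
  have hprb : ∀ l : ℕ, ∃ (C : ℝ) (k : ℕ), 0 < C ∧
      ∀ z : ℝ, 0 < z → |pr N lam c r l z| ≤ C * (1 + z) ^ k := fun l => pr_bound N lam c hc r l
  choose Cl kl hCl hprl using hprb
  set d : ℕ := max n r with hd
  set q : ℕ → ℕ := fun l => (l + 1) + k2 * kl l with hq
  set K : ℕ → ℝ := fun l => C3 ^ (l + 1) * Cl l * C2 ^ (kl l) with hK
  set k : ℕ := d + ∑ l ∈ Finset.range (d + 1), q l with hk
  set S : ℝ := ∑ l ∈ Finset.range (d + 1), (1 + η) ^ l * (K l + d * (C1 + 1)) * 4 ^ k with hS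
  have hKpos : ∀ l, 0 < K l := by
    intro l
    have := hCl l
    positivity
  have hSnn : 0 ≤ S := by
    refine Finset.sum_nonneg fun l _ => ?_
    have := hKpos l
    positivity
  set CC : ℝ := (d + 1) * 2 ^ d * S + d * C1 + C1 + 1 with hCC
  have hCCpos : 0 < CC := by positivity
  refine ⟨η, CC, k, hη, hCCpos, ?_⟩
  intro θ τ hθ hCv m
  have hz : 0 < zz lam c r θ τ := zz_pos lam hlam c hc hCv
  have hτ : 0 < τ := hCv.pos
  obtain ⟨hp1, hp2, hp3, hp4, hp5⟩ := pair_root h lam hlam c hc hCv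
  have hδ : 0 < dl n r θ := by
    unfold dl
    exact lt_min hθ.1 (by linarith [hθ.2])
  have hδ4 : dl n r θ ≤ 4 := by
    have h1 : dl n r θ ≤ θ := min_le_left _ _
    have h2 := d4a_Th_le n r
    have h3 := Real.pi_lt_four
    linarith [hθ.2]
  set R := RR N lam c r θ τ with hR
  set δ := dl n r θ with hδd
  set z := zz lam c r θ τ with hzd
  have hRn : 0 ≤ ‖R‖ := norm_nonneg _
  have hconj : (τ : ℂ) * ee (-θ) = (starRingEnd ℂ) (τ * ee θ) := by
    rw [map_mul, Complex.conj_ofReal, d4a_ee_conj]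
  have hR2 : (NN N z).eval (τ * ee (-θ)) / (derivative (DD lam c r z)).eval (τ * ee (-θ)) =
      (starRingEnd ℂ) R := by
    rw [hconj, d4a_conjN, d4a_conjD, hR]
    unfold RR
    rw [map_div₀]
  have main := d4a_abs (DD lam c r z) (NN N z) d (d4a_deg lam c r z) (d4a_degN N hdeg z)
    (d4a_eval0 lam c r z hc hz) (ee θ) (ee (-θ)) (d4a_ee_norm θ) (d4a_ee_conj θ) R τ η C1 δ hτ hη
    hC1 hδ.le hp1 hp2 hp3 hp4 hp5 rfl hR2
    (fun t ht h1 h2 h3 => hres θ τ hθ.1 hθ.2 hCv t ht h1 h2 h3)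
    (fun m => pr N lam c r m z) (fun m => pr_complex N lam c hc r m z hz) m
  rw [d4a_ee_pow]
  refine main.trans (add_le_add ?_ ?_)
  · have hkd : d ≤ k := by omega
    have hkq : ∀ l ∈ Finset.range (d + 1), q l ≤ k := by
      intro l hl
      have := Finset.single_le_sum (f := q) (fun i _ => Nat.zero_le _) hl
      omega
    have hδk : 0 < δ ^ k := pow_pos hδ k
    have hδle : ∀ j, j ≤ k → δ ^ j ≤ 4 ^ k := by
      intro j hj
      calc δ ^ j ≤ 4 ^ j := pow_le_pow_left₀ hδ.le hδ4 j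
        _ ≤ 4 ^ k := pow_le_pow_right₀ (by norm_num) hj
    have hterm : ∀ l ∈ Finset.range (d + 1),
        (1 + η) ^ l * (τ ^ (l + 1) * |pr N lam c r l z| + d * (C1 + 1) * ‖R‖) ≤
        (1 + η) ^ l * (K l + d * (C1 + 1)) * 4 ^ k * ((1 + ‖R‖) / δ ^ k) := by
      intro l hl
      have hql := hkq l hl
      have h1 : τ ^ (l + 1) * |pr N lam c r l z| * δ ^ (q l) ≤ K l := by
        have h2 : (τ * δ) ^ (l + 1) ≤ C3 ^ (l + 1) :=
          pow_le_pow_left₀ (by positivity) (htau θ τ hθ hCv).2 _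
        have h3 : ((1 + z) * δ ^ k2) ^ (kl l) ≤ C2 ^ (kl l) :=
          pow_le_pow_left₀ (by positivity) (hzb θ τ hθ hCv) _
        have h4 := hprl l z hz
        have h5 := hCl l
        calc τ ^ (l + 1) * |pr N lam c r l z| * δ ^ (q l)
            ≤ τ ^ (l + 1) * (Cl l * (1 + z) ^ (kl l)) * δ ^ (q l) := by gcongr
          _ = (τ * δ) ^ (l + 1) * Cl l * ((1 + z) * δ ^ k2) ^ (kl l) := by
              rw [hq]
              simp only
              rw [mul_pow, mul_pow, ← pow_mul, pow_add]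
              ring
          _ ≤ C3 ^ (l + 1) * Cl l * C2 ^ (kl l) := by gcongr
          _ = K l := rfl
      have h6 : τ ^ (l + 1) * |pr N lam c r l z| * δ ^ k ≤ K l * 4 ^ k := by
        have h7 : δ ^ k = δ ^ (q l) * δ ^ (k - q l) := by
          rw [← pow_add]
          congr 1
          omega
        rw [h7, ← mul_assoc]
        exact mul_le_mul h1 (hδle _ (by omega)) (by positivity) (hKpos l).le
      have h8 : (d * (C1 + 1) * ‖R‖) * δ ^ k ≤ d * (C1 + 1) * ‖R‖ * 4 ^ k :=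
        mul_le_mul_of_nonneg_left (hδle k le_rfl) (by positivity)
      have h9 : (τ ^ (l + 1) * |pr N lam c r l z| + d * (C1 + 1) * ‖R‖) ≤
          (K l + d * (C1 + 1)) * 4 ^ k * ((1 + ‖R‖) / δ ^ k) := by
        rw [← mul_div_assoc, le_div_iff₀ hδk, add_mul]
        have h10 : 0 < K l := hKpos l
        have h11 : (0 : ℝ) < 4 ^ k := by positivity
        have h12 : (0 : ℝ) ≤ d * (C1 + 1) := by positivity
        have h13 : K l * 4 ^ k * ‖R‖ ≥ 0 := by positivity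
        have h14 : d * (C1 + 1) * 4 ^ k ≥ 0 := by positivity
        nlinarith
      calc _ ≤ (1 + η) ^ l * ((K l + d * (C1 + 1)) * 4 ^ k * ((1 + ‖R‖) / δ ^ k)) := by gcongr
        _ = _ := by ring
    have hsum : ∑ l ∈ Finset.range (d + 1),
        (1 + η) ^ l * (τ ^ (l + 1) * |pr N lam c r l z| + d * (C1 + 1) * ‖R‖) ≤
        S * ((1 + ‖R‖) / δ ^ k) := by
      rw [hS, Finset.sum_mul]
      exact Finset.sum_le_sum hterm
    have hη1 : (0 : ℝ) < (1 + η) ^ m := by positivity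
    calc _ ≤ (d + 1) * 2 ^ d * ((m : ℝ) + 1) ^ d * (S * ((1 + ‖R‖) / δ ^ k)) / (1 + η) ^ m := by
          gcongr
      _ ≤ (d + 1) * 2 ^ d * ((m : ℝ) + 1) ^ k * (S * ((1 + ‖R‖) / δ ^ k)) / (1 + η) ^ m := by
          gcongr
          linarith [(Nat.cast_nonneg m : (0 : ℝ) ≤ m)]
      _ = ((d + 1) * 2 ^ d * S) * (1 + ‖R‖) * (m + 1) ^ k / ((1 + η) ^ m * δ ^ k) := by
          field_simp
      _ ≤ CC * (1 + ‖R‖) * (m + 1) ^ k / ((1 + η) ^ m * δ ^ k) := by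
          gcongr
          rw [hCC]
          have : 0 ≤ d * C1 := by positivity
          linarith
  · have hge : C1 ≤ CC := by
      have : 0 ≤ (d + 1) * 2 ^ d * S := by positivity
      have : 0 ≤ d * C1 := by positivity
      rw [hCC]
      linarith
    have hge2 : d * C1 ≤ CC := by
      have : 0 ≤ (d + 1) * 2 ^ d * S := by positivity
      rw [hCC]
      linarith
    gcongr

end Pool.Agent.H630Z
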