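import Pool.Agent.H630Z.D4A

set_option autoImplicit false

open Polynomial

namespace Pool.Agent.H630Z

theorem d4bm_lim (η C c0 : ℝ) (hη : 0 < η) (hC : 0 < C) (hc0 : 0 < c0) (k k0 : ℕ) :
    ∃ m0 : ℕ, 0 < m0 ∧ ∀ m : ℕ, m0 ≤ m →
      C * (1 + (m : ℝ) ^ (3 * k0) / c0) * ((m : ℝ) + 1) ^ k * (m : ℝ) ^ k / (1 + η) ^ m ≤ 1 / 2 := by
  have h1 := tendsto_pow_const_div_const_pow_of_one_lt (3 * k0 + k + k)
    (show (1 : ℝ) < 1 + η by linarith)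
  have hpos : 0 < 1 / (2 * (C * (1 + 1 / c0) * 2 ^ k)) := by positivity
  have h2 := (h1.eventually (gt_mem_nhds hpos))
  obtain ⟨m1, hm1⟩ := Filter.eventually_atTop.1 h2
  refine ⟨max m1 1, by omega, fun m hm => ?_⟩
  have hm' := hm1 m (le_trans (le_max_left _ _) hm)
  have hmpos : (1 : ℝ) ≤ m := by
    have : 1 ≤ m := le_trans (le_max_right _ _) hm
    exact_mod_cast this
  have hE : 0 < (1 + η) ^ m := by positivity
  rw [div_lt_iff₀ hE] at hm'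
  rw [div_le_iff₀ hE]
  have ha : 1 + (m : ℝ) ^ (3 * k0) / c0 ≤ (1 + 1 / c0) * (m : ℝ) ^ (3 * k0) := by
    have : (1 : ℝ) ≤ (m : ℝ) ^ (3 * k0) := one_le_pow₀ hmpos
    have h3 : (m : ℝ) ^ (3 * k0) / c0 = 1 / c0 * (m : ℝ) ^ (3 * k0) := by ring
    rw [h3]
    nlinarith
  have hb : ((m : ℝ) + 1) ^ k ≤ 2 ^ k * (m : ℝ) ^ k := by
    rw [← mul_pow]
    apply pow_le_pow_left₀ (by positivity)
    linarith
  calc C * (1 + (m : ℝ) ^ (3 * k0) / c0) * ((m : ℝ) + 1) ^ k * (m : ℝ) ^ k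
      ≤ C * ((1 + 1 / c0) * (m : ℝ) ^ (3 * k0)) * (2 ^ k * (m : ℝ) ^ k) * (m : ℝ) ^ k := by
        gcongr
    _ = C * (1 + 1 / c0) * 2 ^ k * (m : ℝ) ^ (3 * k0 + k + k) := by
        rw [pow_add, pow_add]; ring
    _ ≤ C * (1 + 1 / c0) * 2 ^ k * (1 / (2 * (C * (1 + 1 / c0) * 2 ^ k)) * (1 + η) ^ m) := by
        gcongr
    _ = 1 / 2 * (1 + η) ^ m := by
        field_simp

theorem main_est {n r : ℕ} (h : Nd n r) (lam : Fin n → ℝ) (hlam : ∀ i, 0 < lam i) (c : ℝ)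
    (hc : 0 < c) (N : ℝ[X][X]) (hN : N ≠ 0) (hdeg : N.natDegree < max n r)
    (S : Finset ℝ) (c0 : ℝ) (k0 : ℕ) (hc0 : 0 < c0)
    (hlow : ∀ θ τ ε : ℝ, θ ∈ Set.Ioo 0 (Th n r) → Cv lam r θ τ → 0 < ε → ε ≤ 1 →
        (∀ s ∈ S, ε ≤ |θ - s|) → c0 * (dl n r θ * ε) ^ k0 ≤ ‖RR N lam c r θ τ‖) :
    ∃ (K : ℝ) (m0 : ℕ), 0 < K ∧ 0 < m0 ∧ ∀ m : ℕ, m0 ≤ m → ∀ θ τ : ℝ,
      θ ∈ Set.Ioo 0 (Th n r) → Cv lam r θ τ → K / m ≤ dl n r θ →
      (∀ s ∈ S, 1 / (m : ℝ) ^ 2 ≤ |θ - s|) →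
      0 < ‖RR N lam c r θ τ‖ ∧ |τ ^ (m + 1) * pr N lam c r m (zz lam c r θ τ) +
          2 * (RR N lam c r θ τ * ee (-((m + 1) * θ))).re| < 2 * ‖RR N lam c r θ τ‖ := by
  obtain ⟨η, C, k, hη, hC, ht⟩ := tail h lam hlam c hc N hN hdeg
  obtain ⟨m0, hm0, hm⟩ := d4bm_lim η C c0 hη hC hc0 k k0
  refine ⟨max 1 (2 * C ^ 2), m0, by positivity, hm0, fun m hmm θ τ hθ hCv hdl hS => ?_⟩
  have hm1 : (1 : ℝ) ≤ m := by
    have : 1 ≤ m := le_trans hm0 hmm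
    exact_mod_cast this
  have hmpos : (0 : ℝ) < m := by linarith
  set K : ℝ := max 1 (2 * C ^ 2) with hK
  have hK1 : 1 ≤ K := le_max_left _ _
  have hK2 : 2 * C ^ 2 ≤ K := le_max_right _ _
  set R := ‖RR N lam c r θ τ‖ with hR
  set δ := dl n r θ with hδ
  have hδ1 : 1 / (m : ℝ) ≤ δ := by
    refine le_trans ?_ hdl
    gcongr
  have hδ0 : 0 < δ := lt_of_lt_of_le (by positivity) hδ1
  -- lower bound for R
  have hlow' := hlow θ τ (1 / (m : ℝ) ^ 2) hθ hCv (by positivity) (by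
    rw [div_le_one (by positivity)]
    exact one_le_pow₀ hm1) hS
  have hR1 : c0 / (m : ℝ) ^ (3 * k0) ≤ R := by
    refine le_trans ?_ hlow'
    have : c0 / (m : ℝ) ^ (3 * k0) = c0 * ((1 / (m : ℝ)) * (1 / (m : ℝ) ^ 2)) ^ k0 := by
      rw [pow_mul, one_div, one_div, ← mul_inv, ← pow_succ', inv_pow, div_eq_mul_inv]
    rw [this]
    gcongr
  have hRpos : 0 < R := lt_of_lt_of_le (by positivity) hR1
  have hR2 : 1 + R ≤ R * (1 + (m : ℝ) ^ (3 * k0) / c0) := by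
    have h1 : 1 ≤ R * ((m : ℝ) ^ (3 * k0) / c0) := by
      rw [div_le_iff₀ (by positivity)] at hR1
      rw [← mul_div_assoc, le_div_iff₀ hc0]
      linarith
    linarith
  have hT := ht θ τ hθ hCv m
  refine ⟨hRpos, lt_of_le_of_lt hT ?_⟩
  have h1 : C * (1 + R) * ((m : ℝ) + 1) ^ k / ((1 + η) ^ m * δ ^ k) ≤ R / 2 := by
    have hmk := hm m hmm
    have hE : 0 < (1 + η) ^ m := by positivity
    have h2 : 1 / δ ^ k ≤ (m : ℝ) ^ k := by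
      rw [div_le_iff₀ (by positivity), ← mul_pow]
      apply one_le_pow₀
      rw [div_le_iff₀ hmpos] at hδ1
      linarith
    calc C * (1 + R) * ((m : ℝ) + 1) ^ k / ((1 + η) ^ m * δ ^ k)
        = C * (1 + R) * ((m : ℝ) + 1) ^ k / (1 + η) ^ m * (1 / δ ^ k) := by
          rw [div_mul_div_comm, mul_one]
      _ ≤ C * (R * (1 + (m : ℝ) ^ (3 * k0) / c0)) * ((m : ℝ) + 1) ^ k / (1 + η) ^ m *
            (m : ℝ) ^ k := by
          gcongr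
      _ = R * (C * (1 + (m : ℝ) ^ (3 * k0) / c0) * ((m : ℝ) + 1) ^ k * (m : ℝ) ^ k /
            (1 + η) ^ m) := by ring
      _ ≤ R * (1 / 2) := by gcongr
      _ = R / 2 := by ring
  have h3 : C * R / (1 + δ / C) ^ (m + 1) ≤ R / 2 := by
    have hb : 2 * C ≤ (1 + δ / C) ^ (m + 1) := by
      have hB := one_add_mul_le_pow (show (-2 : ℝ) ≤ δ / C by
        have : 0 < δ / C := by positivity
        linarith) (m + 1)
      refine le_trans ?_ hB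
      have h4 : K / m * m ≤ δ * m := by gcongr
      rw [div_mul_cancel₀ _ hmpos.ne'] at h4
      have h5 : 2 * C ≤ (m : ℝ) * (δ / C) := by
        rw [← mul_div_assoc, le_div_iff₀ hC]
        nlinarith
      push_cast
      have h6 : 0 < δ / C := by positivity
      nlinarith
    rw [div_le_iff₀ (by positivity)]
    nlinarith
  linarith

end Pool.Agent.H630Z
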