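import Pool.Agent.H630Z.A8
import Pool.Agent.H630Z.C3A
import Pool.Agent.H630Z.C3B
import Pool.Agent.H630Z.C6A
import Pool.Agent.H630Z.C6B
import Pool.Agent.H630Z.C5A
import Pool.Agent.H630Z.D3
import Pool.Agent.H630Z.D4B
set_option autoImplicit false

open Polynomial

namespace Pool.Agent.H630Z


theorem d5_Th_pos {n r : ℕ} (h : Nd n r) : 0 < Th n r := by
  unfold Th
  have hpi := Real.pi_pos
  split_ifs with hr
  · have hn : 2 ≤ n := by
      rcases h with h | h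
      · omega
      · exact h.2
    have hn' : (2 : ℝ) ≤ n := by exact_mod_cast hn
    apply mul_pos hpi
    have : 1 / (n : ℝ) ≤ 1 / 2 := one_div_le_one_div_of_le (by norm_num) hn'
    linarith
  · have : (0 : ℝ) < r := by exact_mod_cast Nat.pos_of_ne_zero hr
    positivity

theorem d5_ee_mul (a b : ℝ) : ee a * ee b = ee (a + b) := by
  unfold ee
  rw [← Complex.exp_add]
  push_cast
  ring_nf

theorem d5_ee_re (a : ℝ) : (ee a).re = Real.cos a := by
  unfold ee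
  exact Complex.exp_ofReal_mul_I_re a

theorem d5_sign (R : ℂ) (α φ u v : ℝ) (k : ℤ) (hv : 0 < v) (hR : R = ‖R‖ * ee α)
    (hφ : φ - α = Real.pi * k) (h1 : |v * u + 2 * (R * ee (-φ)).re| < 2 * ‖R‖) :
    u * (-1 : ℝ) ^ k < 0 := by
  have h2 : (R * ee (-φ)).re = ‖R‖ * (-1 : ℝ) ^ k := by
    have h3 : R * ee (-φ) = (‖R‖ : ℂ) * ee (-(Real.pi * k)) := by
      conv_lhs => rw [hR]
      rw [mul_assoc, d5_ee_mul]
      congr 2
      linarith
    rw [h3, Complex.re_ofReal_mul, d5_ee_re, Real.cos_neg, mul_comm Real.pi, Real.cos_int_mul_pi]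
  rw [h2] at h1
  have h4 : |(-1 : ℝ) ^ k| = 1 := by
    rw [abs_zpow]
    simp
  have h5 : ((-1 : ℝ) ^ k) * ((-1 : ℝ) ^ k) = 1 := by
    rw [← abs_mul_abs_self, h4, one_mul]
  have h6 : |v * (u * (-1 : ℝ) ^ k) + 2 * ‖R‖| < 2 * ‖R‖ := by
    have h7 : v * (u * (-1 : ℝ) ^ k) + 2 * ‖R‖ =
        (v * u + 2 * (‖R‖ * (-1 : ℝ) ^ k)) * (-1 : ℝ) ^ k := by
      linear_combination (-2 * ‖R‖) * h5
    rw [h7, abs_mul, h4, mul_one]
    exact h1
  have h8 := (abs_lt.1 h6).2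
  by_contra hcon
  push Not at hcon
  have := mul_nonneg hv.le hcon
  linarith

/-- Many positive zeros.  Proof: `τ(θ)` from `curve`; `S, B` from `RR_arg`; `K, m0` from `main_est` with this `S`.  Let `m` be large,
`a0 = K/m`, `b0 = Th - K/m`, `ε = 1/m²`, `f θ = pr N lam c r m (zz lam c r θ (τ θ))`, `M = (m+1)/π`.  Let `[a,b] ⊆ [a0,b0]` keep the distance
`ε` from `S`; there `dl ≥ K/m`.  With `α` from `RR_arg`, `Φ θ = (m+1) θ - α θ`: `R e^{-i(m+1)θ} = ‖R‖ e^{-iΦ}`, so where `Φ = π k`,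
`|τ^(m+1) f + 2 ‖R‖ (-1)^k| < 2 ‖R‖`, hence `f (-1)^k < 0`.  `f` is continuous on `[a, b]`.  `count_zeros` gives at least
`((m+1)(b-a) - 2B)/π - 2` zeros.  `total` gives a finite set of zeros of `f` in `[a0, b0]`, at least
`M (Th - 2K/m) - 2^(#S) (2B/π + 2 + 2 M/m²) ≥ Th/π m - C` many.  Map it by `θ ↦ zz lam c r θ (τ θ)`, injective by `zz_inj`, with positive values. -/
theorem count_main {n r : ℕ} (h : Nd n r) (lam : Fin n → ℝ) (hlam : ∀ i, 0 < lam i) (c : ℝ)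
    (hc : 0 < c) (N : ℝ[X][X]) (hN : N ≠ 0) (hdeg : N.natDegree < max n r) :
    ∃ (C : ℝ) (m0 : ℕ), ∀ m : ℕ, m0 ≤ m → ∃ Z : Finset ℝ,
      (∀ z ∈ Z, 0 < z ∧ pr N lam c r m z = 0) ∧ Th n r / Real.pi * m - C ≤ (Z.card : ℝ) := by
  classical
  have hTh := d5_Th_pos h
  have hpi := Real.pi_pos
  obtain ⟨τ, hτc, hτ⟩ := curve h lam hlam
  obtain ⟨S, B, c0, k0, hB, hc0, hlow, harg⟩ := RR_arg h lam hlam c hc N hN hdeg
  obtain ⟨K, m1, hK, hm1, hmain⟩ := main_est h lam hlam c hc N hN hdeg S c0 k0 hc0 hlow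
  obtain ⟨m2, hm2⟩ := exists_nat_ge (2 * K / Th n r)
  refine ⟨4 * K / Real.pi + 2 ^ S.card * (2 * B / Real.pi + 2 + 4 / Real.pi), max m1 m2 + 1,
    fun m hm => ?_⟩
  have hmm1 : m1 ≤ m := by omega
  have hmm2 : m2 ≤ m := by omega
  have hm0 : (1 : ℝ) ≤ m := by
    have : 1 ≤ m := by omega
    exact_mod_cast this
  have hmpos : (0 : ℝ) < m := by linarith
  have hKm : 2 * (K / m) ≤ Th n r := by
    have h1 : 2 * K / Th n r ≤ m := hm2.trans (by exact_mod_cast hmm2)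
    rw [div_le_iff₀ hTh] at h1
    rw [← mul_div_assoc, div_le_iff₀ hmpos]
    linarith
  have hKm0 : 0 < K / m := by positivity
  have hf0 : ∀ a b : ℝ, K / m ≤ a → b ≤ Th n r - K / m →
      Set.Icc a b ⊆ Set.Ioo 0 (Th n r) := by
    intro a b ha hb θ hθ
    exact ⟨by linarith [hθ.1], by linarith [hθ.2]⟩
  have hloc : ∀ a b : ℝ, K / m ≤ a → a ≤ b → b ≤ Th n r - K / m →
      (∀ s ∈ S, ∀ θ ∈ Set.Icc a b, 1 / (m : ℝ) ^ 2 ≤ |θ - s|) →
      ∃ Z : Finset ℝ, (∀ θ ∈ Z, a ≤ θ ∧ θ ≤ b ∧ pr N lam c r m (zz lam c r θ (τ θ)) = 0) ∧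
        ((m : ℝ) + 1) / Real.pi * (b - a) - (2 * B / Real.pi + 2) ≤ (Z.card : ℝ) := by
    intro a b ha hab hb hS
    have hsub := hf0 a b ha hb
    have hτab : ContinuousOn τ (Set.Icc a b) := hτc.mono hsub
    have hCv : ∀ θ ∈ Set.Icc a b, Cv lam r θ (τ θ) := fun θ hθ => hτ θ (hsub hθ)
    have hSn : ∀ s ∈ S, s ∉ Set.Icc a b := by
      intro s hs hsab
      have h1 := hS s hs s hsab
      rw [sub_self, abs_zero] at h1
      have h2 : 0 < 1 / (m : ℝ) ^ 2 := by positivity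
      linarith
    obtain ⟨α, hαc, hα⟩ := harg a b τ (by linarith) hab (by linarith) hτab hCv hSn
    have hfc : ContinuousOn (fun θ => pr N lam c r m (zz lam c r θ (τ θ))) (Set.Icc a b) := by
      have hz1 : ContinuousOn (fun θ => zz lam c r θ (τ θ)) (Set.Icc a b) :=
        zz_cont (r := r) lam c τ _ hτab fun θ hθ => (hCv θ hθ).pos
      have hz2 : Set.MapsTo (fun θ => zz lam c r θ (τ θ)) (Set.Icc a b) (Set.Ioi 0) := by
        intro θ hθ
        exact zz_pos lam hlam c hc (hCv θ hθ)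
      exact ContinuousOn.comp (g := fun z => pr N lam c r m z) (pr_cont N lam c hc r m) hz1 hz2
    have hΦc : ContinuousOn (fun θ => ((m : ℝ) + 1) * θ - α θ) (Set.Icc a b) :=
      (continuousOn_const.mul continuousOn_id).sub hαc
    obtain ⟨Z, hZ, hcard⟩ := count_zeros _ _ a b hab hfc hΦc (by
      intro k θ hθ hk
      have hd : K / m ≤ dl n r θ := by
        unfold dl
        exact le_min (by linarith [hθ.1]) (by linarith [hθ.2])
      obtain ⟨h1, h2⟩ := hmain m hmm1 θ (τ θ) (hsub hθ) (hCv θ hθ) hd fun s hs => hS s hs θ hθ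
      exact d5_sign (RR N lam c r θ (τ θ)) (α θ) (((m : ℝ) + 1) * θ) _ _ k
        (pow_pos (hCv θ hθ).pos (m + 1)) (hα θ hθ).2 hk h2)
    refine ⟨Z, hZ, le_trans ?_ hcard⟩
    have ha1 := abs_le.1 (hα a ⟨le_refl _, hab⟩).1
    have hb1 := abs_le.1 (hα b ⟨hab, le_refl _⟩).1
    have h3 : ((m : ℝ) + 1) / Real.pi * (b - a) - (2 * B / Real.pi + 2) =
        (((m : ℝ) + 1) * (b - a) - 2 * B) / Real.pi - 2 := by
      field_simp
      ring
    rw [h3]
    have h4 : (((m : ℝ) + 1) * (b - a) - 2 * B) / Real.pi ≤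
        (((m : ℝ) + 1) * b - α b - (((m : ℝ) + 1) * a - α a)) / Real.pi := by
      apply div_le_div_of_nonneg_right _ hpi.le
      nlinarith [ha1.1, ha1.2, hb1.1, hb1.2]
    linarith
  obtain ⟨Z, hZ, hcard⟩ := total (fun θ => pr N lam c r m (zz lam c r θ (τ θ))) S
    (1 / (m : ℝ) ^ 2) (((m : ℝ) + 1) / Real.pi) (2 * B / Real.pi + 2) (by positivity)
    (by positivity) (by positivity) (K / m) (Th n r - K / m) (by linarith) hloc
  have hZI : ∀ θ ∈ Z, θ ∈ Set.Ioo 0 (Th n r) := fun θ hθ =>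
    hf0 (K / m) (Th n r - K / m) le_rfl le_rfl ⟨(hZ θ hθ).1, (hZ θ hθ).2.1⟩
  refine ⟨Z.image fun θ => zz lam c r θ (τ θ), ?_, ?_⟩
  · intro z hz
    obtain ⟨θ, hθ, rfl⟩ := Finset.mem_image.1 hz
    exact ⟨zz_pos lam hlam c hc (hτ θ (hZI θ hθ)), (hZ θ hθ).2.2⟩
  · rw [Finset.card_image_of_injOn (fun θ1 h1 θ2 h2 he =>
      zz_inj h lam hlam c hc (hτ θ1 (hZI θ1 h1)) (hτ θ2 (hZI θ2 h2)) he)]
    refine le_trans ?_ hcard
    have e1 : Th n r / Real.pi * m - 4 * K / Real.pi ≤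
        ((m : ℝ) + 1) / Real.pi * (Th n r - K / m - K / m) := by
      have e2 : ((m : ℝ) + 1) / Real.pi * (Th n r - K / m - K / m) =
          (((m : ℝ) + 1) * Th n r - 2 * K * (((m : ℝ) + 1) / m)) / Real.pi := by
        field_simp
        ring
      have e3 : Th n r / Real.pi * m - 4 * K / Real.pi = (Th n r * m - 4 * K) / Real.pi := by
        ring
      rw [e2, e3]
      apply div_le_div_of_nonneg_right _ hpi.le
      have e4 : ((m : ℝ) + 1) / m ≤ 2 := by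
        rw [div_le_iff₀ hmpos]
        linarith
      have e5 := mul_le_mul_of_nonneg_left e4 (by positivity : 0 ≤ 2 * K)
      linarith
    have e6 : 2 * (1 / (m : ℝ) ^ 2) * (((m : ℝ) + 1) / Real.pi) ≤ 4 / Real.pi := by
      have e7 : 2 * (1 / (m : ℝ) ^ 2) * (((m : ℝ) + 1) / Real.pi) =
          (2 * ((m : ℝ) + 1) / (m : ℝ) ^ 2) / Real.pi := by
        field_simp
      rw [e7]
      apply div_le_div_of_nonneg_right _ hpi.le
      rw [div_le_iff₀ (by positivity)]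
      nlinarith
    have e8 : (2 : ℝ) ^ S.card * (2 * B / Real.pi + 2 +
        2 * (1 / (m : ℝ) ^ 2) * (((m : ℝ) + 1) / Real.pi)) ≤
        2 ^ S.card * (2 * B / Real.pi + 2 + 4 / Real.pi) := by
      apply mul_le_mul_of_nonneg_left _ (by positivity)
      linarith
    linarith

end Pool.Agent.H630Z
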