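import Mathlib

/-!
# Definitions for MP_4d57dd_an (zeros of the coefficients of `N(t,z) / (Q(t) + z t ^ r)`)

`Q(t) = c ∏ (1 - lam i t)`, `lam i > 0`.
-/

set_option autoImplicit false

open Polynomial

namespace Pool.Agent.H630Z

/-- the normalised polynomial `∏ (1 - x i s) + ζ s ^ r` -/
noncomputable def pp {n : ℕ} (x : Fin n → ℝ) (r : ℕ) (ζ : ℝ) : ℂ[X] :=
  (∏ i, (1 - C ((x i : ℂ)) * X)) + C (ζ : ℂ) * X ^ r

/-- the point `exp (i θ)` -/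
noncomputable def ee (θ : ℝ) : ℂ := Complex.exp (θ * Complex.I)

/-- `|1 - x exp (i φ)| ^ 2` -/
noncomputable def gg (x φ : ℝ) : ℝ := 1 - 2 * x * Real.cos φ + x ^ 2

/-- `∏ |1 - x i exp (i φ)|` -/
noncomputable def GG {n : ℕ} (x : Fin n → ℝ) (φ : ℝ) : ℝ := ∏ i, Real.sqrt (gg (x i) φ)

/-- the admissible parameters: `θ ∈ (0, π)`, `0 ≤ ψ i < π - θ`, `∑ ψ i = π - r θ > 0` -/
structure Adm {n : ℕ} (r : ℕ) (θ : ℝ) (ψ : Fin n → ℝ) : Prop where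
  pos : 0 < θ
  lt : θ < Real.pi
  nonneg : ∀ i, 0 ≤ ψ i
  lt' : ∀ i, ψ i < Real.pi - θ
  sum : ∑ i, ψ i = Real.pi - r * θ
  sum_pos : 0 < Real.pi - r * θ

/-- `x = sin ψ / sin (θ + ψ)` -/
noncomputable def xx (θ ψ : ℝ) : ℝ := Real.sin ψ / Real.sin (θ + ψ)

/-- the coefficients `x i = sin (ψ i) / sin (θ + ψ i)` -/
noncomputable def XX {n : ℕ} (θ : ℝ) (ψ : Fin n → ℝ) : Fin n → ℝ := fun i => xx θ (ψ i)

/-- the quadratic polynomial `(X - exp (i θ)) (X - exp (-i θ))` -/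
noncomputable def q2 (θ : ℝ) : ℂ[X] := 1 - C ((2 * Real.cos θ : ℝ) : ℂ) * X + X ^ 2

/-- all the roots of `pp` besides `exp (i θ)` and `exp (-i θ)` are outside the closed unit disc -/
def Good {n : ℕ} (r : ℕ) (θ : ℝ) (ψ : Fin n → ℝ) : Prop :=
  ∀ F : ℂ[X], pp (XX θ ψ) r (GG (XX θ ψ) θ) = q2 θ * F → ∀ s : ℂ, F.eval s = 0 → 1 < ‖s‖

/-- the end of the range of the angle -/
noncomputable def Th (n r : ℕ) : ℝ :=
  if r = 0 then Real.pi * (1 - 1 / (n : ℝ)) else Real.pi / r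

/-- `τ exp (i θ)` is a point on the curve -/
structure Cv {n : ℕ} (lam : Fin n → ℝ) (r : ℕ) (θ τ : ℝ) : Prop where
  pos : 0 < τ
  adm : ∃ ψ : Fin n → ℝ, Adm r θ ψ ∧ (∀ i, 0 < ψ i) ∧ ∀ i, xx θ (ψ i) = lam i * τ

/-- the denominator `c ∏ (1 - lam i t) + z t ^ r` -/
noncomputable def DD {n : ℕ} (lam : Fin n → ℝ) (c : ℝ) (r : ℕ) (z : ℝ) : ℂ[X] :=
  C (c : ℂ) * ∏ i, (1 - C ((lam i : ℂ)) * X) + C (z : ℂ) * X ^ r

/-- the value of `z` for which `τ exp (i θ)` is a root of the denominator -/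
noncomputable def zz {n : ℕ} (lam : Fin n → ℝ) (c : ℝ) (r : ℕ) (θ τ : ℝ) : ℝ :=
  c * GG (fun i => lam i * τ) θ / τ ^ r

/-- the cases which are not degenerate -/
def Nd (n r : ℕ) : Prop := (2 ≤ r ∧ 1 ≤ n) ∨ (r ≤ 1 ∧ 2 ≤ n)

/-- the distance of the angle from the ends of the range -/
noncomputable def dl (n r : ℕ) (θ : ℝ) : ℝ := min θ (Th n r - θ)

end Pool.Agent.H630Z
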