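import Pool.Agent.H630Z.Defs

/-!
# More definitions for MP_4d57dd_an
-/

set_option autoImplicit false

open Polynomial

namespace Pool.Agent.H630Z

/-- every root `t` of the denominator, other than the pair `τ exp (± i θ)`, of absolute value below
`(1 + η) τ`, has absolute value at least `τ (1 + dl / C)`, and the values of `A` at `t` and at
`τ exp (i θ)` are comparable and not zero -/
def NearOK {n : ℕ} (lam : Fin n → ℝ) (c : ℝ) (r : ℕ) (A : ℝ[X]) (η C θ τ : ℝ) : Prop :=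
  ∀ t : ℂ, (DD lam c r (zz lam c r θ τ)).eval t = 0 → t ≠ τ * ee θ → t ≠ τ * ee (-θ) →
    ‖t‖ < (1 + η) * τ →
      τ * (1 + dl n r θ / C) ≤ ‖t‖ ∧ ‖aeval t A‖ ≤ C * ‖aeval (τ * ee θ) A‖ ∧
        ‖aeval (τ * ee θ) A‖ ≤ C * ‖aeval t A‖ ∧ aeval t A ≠ 0

/-- the numerator `N(t, z)` (a polynomial in `t` with coefficients polynomials in `z`) at `z` -/
noncomputable def NN (N : ℝ[X][X]) (z : ℝ) : ℂ[X] :=
  (N.map (evalRingHom z)).map (algebraMap ℝ ℂ)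

/-- the denominator as a real polynomial -/
noncomputable def DR {n : ℕ} (lam : Fin n → ℝ) (c : ℝ) (r : ℕ) (z : ℝ) : ℝ[X] :=
  C c * ∏ i, (1 - C (lam i) * X) + C z * X ^ r

/-- the value at `z` of the coefficient of `t ^ m` -/
noncomputable def pr {n : ℕ} (N : ℝ[X][X]) (lam : Fin n → ℝ) (c : ℝ) (r : ℕ) (m : ℕ) (z : ℝ) : ℝ :=
  PowerSeries.coeff m (((N.map (evalRingHom z) : ℝ[X]) : PowerSeries ℝ) *
    ((DR lam c r z : ℝ[X]) : PowerSeries ℝ)⁻¹)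

/-- the residue `R = N(t) / D'(t)` at `t = τ exp (i θ)` -/
noncomputable def RR {n : ℕ} (N : ℝ[X][X]) (lam : Fin n → ℝ) (c : ℝ) (r : ℕ) (θ τ : ℝ) : ℂ :=
  (NN N (zz lam c r θ τ)).eval (τ * ee θ) /
    (derivative (DD lam c r (zz lam c r θ τ))).eval (τ * ee θ)

/-- the polynomial `t q' - r q`, `q = ∏ (1 - lam i t)` -/
noncomputable def VV {n : ℕ} (lam : Fin n → ℝ) (r : ℕ) : ℝ[X] :=
  X * derivative (∏ i, (1 - C (lam i) * X)) - (r : ℝ[X]) * ∏ i, (1 - C (lam i) * X)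

/-- the polynomial `t ^ (r a) N(t, - c q(t) / t ^ r)`, `a` the degree of `N` in `z` -/
noncomputable def MM {n : ℕ} (N : ℝ[X][X]) (lam : Fin n → ℝ) (c : ℝ) (r a : ℕ) : ℝ[X] :=
  ∑ j ∈ Finset.range (N.natDegree + 1), ∑ l ∈ Finset.range (a + 1),
    C ((N.coeff j).coeff l) * X ^ (j + r * (a - l)) * (-C c * ∏ i, (1 - C (lam i) * X)) ^ l

end Pool.Agent.H630Z
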