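import Pool.Agent.H630Z.Defs2

/-!
# The coefficients as rational functions, for MP_4d57dd_an
-/

set_option autoImplicit false

open Polynomial

namespace Pool.Agent.H630Z

/-- `P_m`, the coefficient of `t ^ m` of `N(t,z) / (Q(t) + z t ^ r)`, as a rational function of `z` -/
noncomputable def Pm (Q : ℝ[X]) (r : ℕ) (N : ℝ[X][X]) (m : ℕ) : RatFunc ℝ :=
  PowerSeries.coeff m
    (((N.map (algebraMap ℝ[X] (RatFunc ℝ)) : (RatFunc ℝ)[X]) : PowerSeries (RatFunc ℝ)) *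
      ((Q.map (algebraMap ℝ (RatFunc ℝ)) + C RatFunc.X * X ^ r : (RatFunc ℝ)[X]) :
        PowerSeries (RatFunc ℝ))⁻¹)

/-- the coefficient of `t ^ m` of `N(t,z) / (Q(t) + z t ^ r)` at a real value `z` -/
noncomputable def prQ (Q : ℝ[X]) (r : ℕ) (N : ℝ[X][X]) (m : ℕ) (z : ℝ) : ℝ :=
  PowerSeries.coeff m (((N.map (evalRingHom z) : ℝ[X]) : PowerSeries ℝ) *
    ((Q + C z * X ^ r : ℝ[X]) : PowerSeries ℝ)⁻¹)

open Classical in
/-- the number of zeros in `ℂ` outside `(0, ∞)`, with multiplicity -/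
noncomputable def outside (A : ℝ[X]) : ℕ :=
  (((A.map (algebraMap ℝ ℂ)).roots).filter (fun w => ¬ ∃ x : ℝ, 0 < x ∧ w = (x : ℂ))).card

/-- the power of `z + Q(0)` in the denominator of `P_m` -/
def ex (r m : ℕ) : ℕ := if r = 0 then m + 1 else 0

end Pool.Agent.H630Z
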