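import Pool.Agent.H630Z.Defs3
set_option autoImplicit false

open Polynomial

namespace Pool.Agent.H630Z


/-- the recursion for the coefficients of a quotient -/
theorem e1_rec {F : Type*} [Field F] (D N : F[X]) (hD : D.coeff 0 ≠ 0) (m : ℕ) :
    PowerSeries.coeff m ((N : PowerSeries F) * (D : PowerSeries F)⁻¹) =
      (D.coeff 0)⁻¹ * (N.coeff m - ∑ k ∈ Finset.range m, D.coeff (k + 1) *
        PowerSeries.coeff (m - 1 - k) ((N : PowerSeries F) * (D : PowerSeries F)⁻¹)) := by
  obtain ⟨P, hP⟩ : ∃ P, P = (N : PowerSeries F) * (D : PowerSeries F)⁻¹ := ⟨_, rfl⟩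
  rw [← hP]
  have hc : PowerSeries.constantCoeff (D : PowerSeries F) ≠ 0 := by
    rw [← PowerSeries.coeff_zero_eq_constantCoeff_apply, Polynomial.coeff_coe]
    exact hD
  have h1 : (D : PowerSeries F) * P = (N : PowerSeries F) := by
    rw [hP, mul_left_comm, PowerSeries.mul_inv_cancel _ hc, mul_one]
  have h2 : PowerSeries.coeff m ((D : PowerSeries F) * P) = N.coeff m := by
    rw [h1, Polynomial.coeff_coe]
  rw [PowerSeries.coeff_mul, Finset.Nat.sum_antidiagonal_eq_sum_range_succ_mk,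
    Finset.sum_range_succ'] at h2
  simp only [Polynomial.coeff_coe, Nat.sub_zero] at h2
  have h3 : ∑ k ∈ Finset.range m, D.coeff (k + 1) * PowerSeries.coeff (m - 1 - k) P =
      ∑ k ∈ Finset.range m, D.coeff (k + 1) * PowerSeries.coeff (m - (k + 1)) P := by
    refine Finset.sum_congr rfl fun k _ => ?_
    rw [Nat.sub_sub, add_comm 1 k]
  rw [h3, ← h2, add_sub_cancel_left, inv_mul_cancel_left₀ hD]

theorem e1_bd (N : ℝ[X][X]) : ∃ a : ℕ, ∀ m, (N.coeff m).natDegree ≤ a := by
  classical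
  refine ⟨N.support.sup fun m => (N.coeff m).natDegree, fun m => ?_⟩
  by_cases hm : m ∈ N.support
  · exact Finset.le_sup (f := fun m => (N.coeff m).natDegree) hm
  · rw [Polynomial.notMem_support_iff.1 hm]
    simp

theorem e1_main (Q : ℝ[X]) (hQ0 : 0 < Q.eval 0) (r : ℕ) (hr : 1 ≤ r) (N : ℝ[X][X]) (a : ℕ)
    (ha : ∀ m, (N.coeff m).natDegree ≤ a) (m : ℕ) :
    ∃ A : ℝ[X], Pm Q r N m = algebraMap ℝ[X] (RatFunc ℝ) A ∧
      A.natDegree ≤ m / r + a ∧ ∀ z : ℝ, A.eval z = prQ Q r N m z := by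
  induction m using Nat.strong_induction_on with
  | _ m IH =>
  choose! A hA1 hA2 hA3 using IH
  have hc : Q.coeff 0 ≠ 0 := by
    rw [Polynomial.coeff_zero_eq_eval_zero]
    exact hQ0.ne'
  have hr0 : (0 : ℕ) ≠ r := by omega
  have hd0 : (Q.map (algebraMap ℝ (RatFunc ℝ)) + C RatFunc.X * X ^ r : (RatFunc ℝ)[X]).coeff 0 =
      algebraMap ℝ (RatFunc ℝ) (Q.coeff 0) := by
    rw [Polynomial.coeff_add, Polynomial.coeff_map, Polynomial.coeff_C_mul_X_pow, if_neg hr0, add_zero]
  have hd : ∀ k, (Q.map (algebraMap ℝ (RatFunc ℝ)) + C RatFunc.X * X ^ r : (RatFunc ℝ)[X]).coeff k =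
      algebraMap ℝ[X] (RatFunc ℝ) (C (Q.coeff k) + if k = r then X else 0) := by
    intro k
    rw [Polynomial.coeff_add, Polynomial.coeff_map, Polynomial.coeff_C_mul_X_pow, map_add]
    congr 1
    split_ifs
    · rw [RatFunc.algebraMap_X]
    · rw [map_zero]
  have hv0 : ∀ z : ℝ, (Q + C z * X ^ r : ℝ[X]).coeff 0 = Q.coeff 0 := by
    intro z
    rw [Polynomial.coeff_add, Polynomial.coeff_C_mul_X_pow, if_neg hr0, add_zero]
  have hv : ∀ z : ℝ, ∀ k, (Q + C z * X ^ r : ℝ[X]).coeff k =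
      (C (Q.coeff k) + if k = r then X else 0 : ℝ[X]).eval z := by
    intro z k
    rw [Polynomial.coeff_add, Polynomial.coeff_C_mul_X_pow, Polynomial.eval_add, Polynomial.eval_C]
    congr 1
    split_ifs
    · rw [Polynomial.eval_X]
    · rw [Polynomial.eval_zero]
  refine ⟨C (Q.coeff 0)⁻¹ * (N.coeff m - ∑ k ∈ Finset.range m,
    (C (Q.coeff (k + 1)) + if k + 1 = r then X else 0) * A (m - 1 - k)), ?_, ?_, ?_⟩
  · unfold Pm
    rw [e1_rec _ _ (by rw [hd0]; exact (_root_.map_ne_zero _).2 hc) m, hd0, map_mul, map_sub, map_sum]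
    congr 1
    · rw [RatFunc.algebraMap_C, ← map_inv₀]
      rfl
    · congr 1
      · rw [Polynomial.coeff_map]
      · refine Finset.sum_congr rfl fun k hk => ?_
        rw [Finset.mem_range] at hk
        rw [hd, map_mul (algebraMap ℝ[X] (RatFunc ℝ))]
        congr 1
        exact hA1 (m - 1 - k) (by omega)
  · refine (Polynomial.natDegree_C_mul_le _ _).trans ?_
    refine (Polynomial.natDegree_sub_le _ _).trans (max_le ((ha m).trans (Nat.le_add_left _ _)) ?_)
    refine Polynomial.natDegree_sum_le_of_forall_le _ _ fun k hk => ?_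
    rw [Finset.mem_range] at hk
    have h1 := hA2 (m - 1 - k) (by omega)
    by_cases hkr : k + 1 = r
    · rw [if_pos hkr]
      refine Polynomial.natDegree_mul_le.trans ?_
      have h2 : (C (Q.coeff (k + 1)) + X : ℝ[X]).natDegree ≤ 1 := by
        refine (Polynomial.natDegree_add_le _ _).trans (max_le ?_ Polynomial.natDegree_X_le)
        rw [Polynomial.natDegree_C]
        exact Nat.zero_le _
      have h3 : (m - 1 - k) / r + 1 = m / r := by
        have : m = (m - 1 - k) + r := by omega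
        conv_rhs => rw [this]
        rw [Nat.add_div_right _ (by omega)]
      omega
    · rw [if_neg hkr, add_zero]
      refine (Polynomial.natDegree_C_mul_le _ _).trans (h1.trans ?_)
      have : (m - 1 - k) / r ≤ m / r := Nat.div_le_div_right (by omega)
      omega
  · intro z
    unfold prQ
    rw [e1_rec _ _ (by rw [hv0]; exact hc) m, hv0, Polynomial.eval_mul, Polynomial.eval_C,
      Polynomial.eval_sub, Polynomial.eval_finsetSum, Polynomial.coeff_map]
    congr 1
    congr 1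
    refine Finset.sum_congr rfl fun k hk => ?_
    rw [Finset.mem_range] at hk
    rw [Polynomial.eval_mul, hv z]
    congr 1
    exact hA3 (m - 1 - k) (by omega) z

/-- `r ≥ 1`: the coefficients are polynomials of degree `≤ m/r + K`.  Proof: `K = a`, a bound for the degrees of the coefficients of `N` in
`z`.  Strong induction on `m`.  The denominator `D = Q + z t^r` has constant coefficient `c = Q(0) > 0` (a constant, as `r ≥ 1`), so from `D * P = N` (as power
series, `PowerSeries.mul_inv_cancel`, compare coefficients of `t^m`, `PowerSeries.coeff_mul`, antidiagonal):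
`c P_m = N_m - ∑_{i=1}^{m} q_i P_{m-i} - (if r ≤ m then z P_{m-r} else 0)` (`q_i = Q.coeff i`) both in `RatFunc ℝ` and, for each real `z`, for the values
`prQ Q r N m z`.  So with `A_m` the polynomial defined by this recursion (divide by `c`), `P_m = algebraMap A_m`, `A_m(z) = prQ ..`, and
`r deg A_m ≤ max (r a, (m - 1) + r a, r + (m - r) + r a) = m + r a` by induction. -/
theorem alg1 (Q : ℝ[X]) (hQ0 : 0 < Q.eval 0) (r : ℕ) (hr : 1 ≤ r) (N : ℝ[X][X]) :
    ∃ K : ℝ, ∀ m : ℕ, ∃ A : ℝ[X], Pm Q r N m = algebraMap ℝ[X] (RatFunc ℝ) A ∧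
      (A.natDegree : ℝ) ≤ (m : ℝ) / r + K ∧ ∀ z : ℝ, A.eval z = prQ Q r N m z := by
  obtain ⟨a, ha⟩ := e1_bd N
  refine ⟨a, fun m => ?_⟩
  obtain ⟨A, h1, h2, h3⟩ := e1_main Q hQ0 r hr N a ha m
  refine ⟨A, h1, ?_, h3⟩
  have h4 : ((m / r : ℕ) : ℝ) ≤ (m : ℝ) / r := Nat.cast_div_le
  have h5 : (A.natDegree : ℝ) ≤ ((m / r : ℕ) : ℝ) + a := by exact_mod_cast h2
  linarith

end Pool.Agent.H630Z
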