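import Pool.Agent.H630Z.Defs3
set_option autoImplicit false

open Polynomial

namespace Pool.Agent.H630Z

/-- the numerators -/
noncomputable def e2_A (Q : ℝ[X]) (N : ℝ[X][X]) : ℕ → ℝ[X]
  | m => (X + C (Q.eval 0)) ^ m * N.coeff m -
      ∑ i : Fin m, C (Q.coeff (i + 1)) * (X + C (Q.eval 0)) ^ (i : ℕ) * e2_A Q N (m - 1 - i)
termination_by m => m
decreasing_by
  have := i.2
  omega

lemma e2_A_eq (Q : ℝ[X]) (N : ℝ[X][X]) (m : ℕ) :
    e2_A Q N m = (X + C (Q.eval 0)) ^ m * N.coeff m -
      ∑ i ∈ Finset.range m,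
        C (Q.coeff (i + 1)) * (X + C (Q.eval 0)) ^ i * e2_A Q N (m - 1 - i) := by
  rw [e2_A, Finset.sum_range]

lemma e2_rec {F : Type*} [Field F] (N D : F[X]) (hD : D.coeff 0 ≠ 0) (m : ℕ) :
    D.coeff 0 * PowerSeries.coeff m ((N : PowerSeries F) * (D : PowerSeries F)⁻¹) =
      N.coeff m - ∑ i ∈ Finset.range m, D.coeff (i + 1) *
        PowerSeries.coeff (m - 1 - i) ((N : PowerSeries F) * (D : PowerSeries F)⁻¹) := by
  have hD' : PowerSeries.constantCoeff (D : PowerSeries F) ≠ 0 := by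
    rw [← PowerSeries.coeff_zero_eq_constantCoeff_apply, Polynomial.coeff_coe]
    exact hD
  have h1 : (D : PowerSeries F) * ((N : PowerSeries F) * (D : PowerSeries F)⁻¹) =
      (N : PowerSeries F) := by
    rw [mul_left_comm, PowerSeries.mul_inv_cancel _ hD', mul_one]
  have h2 := congrArg (PowerSeries.coeff m) h1
  rw [PowerSeries.coeff_mul, Finset.Nat.sum_antidiagonal_eq_sum_range_succ
    (fun i j => PowerSeries.coeff i (D : PowerSeries F) *
      PowerSeries.coeff j ((N : PowerSeries F) * (D : PowerSeries F)⁻¹)),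
    Finset.sum_range_succ'] at h2
  simp only [Polynomial.coeff_coe] at h2
  rw [← h2]
  have h3 : ∀ i ∈ Finset.range m, D.coeff (i + 1) *
      PowerSeries.coeff (m - (i + 1)) ((N : PowerSeries F) * (D : PowerSeries F)⁻¹) =
      D.coeff (i + 1) *
        PowerSeries.coeff (m - 1 - i) ((N : PowerSeries F) * (D : PowerSeries F)⁻¹) := by
    intro i _
    congr 3
    omega
  rw [Finset.sum_congr rfl h3]
  simp

lemma e2_gen {F : Type*} [Field F] (φ : ℝ[X] →+* F) (Q : ℝ[X]) (N : ℝ[X][X]) (D : F[X])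
    (h0 : D.coeff 0 = φ (X + C (Q.eval 0))) (hne : φ (X + C (Q.eval 0)) ≠ 0)
    (h1 : ∀ i, D.coeff (i + 1) = φ (C (Q.coeff (i + 1)))) (m : ℕ) :
    PowerSeries.coeff m (((N.map φ : F[X]) : PowerSeries F) * (D : PowerSeries F)⁻¹) *
      φ (X + C (Q.eval 0)) ^ (m + 1) = φ (e2_A Q N m) := by
  induction m using Nat.strong_induction_on with
  | _ m ih =>
    have h2 := e2_rec (N.map φ) D (by rw [h0]; exact hne) m
    rw [h0] at h2
    rw [pow_succ', ← mul_assoc, mul_comm (PowerSeries.coeff m _), h2, e2_A_eq, map_sub, map_mul,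
      map_pow, map_sum, sub_mul, Polynomial.coeff_map, mul_comm (φ (N.coeff m)), Finset.sum_mul]
    congr 1
    apply Finset.sum_congr rfl
    intro i hi
    rw [Finset.mem_range] at hi
    have h3 := ih (m - 1 - i) (by omega)
    rw [φ.map_mul, φ.map_mul, φ.map_pow, ← h3, h1]
    have e : m = i + (m - 1 - i + 1) := by omega
    have e2 : φ (X + C (Q.eval 0)) ^ m =
        φ (X + C (Q.eval 0)) ^ i * φ (X + C (Q.eval 0)) ^ (m - 1 - i + 1) := by
      rw [← pow_add, ← e]
    rw [e2]
    ring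

lemma e2_deg (Q : ℝ[X]) (N : ℝ[X][X]) (hn : 1 ≤ Q.natDegree) (hN : N.natDegree < Q.natDegree)
    (a : ℕ) (ha : ∀ j, (N.coeff j).natDegree ≤ a) (m : ℕ) :
    (e2_A Q N m).natDegree ≤
      ((Q.natDegree - 1) * m + Q.natDegree * a + Q.natDegree ^ 2) / Q.natDegree := by
  induction m using Nat.strong_induction_on with
  | _ m ih =>
    obtain ⟨n, hn'⟩ : ∃ n, Q.natDegree = n + 1 := ⟨Q.natDegree - 1, by omega⟩
    rw [e2_A_eq]
    refine (natDegree_sub_le _ _).trans (max_le ?_ ?_)
    · by_cases hm : m < Q.natDegree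
      · rw [Nat.le_div_iff_mul_le (by omega)]
        have h1 : ((X + C (Q.eval 0)) ^ m * N.coeff m).natDegree ≤ m + a := by
          refine natDegree_mul_le.trans (add_le_add ?_ (ha m))
          rw [natDegree_pow, natDegree_X_add_C, mul_one]
        refine (Nat.mul_le_mul_right _ h1).trans ?_
        rw [hn'] at hm ⊢
        simp only [Nat.add_sub_cancel]
        nlinarith
      · have : N.coeff m = 0 := coeff_eq_zero_of_natDegree_lt (by omega)
        rw [this]
        simp
    · apply natDegree_sum_le_of_forall_le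
      intro i hi
      rw [Finset.mem_range] at hi
      by_cases hi2 : i + 1 ≤ Q.natDegree
      · have h1 := ih (m - 1 - i) (by omega)
        rw [Nat.le_div_iff_mul_le (by omega)] at h1 ⊢
        have h2 : (C (Q.coeff (i + 1)) * (X + C (Q.eval 0)) ^ i *
            e2_A Q N (m - 1 - i)).natDegree ≤ i + (e2_A Q N (m - 1 - i)).natDegree := by
          refine natDegree_mul_le.trans (add_le_add ?_ le_rfl)
          refine (natDegree_C_mul_le _ _).trans ?_
          rw [natDegree_pow, natDegree_X_add_C, mul_one]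
        refine (Nat.mul_le_mul_right _ h2).trans ?_
        obtain ⟨l, hl⟩ : ∃ l, m = l + 1 + i := ⟨m - 1 - i, by omega⟩
        have hl2 : m - 1 - i = l := by omega
        rw [hl2] at h1 ⊢
        rw [hl]
        rw [hn'] at h1 hi2 ⊢
        simp only [Nat.add_sub_cancel] at h1 ⊢
        nlinarith
      · have : Q.coeff (i + 1) = 0 := coeff_eq_zero_of_natDegree_lt (by omega)
        rw [this]
        simp

/-- -/
theorem alg0 (Q : ℝ[X]) (hQ0 : 0 < Q.eval 0) (hn : 1 ≤ Q.natDegree) (N : ℝ[X][X])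
    (hN : N.natDegree < Q.natDegree) :
    ∃ K : ℝ, ∀ m : ℕ, ∃ A : ℝ[X],
      Pm Q 0 N m * (algebraMap ℝ[X] (RatFunc ℝ) (X + C (Q.eval 0))) ^ (m + 1) =
        algebraMap ℝ[X] (RatFunc ℝ) A ∧
      (A.natDegree : ℝ) ≤ (1 - 1 / (Q.natDegree : ℝ)) * m + K ∧
      ∀ z : ℝ, 0 < z → A.eval z = (z + Q.eval 0) ^ (m + 1) * prQ Q 0 N m z := by
  obtain ⟨a, ha⟩ : ∃ a : ℕ, ∀ j, (N.coeff j).natDegree ≤ a := by
    refine ⟨N.support.sup (fun j => (N.coeff j).natDegree), fun j => ?_⟩
    by_cases hj : j ∈ N.support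
    · exact Finset.le_sup (f := fun j => (N.coeff j).natDegree) hj
    · rw [notMem_support_iff] at hj
      rw [hj]
      simp
  refine ⟨a + Q.natDegree, fun m => ⟨e2_A Q N m, ?_, ?_, ?_⟩⟩
  · apply e2_gen (algebraMap ℝ[X] (RatFunc ℝ)) Q N
    · rw [coeff_add, coeff_map, coeff_C_mul, pow_zero, coeff_one_zero, mul_one, map_add,
        RatFunc.algebraMap_X, coeff_zero_eq_eval_zero, add_comm]
      congr 1
    · intro h
      have h1 : (X + C (Q.eval 0) : ℝ[X]) = 0 := by
        have := (IsFractionRing.injective ℝ[X] (RatFunc ℝ))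
        exact (injective_iff_map_eq_zero _).1 this _ h
      exact X_add_C_ne_zero _ h1
    · intro i
      rw [coeff_add, coeff_map, coeff_C_mul, pow_zero, coeff_one, if_neg (by omega), mul_zero,
        add_zero]
      rfl
  · have h := e2_deg Q N hn hN a ha m
    rw [Nat.le_div_iff_mul_le (by omega)] at h
    have h2 : ((e2_A Q N m).natDegree : ℝ) * Q.natDegree ≤
        ((Q.natDegree : ℝ) - 1) * m + Q.natDegree * a + Q.natDegree ^ 2 := by
      have : (((e2_A Q N m).natDegree * Q.natDegree : ℕ) : ℝ) ≤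
        (((Q.natDegree - 1) * m + Q.natDegree * a + Q.natDegree ^ 2 : ℕ) : ℝ) := by
        exact_mod_cast h
      rw [Nat.cast_add, Nat.cast_add, Nat.cast_mul, Nat.cast_mul, Nat.cast_sub hn] at this
      push_cast at this
      exact this
    have hn0 : (0 : ℝ) < Q.natDegree := by exact_mod_cast hn
    have e : (1 - 1 / (Q.natDegree : ℝ)) * m + (a + Q.natDegree) =
        (((Q.natDegree : ℝ) - 1) * m + Q.natDegree * a + Q.natDegree ^ 2) / Q.natDegree := by
      field_simp
      ring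
    rw [e, le_div_iff₀ hn0]
    exact h2
  · intro z hz
    have h := e2_gen (evalRingHom z) Q N ((Q + C z * X ^ 0 : ℝ[X])) ?_ ?_ ?_ m
    · rw [coe_evalRingHom] at h
      rw [← h]
      simp only [eval_add, eval_X, eval_C]
      rw [mul_comm]
      rfl
    · simp [coeff_zero_eq_eval_zero, add_comm]
    · simp only [coe_evalRingHom, eval_add, eval_X, eval_C]
      positivity
    · intro i
      simp

end Pool.Agent.H630Z
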