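import Pool.Agent.H630Z.Defs3
set_option autoImplicit false

open Polynomial

namespace Pool.Agent.H630Z


lemma e3_card (A : ℝ[X]) : ((A.map (algebraMap ℝ ℂ)).roots).card = A.natDegree := by
  rw [← (IsAlgClosed.splits (A.map (algebraMap ℝ ℂ))).natDegree_eq_card_roots, natDegree_map]

/-- Counting the zeros outside `(0, ∞)`.  Proof: the multiset of complex roots of `A` has `A.natDegree` elements (`ℂ` algebraically closed,
`natDegree_map`); those in `(0, ∞)` are at least `Z.card` (each `z ∈ Z` is one, `Multiset` / `Finset` image under the injection `ℝ → ℂ`,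
`Finset.card_le_card`, `Multiset.toFinset_card_le`); `card (filter p) + card (filter ¬p) = card`. -/
theorem roots_count (A : ℝ[X]) (hA : A ≠ 0) (Z : Finset ℝ) (hZ : ∀ z ∈ Z, 0 < z ∧ A.eval z = 0) :
    outside A + Z.card ≤ A.natDegree := by
  classical
  have h1 : (Z.map ⟨fun x : ℝ => (x : ℂ), Complex.ofReal_injective⟩).val ≤
      ((A.map (algebraMap ℝ ℂ)).roots).filter (fun w => ∃ x : ℝ, 0 < x ∧ w = (x : ℂ)) := by
    rw [Multiset.le_iff_subset (Finset.nodup _)]
    intro w hw
    rw [Finset.mem_val, Finset.mem_map] at hw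
    obtain ⟨z, hz, rfl⟩ := hw
    rw [Multiset.mem_filter]
    refine ⟨?_, z, (hZ z hz).1, rfl⟩
    rw [mem_roots (Polynomial.map_ne_zero hA), IsRoot.def]
    change eval ((algebraMap ℝ ℂ) z) (A.map (algebraMap ℝ ℂ)) = 0
    rw [eval_map_apply, (hZ z hz).2, map_zero]
  have h2 := Multiset.card_le_card h1
  rw [Finset.card_val, Finset.card_map] at h2
  have h3 := Multiset.filter_add_not (fun w : ℂ => ∃ x : ℝ, 0 < x ∧ w = (x : ℂ))
    ((A.map (algebraMap ℝ ℂ)).roots)
  have h4 := congrArg Multiset.card h3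
  rw [Multiset.card_add, e3_card] at h4
  rw [outside]
  omega

/-- (`Polynomial.roots.le_of_dvd`, `Multiset.filter_le_filter`.) -/
theorem outside_mono (A B : ℝ[X]) (hB : B ≠ 0) (h : A ∣ B) : outside A ≤ outside B := by
  classical
  rw [outside, outside]
  apply Multiset.card_le_card
  apply Multiset.filter_le_filter
  exact Polynomial.roots.le_of_dvd (Polynomial.map_ne_zero hB) (Polynomial.map_dvd _ h)

/-- -/
theorem outside_mul (A B : ℝ[X]) (hA : A ≠ 0) (hB : B ≠ 0) :
    outside (A * B) = outside A + outside B := by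
  classical
  rw [outside, outside, outside, Polynomial.map_mul, roots_mul, Multiset.filter_add,
    Multiset.card_add]
  exact mul_ne_zero (Polynomial.map_ne_zero hA) (Polynomial.map_ne_zero hB)

/-- -/
theorem outside_le (A : ℝ[X]) : outside A ≤ A.natDegree := by
  classical
  rw [outside, ← e3_card A]
  exact Multiset.card_le_card (Multiset.filter_le _ _)

/-- Proof: `f = num / denom`, so `num * B = A * denom` in `ℝ[X]`, and `num`, `denom` are coprime. -/
theorem num_dvd (f : RatFunc ℝ) (A B : ℝ[X]) (hB : B ≠ 0)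
    (h : f * algebraMap ℝ[X] (RatFunc ℝ) B = algebraMap ℝ[X] (RatFunc ℝ) A) : f.num ∣ A := by
  have h1 := RatFunc.num_div_denom f
  have hd : (algebraMap ℝ[X] (RatFunc ℝ)) f.denom ≠ 0 :=
    RatFunc.algebraMap_ne_zero (RatFunc.denom_ne_zero f)
  have h2 : algebraMap ℝ[X] (RatFunc ℝ) (f.num * B) = algebraMap ℝ[X] (RatFunc ℝ) (A * f.denom) := by
    rw [div_eq_iff hd] at h1
    rw [map_mul, map_mul, ← h, h1]
    ring
  have h3 := RatFunc.algebraMap_injective ℝ h2
  exact (RatFunc.isCoprime_num_denom f).dvd_of_dvd_mul_right (h3 ▸ dvd_mul_right _ _)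

lemma e3_fun {α : Type*} (s : Multiset α) (n : ℕ) (h : s.card = n) :
    ∃ x : Fin n → α, s = Finset.univ.val.map x := by
  induction s using Quot.inductionOn with
  | h l =>
    have h' : l.length = n := h
    subst h'
    refine ⟨l.get, ?_⟩
    change (l : Multiset α) = _
    simp [Fin.univ_val_map]

/-- Factorisation of `Q`.  Proof: over `ℂ` `Q = lead ∏_j (X - w_j)` with `w_j = x_j > 0` real, so the same over `ℝ` (all the roots are in `ℝ`; e.g. `Q`
splits over `ℝ`), the number of roots is `Q.natDegree`; `lam j = 1/x_j`; `X - x_j = -x_j (1 - lam j X)` and `Q(0) = lead ∏ (-x_j)`. -/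
theorem factor (Q : ℝ[X]) (hQ0 : 0 < Q.eval 0)
    (hQ : ∀ w : ℂ, aeval w Q = 0 → ∃ x : ℝ, 0 < x ∧ w = (x : ℂ)) :
    ∃ lam : Fin Q.natDegree → ℝ, (∀ i, 0 < lam i) ∧
      Q = C (Q.eval 0) * ∏ i, (1 - C (lam i) * X) := by
  have hQne : Q ≠ 0 := by
    rintro rfl
    simp at hQ0
  obtain ⟨w, hw⟩ := e3_fun _ _ (e3_card Q)
  have hmem : ∀ i, aeval (w i) Q = 0 := by
    intro i
    have h1 : w i ∈ (Q.map (algebraMap ℝ ℂ)).roots := by
      rw [hw, Multiset.mem_map]
      exact ⟨i, Finset.mem_univ i, rfl⟩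
    rw [mem_roots (Polynomial.map_ne_zero hQne), IsRoot.def, eval_map_algebraMap] at h1
    exact h1
  choose x hx0 hx using fun i => hQ (w i) (hmem i)
  have hprod : Q.map (algebraMap ℝ ℂ) =
      (C Q.leadingCoeff * ∏ i, (X - C (x i)) : ℝ[X]).map (algebraMap ℝ ℂ) := by
    have h1 := (IsAlgClosed.splits (Q.map (algebraMap ℝ ℂ))).eq_prod_roots
    rw [hw, Multiset.map_map, leadingCoeff_map] at h1
    rw [h1, Polynomial.map_mul, map_C, Polynomial.map_prod]
    congr 1
    rw [Finset.prod_eq_multiset_prod]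
    congr 1
    apply Multiset.map_congr rfl
    intro i _
    rw [Function.comp_apply, Polynomial.map_sub, map_X, map_C, hx i]
    rfl
  have hQ' : Q = C Q.leadingCoeff * ∏ i, (X - C (x i)) :=
    Polynomial.map_injective _ (algebraMap ℝ ℂ).injective hprod
  refine ⟨fun i => (x i)⁻¹, fun i => inv_pos.2 (hx0 i), ?_⟩
  have h0 : Q.eval 0 = Q.leadingCoeff * ∏ i, (- x i) := by
    conv_lhs => rw [hQ']
    rw [eval_mul, eval_C, eval_prod]
    congr 1
    apply Finset.prod_congr rfl
    intro i _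
    simp
  have h5 : ∏ i, (X - C (x i)) = C (∏ i, (- x i)) * ∏ i, (1 - C ((x i)⁻¹) * X) := by
    rw [map_prod, ← Finset.prod_mul_distrib]
    apply Finset.prod_congr rfl
    intro i _
    have h6 : C (x i) * C ((x i)⁻¹) = (1 : ℝ[X]) := by
      rw [← C_mul, mul_inv_cancel₀ (hx0 i).ne', C_1]
    rw [C_neg]
    linear_combination (-(X : ℝ[X])) * h6
  conv_lhs => rw [hQ']
  rw [h0, h5, C_mul, mul_assoc]

end Pool.Agent.H630Z
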