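import Pool.Agent.H630Z.E3
set_option autoImplicit false

open Polynomial

namespace Pool.Agent.H630Z


theorem e4_inv {K : Type*} [Field K] (c b : K) (hc : c ≠ 0) :
    (PowerSeries.C c - PowerSeries.C b * PowerSeries.X : PowerSeries K)⁻¹ =
      PowerSeries.mk (fun n => b ^ n * (c ^ (n + 1))⁻¹) := by
  symm
  rw [PowerSeries.eq_inv_iff_mul_eq_one (by simpa using hc)]
  ext n
  rw [mul_sub, map_sub, PowerSeries.coeff_mul_C, PowerSeries.coeff_mk, ← mul_assoc,
    mul_comm _ (PowerSeries.C b)]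
  rcases n with _ | n
  · simp [hc]
  · rw [PowerSeries.coeff_succ_mul_X, PowerSeries.coeff_C_mul, PowerSeries.coeff_mk,
      PowerSeries.coeff_one, if_neg (Nat.succ_ne_zero n)]
    field_simp
    ring

theorem e4_Pm (c lam : ℝ) (hc : 0 < c) (N0 : ℝ[X]) (m : ℕ) :
    Pm (C c * (1 - C lam * X)) 1 (C N0) m =
      algebraMap ℝ[X] (RatFunc ℝ) (N0 * ((C (c * lam) - X) ^ m * C ((c ^ (m + 1))⁻¹))) := by
  have hc' : algebraMap ℝ (RatFunc ℝ) c ≠ 0 := by
    intro h
    exact hc.ne' ((map_eq_zero _).1 h)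
  have hD : (((C c * (1 - C lam * X) : ℝ[X]).map (algebraMap ℝ (RatFunc ℝ)) +
      C RatFunc.X * X ^ 1 : (RatFunc ℝ)[X]) : PowerSeries (RatFunc ℝ)) =
      PowerSeries.C (algebraMap ℝ (RatFunc ℝ) c) -
        PowerSeries.C (algebraMap ℝ (RatFunc ℝ) (c * lam) - RatFunc.X) * PowerSeries.X := by
    simp only [Polynomial.map_mul, Polynomial.map_sub, Polynomial.map_one, Polynomial.map_C,
      Polynomial.map_X, Polynomial.coe_add, Polynomial.coe_mul, Polynomial.coe_sub,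
      Polynomial.coe_one, Polynomial.coe_C, Polynomial.coe_X, pow_one, map_mul, map_sub]
    ring
  unfold Pm
  rw [hD, e4_inv _ _ hc', Polynomial.map_C, Polynomial.coe_C, PowerSeries.coeff_C_mul,
    PowerSeries.coeff_mk]
  have e1 : algebraMap ℝ[X] (RatFunc ℝ) (C (c * lam)) = algebraMap ℝ (RatFunc ℝ) (c * lam) := by
    rw [IsScalarTower.algebraMap_apply ℝ ℝ[X] (RatFunc ℝ), Polynomial.algebraMap_eq]
  have e2 : algebraMap ℝ[X] (RatFunc ℝ) (C ((c ^ (m + 1))⁻¹)) =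
      (algebraMap ℝ (RatFunc ℝ) c ^ (m + 1))⁻¹ := by
    rw [← map_pow, ← map_inv₀, IsScalarTower.algebraMap_apply ℝ ℝ[X] (RatFunc ℝ),
      Polynomial.algebraMap_eq]
  rw [map_mul (algebraMap ℝ[X] (RatFunc ℝ)), map_mul (algebraMap ℝ[X] (RatFunc ℝ)),
    map_pow (algebraMap ℝ[X] (RatFunc ℝ)), map_sub (algebraMap ℝ[X] (RatFunc ℝ)), e1, e2,
    RatFunc.algebraMap_X]

theorem e4_outside (d e : ℝ) (hd : 0 < d) (he : e ≠ 0) (m : ℕ) :
    outside ((C d - X) ^ m * C e) = 0 := by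
  classical
  unfold outside
  rw [Multiset.card_eq_zero, Multiset.filter_eq_nil]
  intro a ha
  rw [not_not]
  have h := (Polynomial.mem_roots'.1 ha).2
  rw [Polynomial.IsRoot.def] at h
  simp only [Polynomial.map_mul, Polynomial.map_pow, Polynomial.map_sub, Polynomial.map_C,
    Polynomial.map_X, Polynomial.eval_mul, Polynomial.eval_pow, Polynomial.eval_sub,
    Polynomial.eval_C, Polynomial.eval_X] at h
  have he' : (algebraMap ℝ ℂ) e ≠ 0 := by
    intro h1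
    exact he ((map_eq_zero _).1 h1)
  rcases mul_eq_zero.1 h with h1 | h1
  · refine ⟨d, hd, ?_⟩
    have h2 : (algebraMap ℝ ℂ) d - a = 0 := by
      by_contra h3
      exact pow_ne_zero m h3 h1
    have h3 := sub_eq_zero.1 h2
    rw [← h3]
    rfl
  · exact absurd h1 he'

/-- The degenerate case `deg Q = 1`, `r = 1`.  Proof: `N = C N0`, `N0 = N.coeff 0`; `Q = c (1 - lam X)`, and the denominator is
`c - (c lam - z) t`, so `P_m = N0(z) (c lam - z)^m / c^(m+1)` in `RatFunc ℝ` (the power series `∑ (b/c)^m / c · N0 t^m`, `b = c lam - z`, times `c - b t` is `N0`).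
So `P_m = algebraMap A`, `A = N0 * (C (c lam) - X)^m * C (c^(m+1))⁻¹`; if `P_m ≠ 0` then `N0 ≠ 0`, `A ≠ 0`, and the only zeros of `A` outside `(0, ∞)` are those
of `N0` (`c lam > 0`), so `outside P_m.num ≤ outside A ≤ N0.natDegree`. -/
theorem special (c lam : ℝ) (hc : 0 < c) (hlam : 0 < lam) (N : ℝ[X][X]) (hN : N.natDegree = 0)
    (m : ℕ) (hm : Pm (C c * (1 - C lam * X)) 1 N m ≠ 0) :
    outside (Pm (C c * (1 - C lam * X)) 1 N m).num ≤ (N.coeff 0).natDegree := by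
  obtain ⟨N0, rfl⟩ : ∃ N0, N = C N0 := ⟨N.coeff 0, Polynomial.eq_C_of_natDegree_eq_zero hN⟩
  rw [e4_Pm c lam hc N0 m] at hm ⊢
  rw [RatFunc.num_algebraMap, Polynomial.coeff_C_zero]
  have hA : N0 * ((C (c * lam) - X) ^ m * C ((c ^ (m + 1))⁻¹)) ≠ 0 := by
    intro h
    rw [h, map_zero] at hm
    exact hm rfl
  have hc2 : (c ^ (m + 1))⁻¹ ≠ 0 := inv_ne_zero (pow_ne_zero _ hc.ne')
  rw [outside_mul _ _ (left_ne_zero_of_mul hA) (right_ne_zero_of_mul hA),
    e4_outside (c * lam) _ (mul_pos hc hlam) hc2 m, add_zero]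
  exact outside_le N0

end Pool.Agent.H630Z
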