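import Pool.Agent.H630Z.E3
set_option autoImplicit false

open Polynomial

namespace Pool.Agent.H630Z

-- helper names start with e5_

/-- the inverse of `a + x t ^ r` -/
theorem e5_inv {F : Type*} [Field F] (a x : F) (ha : a ≠ 0) (r : ℕ) (hr : 0 < r) :
    ((C a + C x * X ^ r : F[X]) : PowerSeries F)⁻¹ =
      PowerSeries.mk (fun n => if r ∣ n then (-x) ^ (n / r) * a⁻¹ ^ (n / r + 1) else 0) := by
  have hc : PowerSeries.constantCoeff ((C a + C x * X ^ r : F[X]) : PowerSeries F) ≠ 0 := by
    rw [← PowerSeries.coeff_zero_eq_constantCoeff_apply, Polynomial.coeff_coe]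
    simp [hr.ne, ha]
  symm
  rw [PowerSeries.eq_inv_iff_mul_eq_one hc]
  ext n
  have h1 : ((C a + C x * X ^ r : F[X]) : PowerSeries F) =
      PowerSeries.C a + PowerSeries.C x * PowerSeries.X ^ r := by
    push_cast
    rfl
  rw [h1, mul_add, map_add, mul_comm _ (PowerSeries.C a), PowerSeries.coeff_C_mul,
    PowerSeries.coeff_mk, mul_left_comm, PowerSeries.coeff_C_mul, PowerSeries.coeff_mul_X_pow',
    PowerSeries.coeff_one]
  rcases Nat.eq_zero_or_pos n with h0 | h0
  · subst h0
    rw [if_pos (dvd_zero r), if_neg (by omega), if_pos rfl]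
    simp [ha]
  · rw [if_neg h0.ne']
    by_cases hd : r ∣ n
    · have hle : r ≤ n := Nat.le_of_dvd h0 hd
      obtain ⟨k, rfl⟩ := hd
      have hk : 0 < k := by
        rcases Nat.eq_zero_or_pos k with h | h
        · subst h
          simp at h0
        · exact h
      obtain ⟨k, rfl⟩ : ∃ j, k = j + 1 := ⟨k - 1, by omega⟩
      have h2 : r * (k + 1) - r = r * k := by
        rw [Nat.mul_succ, Nat.add_sub_cancel]
      rw [if_pos (dvd_mul_right _ _), if_pos hle, PowerSeries.coeff_mk, h2,
        if_pos (dvd_mul_right _ _), Nat.mul_div_cancel_left _ hr, Nat.mul_div_cancel_left _ hr]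
      have h3 : a * ((-x) ^ (k + 1) * a⁻¹ ^ (k + 1 + 1)) = (-x) ^ (k + 1) * a⁻¹ ^ (k + 1) := by
        rw [pow_succ a⁻¹ (k + 1)]
        field_simp
      rw [h3]
      ring
    · rw [if_neg hd, mul_zero, zero_add]
      by_cases hle : r ≤ n
      · rw [if_pos hle, PowerSeries.coeff_mk, if_neg, mul_zero]
        intro h
        have h9 := Nat.dvd_add h (dvd_refl r)
        rw [Nat.sub_add_cancel hle] at h9
        exact hd h9
      · rw [if_neg hle, mul_zero]

theorem e5_outside_X (K : ℕ) : outside ((-X : ℝ[X]) ^ K) = K := by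
  unfold outside
  rw [Polynomial.map_pow, Polynomial.map_neg, Polynomial.map_X, Polynomial.roots_pow,
    Polynomial.roots_neg, Polynomial.roots_X, Multiset.filter_nsmul, Multiset.card_nsmul,
    Multiset.filter_singleton, if_pos]
  · simp
  · rintro ⟨x, hx, h⟩
    have h1 : x = 0 := by exact_mod_cast h.symm
    exact hx.ne' h1

/-- Constant `Q = c > 0`: unboundedly many zeros at `0`.  -/
theorem const_case (c : ℝ) (hc : 0 < c) (r : ℕ) (N : ℝ[X][X]) (hN0 : N ≠ 0)
    (hN : N.natDegree < r) (K : ℕ) :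
    ∃ m : ℕ, Pm (C c) r N m ≠ 0 ∧ K ≤ outside (Pm (C c) r N m).num := by
  have hr : 0 < r := by omega
  have hN1 : N.coeff N.natDegree ≠ 0 := by
    rw [Polynomial.coeff_natDegree]
    exact Polynomial.leadingCoeff_ne_zero.2 hN0
  have hci : c⁻¹ ≠ 0 := inv_ne_zero hc.ne'
  have ha : algebraMap ℝ (RatFunc ℝ) c ≠ 0 := by
    rw [Ne, map_eq_zero]
    exact hc.ne'
  have hA : N.coeff N.natDegree * C c⁻¹ ^ (K + 1) ≠ 0 :=
    mul_ne_zero hN1 (pow_ne_zero _ (by rwa [Ne, Polynomial.C_eq_zero]))
  have hB : (-X : ℝ[X]) ^ K ≠ 0 := pow_ne_zero _ (neg_ne_zero.2 Polynomial.X_ne_zero)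
  have key : Pm (C c) r N (N.natDegree + r * K) =
      algebraMap ℝ[X] (RatFunc ℝ)
        (N.coeff N.natDegree * C c⁻¹ ^ (K + 1) * (-X) ^ K) := by
    unfold Pm
    rw [Polynomial.map_C, e5_inv _ _ ha r hr, PowerSeries.coeff_mul,
      Finset.sum_eq_single (N.natDegree, r * K)]
    · simp only [Polynomial.coeff_coe, PowerSeries.coeff_mk, Polynomial.coeff_map]
      rw [if_pos (dvd_mul_right _ _), Nat.mul_div_cancel_left _ hr]
      simp only [map_mul, map_pow, map_neg, RatFunc.algebraMap_X]
      have h5 : algebraMap ℝ[X] (RatFunc ℝ) (C c⁻¹) = (algebraMap ℝ (RatFunc ℝ) c)⁻¹ := by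
        rw [← map_inv₀, IsScalarTower.algebraMap_apply ℝ ℝ[X] (RatFunc ℝ),
          Polynomial.algebraMap_eq]
      rw [h5]
      ring
    · rintro ⟨i, j⟩ hij hne
      rw [Finset.HasAntidiagonal.mem_antidiagonal] at hij
      simp only at hij
      simp only [Polynomial.coeff_coe, PowerSeries.coeff_mk, Polynomial.coeff_map]
      by_cases hi : N.natDegree < i
      · rw [Polynomial.coeff_eq_zero_of_natDegree_lt hi, map_zero, zero_mul]
      · rw [if_neg, mul_zero]
        rintro ⟨l, rfl⟩
        apply hne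
        have h6 : i + r * l = N.natDegree + r * K := hij
        have h7 : l = K := by
          rcases lt_trichotomy l K with h | h | h
          · exfalso
            have : r * (l + 1) ≤ r * K := Nat.mul_le_mul_left r h
            rw [Nat.mul_succ] at this
            omega
          · exact h
          · exfalso
            have : r * (K + 1) ≤ r * l := Nat.mul_le_mul_left r h
            rw [Nat.mul_succ] at this
            omega
        subst h7
        have h8 : i = N.natDegree := by omega
        rw [h8]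
    · intro h
      exact (h (Finset.HasAntidiagonal.mem_antidiagonal.2 rfl)).elim
  refine ⟨N.natDegree + r * K, ?_, ?_⟩
  · rw [key, Ne, map_eq_zero_iff _ (RatFunc.algebraMap_injective ℝ)]
    exact mul_ne_zero hA hB
  · rw [key, RatFunc.num_algebraMap, outside_mul _ _ hA hB, e5_outside_X]
    exact Nat.le_add_left _ _

end Pool.Agent.H630Z
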