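import Pool.Agent.H630Z.D5
import Pool.Agent.H630Z.E1
import Pool.Agent.H630Z.E2
import Pool.Agent.H630Z.E4

/-!
# The main theorem for MP_4d57dd_an
-/

set_option autoImplicit false

open Polynomial

namespace Pool.Agent.H630Z

/-- a uniform form of the two algebraic lemmas -/
theorem alg (Q : ℝ[X]) (hQ0 : 0 < Q.eval 0) (hn : 1 ≤ Q.natDegree) (r : ℕ) (N : ℝ[X][X])
    (hN : N.natDegree < max Q.natDegree r) :
    ∃ K : ℝ, ∀ m : ℕ, Pm Q r N m ≠ 0 → ∃ A : ℝ[X], A ≠ 0 ∧ (Pm Q r N m).num ∣ A ∧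
      (A.natDegree : ℝ) ≤ Th Q.natDegree r / Real.pi * m + K ∧
      ∀ z : ℝ, 0 < z → prQ Q r N m z = 0 → A.eval z = 0 := by
  have hpi := Real.pi_pos
  rcases Nat.eq_zero_or_pos r with hr | hr
  · subst hr
    obtain ⟨K, hK⟩ := alg0 Q hQ0 hn N (by simpa using hN)
    refine ⟨K, fun m hm => ?_⟩
    obtain ⟨A, h1, h2, h3⟩ := hK m
    have hB : (X + C (Q.eval 0) : ℝ[X]) ≠ 0 := X_add_C_ne_zero _
    have hB' : ((X + C (Q.eval 0) : ℝ[X]) ^ (m + 1)) ≠ 0 := pow_ne_zero _ hB
    refine ⟨A, ?_, ?_, ?_, ?_⟩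
    · rintro rfl
      rw [map_zero] at h1
      have : (algebraMap ℝ[X] (RatFunc ℝ)) (X + C (Q.eval 0)) ≠ 0 := by
        simpa using (RatFunc.algebraMap_ne_zero hB)
      exact (mul_ne_zero hm (pow_ne_zero _ this)) h1
    · apply num_dvd _ _ _ hB'
      rw [map_pow]
      exact h1
    · rw [Th, if_pos rfl]
      rw [mul_div_assoc, mul_comm Real.pi, div_mul_cancel₀ _ hpi.ne']
      exact h2
    · intro z hz h0
      rw [h3 z hz, h0, mul_zero]
  · obtain ⟨K, hK⟩ := alg1 Q hQ0 r hr N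
    refine ⟨K, fun m hm => ?_⟩
    obtain ⟨A, h1, h2, h3⟩ := hK m
    refine ⟨A, ?_, ?_, ?_, ?_⟩
    · rintro rfl
      rw [map_zero] at h1
      exact hm h1
    · apply num_dvd _ _ 1 one_ne_zero
      rw [map_one, mul_one]
      exact h1
    · rw [Th, if_neg (by omega)]
      have : Real.pi / r / Real.pi * m = (m : ℝ) / r := by
        field_simp
      rw [this]
      exact h2
    · intro z _ h0
      rw [h3 z, h0]

/-- the two forms of the coefficient at a real `z` -/
theorem prQ_eq {n : ℕ} (lam : Fin n → ℝ) (c : ℝ) (Q : ℝ[X])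
    (hQ : Q = C c * ∏ i, (1 - C (lam i) * X)) (r : ℕ) (N : ℝ[X][X]) (m : ℕ) (z : ℝ) :
    pr N lam c r m z = prQ Q r N m z := by
  subst hQ
  rfl

/-- the number of the zeros outside `(0, ∞)` is bounded if `Q` is not constant -/
theorem main (Q : ℝ[X]) (hQ0 : 0 < Q.eval 0)
    (hQ : ∀ w : ℂ, aeval w Q = 0 → ∃ x : ℝ, 0 < x ∧ w = (x : ℂ)) (hn : 1 ≤ Q.natDegree)
    (r : ℕ) (N : ℝ[X][X]) (hN : N.degree < ((max Q.natDegree r : ℕ) : WithBot ℕ)) :
    ∃ K : ℕ, ∀ m : ℕ, Pm Q r N m ≠ 0 → outside (Pm Q r N m).num < K := by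
  classical
  by_cases hN0 : N = 0
  · refine ⟨0, fun m hm => ?_⟩
    exfalso
    apply hm
    simp [Pm, hN0]
  have hdeg : N.natDegree < max Q.natDegree r := by
    rwa [degree_eq_natDegree hN0, Nat.cast_lt] at hN
  obtain ⟨lam, hlam, hfac⟩ := factor Q hQ0 hQ
  obtain ⟨K, hK⟩ := alg Q hQ0 hn r N hdeg
  by_cases hNd : Nd Q.natDegree r
  · obtain ⟨C1, m0, hC⟩ := count_main hNd lam hlam (Q.eval 0) hQ0 N hN0 hdeg
    refine ⟨(Finset.range m0).sup (fun m => (Pm Q r N m).num.natDegree) + ⌈K + C1⌉₊ + 1,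
      fun m hm => ?_⟩
    rcases lt_or_ge m m0 with hlt | hge
    · have h1 : (Pm Q r N m).num.natDegree ≤
          (Finset.range m0).sup (fun m => (Pm Q r N m).num.natDegree) :=
        Finset.le_sup (f := fun m => (Pm Q r N m).num.natDegree) (Finset.mem_range.2 hlt)
      have h2 := outside_le (Pm Q r N m).num
      omega
    · obtain ⟨A, hA0, hdvd, hAd, hAz⟩ := hK m hm
      obtain ⟨Z, hZ, hcard⟩ := hC m hge
      have h1 := roots_count A hA0 Z (fun z hz => ⟨(hZ z hz).1, hAz z (hZ z hz).1 (by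
        rw [← prQ_eq lam (Q.eval 0) Q hfac]; exact (hZ z hz).2)⟩)
      have h2 := outside_mono _ A hA0 hdvd
      have h3 : ((outside A : ℕ) : ℝ) + (Z.card : ℝ) ≤ (A.natDegree : ℝ) := by exact_mod_cast h1
      have h4 : ((outside A : ℕ) : ℝ) ≤ K + C1 := by linarith
      have h5 : outside A ≤ ⌈K + C1⌉₊ := by
        have := h4.trans (Nat.le_ceil (K + C1))
        exact_mod_cast this
      omega
  · have hn1 : Q.natDegree = 1 := by
      unfold Nd at hNd
      omega
    have hr1 : r = 0 ∨ r = 1 := by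
      unfold Nd at hNd
      omega
    rcases hr1 with hr | hr
    · subst hr
      refine ⟨⌈K⌉₊ + 1, fun m hm => ?_⟩
      obtain ⟨A, hA0, hdvd, hAd, hAz⟩ := hK m hm
      have h2 := outside_mono _ A hA0 hdvd
      have h3 := outside_le A
      have h4 : Th Q.natDegree 0 = 0 := by
        rw [Th, if_pos rfl, hn1]
        simp
      rw [h4, zero_div, zero_mul, zero_add] at hAd
      have h5 : A.natDegree ≤ ⌈K⌉₊ := by
        have := hAd.trans (Nat.le_ceil K)
        exact_mod_cast this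
      omega
    · subst hr
      have hN1 : N.natDegree = 0 := by
        rw [hn1] at hdeg
        simpa using hdeg
      have hfac' : Q = C (Q.eval 0) * (1 - C (lam ⟨0, by omega⟩) * X) := by
        conv_lhs => rw [hfac]
        congr 1
        apply Finset.prod_eq_single (⟨0, by omega⟩ : Fin Q.natDegree)
        · intro b _ hb
          exfalso
          apply hb
          ext
          have := b.2
          simp only
          omega
        · intro hb
          exact absurd (Finset.mem_univ _) hb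
      refine ⟨(N.coeff 0).natDegree + 1, fun m hm => ?_⟩
      have hP : Pm Q 1 N m =
          Pm (C (Q.eval 0) * (1 - C (lam ⟨0, by omega⟩) * X)) 1 N m :=
        congrArg (fun P => Pm P 1 N m) hfac'
      have h1 := special (Q.eval 0) (lam ⟨0, by omega⟩) hQ0 (hlam _) N hN1 m (hP ▸ hm)
      rw [← hP] at h1
      omega

end Pool.Agent.H630Z
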